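import Pool.Agent.H23.ST.Bu2

/-! # Bounds for commutators of shears; quantized commutators move the cores (row ST-C3) -/

set_option autoImplicit false

namespace Pool.Agent.H23.ST

open MeasureTheory Set Pool.Agent.H68.VD Pool.Agent.H68.GM Pool.Agent.H6.ST
open scoped ENNReal ContDiff Topology

namespace CommBd

/-- smooth with first two derivatives bounded by `C` -/
structure Bd (F : Eu 4 → Eu 4) (C : ℝ) : Prop where
  smooth : ContDiff ℝ ∞ F
  d1 : ∀ x, ‖fderiv ℝ F x‖ ≤ C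
  d2 : ∀ x, ‖fderiv ℝ (fderiv ℝ F) x‖ ≤ C

lemma diff_fderiv {F : Eu 4 → Eu 4} (h : ContDiff ℝ ∞ F) : Differentiable ℝ (fderiv ℝ F) :=
  (h.fderiv_right (m := 1) (by norm_cast)).differentiable one_ne_zero

lemma Bd.comp {F G : Eu 4 → Eu 4} {C₁ C₂ : ℝ} (h1 : Bd F C₁) (h2 : Bd G C₂) (h0 : 0 ≤ C₁)
    (h0' : 0 ≤ C₂) : Bd (fun x => F (G x)) (C₁ * C₂ + C₁ * C₂ * C₂) := by
  have hF : Differentiable ℝ F := h1.smooth.differentiable (by simp)
  have hG : Differentiable ℝ G := h2.smooth.differentiable (by simp)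
  have e1 : ∀ x, fderiv ℝ (fun x => F (G x)) x = (fderiv ℝ F (G x)).comp (fderiv ℝ G x) :=
    fun x => fderiv_comp x (hF (G x)) (hG x)
  refine ⟨h1.smooth.comp h2.smooth, ?_, ?_⟩
  · intro x
    rw [e1]
    calc ‖(fderiv ℝ F (G x)).comp (fderiv ℝ G x)‖ ≤ ‖fderiv ℝ F (G x)‖ * ‖fderiv ℝ G x‖ :=
          ContinuousLinearMap.opNorm_comp_le _ _
      _ ≤ C₁ * C₂ := mul_le_mul (h1.d1 _) (h2.d1 _) (norm_nonneg _) h0
      _ ≤ _ := le_add_of_nonneg_right (by positivity)
  · intro x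
    have e2 : fderiv ℝ (fun x => F (G x)) = fun x => (fderiv ℝ F (G x)).comp (fderiv ℝ G x) :=
      funext e1
    rw [e2]
    have dF : HasFDerivAt (fun x => fderiv ℝ F (G x))
        ((fderiv ℝ (fderiv ℝ F) (G x)).comp (fderiv ℝ G x)) x :=
      ((diff_fderiv h1.smooth) (G x)).hasFDerivAt.comp x (hG x).hasFDerivAt
    have dG : HasFDerivAt (fun x => fderiv ℝ G x) (fderiv ℝ (fderiv ℝ G) x) x :=
      ((diff_fderiv h2.smooth) x).hasFDerivAt
    have h3 := dF.clm_comp dG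
    rw [h3.fderiv]
    apply ContinuousLinearMap.opNorm_le_bound _ (by positivity)
    intro y
    have h4 : ‖(fderiv ℝ F (G x)).comp ((fderiv ℝ (fderiv ℝ G) x) y)‖ ≤ C₁ * (C₂ * ‖y‖) := by
      refine (ContinuousLinearMap.opNorm_comp_le _ _).trans ?_
      refine mul_le_mul (h1.d1 _) ?_ (norm_nonneg _) h0
      exact (ContinuousLinearMap.le_opNorm _ _).trans
        (mul_le_mul_of_nonneg_right (h2.d2 _) (norm_nonneg _))
    have h5 : ‖((fderiv ℝ (fderiv ℝ F) (G x)).comp (fderiv ℝ G x) y).comp (fderiv ℝ G x)‖ ≤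
        C₁ * (C₂ * ‖y‖) * C₂ := by
      refine (ContinuousLinearMap.opNorm_comp_le _ _).trans ?_
      refine mul_le_mul ?_ (h2.d1 _) (norm_nonneg _) (by positivity)
      rw [ContinuousLinearMap.comp_apply]
      refine (ContinuousLinearMap.le_opNorm _ _).trans ?_
      refine mul_le_mul (h1.d2 _) ?_ (norm_nonneg _) h0
      exact (ContinuousLinearMap.le_opNorm _ _).trans
        (mul_le_mul_of_nonneg_right (h2.d1 _) (norm_nonneg _))
    calc _ ≤ ‖(fderiv ℝ F (G x)).comp ((fderiv ℝ (fderiv ℝ G) x) y)‖ +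
          ‖((fderiv ℝ (fderiv ℝ F) (G x)).comp (fderiv ℝ G x) y).comp (fderiv ℝ G x)‖ := by
          exact norm_add_le _ _
      _ ≤ C₁ * (C₂ * ‖y‖) + C₁ * (C₂ * ‖y‖) * C₂ := add_le_add h4 h5
      _ = _ := by ring

lemma norm_ev (i : Fin 4) : ‖ev i‖ = 1 := by
  unfold ev
  rw [PiLp.norm_single, norm_one]

lemma bd_shear {f : Eu 4 → ℝ} {B : ℝ} (hf : ContDiff ℝ ∞ f) (h1 : ∀ x, ‖fderiv ℝ f x‖ ≤ B)
    (h2 : ∀ x, ‖fderiv ℝ (fderiv ℝ f) x‖ ≤ B) (i : Fin 4) : Bd (shear i f) (1 + B) := by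
  have hd : Differentiable ℝ f := hf.differentiable (by simp)
  have hB : 0 ≤ B := (norm_nonneg _).trans (h1 0)
  have e1 : ∀ x, HasFDerivAt (shear i f)
      (ContinuousLinearMap.id ℝ (Eu 4) + (fderiv ℝ f x).smulRight (ev i)) x := by
    intro x
    exact (hasFDerivAt_id x).add ((hd x).hasFDerivAt.smul_const (ev i))
  have e2 : fderiv ℝ (shear i f) = fun x =>
      ContinuousLinearMap.id ℝ (Eu 4) + (fderiv ℝ f x).smulRight (ev i) :=
    funext fun x => (e1 x).fderiv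
  refine ⟨contDiff_id.add (hf.smul contDiff_const), ?_, ?_⟩
  · intro x
    rw [e2]
    calc ‖ContinuousLinearMap.id ℝ (Eu 4) + (fderiv ℝ f x).smulRight (ev i)‖ ≤
          ‖ContinuousLinearMap.id ℝ (Eu 4)‖ + ‖(fderiv ℝ f x).smulRight (ev i)‖ := norm_add_le _ _
      _ ≤ 1 + B := by
        refine add_le_add ContinuousLinearMap.norm_id_le ?_
        rw [ContinuousLinearMap.norm_smulRight_apply, norm_ev, mul_one]
        exact h1 x
  · intro x
    rw [e2]
    have hdf : Differentiable ℝ (fderiv ℝ f) :=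
      (hf.fderiv_right (m := 1) (by norm_cast)).differentiable one_ne_zero
    let T : (Eu 4 →L[ℝ] ℝ) →L[ℝ] (Eu 4 →L[ℝ] Eu 4) :=
      (ContinuousLinearMap.smulRightL ℝ (Eu 4) (Eu 4)).flip (ev i)
    have e3 : HasFDerivAt (fun x => ContinuousLinearMap.id ℝ (Eu 4) +
        (fderiv ℝ f x).smulRight (ev i)) (T.comp (fderiv ℝ (fderiv ℝ f) x)) x :=
      (T.hasFDerivAt.comp x (hdf x).hasFDerivAt).const_add _
    rw [e3.fderiv]
    apply ContinuousLinearMap.opNorm_le_bound _ (by positivity)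
    intro y
    have e4 : (T.comp (fderiv ℝ (fderiv ℝ f) x)) y =
        ((fderiv ℝ (fderiv ℝ f) x) y).smulRight (ev i) := rfl
    rw [e4, ContinuousLinearMap.norm_smulRight_apply, norm_ev, mul_one]
    refine (ContinuousLinearMap.le_opNorm _ _).trans ?_
    exact mul_le_mul_of_nonneg_right ((h2 x).trans (by linarith)) (norm_nonneg _)

lemma iv_add (a b : Fin 4 → ℤ) : iv (a + b) = iv a + iv b := by
  unfold iv; ext k; simp

lemma iv_sub (a b : Fin 4 → ℤ) : iv (a - b) = iv a - iv b := by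
  unfold iv; ext k; simp

lemma iv_single (i : Fin 4) (m : ℤ) : iv (Pi.single i m) = (m : ℝ) • ev i := by
  unfold iv ev
  ext k
  by_cases h : k = i
  · subst h; simp
  · simp [h]

lemma core_add {θ : ℝ} {c : Fin 4 → ℤ} {x : Eu 4} (hx : x ∈ core θ c) (k : Fin 4 → ℤ) :
    x + iv k ∈ core θ (c + k) := by
  intro m
  have := hx m
  have e : (x + iv k) m - (((c + k) m : ℤ) + 1 / 2 : ℝ) = x m - ((c m : ℝ) + 1 / 2) := by
    unfold iv
    simp
    ring
  rw [e]
  exact this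

lemma shear_core {θ : ℝ} {i : Fin 4} {f q : Eu 4 → ℝ}
    (h : ∀ c, ∀ x ∈ core θ c, q x = (round (f (ctr c)) : ℝ)) {c : Fin 4 → ℤ} {x : Eu 4}
    (hx : x ∈ core θ c) : shear i q x = x + iv (Pi.single i (round (f (ctr c)))) := by
  unfold shear
  rw [h c x hx, iv_single]

lemma shear_core_neg {θ : ℝ} {i : Fin 4} {f q : Eu 4 → ℝ}
    (h : ∀ c, ∀ x ∈ core θ c, q x = (round (f (ctr c)) : ℝ)) {c : Fin 4 → ℤ} {x : Eu 4}
    (hx : x ∈ core θ c) :
    shear i (fun y => - q y) x = x + iv (- Pi.single i (round (f (ctr c)))) := by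
  show x + (- q x) • ev i = _
  rw [h c x hx]
  have : iv (- Pi.single i (round (f (ctr c)))) = - iv (Pi.single i (round (f (ctr c)))) := by
    have := iv_sub 0 (Pi.single i (round (f (ctr c))))
    have h0 : iv (0 : Fin 4 → ℤ) = 0 := by unfold iv; ext k; simp
    rw [zero_sub, h0, zero_sub] at this
    exact this
  rw [this, iv_single, neg_smul]

end CommBd

open CommBd

/-- ST-C3: commutators of bounded shears are bounded; quantized commutators translate the cores. -/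
theorem comm_bd : (∀ B : ℝ, ∃ C : ℝ, 0 ≤ C ∧ ∀ (i j : Fin 4) (f g : Eu 4 → ℝ), ContDiff ℝ ∞ f →
      ContDiff ℝ ∞ g → (∀ x, ‖fderiv ℝ f x‖ ≤ B ∧ ‖fderiv ℝ g x‖ ≤ B ∧
        ‖fderiv ℝ (fderiv ℝ f) x‖ ≤ B ∧ ‖fderiv ℝ (fderiv ℝ g) x‖ ≤ B) →
      ∀ x, ‖fderiv ℝ (comm i j f g) x‖ ≤ C ∧ ‖fderiv ℝ (fderiv ℝ (comm i j f g)) x‖ ≤ C) ∧
    (∀ (θ : ℝ) (i j : Fin 4) (f g qf qg : Eu 4 → ℝ), 0 < θ → θ < 1 / 4 →
      (∀ c, ∀ x ∈ core θ c, qf x = (round (f (ctr c)) : ℝ)) →
      (∀ c, ∀ x ∈ core θ c, qg x = (round (g (ctr c)) : ℝ)) →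
      ∀ c, ∀ x ∈ core θ c, comm i j qf qg x = x + (iv (qmap i j f g c) - iv c)) := by
  constructor
  · intro B
    by_cases hB : 0 ≤ B
    · set C₁ := (1 + B) * (1 + B) + (1 + B) * (1 + B) * (1 + B) with hC₁
      set C₂ := (1 + B) * C₁ + (1 + B) * C₁ * C₁ with hC₂
      set C₃ := (1 + B) * C₂ + (1 + B) * C₂ * C₂ with hC₃
      have p0 : 0 ≤ 1 + B := by linarith
      have p1 : 0 ≤ C₁ := by positivity
      have p2 : 0 ≤ C₂ := by positivity
      have p3 : 0 ≤ C₃ := by positivity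
      refine ⟨C₃, p3, ?_⟩
      intro i j f g hf hg hb
      have nf : ContDiff ℝ ∞ (fun y => - f y) := hf.neg
      have ng : ContDiff ℝ ∞ (fun y => - g y) := hg.neg
      have e1 : ∀ (u : Eu 4 → ℝ), fderiv ℝ (fun y => - u y) = fun x => - fderiv ℝ u x := by
        intro u; funext x; exact fderiv_fun_neg
      have e2 : ∀ (u : Eu 4 → ℝ) (x : Eu 4), ‖fderiv ℝ (fun y => - u y) x‖ = ‖fderiv ℝ u x‖ := by
        intro u x; rw [e1, norm_neg]
      have e3 : ∀ (u : Eu 4 → ℝ) (x : Eu 4), ‖fderiv ℝ (fderiv ℝ (fun y => - u y)) x‖ =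
          ‖fderiv ℝ (fderiv ℝ u) x‖ := by
        intro u x
        rw [e1]
        have : fderiv ℝ (fun x => - fderiv ℝ u x) x = - fderiv ℝ (fderiv ℝ u) x := fderiv_fun_neg
        rw [this]
        exact norm_neg (fderiv ℝ (fderiv ℝ u) x)
      have s1 : Bd (shear j (fun y => - g y)) (1 + B) :=
        bd_shear ng (fun x => by rw [e2]; exact (hb x).2.1)
          (fun x => by rw [e3]; exact (hb x).2.2.2) j
      have s2 : Bd (shear i (fun y => - f y)) (1 + B) :=
        bd_shear nf (fun x => by rw [e2]; exact (hb x).1)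
          (fun x => by rw [e3]; exact (hb x).2.2.1) i
      have s3 : Bd (shear j g) (1 + B) :=
        bd_shear hg (fun x => (hb x).2.1) (fun x => (hb x).2.2.2) j
      have s4 : Bd (shear i f) (1 + B) :=
        bd_shear hf (fun x => (hb x).1) (fun x => (hb x).2.2.1) i
      have t1 := s2.comp s1 p0 p0
      have t2 := s3.comp t1 p0 p1
      have t3 := s4.comp t2 p0 p2
      intro x
      exact ⟨t3.d1 x, t3.d2 x⟩
    · refine ⟨0, le_rfl, ?_⟩
      intro i j f g _ _ hb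
      exact absurd ((norm_nonneg _).trans (hb 0).1) hB
  · intro θ i j f g qf qg _ _ hf hg c x hx
    set c1 := c - Pi.single j (round (g (ctr c))) with hc1
    set c2 := c1 - Pi.single i (round (f (ctr c1))) with hc2
    set c3 := c2 + Pi.single j (round (g (ctr c2))) with hc3
    have q : qmap i j f g c = c3 + Pi.single i (round (f (ctr c3))) := rfl
    have x1 := shear_core_neg (i := j) hg hx
    have m1 := core_add hx (- Pi.single j (round (g (ctr c))))
    rw [← sub_eq_add_neg, ← hc1] at m1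
    have x2 := shear_core_neg (i := i) hf m1
    have m2 := core_add m1 (- Pi.single i (round (f (ctr c1))))
    rw [← sub_eq_add_neg, ← hc2] at m2
    have x3 := shear_core (i := j) hg m2
    have m3 := core_add m2 (Pi.single j (round (g (ctr c2))))
    rw [← hc3] at m3
    have x4 := shear_core (i := i) hf m3
    unfold Pool.Agent.H6.ST.comm
    rw [x1, x2, x3, x4, q, ← iv_sub]
    rw [add_assoc, add_assoc, add_assoc, ← iv_add, ← iv_add, ← iv_add]
    congr 2
    rw [hc3, hc2, hc1]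
    abel

end Pool.Agent.H23.ST
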