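import Pool.Agent.H23.ST.Bu2

/-! # Row ST-C2: the commutators of shears form a compactly supported family -/

namespace Pool.Agent.H23.ST

open MeasureTheory Set Pool.Agent.H68.VD Pool.Agent.H68.GM Pool.Agent.H6.ST
open scoped ENNReal ContDiff Topology

/-! ### Shears -/

theorem stc2_app (i : Fin 4) (f : Eu 4 → ℝ) (x : Eu 4) (k : Fin 4) :
    shear i f x k = x k + (if k = i then f x else 0) := by
  unfold shear ev
  simp

theorem stc2_app_self (i : Fin 4) (f : Eu 4 → ℝ) (x : Eu 4) : shear i f x i = x i + f x := by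
  rw [stc2_app, if_pos rfl]

theorem stc2_app_ne {i k : Fin 4} (h : k ≠ i) (f : Eu 4 → ℝ) (x : Eu 4) :
    shear i f x k = x k := by
  rw [stc2_app, if_neg h, add_zero]

theorem stc2_zero {i : Fin 4} {f : Eu 4 → ℝ} {x : Eu 4} (h : f x = 0) : shear i f x = x := by
  unfold shear
  rw [h, zero_smul, add_zero]

theorem stc2_inv {i : Fin 4} {f : Eu 4 → ℝ} (h : ∀ x (a : ℝ), f (x + a • ev i) = f x) (x : Eu 4) :
    shear i f (shear i (fun y => - f y) x) = x := by
  unfold shear
  rw [h x (- f x), add_assoc, ← add_smul, neg_add_cancel, zero_smul, add_zero]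

theorem stc2_inv' {i : Fin 4} {f : Eu 4 → ℝ} (h : ∀ x (a : ℝ), f (x + a • ev i) = f x) (x : Eu 4) :
    shear i (fun y => - f y) (shear i f x) = x := by
  unfold shear
  simp only
  rw [h x (f x), add_assoc, ← add_smul, add_neg_cancel, zero_smul, add_zero]

theorem stc2_neg {i : Fin 4} {f : Eu 4 → ℝ} (h : ∀ x (a : ℝ), f (x + a • ev i) = f x) :
    ∀ x (a : ℝ), (fun y => - f y) (x + a • ev i) = (fun y => - f y) x := by
  intro x a
  simp only
  rw [h]

theorem stc2_bij {i : Fin 4} {f : Eu 4 → ℝ} (h : ∀ x (a : ℝ), f (x + a • ev i) = f x) :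
    Function.Bijective (shear i f) :=
  Function.bijective_iff_has_inverse.2 ⟨shear i (fun y => - f y), stc2_inv' h, stc2_inv h⟩

theorem stc2_fd {i : Fin 4} {f : Eu 4 → ℝ} (hf : Differentiable ℝ f) (x : Eu 4) :
    HasFDerivAt (shear i f)
      (ContinuousLinearMap.id ℝ (Eu 4) + (fderiv ℝ f x).smulRight (ev i)) x := by
  unfold shear
  exact (hasFDerivAt_id x).add ((hf x).hasFDerivAt.smul_const (ev i))

theorem stc2_diff {i : Fin 4} {f : Eu 4 → ℝ} (hf : Differentiable ℝ f) :
    Differentiable ℝ (shear i f) := fun x => (stc2_fd hf x).differentiableAt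

theorem stc2_der0 {i : Fin 4} {f : Eu 4 → ℝ} (hf : Differentiable ℝ f)
    (h : ∀ x (a : ℝ), f (x + a • ev i) = f x) (x : Eu 4) : fderiv ℝ f x (ev i) = 0 := by
  have h1 : HasDerivAt (fun a : ℝ => f (x + a • ev i)) (fderiv ℝ f x (ev i)) 0 := by
    have h2 : HasFDerivAt f (fderiv ℝ f x) (x + (0 : ℝ) • ev i) := by
      rw [zero_smul, add_zero]
      exact (hf x).hasFDerivAt
    have h3 : HasDerivAt (fun a : ℝ => x + a • ev i) (ev i) 0 := by
      simpa using ((hasDerivAt_id (0 : ℝ)).smul_const (ev i)).const_add x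
    exact h2.comp_hasDerivAt 0 h3
  have h4 : HasDerivAt (fun a : ℝ => f (x + a • ev i)) 0 0 := by
    simp only [h]
    exact hasDerivAt_const 0 (f x)
  exact h1.unique h4

theorem stc2_det {i : Fin 4} {f : Eu 4 → ℝ} (hf : Differentiable ℝ f)
    (h : ∀ x (a : ℝ), f (x + a • ev i) = f x) (x : Eu 4) :
    (fderiv ℝ (shear i f) x).det = 1 := by
  rw [(stc2_fd hf x).fderiv]
  have h1 : ((ContinuousLinearMap.id ℝ (Eu 4) + (fderiv ℝ f x).smulRight (ev i) :
      Eu 4 →L[ℝ] Eu 4) : Eu 4 →ₗ[ℝ] Eu 4) =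
      LinearMap.transvection (fderiv ℝ f x : Eu 4 →ₗ[ℝ] ℝ) (ev i) := by
    ext v
    simp [LinearMap.transvection.apply]
  rw [ContinuousLinearMap.det, h1, LinearMap.transvection.det]
  have h2 := stc2_der0 hf h x
  simp [h2]

theorem stc2_detcomp {F G : Eu 4 → Eu 4} (hF : Differentiable ℝ F) (hG : Differentiable ℝ G)
    (dF : ∀ x, (fderiv ℝ F x).det = 1) (dG : ∀ x, (fderiv ℝ G x).det = 1) (x : Eu 4) :
    (fderiv ℝ (fun y => F (G y)) x).det = 1 := by
  have h : fderiv ℝ (fun y => F (G y)) x = (fderiv ℝ F (G x)).comp (fderiv ℝ G x) :=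
    fderiv_comp x (hF _) (hG _)
  have h5 : ((fderiv ℝ F (G x)).comp (fderiv ℝ G x)).det =
      (fderiv ℝ F (G x)).det * (fderiv ℝ G x).det := by
    simp only [ContinuousLinearMap.det, ContinuousLinearMap.toLinearMap_comp]
    exact LinearMap.det_comp _ _
  rw [h, h5, dF, dG, one_mul]

theorem stc2_smooth {i : Fin 4} {E : Type} [NormedAddCommGroup E] [NormedSpace ℝ E]
    {f : E → Eu 4 → ℝ} (hf : ContDiff ℝ ∞ (fun q : E × Eu 4 => f q.1 q.2))
    {G : E × Eu 4 → Eu 4} (hG : ContDiff ℝ ∞ G) :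
    ContDiff ℝ ∞ (fun q : E × Eu 4 => shear i (f q.1) (G q)) := by
  unfold shear
  have h1 : ContDiff ℝ ∞ (fun q : E × Eu 4 => f q.1 (G q)) :=
    hf.comp (contDiff_fst.prodMk hG)
  exact hG.add (h1.smul contDiff_const)

/-! ### The support of the commutator -/

section

variable {i j : Fin 4} {f g : Eu 4 → ℝ} {lo hi : Fin 4 → ℝ} {Fm Fp Gm Gp : ℝ}

theorem stc2_f0 (h : CG i j f g lo hi Fm Fp Gm Gp) {x : Eu 4} {k : Fin 4} (hk : k ≠ i)
    (hx : x k < lo k ∨ hi k < x k) : f x = 0 := by
  by_contra hne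
  have h1 := h.fsupp x hne k hk
  rcases hx with hx | hx <;> linarith [h1.1, h1.2]

theorem stc2_g0 (h : CG i j f g lo hi Fm Fp Gm Gp) {x : Eu 4} {k : Fin 4} (hk : k ≠ j)
    (hx : x k < lo k ∨ hi k < x k) : g x = 0 := by
  by_contra hne
  have h1 := h.gsupp x hne k hk
  rcases hx with hx | hx <;> linarith [h1.1, h1.2]

theorem stc2_out (h : CG i j f g lo hi Fm Fp Gm Gp) (x : Eu 4)
    (hx : ∃ k, x k < cLo i j lo Fm Gm k ∨ cHi i j hi Fp Gp k < x k) : comm i j f g x = x := by
  obtain ⟨k, hx⟩ := hx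
  obtain ⟨n1, n2, n3, n4⟩ := h.nn
  have hij := h.ne
  unfold Pool.Agent.H6.ST.comm
  by_cases hki : k = i
  · subst hki
    have hx1 : x k < lo k - Fm ∨ hi k + Fp < x k := by
      simpa [cLo, cHi, hij] using hx
    have g1 : g x = 0 := stc2_g0 h hij (by
      rcases hx1 with h1 | h1
      · left; linarith
      · right; linarith)
    have e1 : shear j (fun y => - g y) x = x := stc2_zero (by simp [g1])
    rw [e1]
    have g2 : g (shear k (fun y => - f y) x) = 0 := stc2_g0 h hij (by
      rw [stc2_app_self]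
      have hb := h.fb x
      rcases hx1 with h1 | h1
      · left; linarith [hb.1]
      · right; linarith [hb.2])
    rw [stc2_zero (i := j) g2]
    exact stc2_inv h.fi x
  · by_cases hkj : k = j
    · subst hkj
      have hx1 : x k < lo k - Gm ∨ hi k + Gp < x k := by
        simpa [cLo, cHi, hki] using hx
      have f1 : f (shear k (fun y => - g y) x) = 0 := stc2_f0 h hki (by
        rw [stc2_app_self]
        have hb := h.gb x
        rcases hx1 with h1 | h1
        · left; linarith [hb.1]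
        · right; linarith [hb.2])
      have e1 : shear i (fun y => - f y) (shear k (fun y => - g y) x) =
          shear k (fun y => - g y) x := stc2_zero (by simp [f1])
      rw [e1, stc2_inv h.gj x]
      exact stc2_zero (stc2_f0 h hki (by
        rcases hx1 with h1 | h1
        · left; linarith
        · right; linarith))
    · have hx1 : x k < lo k ∨ hi k < x k := by
        simpa [cLo, cHi, hki, hkj] using hx
      have g1 : g x = 0 := stc2_g0 h hkj hx1
      have f1 : f x = 0 := stc2_f0 h hki hx1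
      have e1 : shear j (fun y => - g y) x = x := stc2_zero (by simp [g1])
      have e2 : shear i (fun y => - f y) x = x := stc2_zero (by simp [f1])
      rw [e1, e2, stc2_zero g1, stc2_zero f1]

end

/-- The commutators of a smooth family of commutator data are a compactly supported family. -/
theorem comm_cf (i j : Fin 4) (lo hi : Fin 4 → ℝ) (Fm Fp Gm Gp : ℝ) (E : Type)
    [NormedAddCommGroup E] [NormedSpace ℝ E] (f g : E → Eu 4 → ℝ)
    (hf : ContDiff ℝ ∞ (fun q : E × Eu 4 => f q.1 q.2))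
    (hg : ContDiff ℝ ∞ (fun q : E × Eu 4 => g q.1 q.2))
    (h : ∀ e, CG i j (f e) (g e) lo hi Fm Fp Gm Gp) :
    (∀ e x, (∃ k, x k < cLo i j lo Fm Gm k ∨ cHi i j hi Fp Gp k < x k) →
      comm i j (f e) (g e) x = x) ∧
    ∀ U : Set (Eu 4), (∀ x : Eu 4, (∀ k, cLo i j lo Fm Gm k ≤ x k ∧ x k ≤ cHi i j hi Fp Gp k) →
      x ∈ U) → CF U (fun e => comm i j (f e) (g e)) := by
  have hout : ∀ e x, (∃ k, x k < cLo i j lo Fm Gm k ∨ cHi i j hi Fp Gp k < x k) →
      comm i j (f e) (g e) x = x := fun e x hx => stc2_out (h e) x hx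
  refine ⟨hout, fun U hU => ⟨?_, fun e => ?_, fun e x => ?_, ?_⟩⟩
  · have hf' : ContDiff ℝ ∞ (fun q : E × Eu 4 => - f q.1 q.2) := hf.neg
    have hg' : ContDiff ℝ ∞ (fun q : E × Eu 4 => - g q.1 q.2) := hg.neg
    exact stc2_smooth (f := f) hf (stc2_smooth (f := g) hg
      (stc2_smooth (f := fun e y => - f e y) hf'
        (stc2_smooth (f := fun e y => - g e y) hg' contDiff_snd)))
  · exact (stc2_bij (h e).fi).comp ((stc2_bij (h e).gj).comp
      ((stc2_bij (stc2_neg (h e).fi)).comp (stc2_bij (stc2_neg (h e).gj))))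
  · have df : Differentiable ℝ (f e) := (h e).fs.differentiable (by simp)
    have dg : Differentiable ℝ (g e) := (h e).gs.differentiable (by simp)
    have df' : Differentiable ℝ (fun y => - f e y) := df.neg
    have dg' : Differentiable ℝ (fun y => - g e y) := dg.neg
    have d1 := stc2_diff (i := j) dg'
    have d2 := stc2_diff (i := i) df'
    have d3 := stc2_diff (i := j) dg
    have d4 := stc2_diff (i := i) df
    have c1 := stc2_det dg' (stc2_neg (h e).gj)
    have c2 := stc2_det df' (stc2_neg (h e).fi)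
    have c3 := stc2_det dg (h e).gj
    have c4 := stc2_det df (h e).fi
    exact stc2_detcomp (F := shear i (f e)) (G := fun z => shear j (g e)
      (shear i (fun y => - f e y) (shear j (fun y => - g e y) z))) d4 (d3.comp (d2.comp d1)) c4
      (stc2_detcomp (F := shear j (g e)) (G := fun z => shear i (fun y => - f e y)
        (shear j (fun y => - g e y) z)) d3 (d2.comp d1) c3 (stc2_detcomp d2 d1 c2 c1)) x
  · refine ⟨{x | ∀ k, cLo i j lo Fm Gm k ≤ x k ∧ x k ≤ cHi i j hi Fp Gp k}, ?_,
      fun x hx => hU x hx, fun e x hx => ?_⟩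
    · have h1 : IsCompact (WithLp.toLp 2 '' (Set.univ.pi
          (fun k => Icc (cLo i j lo Fm Gm k) (cHi i j hi Fp Gp k)) : Set (Fin 4 → ℝ)) :
          Set (Eu 4)) :=
        (isCompact_univ_pi fun k => isCompact_Icc).image (PiLp.continuous_toLp 2 _)
      convert h1 using 1
      ext x
      constructor
      · intro hx
        exact ⟨fun k => x k, fun k _ => hx k, rfl⟩
      · rintro ⟨y, hy, rfl⟩ k
        exact hy k (Set.mem_univ k)
    · apply hout e x
      by_contra hne
      push Not at hne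
      exact hx hne

end Pool.Agent.H23.ST
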