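import Pool.Agent.H23.ST.Bu2
import Pool.Agent.H23.ST.CommCF

/-! # The cost between close commutators (row ST-C4) -/

namespace Pool.Agent.H23.ST

open MeasureTheory Set Pool.Agent.H68.VD Pool.Agent.H68.GM Pool.Agent.H6.ST
open scoped ENNReal ContDiff Topology

/-- bounded with a bounded derivative -/
structure C4B {F : Type*} [NormedAddCommGroup F] [NormedSpace ℝ F] (K : ℝ) (u : Eu 4 → F) :
    Prop where
  diff : Differentiable ℝ u
  b0 : ∀ x, ‖u x‖ ≤ K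
  b1 : ∀ x, ‖fderiv ℝ u x‖ ≤ K

/-- differentiable with a bounded derivative -/
structure C4D {F : Type*} [NormedAddCommGroup F] [NormedSpace ℝ F] (K : ℝ) (u : Eu 4 → F) :
    Prop where
  diff : Differentiable ℝ u
  b1 : ∀ x, ‖fderiv ℝ u x‖ ≤ K

section lemmas

variable {F : Type*} [NormedAddCommGroup F] [NormedSpace ℝ F]

lemma c4_norm_ev (i : Fin 4) : ‖(ev i : Eu 4)‖ = 1 := by
  rw [ev]; simp

lemma C4B.nonneg {K : ℝ} {u : Eu 4 → F} (h : C4B K u) : 0 ≤ K := (norm_nonneg _).trans (h.b0 0)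

lemma C4D.nonneg {K : ℝ} {u : Eu 4 → F} (h : C4D K u) : 0 ≤ K := (norm_nonneg _).trans (h.b1 0)

lemma C4B.mono {K L : ℝ} {u : Eu 4 → F} (h : C4B K u) (hKL : K ≤ L) : C4B L u :=
  ⟨h.diff, fun x => (h.b0 x).trans hKL, fun x => (h.b1 x).trans hKL⟩

lemma C4D.mono {K L : ℝ} {u : Eu 4 → F} (h : C4D K u) (hKL : K ≤ L) : C4D L u :=
  ⟨h.diff, fun x => (h.b1 x).trans hKL⟩

lemma C4B.comp {K L : ℝ} {u : Eu 4 → F} {y : Eu 4 → Eu 4} (h : C4B K u) (hy : C4D L y)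
    (hL : 1 ≤ L) : C4B (K * L) (fun x => u (y x)) := by
  have hK := h.nonneg
  refine ⟨h.diff.comp hy.diff, fun x => (h.b0 _).trans (by nlinarith), fun x => ?_⟩
  have h1 : fderiv ℝ (fun x => u (y x)) x = (fderiv ℝ u (y x)).comp (fderiv ℝ y x) :=
    fderiv_comp x (h.diff _) (hy.diff _)
  rw [h1]
  refine (ContinuousLinearMap.opNorm_comp_le _ _).trans ?_
  exact mul_le_mul (h.b1 _) (hy.b1 _) (norm_nonneg _) hK

lemma C4D.comp {K L : ℝ} {u : Eu 4 → F} {y : Eu 4 → Eu 4} (h : C4D K u) (hy : C4D L y) :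
    C4D (K * L) (fun x => u (y x)) := by
  have hK := h.nonneg
  refine ⟨h.diff.comp hy.diff, fun x => ?_⟩
  have h1 : fderiv ℝ (fun x => u (y x)) x = (fderiv ℝ u (y x)).comp (fderiv ℝ y x) :=
    fderiv_comp x (h.diff _) (hy.diff _)
  rw [h1]
  refine (ContinuousLinearMap.opNorm_comp_le _ _).trans ?_
  exact mul_le_mul (h.b1 _) (hy.b1 _) (norm_nonneg _) hK

lemma C4B.add {K L : ℝ} {u v : Eu 4 → F} (h : C4B K u) (h' : C4B L v) :
    C4B (K + L) (fun x => u x + v x) := by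
  refine ⟨h.diff.add h'.diff, fun x => (norm_add_le _ _).trans (add_le_add (h.b0 x) (h'.b0 x)),
    fun x => ?_⟩
  have h1 : fderiv ℝ (fun x => u x + v x) x = fderiv ℝ u x + fderiv ℝ v x :=
    fderiv_fun_add (h.diff x) (h'.diff x)
  rw [h1]
  exact (norm_add_le _ _).trans (add_le_add (h.b1 x) (h'.b1 x))

lemma C4B.neg {K : ℝ} {u : Eu 4 → F} (h : C4B K u) : C4B K (fun x => - u x) := by
  refine ⟨h.diff.neg, fun x => by rw [norm_neg]; exact h.b0 x, fun x => ?_⟩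
  have h1 : fderiv ℝ (fun x => - u x) x = - fderiv ℝ u x := fderiv_fun_neg
  rw [h1, norm_neg]; exact h.b1 x

lemma C4D.add {K L : ℝ} {u v : Eu 4 → F} (h : C4D K u) (h' : C4D L v) :
    C4D (K + L) (fun x => u x + v x) := by
  refine ⟨h.diff.add h'.diff, fun x => ?_⟩
  have h1 : fderiv ℝ (fun x => u x + v x) x = fderiv ℝ u x + fderiv ℝ v x :=
    fderiv_fun_add (h.diff x) (h'.diff x)
  rw [h1]
  exact (norm_add_le _ _).trans (add_le_add (h.b1 x) (h'.b1 x))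

lemma C4D.neg {K : ℝ} {u : Eu 4 → F} (h : C4D K u) : C4D K (fun x => - u x) := by
  refine ⟨h.diff.neg, fun x => ?_⟩
  have h1 : fderiv ℝ (fun x => - u x) x = - fderiv ℝ u x := fderiv_fun_neg
  rw [h1, norm_neg]; exact h.b1 x

lemma c4_fderiv_smul_ev {u : Eu 4 → ℝ} (i : Fin 4) (x : Eu 4) (h : DifferentiableAt ℝ u x) :
    ‖fderiv ℝ (fun x => u x • (ev i : Eu 4)) x‖ = ‖fderiv ℝ u x‖ := by
  have h1 : fderiv ℝ (fun x => u x • (ev i : Eu 4)) x = (fderiv ℝ u x).smulRight (ev i) :=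
    (h.hasFDerivAt.smul_const (ev i)).fderiv
  rw [h1, ContinuousLinearMap.norm_smulRight_apply, c4_norm_ev, mul_one]

lemma C4B.ev {K : ℝ} {u : Eu 4 → ℝ} (h : C4B K u) (i : Fin 4) :
    C4B K (fun x => u x • (ev i : Eu 4)) := by
  refine ⟨h.diff.smul_const _, fun x => ?_, fun x => ?_⟩
  · rw [norm_smul, c4_norm_ev, mul_one]; exact h.b0 x
  · rw [c4_fderiv_smul_ev i x (h.diff x)]; exact h.b1 x

lemma C4D.ev {K : ℝ} {u : Eu 4 → ℝ} (h : C4D K u) (i : Fin 4) :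
    C4D K (fun x => u x • (ev i : Eu 4)) := by
  refine ⟨h.diff.smul_const _, fun x => ?_⟩
  rw [c4_fderiv_smul_ev i x (h.diff x)]; exact h.b1 x

lemma c4_id : C4D 1 (fun x : Eu 4 => x) := by
  refine ⟨differentiable_id, fun x => ?_⟩
  have h1 : fderiv ℝ (fun x : Eu 4 => x) x = ContinuousLinearMap.id ℝ (Eu 4) := fderiv_id
  rw [h1]
  exact ContinuousLinearMap.norm_id_le

/-- application of a field of linear maps -/
lemma C4B.app {K L : ℝ} {A : Eu 4 → (Eu 4 →L[ℝ] ℝ)} {v : Eu 4 → Eu 4} (h : C4B K A)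
    (h' : C4B L v) : C4B (2 * (K * L)) (fun x => A x (v x)) := by
  have hK := h.nonneg
  have hL := h'.nonneg
  refine ⟨fun x => ((h.diff x).hasFDerivAt.clm_apply (h'.diff x).hasFDerivAt).differentiableAt,
    fun x => ?_, fun x => ?_⟩
  · have h1 : ‖A x (v x)‖ ≤ K * L := ((A x).le_opNorm _).trans
      (mul_le_mul (h.b0 x) (h'.b0 x) (norm_nonneg _) hK)
    have h2 : 0 ≤ K * L := mul_nonneg hK hL
    linarith
  · rw [((h.diff x).hasFDerivAt.clm_apply (h'.diff x).hasFDerivAt).fderiv]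
    refine (norm_add_le _ _).trans ?_
    have h1 : ‖(A x).comp (fderiv ℝ v x)‖ ≤ K * L := (ContinuousLinearMap.opNorm_comp_le _ _).trans
      (mul_le_mul (h.b0 x) (h'.b1 x) (norm_nonneg _) hK)
    have h2 : ‖(fderiv ℝ A x).flip (v x)‖ ≤ K * L := by
      refine ((ContinuousLinearMap.le_opNorm _ _)).trans ?_
      rw [ContinuousLinearMap.opNorm_flip]
      exact mul_le_mul (h.b1 x) (h'.b0 x) (norm_nonneg _) hK
    linarith

end lemmas

/-- the volume of a box -/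
lemma c4_vol_box (a b : Fin 4 → ℝ) (hab : ∀ k, a k ≤ b k) :
    volume {x : Eu 4 | ∀ k, a k ≤ x k ∧ x k ≤ b k} = ENNReal.ofReal (∏ k, (b k - a k)) := by
  have h1 : {x : Eu 4 | ∀ k, a k ≤ x k ∧ x k ≤ b k} =
      (WithLp.ofLp : Eu 4 → (Fin 4 → ℝ)) ⁻¹' (Set.Icc a b) := by
    ext x
    simp only [Set.mem_ofPred_eq, Set.mem_preimage, Set.mem_Icc, Pi.le_def]
    constructor
    · intro h; exact ⟨fun k => (h k).1, fun k => (h k).2⟩
    · intro h k; exact ⟨h.1 k, h.2 k⟩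
  rw [h1, (PiLp.volume_preserving_ofLp (Fin 4)).measure_preimage measurableSet_Icc.nullMeasurableSet,
    Real.volume_Icc_pi, ENNReal.ofReal_prod_of_nonneg]
  intro k _
  linarith [hab k]

/-! ### Interpolation -/

/-- the interpolated function -/
noncomputable def c4i (f f' : Eu 4 → ℝ) (t : ℝ) (x : Eu 4) : ℝ :=
  f' x + Real.smoothTransition t * (f x - f' x)

lemma c4_conv {V : Type*} [NormedAddCommGroup V] [NormedSpace ℝ V] {a b : V} {r B : ℝ}
    (h0 : 0 ≤ r) (h1 : r ≤ 1) (ha : ‖a‖ ≤ B) (hb : ‖b‖ ≤ B) : ‖a + r • (b - a)‖ ≤ B := by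
  have h2 : a + r • (b - a) = (1 - r) • a + r • b := by module
  rw [h2]
  refine (norm_add_le _ _).trans ?_
  rw [norm_smul, norm_smul, Real.norm_of_nonneg h0, Real.norm_of_nonneg (by linarith : 0 ≤ 1 - r)]
  nlinarith

lemma c4i_fderiv {f f' : Eu 4 → ℝ} (hf : Differentiable ℝ f) (hf' : Differentiable ℝ f') (t : ℝ)
    (x : Eu 4) : HasFDerivAt (c4i f f' t)
      (fderiv ℝ f' x + Real.smoothTransition t • (fderiv ℝ f x - fderiv ℝ f' x)) x :=
  (hf' x).hasFDerivAt.add (((hf x).hasFDerivAt.sub (hf' x).hasFDerivAt).const_mul _)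

lemma c4i_smooth {f f' : Eu 4 → ℝ} (hf : ContDiff ℝ ∞ f) (hf' : ContDiff ℝ ∞ f') :
    ContDiff ℝ ∞ (fun q : ℝ × Eu 4 => c4i f f' q.1 q.2) := by
  unfold c4i
  have h1 : ContDiff ℝ ∞ Real.smoothTransition := Real.smoothTransition.contDiff
  exact (hf'.comp contDiff_snd).add ((h1.comp contDiff_fst).mul
    ((hf.comp contDiff_snd).sub (hf'.comp contDiff_snd)))

/-- the interpolated functions have bounded derivatives -/
lemma c4i_bd {f f' : Eu 4 → ℝ} (hf : ContDiff ℝ ∞ f) (hf' : ContDiff ℝ ∞ f') {B : ℝ}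
    (hB : ∀ x, ‖fderiv ℝ f x‖ ≤ B ∧ ‖fderiv ℝ (fderiv ℝ f) x‖ ≤ B)
    (hB' : ∀ x, ‖fderiv ℝ f' x‖ ≤ B ∧ ‖fderiv ℝ (fderiv ℝ f') x‖ ≤ B) (t : ℝ) :
    C4D B (c4i f f' t) ∧ C4B B (fderiv ℝ (c4i f f' t)) := by
  have h0 := Real.smoothTransition.nonneg t
  have h1 := Real.smoothTransition.le_one t
  have hd : Differentiable ℝ f := hf.differentiable (by simp)
  have hd' : Differentiable ℝ f' := hf'.differentiable (by simp)
  have e1 : fderiv ℝ (c4i f f' t) = fun x =>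
      fderiv ℝ f' x + Real.smoothTransition t • (fderiv ℝ f x - fderiv ℝ f' x) :=
    funext fun x => (c4i_fderiv hd hd' t x).fderiv
  have hdd : Differentiable ℝ (fderiv ℝ f) :=
    (hf.fderiv_right (m := ∞) (by simp)).differentiable (by simp)
  have hdd' : Differentiable ℝ (fderiv ℝ f') :=
    (hf'.fderiv_right (m := ∞) (by simp)).differentiable (by simp)
  have e2 : ∀ x, HasFDerivAt (fderiv ℝ (c4i f f' t)) (fderiv ℝ (fderiv ℝ f') x +
      Real.smoothTransition t • (fderiv ℝ (fderiv ℝ f) x - fderiv ℝ (fderiv ℝ f') x)) x := by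
    intro x
    rw [e1]
    refine HasFDerivAt.add (hdd' x).hasFDerivAt ?_
    exact ((hdd x).hasFDerivAt.sub (hdd' x).hasFDerivAt).const_smul (Real.smoothTransition t)
  refine ⟨⟨fun x => (c4i_fderiv hd hd' t x).differentiableAt, fun x => ?_⟩,
    fun x => (e2 x).differentiableAt, fun x => ?_, fun x => ?_⟩
  · rw [e1]; exact c4_conv h0 h1 (hB' x).1 (hB x).1
  · rw [e1]; exact c4_conv h0 h1 (hB' x).1 (hB x).1
  · rw [(e2 x).fderiv]; exact c4_conv h0 h1 (hB' x).2 (hB x).2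

/-- the derivative of the interpolation -/
lemma c4_dif {f f' : Eu 4 → ℝ} (hf : Differentiable ℝ f) (hf' : Differentiable ℝ f') {B R r : ℝ}
    (hB : ∀ x, ‖fderiv ℝ f x‖ ≤ B) (hB' : ∀ x, ‖fderiv ℝ f' x‖ ≤ B)
    (hd : ∀ x, |f x - f' x| ≤ B) (hr : |r| ≤ R) :
    C4B (R * (2 * B)) (fun x => r * (f x - f' x)) := by
  have hB0 : 0 ≤ B := (norm_nonneg _).trans (hB 0)
  have hR : 0 ≤ R := (abs_nonneg _).trans hr
  have e1 : ∀ x, HasFDerivAt (fun x => r * (f x - f' x)) (r • (fderiv ℝ f x - fderiv ℝ f' x)) x :=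
    fun x => ((hf x).hasFDerivAt.sub (hf' x).hasFDerivAt).const_mul _
  refine ⟨fun x => (e1 x).differentiableAt, fun x => ?_, fun x => ?_⟩
  · rw [norm_mul, Real.norm_eq_abs, Real.norm_eq_abs]
    exact mul_le_mul hr ((hd x).trans (by linarith)) (abs_nonneg _) hR
  · rw [(e1 x).fderiv, norm_smul, Real.norm_eq_abs]
    refine mul_le_mul hr ((norm_sub_le _ _).trans ?_) (norm_nonneg _) hR
    linarith [hB x, hB' x]

lemma c4_deriv {f f' : Eu 4 → ℝ} (hf : Differentiable ℝ f) (hf' : Differentiable ℝ f')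
    {Y : ℝ → Eu 4} {v : Eu 4} {t : ℝ} (hY : HasDerivAt Y v t) :
    HasDerivAt (fun τ => c4i f f' τ (Y τ)) (deriv Real.smoothTransition t * (f (Y t) - f' (Y t)) +
      fderiv ℝ (c4i f f' t) (Y t) v) t := by
  have h1 : HasDerivAt (fun τ => f (Y τ)) (fderiv ℝ f (Y t) v) t :=
    (hf (Y t)).hasFDerivAt.comp_hasDerivAt t hY
  have h2 : HasDerivAt (fun τ => f' (Y τ)) (fderiv ℝ f' (Y t) v) t :=
    (hf' (Y t)).hasFDerivAt.comp_hasDerivAt t hY
  have h3 : HasDerivAt Real.smoothTransition (deriv Real.smoothTransition t) t :=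
    ((Real.smoothTransition.contDiff (n := 1)).differentiable (by simp) t).hasDerivAt
  have h4 := h2.add (h3.mul (h1.sub h2))
  rw [(c4i_fderiv hf hf' t (Y t)).fderiv]
  refine h4.congr_deriv ?_
  simp only [add_apply, smul_apply,
    sub_apply, smul_eq_mul, Pi.sub_apply]
  ring

lemma c4_shear_deriv (i : Fin 4) {f f' : Eu 4 → ℝ} (hf : Differentiable ℝ f)
    (hf' : Differentiable ℝ f') {Y : ℝ → Eu 4} {v : Eu 4} {t : ℝ} (hY : HasDerivAt Y v t) :
    HasDerivAt (fun τ => shear i (c4i f f' τ) (Y τ)) (v + (deriv Real.smoothTransition t *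
      (f (Y t) - f' (Y t)) + fderiv ℝ (c4i f f' t) (Y t) v) • ev i) t :=
  hY.add ((c4_deriv hf hf' hY).smul_const _)

lemma c4_shear_deriv' (i : Fin 4) {f f' : Eu 4 → ℝ} (hf : Differentiable ℝ f)
    (hf' : Differentiable ℝ f') {Y : ℝ → Eu 4} {v : Eu 4} {t : ℝ} (hY : HasDerivAt Y v t) :
    HasDerivAt (fun τ => shear i (fun y => - c4i f f' τ y) (Y τ))
      (v + (-(deriv Real.smoothTransition t *
      (f (Y t) - f' (Y t)) + fderiv ℝ (c4i f f' t) (Y t) v)) • ev i) t :=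
  hY.add ((c4_deriv hf hf' hY).neg.smul_const _)

/-! ### Shears -/

lemma c4_sh (i : Fin 4) {f : Eu 4 → ℝ} (hf : ∀ x (a : ℝ), f (x + a • ev i) = f x) (x : Eu 4) :
    shear i (fun y => - f y) (shear i f x) = x := by
  simp only [shear, neg_smul]
  rw [hf x]
  abel

lemma c4_sh' (i : Fin 4) {f : Eu 4 → ℝ} (hf : ∀ x (a : ℝ), f (x + a • ev i) = f x) (x : Eu 4) :
    shear i f (shear i (fun y => - f y) x) = x := by
  simp only [shear, neg_smul]
  have h1 : f (x + -(f x • ev i)) = f x := by rw [← neg_smul]; exact hf x _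
  rw [h1]
  abel

lemma C4D.shear {B : ℝ} {f : Eu 4 → ℝ} (h : C4D B f) (i : Fin 4) : C4D (1 + B) (H6.ST.shear i f) :=
  c4_id.add (h.ev i)

lemma C4D.shear' {B : ℝ} {f : Eu 4 → ℝ} (h : C4D B f) (i : Fin 4) :
    C4D (1 + B) (H6.ST.shear i (fun y => - f y)) :=
  c4_id.add (h.neg.ev i)

/-- the inverse of a commutator -/
lemma c4_comm_inv {i j : Fin 4} {f g : Eu 4 → ℝ} (hf : ∀ x (a : ℝ), f (x + a • ev i) = f x)
    (hg : ∀ x (a : ℝ), g (x + a • ev j) = g x) (x : Eu 4) :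
    comm i j f g (comm j i g f x) = x := by
  unfold H6.ST.comm
  rw [c4_sh j hg, c4_sh i hf, c4_sh' j hg, c4_sh' i hf]

/-- the final constant -/
noncomputable def c4K (R b : ℝ) : ℝ :=
  let M := R * (2 * b) * (1 + b) ^ 4
  let N := b * (1 + b) ^ 4
  let K2 := M + (M + 2 * (N * M))
  let K3 := K2 + (M + 2 * (N * K2))
  K3 + (M + 2 * (N * K3))

/-- the velocity field is explicit and bounded -/
lemma c4_vel {i j : Fin 4} {f g f' g' : Eu 4 → ℝ} (hfs : ContDiff ℝ ∞ f) (hgs : ContDiff ℝ ∞ g)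
    (hfs' : ContDiff ℝ ∞ f') (hgs' : ContDiff ℝ ∞ g')
    (hf : ∀ x (a : ℝ), f (x + a • ev i) = f x) (hg : ∀ x (a : ℝ), g (x + a • ev j) = g x)
    (hf' : ∀ x (a : ℝ), f' (x + a • ev i) = f' x) (hg' : ∀ x (a : ℝ), g' (x + a • ev j) = g' x)
    {B R : ℝ}
    (hB : ∀ x, ‖fderiv ℝ f x‖ ≤ B ∧ ‖fderiv ℝ g x‖ ≤ B ∧
        ‖fderiv ℝ (fderiv ℝ f) x‖ ≤ B ∧ ‖fderiv ℝ (fderiv ℝ g) x‖ ≤ B)
    (hB' : ∀ x, ‖fderiv ℝ f' x‖ ≤ B ∧ ‖fderiv ℝ g' x‖ ≤ B ∧
        ‖fderiv ℝ (fderiv ℝ f') x‖ ≤ B ∧ ‖fderiv ℝ (fderiv ℝ g') x‖ ≤ B)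
    (hd : ∀ x, |f x - f' x| ≤ B ∧ |g x - g' x| ≤ B) (t : ℝ)
    (hR : |deriv Real.smoothTransition t| ≤ R) :
    ∃ W : Eu 4 → Eu 4, C4B (c4K R B) W ∧ ∀ x,
      HasDerivAt (fun τ => comm i j (c4i f f' τ) (c4i g g' τ)
        (comm j i (c4i g g' t) (c4i f f' t) x)) (W x) t := by
  have hB0 : 0 ≤ B := (norm_nonneg _).trans (hB 0).1
  have df := hfs.differentiable (n := ∞) (by simp)
  have dg := hgs.differentiable (n := ∞) (by simp)
  have df' := hfs'.differentiable (n := ∞) (by simp)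
  have dg' := hgs'.differentiable (n := ∞) (by simp)
  obtain ⟨Df, DDf⟩ := c4i_bd hfs hfs' (fun x => ⟨(hB x).1, (hB x).2.2.1⟩)
    (fun x => ⟨(hB' x).1, (hB' x).2.2.1⟩) t
  obtain ⟨Dg, DDg⟩ := c4i_bd hgs hgs' (fun x => ⟨(hB x).2.1, (hB x).2.2.2⟩)
    (fun x => ⟨(hB' x).2.1, (hB' x).2.2.2⟩) t
  have if' : ∀ x (a : ℝ), c4i f f' t (x + a • ev i) = c4i f f' t x := fun x a => by
    simp only [c4i]; rw [hf x, hf' x]
  have ig' : ∀ x (a : ℝ), c4i g g' t (x + a • ev j) = c4i g g' t x := fun x a => by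
    simp only [c4i]; rw [hg x, hg' x]
  have Af := c4_dif df df' (fun x => (hB x).1) (fun x => (hB' x).1) (fun x => (hd x).1) hR
  have Ag := c4_dif dg dg' (fun x => (hB x).2.1) (fun x => (hB' x).2.1) (fun x => (hd x).2) hR
  set r := deriv Real.smoothTransition t with hr
  set fT := c4i f f' t with hfT
  set gT := c4i g g' t with hgT
  let P : Eu 4 → Eu 4 := fun x => shear i (fun y => - fT y) x
  let Q : Eu 4 → Eu 4 := fun x => shear j (fun y => - gT y) (P x)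
  let S : Eu 4 → Eu 4 := fun x => shear i fT (Q x)
  let Z : Eu 4 → Eu 4 := fun x => shear j gT (S x)
  have h1B : 1 ≤ 1 + B := by linarith
  have hL1 : (1 + B) ≤ (1 + B) ^ 4 := by
    calc (1 + B) = (1 + B) ^ 1 := (pow_one _).symm
      _ ≤ (1 + B) ^ 4 := pow_le_pow_right₀ h1B (by norm_num)
  have hL2 : (1 + B) ^ 2 ≤ (1 + B) ^ 4 := pow_le_pow_right₀ h1B (by norm_num)
  have hL3 : (1 + B) ^ 3 ≤ (1 + B) ^ 4 := pow_le_pow_right₀ h1B (by norm_num)
  have hL : 1 ≤ (1 + B) ^ 4 := one_le_pow₀ h1B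
  have hP1 : C4D (1 + B) P := Df.shear' i
  have hQ1 : C4D ((1 + B) * (1 + B)) Q := (Dg.shear' j).comp hP1
  have hS1 : C4D ((1 + B) * ((1 + B) * (1 + B))) S := (Df.shear i).comp hQ1
  have hZ1 : C4D ((1 + B) * ((1 + B) * ((1 + B) * (1 + B)))) Z := (Dg.shear j).comp hS1
  have hP : C4D ((1 + B) ^ 4) P := hP1.mono hL1
  have hQ : C4D ((1 + B) ^ 4) Q := hQ1.mono (by calc _ = (1 + B) ^ 2 := by ring
                                                _ ≤ _ := hL2)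
  have hS : C4D ((1 + B) ^ 4) S := hS1.mono (by calc _ = (1 + B) ^ 3 := by ring
                                                _ ≤ _ := hL3)
  have hZ : C4D ((1 + B) ^ 4) Z := hZ1.mono (le_of_eq (by ring))
  let V1 : Eu 4 → Eu 4 := fun x => (-(r * (g (Z x) - g' (Z x)))) • ev j
  let V2 : Eu 4 → Eu 4 := fun x => V1 x + (-(r * (f (S x) - f' (S x)) +
    fderiv ℝ fT (S x) (V1 x))) • ev i
  let V3 : Eu 4 → Eu 4 := fun x => V2 x + (r * (g (Q x) - g' (Q x)) +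
    fderiv ℝ gT (Q x) (V2 x)) • ev j
  let V4 : Eu 4 → Eu 4 := fun x => V3 x + (r * (f (P x) - f' (P x)) +
    fderiv ℝ fT (P x) (V3 x)) • ev i
  have k1 : C4B (R * (2 * B) * (1 + B) ^ 4) V1 := ((Ag.comp hZ hL).neg).ev j
  have k2 := k1.add (((Af.comp hS hL).add ((DDf.comp hS hL).app k1)).neg.ev i)
  have k3 := k2.add (((Ag.comp hQ hL).add ((DDg.comp hQ hL).app k2)).ev j)
  have k4 := k3.add (((Af.comp hP hL).add ((DDf.comp hP hL).app k3)).ev i)
  refine ⟨V4, k4, fun x => ?_⟩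
  have eZ : comm j i gT fT x = Z x := rfl
  rw [eZ]
  have y1 : shear j (fun y => - gT y) (Z x) = S x := c4_sh j ig' (S x)
  have y2 : shear i (fun y => - fT y) (S x) = Q x := c4_sh i if' (Q x)
  have y3 : shear j gT (Q x) = P x := c4_sh' j ig' (P x)
  have d1 := c4_shear_deriv' j dg dg' (hasDerivAt_const t (Z x))
  have e1 : (0 : Eu 4) + (-(deriv Real.smoothTransition t * (g (Z x) - g' (Z x)) +
      fderiv ℝ (c4i g g' t) (Z x) 0)) • ev j = V1 x := by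
    simp only [V1, map_zero, add_zero, zero_add, hr]
  rw [e1] at d1
  have d2 := c4_shear_deriv' i df df' d1
  have y1' : shear j (fun y => - c4i g g' t y) (Z x) = S x := y1
  have y2' : shear i (fun y => - c4i f f' t y) (S x) = Q x := y2
  have y3' : shear j (c4i g g' t) (Q x) = P x := y3
  rw [y1'] at d2
  have d3 := c4_shear_deriv j dg dg' d2
  rw [y1', y2'] at d3
  have d4 := c4_shear_deriv i df df' d3
  rw [y1', y2', y3'] at d4
  exact d4

lemma c4_closed (a b : Fin 4 → ℝ) : IsClosed {x : Eu 4 | ∀ k, a k ≤ x k ∧ x k ≤ b k} := by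
  have h1 : {x : Eu 4 | ∀ k, a k ≤ x k ∧ x k ≤ b k} =
      (WithLp.ofLp : Eu 4 → (Fin 4 → ℝ)) ⁻¹' (Set.Icc a b) := by
    ext x
    simp only [Set.mem_ofPred_eq, Set.mem_preimage, Set.mem_Icc, Pi.le_def]
    constructor
    · intro h; exact ⟨fun k => (h k).1, fun k => (h k).2⟩
    · intro h k; exact ⟨h.1 k, h.2 k⟩
  rw [h1]
  exact isClosed_Icc.preimage (PiLp.continuous_ofLp 2 _)

lemma c4_lint {F : Type*} [NormedAddCommGroup F] (u : Eu 4 → F) (s : Set (Eu 4))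
    (hs : MeasurableSet s) (K : ℝ) (hK : ∀ x, ‖u x‖ ≤ K) (h0 : ∀ x ∉ s, u x = 0) :
    ∫⁻ x, ‖u x‖ₑ ≤ ENNReal.ofReal K * volume s := by
  calc ∫⁻ x, ‖u x‖ₑ ≤ ∫⁻ x, s.indicator (fun _ => ENNReal.ofReal K) x := by
        refine lintegral_mono fun x => ?_
        by_cases hx : x ∈ s
        · rw [Set.indicator_of_mem hx, ← ofReal_norm]
          exact ENNReal.ofReal_le_ofReal (hK x)
        · rw [h0 x hx]; simp
    _ = ENNReal.ofReal K * volume s := lintegral_indicator_const hs _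

lemma c4_cg {i j : Fin 4} {f g f' g' : Eu 4 → ℝ} {lo hi : Fin 4 → ℝ} {Fm Fp Gm Gp : ℝ}
    (h : CG i j f g lo hi Fm Fp Gm Gp) (h' : CG i j f' g' lo hi Fm Fp Gm Gp) (t : ℝ) :
    CG i j (c4i f f' t) (c4i g g' t) lo hi Fm Fp Gm Gp := by
  have h0 := Real.smoothTransition.nonneg t
  have h1 := Real.smoothTransition.le_one t
  refine ⟨h.ne, ?_, ?_, ?_, ?_, ?_, ?_, ?_, ?_, h.nn, h.lh⟩
  · exact h'.fs.add (contDiff_const.mul (h.fs.sub h'.fs))
  · exact h'.gs.add (contDiff_const.mul (h.gs.sub h'.gs))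
  · intro x a; simp only [c4i]; rw [h.fi x, h'.fi x]
  · intro x a; simp only [c4i]; rw [h.gj x, h'.gj x]
  · intro x hx
    by_cases h2 : f x = 0
    · refine h'.fsupp x fun h3 => hx ?_
      simp [c4i, h2, h3]
    · exact h.fsupp x h2
  · intro x hx
    by_cases h2 : g x = 0
    · refine h'.gsupp x fun h3 => hx ?_
      simp [c4i, h2, h3]
    · exact h.gsupp x h2
  · intro x
    have h2 := h.fb x
    have h3 := h'.fb x
    simp only [c4i]
    constructor <;> nlinarith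
  · intro x
    have h2 := h.gb x
    have h3 := h'.gb x
    simp only [c4i]
    constructor <;> nlinarith

lemma c4_swap {i j : Fin 4} {f g : Eu 4 → ℝ} {lo hi : Fin 4 → ℝ} {Fm Fp Gm Gp : ℝ}
    (h : CG i j f g lo hi Fm Fp Gm Gp) : CG j i g f lo hi Gm Gp Fm Fp :=
  ⟨h.ne.symm, h.gs, h.fs, h.gj, h.fi, h.gsupp, h.fsupp, h.gb, h.fb,
    ⟨h.nn.2.2.1, h.nn.2.2.2, h.nn.1, h.nn.2.1⟩, h.lh⟩

lemma c4_lo (i j : Fin 4) (lo : Fin 4 → ℝ) (Fm Gm : ℝ) (k : Fin 4) :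
    cLo j i lo Gm Fm k = cLo i j lo Fm Gm k := by
  simp only [cLo]; ring

lemma c4_hi (i j : Fin 4) (hi : Fin 4 → ℝ) (Fp Gp : ℝ) (k : Fin 4) :
    cHi j i hi Gp Fp k = cHi i j hi Fp Gp k := by
  simp only [cHi]; ring

lemma c4_lohi {i j : Fin 4} {f g : Eu 4 → ℝ} {lo hi : Fin 4 → ℝ} {Fm Fp Gm Gp : ℝ}
    (h : CG i j f g lo hi Fm Fp Gm Gp) (k : Fin 4) : cLo i j lo Fm Gm k ≤ cHi i j hi Fp Gp k := by
  obtain ⟨h1, h2, h3, h4⟩ := h.nn
  have h5 := h.lh k
  simp only [cLo, cHi]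
  split_ifs <;> linarith

lemma c4_det {A B : Eu 4 → Eu 4} (hA : Differentiable ℝ A) (hB : Differentiable ℝ B) (x : Eu 4)
    (h1 : ∀ y, (fderiv ℝ A y).det = 1) (h2 : ∀ y, (fderiv ℝ B y).det = 1) :
    (fderiv ℝ (fun x => A (B x)) x).det = 1 := by
  have e1 : fderiv ℝ (fun x => A (B x)) x = (fderiv ℝ A (B x)).comp (fderiv ℝ B x) :=
    fderiv_comp x (hA _) (hB _)
  have e2 : ((fderiv ℝ A (B x)).comp (fderiv ℝ B x)).det =
      (fderiv ℝ A (B x)).det * (fderiv ℝ B x).det := LinearMap.det_comp _ _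
  rw [e1, e2, h1, h2, mul_one]

lemma c4_cfcomp {U : Set (Eu 4)} {A B : ℝ → Eu 4 → Eu 4} (hA : CF U A) (hB : CF U B) :
    CF U (fun t x => A t (B t x)) := by
  refine ⟨hA.smooth.comp (contDiff_fst.prodMk hB.smooth), fun t => (hA.bij t).comp (hB.bij t),
    fun t x => ?_, ?_⟩
  · have d1 : Differentiable ℝ (A t) :=
      (hA.smooth.comp (contDiff_const.prodMk contDiff_id)).differentiable (by simp)
    have d2 : Differentiable ℝ (B t) :=
      (hB.smooth.comp (contDiff_const.prodMk contDiff_id)).differentiable (by simp)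
    exact c4_det d1 d2 x (hA.det t) (hB.det t)
  · obtain ⟨K1, hK1, hU1, hs1⟩ := hA.supp
    obtain ⟨K2, hK2, hU2, hs2⟩ := hB.supp
    refine ⟨K1 ∪ K2, hK1.union hK2, Set.union_subset hU1 hU2, fun t x hx => ?_⟩
    rw [Set.mem_union, not_or] at hx
    rw [hs2 t x hx.2, hs1 t x hx.1]

/-- ST-C4 (file CommC.lean): the cost between close commutators. -/
theorem comm_cost (FK : FKit) (s : ℝ) (hs : 0 ≤ s) (hs1 : s < 1) (B : ℝ) :
    ∃ C : ℝ, 0 ≤ C ∧ ∀ (i j : Fin 4) (f g f' g' : Eu 4 → ℝ) (lo hi : Fin 4 → ℝ)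
      (Fm Fp Gm Gp : ℝ), CG i j f g lo hi Fm Fp Gm Gp → CG i j f' g' lo hi Fm Fp Gm Gp →
      (∀ x, ‖fderiv ℝ f x‖ ≤ B ∧ ‖fderiv ℝ g x‖ ≤ B ∧
        ‖fderiv ℝ (fderiv ℝ f) x‖ ≤ B ∧ ‖fderiv ℝ (fderiv ℝ g) x‖ ≤ B) →
      (∀ x, ‖fderiv ℝ f' x‖ ≤ B ∧ ‖fderiv ℝ g' x‖ ≤ B ∧
        ‖fderiv ℝ (fderiv ℝ f') x‖ ≤ B ∧ ‖fderiv ℝ (fderiv ℝ g') x‖ ≤ B) →
      (∀ x, |f x - f' x| ≤ B ∧ |g x - g' x| ≤ B) → ∀ U : Set (Eu 4), IsOpen U →
      (∀ x : Eu 4, (∀ k, cLo i j lo Fm Gm k ≤ x k ∧ x k ≤ cHi i j hi Fp Gp k) → x ∈ U) →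
      FCost s U (fun x => comm i j f g (Function.invFun (comm i j f' g') x))
        (C * ∏ k, (cHi i j hi Fp Gp k - cLo i j lo Fm Gm k)) := by
  obtain ⟨R, hR⟩ : ∃ R : ℝ, ∀ t ∈ Set.Icc (0 : ℝ) 1, ‖deriv Real.smoothTransition t‖ ≤ R :=
    isCompact_Icc.exists_bound_of_continuousOn
      ((Real.smoothTransition.contDiff (n := 1)).continuous_deriv (by simp)).continuousOn
  have hR0 : 0 ≤ R := (norm_nonneg _).trans (hR 0 (by simp))
  have hK0 : ∀ b : ℝ, 0 ≤ b → 0 ≤ c4K R b := by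
    intro b hb
    simp only [c4K]
    positivity
  refine ⟨c4K R |B|, hK0 _ (abs_nonneg _), ?_⟩
  intro i j f g f' g' lo hi Fm Fp Gm Gp h h' hB hB' hd U hU hbox
  have hB0 : 0 ≤ B := (norm_nonneg _).trans (hB 0).1
  rw [abs_of_nonneg hB0]
  have hK := hK0 B hB0
  set V := ∏ k, (cHi i j hi Fp Gp k - cLo i j lo Fm Gm k) with hV
  have hV0 : 0 ≤ V := Finset.prod_nonneg fun k _ => by linarith [c4_lohi h k]
  -- the families
  obtain ⟨o1, cf1⟩ := comm_cf i j lo hi Fm Fp Gm Gp ℝ (fun t => c4i f f' t)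
    (fun t => c4i g g' t) (c4i_smooth h.fs h'.fs) (c4i_smooth h.gs h'.gs) (fun t => c4_cg h h' t)
  obtain ⟨o2, cf2⟩ := comm_cf j i lo hi Gm Gp Fm Fp ℝ (fun _ => g') (fun _ => f')
    (h'.gs.comp contDiff_snd) (h'.fs.comp contDiff_snd) (fun _ => c4_swap h')
  have c1 := cf1 U hbox
  have c2 := cf2 U (fun x hx => hbox x fun k => by
    have := hx k
    rwa [c4_lo, c4_hi] at this)
  have e1 : ∀ x, comm i j f' g' (comm j i g' f' x) = x := c4_comm_inv h'.fi h'.gj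
  have e2 : ∀ x, comm j i g' f' (comm i j f' g' x) = x := c4_comm_inv h'.gj h'.fi
  have hinv : Function.invFun (comm i j f' g') = comm j i g' f' :=
    Function.invFun_eq_of_injective_of_rightInverse (Function.LeftInverse.injective e2) e1
  rw [hinv]
  set Φ : ℝ → Eu 4 → Eu 4 := fun t x => comm i j (c4i f f' t) (c4i g g' t) (comm j i g' f' x)
    with hΦ
  have cΦ : CF U Φ := c4_cfcomp c1 c2
  have cP : CPath U (fun x => comm i j f g (comm j i g' f' x)) Φ := by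
    refine ⟨cΦ, fun t ht x => ?_, fun t ht x => ?_⟩
    · have a1 : c4i f f' t = f' := by
        funext y; simp [c4i, Real.smoothTransition.zero_of_nonpos ht]
      have a2 : c4i g g' t = g' := by
        funext y; simp [c4i, Real.smoothTransition.zero_of_nonpos ht]
      show comm i j (c4i f f' t) (c4i g g' t) (comm j i g' f' x) = x
      rw [a1, a2, e1]
    · have a1 : c4i f f' t = f := by
        funext y; simp [c4i, Real.smoothTransition.one_of_one_le ht]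
      have a2 : c4i g g' t = g := by
        funext y; simp [c4i, Real.smoothTransition.one_of_one_le ht]
      show comm i j (c4i f f' t) (c4i g g' t) (comm j i g' f' x) = _
      rw [a1, a2]
  refine FK.path 4 s U _ Φ hs hs1 hU cP _ (mul_nonneg hK hV0) fun t ht => ?_
  obtain ⟨W, hW, hder⟩ := c4_vel h.fs h.gs h'.fs h'.gs h.fi h.gj h'.fi h'.gj hB hB' hd t
    (R := R) (hR t ht)
  have hcg := c4_cg h h' t
  have hz : ∀ x, comm i j (c4i f f' t) (c4i g g' t)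
      (comm j i (c4i g g' t) (c4i f f' t) x) = x := c4_comm_inv hcg.fi hcg.gj
  have hvel : vel Φ t = W := by
    funext x
    have a1 : Function.invFun (Φ t) x =
        comm i j f' g' (comm j i (c4i g g' t) (c4i f f' t) x) := by
      apply (cΦ.bij t).1
      rw [Function.invFun_eq ((cΦ.bij t).2 x)]
      show x = comm i j (c4i f f' t) (c4i g g' t) (comm j i g' f' _)
      rw [e2, hz]
    rw [vel, a1]
    have a2 : (fun τ => Φ τ (comm i j f' g' (comm j i (c4i g g' t) (c4i f f' t) x))) =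
        fun τ => comm i j (c4i f f' τ) (c4i g g' τ)
          (comm j i (c4i g g' t) (c4i f f' t) x) := by
      funext τ
      show comm i j (c4i f f' τ) (c4i g g' τ) (comm j i g' f' _) = _
      rw [e2]
    rw [a2, (hder x).deriv]
  rw [hvel]
  set bx : Set (Eu 4) := {x | ∀ k, cLo i j lo Fm Gm k ≤ x k ∧ x k ≤ cHi i j hi Fp Gp k} with hbx
  have hcl : IsClosed bx := c4_closed _ _
  have hvol : volume bx = ENNReal.ofReal V := c4_vol_box _ _ (c4_lohi h)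
  have hout : ∀ x ∉ bx, W x = 0 := by
    intro x hx
    have hx' : ∃ k, x k < cLo i j lo Fm Gm k ∨ cHi i j hi Fp Gp k < x k := by
      by_contra hc
      push Not at hc
      exact hx fun k => hc k
    have a1 : ∀ τ, comm i j (c4i f f' τ) (c4i g g' τ) x = x := fun τ => o1 τ x hx'
    have a2 : comm j i (c4i g g' t) (c4i f f' t) x = x := by
      have := c4_comm_inv hcg.gj hcg.fi x
      rwa [a1 t] at this
    have a3 := hder x
    rw [a2] at a3
    simp only [a1] at a3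
    exact a3.unique (hasDerivAt_const t x)
  have hout' : ∀ x ∉ bx, fderiv ℝ W x = 0 := by
    intro x hx
    have a1 : W =ᶠ[𝓝 x] fun _ => (0 : Eu 4) := by
      filter_upwards [hcl.isOpen_compl.mem_nhds hx] with y hy using hout y hy
    rw [a1.fderiv_eq]
    simp
  have b0 := c4_lint W bx hcl.measurableSet _ hW.b0 hout
  have b1 := c4_lint (fderiv ℝ W) bx hcl.measurableSet _ hW.b1 hout'
  rw [hvol, ← ENNReal.ofReal_mul hK] at b0 b1
  calc FE s W ≤ (ENNReal.ofReal (c4K R B * V)) ^ (1 - s) * (ENNReal.ofReal (c4K R B * V)) ^ s :=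
        mul_le_mul' (ENNReal.rpow_le_rpow b0 (by linarith)) (ENNReal.rpow_le_rpow b1 hs)
    _ = ENNReal.ofReal (c4K R B * V) := by
        rw [← ENNReal.rpow_add_of_nonneg _ _ (by linarith) hs, sub_add_cancel, ENNReal.rpow_one]

end Pool.Agent.H23.ST
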