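import Pool.Agent.H23.ST.CommCF

/-! # Project ST, row ST-C5: the path of a quantized commutator and its frames

`Φ_t = comm (ρ(t) qf) qg`. At a centre the first two shears have the derivative `1`, so
`DΦ_t = (1 + ρ Dqf(y3) ⊗ e_i) (1 + Dqg(y2) ⊗ e_j)` with `y2 = ctr c1 - ρ n e_i`,
`y3 = y2 + qg(y2) e_j`; the contraction scales the two rank one terms.
-/

namespace Pool.Agent.H23.ST

open MeasureTheory Set Pool.Agent.H68.VD Pool.Agent.H68.GM Pool.Agent.H6.ST
open scoped ENNReal ContDiff Topology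

/-- the determinant of a rank one perturbation -/
private theorem det_add_smulRight (φ : Eu 4 →L[ℝ] ℝ) (v : Eu 4) (h : φ v = 0) :
    (ContinuousLinearMap.id ℝ (Eu 4) + φ.smulRight v).det = 1 := by
  have h1 : ((ContinuousLinearMap.id ℝ (Eu 4) + φ.smulRight v : Eu 4 →L[ℝ] Eu 4) :
      Eu 4 →ₗ[ℝ] Eu 4) = LinearMap.transvection (φ : Eu 4 →ₗ[ℝ] ℝ) v := by
    ext x
    simp [LinearMap.transvection.apply]
  rw [ContinuousLinearMap.det, h1, LinearMap.transvection.det]
  show 1 + φ v = 1
  rw [h, add_zero]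

private theorem hasFDerivAt_shear (i : Fin 4) (f : Eu 4 → ℝ) (hf : Differentiable ℝ f)
    (x : Eu 4) : HasFDerivAt (shear i f)
      (ContinuousLinearMap.id ℝ (Eu 4) + (fderiv ℝ f x).smulRight (ev i)) x :=
  (hasFDerivAt_id x).add ((hf x).hasFDerivAt.smul_const (ev i))

/-- a function which does not depend on `x_i` -/
private theorem fderiv_ev (i : Fin 4) (f : Eu 4 → ℝ) (hf : Differentiable ℝ f)
    (h : ∀ x (a : ℝ), f (x + a • ev i) = f x) (x : Eu 4) : fderiv ℝ f x (ev i) = 0 := by
  have h1 : HasDerivAt (fun a : ℝ => x + a • ev i) (ev i : Eu 4) 0 := by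
    have := ((hasDerivAt_id (0 : ℝ)).smul_const (ev i : Eu 4)).const_add x
    simpa using this
  have h2 : HasDerivAt (fun a : ℝ => f (x + a • ev i)) (fderiv ℝ f x (ev i)) 0 := by
    have h3 : HasFDerivAt f (fderiv ℝ f x) (x + (0 : ℝ) • ev i) := by
      rw [zero_smul, add_zero]
      exact (hf x).hasFDerivAt
    exact h3.comp_hasDerivAt (0 : ℝ) h1
  have h3 : (fun a : ℝ => f (x + a • ev i)) = fun _ => f x := funext fun a => h x a
  rw [h3] at h2
  exact (h2.unique (hasDerivAt_const _ _)).symm ▸ rfl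

private theorem core_nhds (θ : ℝ) (hθ1 : θ < 1 / 4) (c : Fin 4 → ℤ) : core θ c ∈ 𝓝 (ctr c) := by
  have h1 : {x : Eu 4 | ∀ k, |x k - ((c k : ℝ) + 1 / 2)| < 1 / 2 - θ} ∈ 𝓝 (ctr c) := by
    refine IsOpen.mem_nhds ?_ ?_
    · have : {x : Eu 4 | ∀ k, |x k - ((c k : ℝ) + 1 / 2)| < 1 / 2 - θ} =
          ⋂ k, {x : Eu 4 | |x k - ((c k : ℝ) + 1 / 2)| < 1 / 2 - θ} := by
        ext x
        simp
      rw [this]
      refine isOpen_iInter_of_finite fun k => isOpen_lt ?_ continuous_const
      fun_prop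
    · intro k
      show |((c k : ℝ) + 1 / 2) - ((c k : ℝ) + 1 / 2)| < 1 / 2 - θ
      rw [sub_self, abs_zero]
      linarith
  exact Filter.mem_of_superset h1 fun x hx k => (hx k).le

private theorem ctr_sub (c : Fin 4 → ℤ) (j : Fin 4) (m : ℤ) :
    ctr c + (-(m : ℝ)) • ev j = ctr (c - Pi.single j m) := by
  ext k
  by_cases hk : k = j
  · subst hk
    simp [ctr, ev, Pi.single_eq_same]
    ring
  · simp [ctr, ev, hk, Pi.single_eq_of_ne hk]

private theorem ctr_add (c : Fin 4 → ℤ) (j : Fin 4) (m : ℤ) :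
    ctr c + (m : ℝ) • ev j = ctr (c + Pi.single j m) := by
  ext k
  by_cases hk : k = j
  · subst hk
    simp [ctr, ev, Pi.single_eq_same]
    ring
  · simp [ctr, ev, hk, Pi.single_eq_of_ne hk]

/-- ST-C5 (file CommF.lean): the path of a quantized commutator and its frames. -/
theorem comm_frame (θ : ℝ) (hθ : 0 < θ) (hθ1 : θ < 1 / 4) (i j : Fin 4) (f g qf qg : Eu 4 → ℝ)
    (lo hi : Fin 4 → ℝ) (Fm Fp Gm Gp : ℝ) (h : CG i j qf qg lo hi Fm Fp Gm Gp)
    (hf : ∀ c, ∀ x ∈ core θ c, qf x = (round (f (ctr c)) : ℝ))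
    (hg : ∀ c, ∀ x ∈ core θ c, qg x = (round (g (ctr c)) : ℝ)) (U : Set (Eu 4))
    (hU : ∀ x : Eu 4, (∀ k, cLo i j lo Fm Gm k ≤ x k ∧ x k ≤ cHi i j hi Fp Gp k) → x ∈ U) :
    ∃ Φ : ℝ → Eu 4 → Eu 4, CPath U (comm i j qf qg) Φ ∧
      ∀ c : Fin 4 → ℤ, ∃ H, Contr (fun t => fderiv ℝ (Φ t) (ctr c)) H := by
  have hqf : Differentiable ℝ qf := h.fs.differentiable (by simp)
  have hqg : Differentiable ℝ qg := h.gs.differentiable (by simp)
  have hρs : ContDiff ℝ ∞ Real.smoothTransition := Real.smoothTransition.contDiff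
  -- the data of the path
  have hCG : ∀ t : ℝ, CG i j (fun x => Real.smoothTransition t * qf x) qg lo hi Fm Fp Gm Gp := by
    intro t
    have h0 := Real.smoothTransition.nonneg t
    have h1 := Real.smoothTransition.le_one t
    obtain ⟨n1, n2, n3, n4⟩ := h.nn
    refine ⟨h.ne, contDiff_const.mul h.fs, h.gs, fun x a => by rw [h.fi], h.gj, ?_, h.gsupp, ?_,
      h.gb, h.nn, h.lh⟩
    · intro x hx k hk
      refine h.fsupp x (fun h2 => hx ?_) k hk
      rw [h2, mul_zero]
    · intro x
      obtain ⟨h2, h3⟩ := h.fb x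
      constructor
      · nlinarith
      · nlinarith
  have hCF := (comm_cf i j lo hi Fm Fp Gm Gp ℝ (fun t x => Real.smoothTransition t * qf x)
    (fun _ => qg) ((hρs.comp contDiff_fst).mul (h.fs.comp contDiff_snd)) (h.gs.comp contDiff_snd)
    hCG).2 U hU
  have hge1 : ∀ t : ℝ, 1 ≤ t → (fun x => Real.smoothTransition t * qf x) = qf := by
    intro t ht
    funext x
    rw [Real.smoothTransition.one_of_one_le ht, one_mul]
  have hle0 : ∀ t : ℝ, t ≤ 0 → ∀ x, comm i j (fun x => Real.smoothTransition t * qf x) qg x = x := by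
    intro t ht x
    have h1 : Real.smoothTransition t = 0 := Real.smoothTransition.zero_of_nonpos ht
    have h2 : qg (x + -(qg x) • ev j) = qg x := h.gj x _
    simp only [Pool.Agent.H6.ST.comm, shear, h1, zero_mul, neg_zero, zero_smul, add_zero]
    rw [h2, neg_smul, neg_add_cancel_right]
  refine ⟨fun t => comm i j (fun x => Real.smoothTransition t * qf x) qg,
    ⟨hCF, hle0, fun t ht x => by rw [hge1 t ht]⟩, fun c => ?_⟩
  -- the orbit of the centre
  set m : ℤ := round (g (ctr c)) with hm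
  set c1 : Fin 4 → ℤ := c - Pi.single j m with hc1
  set n : ℤ := round (f (ctr c1)) with hn
  set c2 : Fin 4 → ℤ := c1 - Pi.single i n with hc2
  set c3 : Fin 4 → ℤ := c2 + Pi.single j (round (g (ctr c2))) with hc3
  let y2 : ℝ → Eu 4 := fun t => ctr c1 + (-(Real.smoothTransition t * n)) • ev i
  let y3 : ℝ → Eu 4 := fun t => y2 t + qg (y2 t) • ev j
  have hqg0 : ∀ c', fderiv ℝ qg (ctr c') = 0 := by
    intro c'
    have h1 : qg =ᶠ[𝓝 (ctr c')] fun _ => (round (g (ctr c')) : ℝ) :=
      Filter.mem_of_superset (core_nhds θ hθ1 c') fun x hx => hg c' x hx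
    rw [h1.fderiv_eq]
    exact (hasFDerivAt_const _ _).fderiv
  have hqf0 : ∀ c', fderiv ℝ qf (ctr c') = 0 := by
    intro c'
    have h1 : qf =ᶠ[𝓝 (ctr c')] fun _ => (round (f (ctr c')) : ℝ) :=
      Filter.mem_of_superset (core_nhds θ hθ1 c') fun x hx => hf c' x hx
    rw [h1.fderiv_eq]
    exact (hasFDerivAt_const _ _).fderiv
  have hqgv : ∀ c', qg (ctr c') = (round (g (ctr c')) : ℝ) := fun c' =>
    hg c' _ (mem_of_mem_nhds (core_nhds θ hθ1 c'))
  have hqfv : ∀ c', qf (ctr c') = (round (f (ctr c')) : ℝ) := fun c' =>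
    hf c' _ (mem_of_mem_nhds (core_nhds θ hθ1 c'))
  have hy2s : ContDiff ℝ ∞ y2 := by
    exact contDiff_const.add (((hρs.mul contDiff_const).neg).smul contDiff_const)
  have hy3s : ContDiff ℝ ∞ y3 := hy2s.add ((h.gs.comp hy2s).smul contDiff_const)
  -- the derivative
  have hder : ∀ t, fderiv ℝ (comm i j (fun x => Real.smoothTransition t * qf x) qg) (ctr c) =
      (ContinuousLinearMap.id ℝ (Eu 4) +
        (Real.smoothTransition t • fderiv ℝ qf (y3 t)).smulRight (ev i)) ∘L
      (ContinuousLinearMap.id ℝ (Eu 4) + (fderiv ℝ qg (y2 t)).smulRight (ev j)) := by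
    intro t
    have hF : Differentiable ℝ fun x => Real.smoothTransition t * qf x := hqf.const_mul _
    have hF' : ∀ x, fderiv ℝ (fun x => Real.smoothTransition t * qf x) x =
        Real.smoothTransition t • fderiv ℝ qf x := fun x => fderiv_const_mul (hqf x) _
    have hFn : ∀ x, fderiv ℝ (fun x => -(Real.smoothTransition t * qf x)) x =
        -(Real.smoothTransition t • fderiv ℝ qf x) := fun x => by
      rw [fderiv_fun_neg, hF']
    have e1 : shear j (fun y => - qg y) (ctr c) = ctr c1 := by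
      simp only [shear]
      rw [hqgv c, ← hm, ctr_sub]
    have e2 : shear i (fun y => -(Real.smoothTransition t * qf y)) (ctr c1) = y2 t := by
      simp only [shear]
      rw [hqfv c1, ← hn]
    have e3 : shear j qg (y2 t) = y3 t := rfl
    have d1 := hasFDerivAt_shear j (fun y => - qg y) hqg.neg (ctr c)
    have d2 := hasFDerivAt_shear i (fun y => -(Real.smoothTransition t * qf y)) hF.neg (ctr c1)
    have d3 := hasFDerivAt_shear j qg hqg (y2 t)
    have d4 := hasFDerivAt_shear i (fun y => Real.smoothTransition t * qf y) hF (y3 t)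
    rw [fderiv_fun_neg, hqg0 c] at d1
    rw [hFn, hqf0 c1] at d2
    rw [hF'] at d4
    simp only [neg_zero, smul_zero, ContinuousLinearMap.zero_smulRight, add_zero] at d1 d2
    rw [← e1] at d2
    have d12 := d2.comp (ctr c) d1
    rw [← e2, ← e1] at d3
    have d123 := d3.comp (ctr c) d12
    have d4' : HasFDerivAt (shear i (fun y => Real.smoothTransition t * qf y))
        (ContinuousLinearMap.id ℝ (Eu 4) +
          (Real.smoothTransition t • fderiv ℝ qf (y3 t)).smulRight (ev i))
        (shear j qg (shear i (fun y => -(Real.smoothTransition t * qf y))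
          (shear j (fun y => - qg y) (ctr c)))) := by
      rw [e1, e2, e3]
      exact d4
    have d := d4'.comp (ctr c) d123
    have d' : HasFDerivAt (𝕜 := ℝ) (comm i j (fun x => Real.smoothTransition t * qf x) qg) _
      (ctr c) := d
    rw [d'.fderiv]
    simp only [ContinuousLinearMap.comp_id]
    rw [e1, e2]
  have hdi : ∀ x, fderiv ℝ qf x (ev i) = 0 := fderiv_ev i qf hqf h.fi
  have hdj : ∀ x, fderiv ℝ qg x (ev j) = 0 := fderiv_ev j qg hqg h.gj
  -- the ends
  have hy2l : ∀ t ≤ 0, y2 t = ctr c1 := by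
    intro t ht
    simp only [y2]
    rw [Real.smoothTransition.zero_of_nonpos ht, zero_mul, neg_zero, zero_smul, add_zero]
  have hy2r : ∀ t, 1 ≤ t → y2 t = ctr c2 := by
    intro t ht
    simp only [y2]
    rw [Real.smoothTransition.one_of_one_le ht, one_mul, ctr_sub]
  have hy3r : ∀ t, 1 ≤ t → y3 t = ctr c3 := by
    intro t ht
    simp only [y3]
    rw [hy2r t ht, hqgv c2, ctr_add]
  let w : ℝ → ℝ := fun u => 1 - Real.smoothTransition u
  have hws : ContDiff ℝ ∞ w := contDiff_const.sub hρs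
  refine ⟨fun u t => (ContinuousLinearMap.id ℝ (Eu 4) +
      ((w u * Real.smoothTransition t) • fderiv ℝ qf (y3 t)).smulRight (ev i)) ∘L
    (ContinuousLinearMap.id ℝ (Eu 4) + (w u • fderiv ℝ qg (y2 t)).smulRight (ev j)), ?_, ?_, ?_,
    ?_, ?_, ?_⟩
  · -- smooth
    have s1 : ContDiff ℝ ∞ (fderiv ℝ qf) := h.fs.fderiv_right (m := ∞) (by simp)
    have s2 : ContDiff ℝ ∞ (fderiv ℝ qg) := h.gs.fderiv_right (m := ∞) (by simp)
    refine ContDiff.clm_comp ?_ ?_
    · refine contDiff_const.add (ContDiff.smulRight ?_ contDiff_const)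
      exact ((hws.comp contDiff_fst).mul (hρs.comp contDiff_snd)).smul
        (s1.comp (hy3s.comp contDiff_snd))
    · refine contDiff_const.add (ContDiff.smulRight ?_ contDiff_const)
      exact (hws.comp contDiff_fst).smul (s2.comp (hy2s.comp contDiff_snd))
  · intro u t
    have hmul : ∀ A B : Eu 4 →L[ℝ] Eu 4, (A ∘L B).det = A.det * B.det := fun A B =>
      LinearMap.det_comp (A : Eu 4 →ₗ[ℝ] Eu 4) (B : Eu 4 →ₗ[ℝ] Eu 4)
    rw [hmul, det_add_smulRight, det_add_smulRight, one_mul]
    · show w u • fderiv ℝ qg (y2 t) (ev j) = 0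
      rw [hdj, smul_zero]
    · show (w u * Real.smoothTransition t) • fderiv ℝ qf (y3 t) (ev i) = 0
      rw [hdi, smul_zero]
  · intro u hu t
    have h1 : w u = 1 := by
      simp only [w]
      rw [Real.smoothTransition.zero_of_nonpos hu, sub_zero]
    simp only [h1, one_mul, one_smul]
    exact (hder t).symm
  · intro u hu t
    have h1 : w u = 0 := by
      simp only [w]
      rw [Real.smoothTransition.one_of_one_le hu, sub_self]
    simp only [h1, zero_mul, zero_smul, ContinuousLinearMap.zero_smulRight, add_zero,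
      ContinuousLinearMap.comp_id]
  · intro u t ht
    simp only [Real.smoothTransition.zero_of_nonpos ht, mul_zero, zero_smul,
      ContinuousLinearMap.zero_smulRight, add_zero, hy2l t ht, hqg0, smul_zero,
      ContinuousLinearMap.comp_id]
  · intro u t ht
    simp only [hy2r t ht, hqg0, hy3r t ht, hqf0, smul_zero,
      ContinuousLinearMap.zero_smulRight, add_zero, ContinuousLinearMap.comp_id]

end Pool.Agent.H23.ST
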