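import Pool.Agent.H23.ST.Bu2

/-! # ST-C1: quantization of a function -/

set_option autoImplicit false

namespace Pool.Agent.H23.ST

open MeasureTheory Set Pool.Agent.H68.VD Pool.Agent.H68.GM Pool.Agent.H6.ST
open scoped ENNReal ContDiff Topology

noncomputable section

/-- a smooth step -/
def stc1_la (θ t : ℝ) : ℝ := Real.smoothTransition ((t + θ) / (2 * θ))

/-- a smooth partition of unity on the line -/
def stc1_ch (θ t : ℝ) : ℝ := stc1_la θ t - stc1_la θ (t - 1)

theorem stc1_la_zero {θ t : ℝ} (hθ : 0 < θ) (h : t ≤ -θ) : stc1_la θ t = 0 :=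
  Real.smoothTransition.zero_of_nonpos (div_nonpos_of_nonpos_of_nonneg (by linarith) (by linarith))

theorem stc1_la_one {θ t : ℝ} (hθ : 0 < θ) (h : θ ≤ t) : stc1_la θ t = 1 :=
  Real.smoothTransition.one_of_one_le (by rw [le_div_iff₀ (by linarith)]; linarith)

theorem stc1_la_nonneg (θ t : ℝ) : 0 ≤ stc1_la θ t := Real.smoothTransition.nonneg _

theorem stc1_la_le (θ t : ℝ) : stc1_la θ t ≤ 1 := Real.smoothTransition.le_one _

theorem stc1_la_smooth (θ : ℝ) : ContDiff ℝ ∞ (stc1_la θ) :=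
  Real.smoothTransition.contDiff.comp ((contDiff_id.add contDiff_const).div_const _)

theorem stc1_ch_smooth (θ : ℝ) : ContDiff ℝ ∞ (stc1_ch θ) :=
  (stc1_la_smooth θ).sub ((stc1_la_smooth θ).comp (contDiff_id.sub contDiff_const))

theorem stc1_ch_le0 {θ t : ℝ} (hθ : 0 < θ) (h : t ≤ -θ) : stc1_ch θ t = 0 := by
  unfold stc1_ch
  rw [stc1_la_zero hθ h, stc1_la_zero hθ (by linarith), sub_zero]

theorem stc1_ch_ge {θ t : ℝ} (hθ : 0 < θ) (h : 1 + θ ≤ t) : stc1_ch θ t = 0 := by
  unfold stc1_ch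
  rw [stc1_la_one hθ (by linarith), stc1_la_one hθ (by linarith), sub_self]

theorem stc1_ch_one {θ t : ℝ} (hθ : 0 < θ) (h1 : θ ≤ t) (h2 : t ≤ 1 - θ) : stc1_ch θ t = 1 := by
  unfold stc1_ch
  rw [stc1_la_one hθ h1, stc1_la_zero hθ (by linarith), sub_zero]

theorem stc1_ch_nonneg {θ : ℝ} (hθ : 0 < θ) (hθ1 : θ < 1 / 4) (t : ℝ) : 0 ≤ stc1_ch θ t := by
  unfold stc1_ch
  rcases le_total θ t with h | h
  · rw [stc1_la_one hθ h]
    linarith [stc1_la_le θ (t - 1)]
  · rw [stc1_la_zero hθ (show t - 1 ≤ -θ by linarith), sub_zero]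
    exact stc1_la_nonneg _ _

theorem stc1_ch_le {θ : ℝ} (t : ℝ) : stc1_ch θ t ≤ 1 := by
  unfold stc1_ch
  linarith [stc1_la_le θ t, stc1_la_nonneg θ (t - 1)]

theorem stc1_ch_add {θ t : ℝ} (hθ : 0 < θ) (h : |t| < 1 - θ) :
    stc1_ch θ (t + 1) + stc1_ch θ t = 1 := by
  obtain ⟨h1, h2⟩ := abs_lt.mp h
  unfold stc1_ch
  rw [add_sub_cancel_right, stc1_la_one hθ (show θ ≤ t + 1 by linarith),
    stc1_la_zero hθ (show t - 1 ≤ -θ by linarith)]
  ring

/-- the weight, constant in the direction `i` -/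
def stc1_V (θ : ℝ) (i : Fin 4) (x : Eu 4) : ℝ := ∏ k, (if k = i then 1 else stc1_ch θ (x k))

/-- the weight with compact support -/
def stc1_W (θ : ℝ) (x : Eu 4) : ℝ := ∏ k, stc1_ch θ (x k)

theorem stc1_coord_smooth (k : Fin 4) : ContDiff ℝ ∞ (fun x : Eu 4 => x k) := by
  exact (contDiff_euclidean (𝕜 := ℝ) (n := ∞) (f := fun x : Eu 4 => x)).mp contDiff_id k

theorem stc1_V_smooth (θ : ℝ) (i : Fin 4) : ContDiff ℝ ∞ (stc1_V θ i) := by
  unfold stc1_V
  apply contDiff_prod
  intro k _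
  by_cases hk : k = i
  · simp only [hk, if_true]
    exact contDiff_const
  · simp only [hk, if_false]
    exact (stc1_ch_smooth θ).comp (stc1_coord_smooth k)

theorem stc1_W_smooth (θ : ℝ) : ContDiff ℝ ∞ (stc1_W θ) := by
  unfold stc1_W
  apply contDiff_prod
  intro k _
  exact (stc1_ch_smooth θ).comp (stc1_coord_smooth k)

theorem stc1_norm_le {x : Eu 4} {r : ℝ} (hr : 0 ≤ r) (h : ∀ k, |x k| ≤ r) : ‖x‖ ≤ 2 * r := by
  rw [EuclideanSpace.norm_eq]
  apply Real.sqrt_le_iff.mpr
  refine ⟨by positivity, ?_⟩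
  have h1 : ∑ k : Fin 4, ‖x k‖ ^ 2 ≤ ∑ _k : Fin 4, r ^ 2 := by
    apply Finset.sum_le_sum
    intro k _
    rw [Real.norm_eq_abs]
    exact pow_le_pow_left₀ (abs_nonneg _) (h k) 2
  refine h1.trans ?_
  rw [Finset.sum_const, Finset.card_univ, Fintype.card_fin, nsmul_eq_mul]
  push_cast
  nlinarith

theorem stc1_W_supp {θ : ℝ} (hθ : 0 < θ) (hθ1 : θ < 1 / 4) : HasCompactSupport (stc1_W θ) := by
  apply HasCompactSupport.of_support_subset_isCompact (isCompact_closedBall (0 : Eu 4) (2 * 2))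
  intro x hx
  rw [mem_closedBall_zero_iff]
  apply stc1_norm_le (by norm_num)
  intro k
  have h1 : stc1_ch θ (x k) ≠ 0 := by
    intro h0
    apply hx
    unfold stc1_W
    exact Finset.prod_eq_zero (Finset.mem_univ k) h0
  rw [abs_le]
  constructor
  · by_contra hc
    exact h1 (stc1_ch_le0 hθ (by linarith))
  · by_contra hc
    exact h1 (stc1_ch_ge hθ (by linarith))

theorem stc1_bd {θ : ℝ} (hθ : 0 < θ) (hθ1 : θ < 1 / 4) : ∃ C1 : ℝ, 0 ≤ C1 ∧ ∀ (i : Fin 4) (x : Eu 4),
    ‖fderiv ℝ (stc1_V θ i) x‖ ≤ C1 ∧ ‖fderiv ℝ (fderiv ℝ (stc1_V θ i)) x‖ ≤ C1 := by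
  have hc := stc1_W_supp hθ hθ1
  have hs := stc1_W_smooth θ
  obtain ⟨A1, hA1⟩ := (hs.continuous_fderiv (by simp)).bounded_above_of_compact_support
    (hc.fderiv (𝕜 := ℝ))
  have hs2 : ContDiff ℝ ∞ (fderiv ℝ (stc1_W θ)) := hs.fderiv_right (by simp)
  obtain ⟨A2, hA2⟩ := (hs2.continuous_fderiv (by simp)).bounded_above_of_compact_support
    ((hc.fderiv (𝕜 := ℝ)).fderiv (𝕜 := ℝ))
  refine ⟨max (max A1 A2) 0, le_max_right _ _, ?_⟩
  intro i x
  -- invariance of `V`
  have hinv : ∀ (a : ℝ), (fun y => stc1_V θ i (y + a • ev i)) = stc1_V θ i := by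
    intro a
    funext y
    unfold stc1_V
    apply Finset.prod_congr rfl
    intro k _
    by_cases hk : k = i
    · simp [hk]
    · have h1 : (y + a • ev i : Eu 4) k = y k := by
        simp [ev, hk]
      rw [if_neg hk, if_neg hk, h1]
  set a : ℝ := 1 / 2 - x i with ha
  set y : Eu 4 := x + a • ev i with hy
  have hyi : y i = 1 / 2 := by
    rw [hy, ha]
    simp [ev]
  have hloc : stc1_V θ i =ᶠ[𝓝 y] stc1_W θ := by
    have ho : IsOpen {z : Eu 4 | θ < z i ∧ z i < 1 - θ} := by
      apply IsOpen.inter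
      · exact isOpen_lt continuous_const (stc1_coord_smooth i).continuous
      · exact isOpen_lt (stc1_coord_smooth i).continuous continuous_const
    have hmem : y ∈ {z : Eu 4 | θ < z i ∧ z i < 1 - θ} := by
      constructor
      · rw [hyi]; linarith
      · rw [hyi]; linarith
    filter_upwards [ho.mem_nhds hmem] with z hz
    unfold stc1_V stc1_W
    apply Finset.prod_congr rfl
    intro k _
    by_cases hk : k = i
    · rw [if_pos hk, hk, stc1_ch_one hθ hz.1.le hz.2.le]
    · rw [if_neg hk]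
  have h1 : fderiv ℝ (stc1_V θ i) x = fderiv ℝ (stc1_V θ i) y := by
    have := fderiv_comp_add_right (𝕜 := ℝ) (f := stc1_V θ i) (x := x) (a • ev i : Eu 4)
    rw [hinv] at this
    exact this
  have h2 : fderiv ℝ (fderiv ℝ (stc1_V θ i)) x = fderiv ℝ (fderiv ℝ (stc1_V θ i)) y := by
    have := fderiv_comp_add_right (𝕜 := ℝ) (f := fderiv ℝ (stc1_V θ i)) (x := x) (a • ev i : Eu 4)
    have h3 : (fun z => fderiv ℝ (stc1_V θ i) (z + a • ev i)) = fderiv ℝ (stc1_V θ i) := by
      funext z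
      have := fderiv_comp_add_right (𝕜 := ℝ) (f := stc1_V θ i) (x := z) (a • ev i : Eu 4)
      rw [hinv] at this
      exact this.symm
    rw [h3] at this
    exact this
  rw [h1, h2, hloc.fderiv_eq, hloc.fderiv.fderiv_eq]
  exact ⟨(hA1 y).trans ((le_max_left _ _).trans (le_max_left _ _)),
    (hA2 y).trans ((le_max_right _ _).trans (le_max_left _ _))⟩

theorem stc1_V_nonneg {θ : ℝ} (hθ : 0 < θ) (hθ1 : θ < 1 / 4) (i : Fin 4) (x : Eu 4) :
    0 ≤ stc1_V θ i x := by
  apply Finset.prod_nonneg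
  intro k _
  by_cases hk : k = i
  · rw [if_pos hk]
    norm_num
  · rw [if_neg hk]
    exact stc1_ch_nonneg hθ hθ1 _

theorem stc1_V_le {θ : ℝ} (hθ : 0 < θ) (hθ1 : θ < 1 / 4) (i : Fin 4) (x : Eu 4) :
    stc1_V θ i x ≤ 1 := by
  apply Finset.prod_le_one
  · intro k _
    by_cases hk : k = i
    · rw [if_pos hk]
      norm_num
    · rw [if_neg hk]
      exact stc1_ch_nonneg hθ hθ1 _
  · intro k _
    by_cases hk : k = i
    · rw [if_pos hk]
    · rw [if_neg hk]
      exact stc1_ch_le _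

theorem stc1_V_eq (θ : ℝ) (i : Fin 4) (x : Eu 4) (c : Fin 4 → ℤ) :
    stc1_V θ i (x - iv c) = ∏ k, (if k = i then 1 else stc1_ch θ (x k - c k)) := rfl

/-- the index set near a point -/
def stc1_S (i : Fin 4) (n : Fin 4 → ℤ) : Finset (Fin 4 → ℤ) :=
  Fintype.piFinset (fun k => if k = i then {0} else {n k - 1, n k})

theorem stc1_S_card (i : Fin 4) (n : Fin 4 → ℤ) : (stc1_S i n).card ≤ 16 := by
  unfold stc1_S
  rw [Fintype.card_piFinset]
  calc ∏ k : Fin 4, (if k = i then ({0} : Finset ℤ) else {n k - 1, n k}).card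
      ≤ ∏ _k : Fin 4, 2 := by
        apply Finset.prod_le_prod'
        intro k _
        split_ifs
        · simp
        · exact Finset.card_le_two
    _ = 16 := by simp

theorem stc1_mem_S {i : Fin 4} {n c : Fin 4 → ℤ} : c ∈ stc1_S i n ↔
    c i = 0 ∧ ∀ k, k ≠ i → c k = n k - 1 ∨ c k = n k := by
  unfold stc1_S
  rw [Fintype.mem_piFinset]
  constructor
  · intro h
    refine ⟨?_, ?_⟩
    · have := h i
      rw [if_pos rfl, Finset.mem_singleton] at this
      exact this
    · intro k hk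
      have := h k
      rw [if_neg hk, Finset.mem_insert, Finset.mem_singleton] at this
      exact this
  · rintro ⟨h1, h2⟩ k
    by_cases hk : k = i
    · rw [if_pos hk, Finset.mem_singleton, hk]
      exact h1
    · rw [if_neg hk, Finset.mem_insert, Finset.mem_singleton]
      exact h2 k hk

/-- the weights are a partition of unity -/
theorem stc1_sum {θ : ℝ} (hθ : 0 < θ) (i : Fin 4) (n : Fin 4 → ℤ) (y : Eu 4)
    (hy : ∀ k, |y k - n k| < 1 - θ) : ∑ c ∈ stc1_S i n, stc1_V θ i (y - iv c) = 1 := by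
  have h1 : ∑ c ∈ stc1_S i n, stc1_V θ i (y - iv c) =
      ∑ c ∈ Fintype.piFinset (fun k => if k = i then ({0} : Finset ℤ) else {n k - 1, n k}),
        ∏ k, (fun (k : Fin 4) (m : ℤ) => if k = i then (1 : ℝ) else stc1_ch θ (y k - m)) k (c k) := by
    rfl
  rw [h1]
  refine (Finset.prod_univ_sum (fun k => if k = i then ({0} : Finset ℤ) else {n k - 1, n k})
    (fun (k : Fin 4) (m : ℤ) => if k = i then (1 : ℝ) else stc1_ch θ (y k - m))).symm.trans ?_
  apply Finset.prod_eq_one
  intro k _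
  by_cases hk : k = i
  · simp [hk]
  · simp only [if_neg hk]
    rw [Finset.sum_pair (by omega)]
    have h2 := stc1_ch_add hθ (hy k)
    push_cast
    rw [show y k - ((n k : ℝ) - 1) = y k - n k + 1 by ring]
    exact h2

/-- the terms of the quantization -/
def stc1_g (θ : ℝ) (i : Fin 4) (f : Eu 4 → ℝ) (x : Eu 4) (c : Fin 4 → ℤ) : ℝ :=
  if c i = 0 then (round (f (ctr c)) : ℝ) * stc1_V θ i (x - iv c) else 0

theorem stc1_g_supp {θ : ℝ} (hθ : 0 < θ) (i : Fin 4) (f : Eu 4 → ℝ) (n : Fin 4 → ℤ) (y : Eu 4)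
    (hy : ∀ k, |y k - n k| < 1 - θ) : Function.support (stc1_g θ i f y) ⊆ stc1_S i n := by
  intro c hc
  have hc' : stc1_g θ i f y c ≠ 0 := hc
  unfold stc1_g at hc'
  have h0 : c i = 0 := by
    by_contra h
    rw [if_neg h] at hc'
    exact hc' rfl
  rw [if_pos h0] at hc'
  have hV := right_ne_zero_of_mul hc'
  rw [stc1_V_eq, Finset.prod_ne_zero_iff] at hV
  rw [Finset.mem_coe, stc1_mem_S]
  refine ⟨h0, fun k hk => ?_⟩
  have h1 := hV k (Finset.mem_univ k)
  rw [if_neg hk] at h1
  obtain ⟨h2, h3⟩ := abs_lt.mp (hy k)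
  have h4 : -θ < y k - c k := by
    by_contra h
    exact h1 (stc1_ch_le0 hθ (by linarith))
  have h5 : y k - c k < 1 + θ := by
    by_contra h
    exact h1 (stc1_ch_ge hθ (by linarith))
  have h6 : (c k : ℝ) < n k + 1 := by linarith
  have h7 : (n k : ℝ) - 2 < c k := by linarith
  have h6' : c k < n k + 1 := by exact_mod_cast h6
  have h7' : n k - 2 < c k := by exact_mod_cast h7
  omega

/-- the local form of the quantization -/
theorem stc1_loc {θ : ℝ} (hθ : 0 < θ) (i : Fin 4) (f : Eu 4 → ℝ) (n : Fin 4 → ℤ) (y : Eu 4)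
    (hy : ∀ k, |y k - n k| < 1 - θ) : (∑ᶠ c, stc1_g θ i f y c) =
      ∑ c ∈ stc1_S i n, (round (f (ctr c)) : ℝ) * stc1_V θ i (y - iv c) := by
  rw [finsum_eq_sum_of_support_subset _ (stc1_g_supp hθ i f n y hy)]
  apply Finset.sum_congr rfl
  intro c hc
  unfold stc1_g
  rw [if_pos (stc1_mem_S.mp hc).1]

theorem stc1_ctr (i : Fin 4) (c : Fin 4 → ℤ) (m : ℤ) :
    (ctr (Function.update c i m) : Eu 4) = ctr c + ((m : ℝ) - c i) • ev i := by
  ext k
  by_cases hk : k = i
  · subst hk
    simp [ctr, ev]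
    ring
  · simp [ctr, ev, hk]

theorem stc1_round_near {t : ℝ} {θ : ℝ} (hθ1 : θ < 1 / 4) : |t - round t| < 1 - θ := by
  have := abs_sub_round t
  linarith

/-- ST-C1 (file Quant.lean): quantization of a function. -/
theorem quant (θ : ℝ) (hθ : 0 < θ) (hθ1 : θ < 1 / 4) (B : ℝ) : ∃ C : ℝ, 0 ≤ C ∧
    ∀ (i : Fin 4) (f : Eu 4 → ℝ), ContDiff ℝ ∞ f → (∀ x (a : ℝ), f (x + a • ev i) = f x) →
    (∀ x, ‖fderiv ℝ f x‖ ≤ B) → ∃ q : Eu 4 → ℝ, ContDiff ℝ ∞ q ∧
      (∀ x (a : ℝ), q (x + a • ev i) = q x) ∧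
      (∀ c, ∀ x ∈ core θ c, q x = (round (f (ctr c)) : ℝ)) ∧
      (∀ x, |q x - f x| ≤ C ∧ ‖fderiv ℝ q x‖ ≤ C ∧ ‖fderiv ℝ (fderiv ℝ q) x‖ ≤ C) ∧
      (∀ x, q x ≠ 0 → ∃ c : Fin 4 → ℤ, (∀ k, (c k : ℝ) - θ ≤ x k ∧ x k ≤ (c k : ℝ) + 1 + θ) ∧
        f (ctr c) ≠ 0) ∧
      (∀ a b : ℤ, (∀ y, (a : ℝ) ≤ f y ∧ f y ≤ b) → ∀ x, (a : ℝ) ≤ q x ∧ q x ≤ b) := by
  obtain ⟨C1, hC1, hV⟩ := stc1_bd hθ hθ1
  set R : ℝ := 2 * |B| + 1 with hR
  have hR0 : 0 ≤ R := by positivity
  refine ⟨R + 16 * (R * (1 + C1)), by positivity, ?_⟩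
  intro i f hf hfi hfB
  -- the Lipschitz bound of `f`
  have hlip : ∀ x y : Eu 4, (∀ k, |x k - y k| ≤ 1) → |f x - f y| ≤ 2 * |B| := by
    intro x y hxy
    have h1 := (convex_univ (𝕜 := ℝ) (E := Eu 4)).norm_image_sub_le_of_norm_fderiv_le (𝕜 := ℝ)
      (f := f) (C := |B|) (fun z _ => (hf.differentiable (by simp)) z)
      (fun z _ => (hfB z).trans (le_abs_self B)) (mem_univ y) (mem_univ x)
    have h2 : ‖x - y‖ ≤ 2 * 1 := stc1_norm_le (by norm_num) (fun k => hxy k)
    rw [Real.norm_eq_abs] at h1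
    calc |f x - f y| ≤ |B| * ‖x - y‖ := h1
      _ ≤ |B| * 2 := mul_le_mul_of_nonneg_left (by linarith) (abs_nonneg B)
      _ = 2 * |B| := by ring
  have hupd : ∀ (c : Fin 4 → ℤ) (m : ℤ), f (ctr (Function.update c i m)) = f (ctr c) := by
    intro c m
    rw [stc1_ctr, hfi]
  -- rounded values
  set r : (Fin 4 → ℤ) → ℝ := fun c => (round (f (ctr c)) : ℝ) with hr
  have hrd : ∀ c c' : Fin 4 → ℤ, (∀ k, |(c k : ℝ) - c' k| ≤ 1) → |r c - r c'| ≤ R := by
    intro c c' h
    have h1 := hlip (ctr c) (ctr c') (fun k => by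
      have : (ctr c : Eu 4) k - (ctr c' : Eu 4) k = (c k : ℝ) - c' k := by
        simp [ctr]
      rw [this]
      exact h k)
    have h2 := abs_sub_round (f (ctr c))
    have h3 := abs_sub_round (f (ctr c'))
    rw [abs_le] at h1 h2 h3 ⊢
    simp only [hr, hR]
    constructor <;> linarith
  -- local formula
  set q : Eu 4 → ℝ := fun x => ∑ᶠ c, stc1_g θ i f x c with hq
  have hloc : ∀ (n : Fin 4 → ℤ) (y : Eu 4), (∀ k, |y k - n k| < 1 - θ) → ∀ r0 : ℝ,
      q y = r0 + ∑ c ∈ stc1_S i n, (r c - r0) * stc1_V θ i (y - iv c) := by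
    intro n y hy r0
    have h1 : q y = ∑ c ∈ stc1_S i n, r c * stc1_V θ i (y - iv c) := stc1_loc hθ i f n y hy
    have h2 := stc1_sum hθ i n y hy
    rw [h1]
    have h3 : ∑ c ∈ stc1_S i n, (r c - r0) * stc1_V θ i (y - iv c) =
        ∑ c ∈ stc1_S i n, r c * stc1_V θ i (y - iv c) -
          r0 * ∑ c ∈ stc1_S i n, stc1_V θ i (y - iv c) := by
      rw [Finset.mul_sum, ← Finset.sum_sub_distrib]
      apply Finset.sum_congr rfl
      intro c _
      ring
    rw [h3, h2]
    ring
  -- the neighbourhood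
  have hnear : ∀ x : Eu 4, ∀ᶠ y in 𝓝 x, ∀ k, |y k - ((round (x k) : ℤ) : ℝ)| < 1 - θ := by
    intro x
    rw [Filter.eventually_all]
    intro k
    have ho : IsOpen {y : Eu 4 | |y k - ((round (x k) : ℤ) : ℝ)| < 1 - θ} :=
      isOpen_lt (((stc1_coord_smooth k).continuous.sub continuous_const).abs) continuous_const
    exact ho.mem_nhds (stc1_round_near hθ1)
  have hself : ∀ x : Eu 4, ∀ k, |x k - ((round (x k) : ℤ) : ℝ)| < 1 - θ := fun x k =>
    stc1_round_near hθ1
  -- the reference value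
  set c0 : Eu 4 → Fin 4 → ℤ := fun x k => if k = i then 0 else round (x k) with hc0
  have hdist : ∀ x : Eu 4, ∀ c ∈ stc1_S i (fun k => round (x k)), |r c - r (c0 x)| ≤ R := by
    intro x c hc
    apply hrd
    intro k
    rw [stc1_mem_S] at hc
    by_cases hk : k = i
    · simp [hc0, hk, hc.1]
    · rcases hc.2 k hk with h | h
      · simp [hc0, hk, h]
      · simp [hc0, hk, h]
  have hA : ∀ x : Eu 4, q =ᶠ[𝓝 x] fun y => r (c0 x) +
      ∑ c ∈ stc1_S i (fun k => round (x k)), (r c - r (c0 x)) * stc1_V θ i (y - iv c) := by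
    intro x
    filter_upwards [hnear x] with y hy
    exact hloc _ y hy _
  have hVc : ∀ c : Fin 4 → ℤ, ContDiff ℝ ∞ (fun y : Eu 4 => stc1_V θ i (y - iv c)) := fun c =>
    (stc1_V_smooth θ i).comp (contDiff_id.sub contDiff_const)
  have hfd : ∀ (c : Fin 4 → ℤ) (y : Eu 4), fderiv ℝ (fun y : Eu 4 => stc1_V θ i (y - iv c)) y =
      fderiv ℝ (stc1_V θ i) (y - iv c) := by
    intro c y
    exact fderiv_comp_sub (𝕜 := ℝ) (f := stc1_V θ i) (x := y) (iv c)
  have hd1 : ∀ (x y : Eu 4), fderiv ℝ (fun y => r (c0 x) +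
      ∑ c ∈ stc1_S i (fun k => round (x k)), (r c - r (c0 x)) * stc1_V θ i (y - iv c)) y =
      ∑ c ∈ stc1_S i (fun k => round (x k)), (r c - r (c0 x)) • fderiv ℝ (stc1_V θ i) (y - iv c) := by
    intro x y
    rw [fderiv_const_add, fderiv_fun_sum]
    · apply Finset.sum_congr rfl
      intro c _
      rw [fderiv_const_mul ((hVc c).differentiable (by simp) y), hfd]
    · intro c _
      exact ((hVc c).differentiable (by simp) y).const_mul _
  have hDV : ContDiff ℝ ∞ (fderiv ℝ (stc1_V θ i)) := (stc1_V_smooth θ i).fderiv_right (by simp)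
  have hd2 : ∀ (x y : Eu 4), fderiv ℝ (fun y =>
      ∑ c ∈ stc1_S i (fun k => round (x k)),
        (r c - r (c0 x)) • fderiv ℝ (stc1_V θ i) (y - iv c)) y =
      ∑ c ∈ stc1_S i (fun k => round (x k)),
        (r c - r (c0 x)) • fderiv ℝ (fderiv ℝ (stc1_V θ i)) (y - iv c) := by
    intro x y
    have hdd : ∀ c : Fin 4 → ℤ, DifferentiableAt ℝ
        (fun y : Eu 4 => fderiv ℝ (stc1_V θ i) (y - iv c)) y := fun c =>
      ((hDV.comp (contDiff_id.sub contDiff_const)).differentiable (by simp)) y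
    rw [fderiv_fun_sum]
    · apply Finset.sum_congr rfl
      intro c _
      rw [fderiv_fun_const_smul (hdd c)]
      congr 1
      exact fderiv_comp_sub (𝕜 := ℝ) (f := fderiv ℝ (stc1_V θ i)) (x := y) (iv c)
    · intro c _
      exact (hdd c).fun_const_smul _
  have hbound : ∀ (x : Eu 4) (F : Type) [NormedAddCommGroup F] [NormedSpace ℝ F]
      (w : (Fin 4 → ℤ) → F) (D : ℝ), 0 ≤ D → (∀ c, ‖w c‖ ≤ D) →
      ‖∑ c ∈ stc1_S i (fun k => round (x k)), (r c - r (c0 x)) • w c‖ ≤ 16 * (R * D) := by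
    intro x F _ _ w D hD hw
    calc ‖∑ c ∈ stc1_S i (fun k => round (x k)), (r c - r (c0 x)) • w c‖
        ≤ ∑ c ∈ stc1_S i (fun k => round (x k)), ‖(r c - r (c0 x)) • w c‖ := norm_sum_le _ _
      _ ≤ ∑ _c ∈ stc1_S i (fun k => round (x k)), R * D := by
          apply Finset.sum_le_sum
          intro c hc
          rw [norm_smul, Real.norm_eq_abs]
          exact mul_le_mul (hdist x c hc) (hw c) (norm_nonneg _) hR0
      _ = ((stc1_S i (fun k => round (x k))).card : ℝ) * (R * D) := by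
          rw [Finset.sum_const, nsmul_eq_mul]
      _ ≤ 16 * (R * D) := by
          apply mul_le_mul_of_nonneg_right _ (by positivity)
          exact_mod_cast stc1_S_card i _
  refine ⟨q, ?_, ?_, ?_, ?_, ?_, ?_⟩
  · -- smoothness
    rw [contDiff_iff_contDiffAt]
    intro x
    refine ContDiffAt.congr_of_eventuallyEq ?_ (hA x)
    apply ContDiff.contDiffAt
    apply contDiff_const.add
    apply ContDiff.sum
    intro c _
    exact contDiff_const.mul (hVc c)
  · -- invariance
    intro x a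
    simp only [hq]
    congr 1
    funext c
    unfold stc1_g
    have h1 : stc1_V θ i (x + a • ev i - iv c) = stc1_V θ i (x - iv c) := by
      rw [stc1_V_eq, stc1_V_eq]
      apply Finset.prod_congr rfl
      intro k _
      by_cases hk : k = i
      · rw [if_pos hk, if_pos hk]
      · have h2 : (x + a • ev i : Eu 4) k = x k := by
          simp [ev, hk]
        rw [if_neg hk, if_neg hk, h2]
    rw [h1]
  · -- values on the cores
    intro c x hx
    set c' := Function.update c i 0 with hc'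
    have h1 : q x = stc1_g θ i f x c' := by
      apply finsum_eq_single
      intro d hd
      unfold stc1_g
      by_cases hdi : d i = 0
      · rw [if_pos hdi]
        obtain ⟨k, hk⟩ := Function.ne_iff.mp hd
        have hki : k ≠ i := by
          intro h
          apply hk
          rw [h, hdi, hc', Function.update_self]
        have hkc : c' k = c k := by
          rw [hc', Function.update_of_ne hki]
        rw [hkc] at hk
        obtain ⟨h2, h3⟩ := abs_le.mp (hx k)
        have h4 : stc1_V θ i (x - iv d) = 0 := by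
          rw [stc1_V_eq]
          apply Finset.prod_eq_zero (Finset.mem_univ k)
          rw [if_neg hki]
          rcases lt_or_gt_of_ne hk with h | h
          · apply stc1_ch_ge hθ
            have : (d k : ℝ) + 1 ≤ c k := by exact_mod_cast h
            linarith
          · apply stc1_ch_le0 hθ
            have : (c k : ℝ) + 1 ≤ d k := by exact_mod_cast h
            linarith
        rw [h4, mul_zero]
      · rw [if_neg hdi]
    rw [h1]
    unfold stc1_g
    rw [if_pos (by rw [hc', Function.update_self]), hc', hupd, stc1_V_eq]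
    rw [Finset.prod_eq_one, mul_one]
    intro k _
    by_cases hk : k = i
    · rw [if_pos hk]
    · rw [if_neg hk, Function.update_of_ne hk]
      obtain ⟨h2, h3⟩ := abs_le.mp (hx k)
      exact stc1_ch_one hθ (by linarith) (by linarith)
  · -- bounds
    intro x
    refine ⟨?_, ?_, ?_⟩
    · have h1 := hloc _ x (hself x) (r (c0 x))
      have h2 := hbound x ℝ (fun c => stc1_V θ i (x - iv c)) 1 zero_le_one (fun c => by
        rw [Real.norm_eq_abs, abs_of_nonneg (stc1_V_nonneg hθ hθ1 i _)]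
        exact stc1_V_le hθ hθ1 i _)
      simp only [smul_eq_mul, Real.norm_eq_abs] at h2
      have h3 : |r (c0 x) - f x| ≤ R := by
        have h4 := abs_sub_round (f (ctr (c0 x)))
        have h5 := hlip (ctr (c0 x)) (x + (1 / 2 - x i) • ev i) (fun k => by
          by_cases hk : k = i
          · subst hk
            simp [ctr, ev, hc0]
          · have h6 : (ctr (c0 x) : Eu 4) k - (x + (1 / 2 - x i) • ev i : Eu 4) k =
                (round (x k) : ℝ) + 1 / 2 - x k := by
              simp [ctr, ev, hc0, hk]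
            rw [h6]
            have h7 := abs_sub_round (x k)
            rw [abs_le] at h7 ⊢
            constructor <;> linarith)
        rw [hfi] at h5
        rw [abs_le] at h4 h5 ⊢
        simp only [hr, hR]
        constructor <;> linarith
      rw [h1]
      have h8 : r (c0 x) + ∑ c ∈ stc1_S i (fun k => round (x k)),
          (r c - r (c0 x)) * stc1_V θ i (x - iv c) - f x = (r (c0 x) - f x) +
          ∑ c ∈ stc1_S i (fun k => round (x k)), (r c - r (c0 x)) * stc1_V θ i (x - iv c) := by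
        ring
      rw [h8]
      refine (abs_add_le _ _).trans ?_
      have h9 : 16 * (R * 1) ≤ 16 * (R * (1 + C1)) := by
        apply mul_le_mul_of_nonneg_left _ (by norm_num)
        apply mul_le_mul_of_nonneg_left _ hR0
        linarith
      linarith
    · rw [(hA x).fderiv_eq, hd1]
      have h2 := hbound x _ (fun c => fderiv ℝ (stc1_V θ i) (x - iv c)) C1 hC1
        (fun c => (hV i _).1)
      have h9 : 16 * (R * C1) ≤ 16 * (R * (1 + C1)) := by
        apply mul_le_mul_of_nonneg_left _ (by norm_num)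
        apply mul_le_mul_of_nonneg_left _ hR0
        linarith
      linarith
    · have h1 : fderiv ℝ q =ᶠ[𝓝 x] fun y => ∑ c ∈ stc1_S i (fun k => round (x k)),
          (r c - r (c0 x)) • fderiv ℝ (stc1_V θ i) (y - iv c) := by
        refine (hA x).fderiv.trans ?_
        filter_upwards with y
        exact hd1 x y
      rw [h1.fderiv_eq, hd2]
      have h2 := hbound x _ (fun c => fderiv ℝ (fderiv ℝ (stc1_V θ i)) (x - iv c)) C1 hC1
        (fun c => (hV i _).2)
      have h9 : 16 * (R * C1) ≤ 16 * (R * (1 + C1)) := by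
        apply mul_le_mul_of_nonneg_left _ (by norm_num)
        apply mul_le_mul_of_nonneg_left _ hR0
        linarith
      linarith
  · -- support
    intro x hx
    have h1 : ∃ c, stc1_g θ i f x c ≠ 0 := by
      by_contra h
      push Not at h
      exact hx (finsum_eq_zero_of_forall_eq_zero h)
    obtain ⟨c, hc⟩ := h1
    unfold stc1_g at hc
    have h0 : c i = 0 := by
      by_contra h
      rw [if_neg h] at hc
      exact hc rfl
    rw [if_pos h0] at hc
    have hV0 := right_ne_zero_of_mul hc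
    have hf0 := left_ne_zero_of_mul hc
    rw [stc1_V_eq, Finset.prod_ne_zero_iff] at hV0
    refine ⟨Function.update c i ⌊x i⌋, fun k => ?_, ?_⟩
    · by_cases hk : k = i
      · subst hk
        rw [Function.update_self]
        have h2 := Int.floor_le (x k)
        have h3 := Int.lt_floor_add_one (x k)
        constructor <;> linarith
      · rw [Function.update_of_ne hk]
        have h4 := hV0 k (Finset.mem_univ k)
        rw [if_neg hk] at h4
        constructor
        · by_contra h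
          exact h4 (stc1_ch_le0 hθ (by linarith))
        · by_contra h
          exact h4 (stc1_ch_ge hθ (by linarith))
    · rw [hupd]
      intro h
      rw [h, round_zero, Int.cast_zero] at hf0
      exact hf0 rfl
  · -- values between integers
    intro a b hab x
    have h1 : q x = ∑ c ∈ stc1_S i (fun k => round (x k)), r c * stc1_V θ i (x - iv c) :=
      stc1_loc hθ i f _ x (hself x)
    have h2 := stc1_sum hθ i (fun k => round (x k)) x (hself x)
    have h3 : ∀ c, (a : ℝ) ≤ r c ∧ r c ≤ b := by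
      intro c
      obtain ⟨h4, h5⟩ := hab (ctr c)
      have h6 : a ≤ round (f (ctr c)) := by
        rw [round_eq, Int.le_floor]
        linarith
      have h7 : round (f (ctr c)) ≤ b := by
        have h8 : round (f (ctr c)) < b + 1 := by
          rw [round_eq, Int.floor_lt]
          push_cast
          linarith
        omega
      simp only [hr]
      exact ⟨by exact_mod_cast h6, by exact_mod_cast h7⟩
    rw [h1]
    constructor
    · calc (a : ℝ) = ∑ c ∈ stc1_S i (fun k => round (x k)), (a : ℝ) * stc1_V θ i (x - iv c) := by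
            rw [← Finset.mul_sum, h2, mul_one]
        _ ≤ _ := Finset.sum_le_sum fun c _ =>
            mul_le_mul_of_nonneg_right (h3 c).1 (stc1_V_nonneg hθ hθ1 i _)
    · calc ∑ c ∈ stc1_S i (fun k => round (x k)), r c * stc1_V θ i (x - iv c)
          ≤ ∑ c ∈ stc1_S i (fun k => round (x k)), (b : ℝ) * stc1_V θ i (x - iv c) :=
            Finset.sum_le_sum fun c _ =>
              mul_le_mul_of_nonneg_right (h3 c).2 (stc1_V_nonneg hθ hθ1 i _)
        _ = b := by rw [← Finset.mul_sum, h2, mul_one]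

end

end Pool.Agent.H23.ST
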