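import Pool.Agent.H23.ST.Bu2
import Pool.Agent.H23.ST.Quant
import Pool.Agent.H23.ST.CommB
import Pool.Agent.H23.ST.CommC
import Pool.Agent.H23.ST.CommF

/-! # Project ST, row C6: commutators of shears are close to lattice maps -/

namespace Pool.Agent.H23.ST

open MeasureTheory Set Pool.Agent.H68.VD Pool.Agent.H68.GM Pool.Agent.H6.ST
open scoped ENNReal ContDiff Topology

/-- The quantized data are the data of a commutator. -/
theorem stc6_cg {θ : ℝ} (hθ : 0 < θ) {i j : Fin 4} {f g qf qg : Eu 4 → ℝ} {lo hi : Fin 4 → ℤ}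
    {Fm Fp Gm Gp : ℕ} (h : CG i j f g (fun k => lo k) (fun k => hi k) Fm Fp Gm Gp)
    (hqf : ContDiff ℝ ∞ qf) (hqg : ContDiff ℝ ∞ qg)
    (hfi : ∀ x (a : ℝ), qf (x + a • ev i) = qf x) (hgj : ∀ x (a : ℝ), qg (x + a • ev j) = qg x)
    (hfs : ∀ x, qf x ≠ 0 → ∃ c : Fin 4 → ℤ,
      (∀ k, (c k : ℝ) - θ ≤ x k ∧ x k ≤ (c k : ℝ) + 1 + θ) ∧ f (ctr c) ≠ 0)
    (hgs : ∀ x, qg x ≠ 0 → ∃ c : Fin 4 → ℤ,
      (∀ k, (c k : ℝ) - θ ≤ x k ∧ x k ≤ (c k : ℝ) + 1 + θ) ∧ g (ctr c) ≠ 0)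
    (hfb : ∀ a b : ℤ, (∀ y, (a : ℝ) ≤ f y ∧ f y ≤ b) → ∀ x, (a : ℝ) ≤ qf x ∧ qf x ≤ b)
    (hgb : ∀ a b : ℤ, (∀ y, (a : ℝ) ≤ g y ∧ g y ≤ b) → ∀ x, (a : ℝ) ≤ qg x ∧ qg x ≤ b) :
    CG i j qf qg (fun k => (lo k : ℝ) - θ) (fun k => (hi k : ℝ) + θ) Fm Fp Gm Gp := by
  have key : ∀ (c : Fin 4 → ℤ) (k : Fin 4), (lo k : ℝ) ≤ ctr c k → ctr c k ≤ (hi k : ℝ) →
      (lo k : ℝ) ≤ c k ∧ (c k : ℝ) + 1 ≤ hi k := by
    intro c k h1 h2
    have e : (ctr c : Eu 4) k = (c k : ℝ) + 1 / 2 := rfl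
    rw [e] at h1 h2
    constructor
    · have : lo k < c k + 1 := by
        have h3 : (lo k : ℝ) < (c k : ℝ) + 1 := by linarith
        exact_mod_cast h3
      exact_mod_cast (by omega : lo k ≤ c k)
    · have : c k < hi k := by
        have h3 : (c k : ℝ) < (hi k : ℝ) := by linarith
        exact_mod_cast h3
      exact_mod_cast (by omega : c k + 1 ≤ hi k)
  refine ⟨h.ne, hqf, hqg, hfi, hgj, ?_, ?_, ?_, ?_, h.nn, ?_⟩
  · intro x hx k hk
    obtain ⟨c, hc, hfc⟩ := hfs x hx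
    obtain ⟨h1, h2⟩ := h.fsupp (ctr c) hfc k hk
    obtain ⟨h3, h4⟩ := key c k h1 h2
    obtain ⟨h5, h6⟩ := hc k
    constructor <;> linarith
  · intro x hx k hk
    obtain ⟨c, hc, hgc⟩ := hgs x hx
    obtain ⟨h1, h2⟩ := h.gsupp (ctr c) hgc k hk
    obtain ⟨h3, h4⟩ := key c k h1 h2
    obtain ⟨h5, h6⟩ := hc k
    constructor <;> linarith
  · have h1 := hfb (-(Fm : ℤ)) (Fp : ℤ) (by
      intro y
      have := h.fb y
      push_cast
      exact this)
    intro x
    have := h1 x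
    push_cast at this
    exact this
  · have h1 := hgb (-(Gm : ℤ)) (Gp : ℤ) (by
      intro y
      have := h.gb y
      push_cast
      exact this)
    intro x
    have := h1 x
    push_cast at this
    exact this
  · intro k
    have := h.lh k
    linarith

/-- The data of a commutator on a larger box. -/
theorem stc6_mono {θ : ℝ} (hθ : 0 < θ) {i j : Fin 4} {f g : Eu 4 → ℝ} {lo hi : Fin 4 → ℤ}
    {Fm Fp Gm Gp : ℝ} (h : CG i j f g (fun k => lo k) (fun k => hi k) Fm Fp Gm Gp) :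
    CG i j f g (fun k => (lo k : ℝ) - θ) (fun k => (hi k : ℝ) + θ) Fm Fp Gm Gp := by
  refine ⟨h.ne, h.fs, h.gs, h.fi, h.gj, ?_, ?_, h.fb, h.gb, h.nn, ?_⟩
  · intro x hx k hk
    have := h.fsupp x hx k hk
    constructor <;> linarith [this.1, this.2]
  · intro x hx k hk
    have := h.gsupp x hx k hk
    constructor <;> linarith [this.1, this.2]
  · intro k
    have := h.lh k
    linarith

theorem stc6_invFun_comp {X : Type} [Nonempty X] {A F : X → X} (hA : Function.Bijective A)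
    (hF : Function.Bijective F) :
    Function.invFun (fun x => A (Function.invFun F x)) = fun x => F (Function.invFun A x) := by
  funext x
  have hb : Function.Injective (fun x => A (Function.invFun F x)) :=
    hA.injective.comp (Function.rightInverse_invFun hF.surjective).injective
  apply hb
  have h1 : (fun x => A (Function.invFun F x)) (Function.invFun
      (fun x => A (Function.invFun F x)) x) = x := by
    have h2 : A (Function.invFun F (F (Function.invFun A x))) = x := by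
      rw [Function.leftInverse_invFun hF.injective (Function.invFun A x),
        Function.rightInverse_invFun hA.surjective x]
    exact Function.invFun_eq (f := fun x => A (Function.invFun F x)) ⟨_, h2⟩
  rw [h1]
  show x = A (Function.invFun F (F (Function.invFun A x)))
  rw [Function.leftInverse_invFun hF.injective (Function.invFun A x),
    Function.rightInverse_invFun hA.surjective x]

/-- ST-C6 (file BCthm.lean). -/
theorem bCthm (FK : FKit) : BCthm := by
  intro s θ ζ hs hs1 hζ B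
  obtain ⟨Cq, hCq, hq⟩ := quant θ hζ.pos hζ.lt B
  obtain ⟨Cb, hCb, hbd⟩ := comm_bd.1 Cq
  obtain ⟨Cc, hCc, hcost⟩ := comm_cost FK s hs hs1 (max B Cq)
  obtain ⟨Cz, hCz, hblow⟩ := hζ.cost Cb
  refine ⟨Cc + Cz, add_nonneg hCc hCz, ?_⟩
  intro i j f g lo hi Fm Fp Gm Gp h hB
  obtain ⟨qf, hqf, hqfi, hqfr, hqfd, hqfs, hqfb⟩ := hq i f h.fs h.fi (fun x => (hB x).1)
  obtain ⟨qg, hqg, hqgj, hqgr, hqgd, hqgs, hqgb⟩ := hq j g h.gs h.gj (fun x => (hB x).2.1)
  have hcg := stc6_cg hζ.pos h hqf hqg hqfi hqgj hqfs hqgs hqfb hqgb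
  have hcg0 := stc6_mono hζ.pos h
  have hθ := hζ.pos
  have hθ1 := hζ.lt
  set U : Set (Eu 4) := obox (fun k => cLo i j (fun k => lo k) Fm Gm k - 1)
      (fun k => cHi i j (fun k => hi k) Fp Gp k + 1) with hUdef
  have hlo : ∀ k, cLo i j (fun k => (lo k : ℝ) - θ) Fm Gm k =
      cLo i j (fun k => (lo k : ℝ)) Fm Gm k - θ := by
    intro k
    simp only [cLo]
    ring
  have hhi : ∀ k, cHi i j (fun k => (hi k : ℝ) + θ) Fp Gp k =
      cHi i j (fun k => (hi k : ℝ)) Fp Gp k + θ := by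
    intro k
    simp only [cHi]
    ring
  have hU : ∀ x : Eu 4, (∀ k, cLo i j (fun k => (lo k : ℝ) - θ) Fm Gm k ≤ x k ∧
      x k ≤ cHi i j (fun k => (hi k : ℝ) + θ) Fp Gp k) → x ∈ U := by
    intro x hx k
    have h1 := hx k
    rw [hlo, hhi] at h1
    constructor <;> linarith [h1.1, h1.2]
  have hUo : IsOpen U := by
    have : U = ⋂ k, {x : Eu 4 | cLo i j (fun k => (lo k : ℝ)) Fm Gm k - 1 < x k ∧
        x k < cHi i j (fun k => (hi k : ℝ)) Fp Gp k + 1} := by
      ext x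
      simp only [hUdef, obox, Set.mem_iInter]
      rfl
    rw [this]
    apply isOpen_iInter_of_finite
    intro k
    have hc : Continuous (fun x : Eu 4 => x k) := by fun_prop
    exact (isOpen_lt continuous_const hc).inter (isOpen_lt hc continuous_const)
  obtain ⟨Φ, hΦ, hfr⟩ := comm_frame θ hθ hθ1 i j f g qf qg _ _ _ _ _ _ hcg hqfr hqgr U hU
  set F : Eu 4 → Eu 4 := comm i j qf qg with hF
  have hΦ1 : Φ 1 = F := funext (fun x => hΦ.ge1 1 le_rfl x)
  have hFs : ContDiff ℝ ∞ F := by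
    rw [← hΦ1]
    exact hΦ.fam.smooth.comp (contDiff_const.prodMk contDiff_id)
  have hFb : Function.Bijective F := by
    rw [← hΦ1]
    exact hΦ.fam.bij 1
  have hFd : ∀ x, (fderiv ℝ F x).det = 1 := by
    rw [← hΦ1]
    exact hΦ.fam.det 1
  have hFsupp : ∃ K : Set (Eu 4), IsCompact K ∧ K ⊆ U ∧ ∀ x ∉ K, F x = x := by
    obtain ⟨K, hK, hKU, hKx⟩ := hΦ.fam.supp
    refine ⟨K, hK, hKU, ?_⟩
    rw [← hΦ1]
    exact hKx 1
  have hFr : ∀ c, ∀ x ∈ core θ c, F x = x + (iv (qmap i j f g c) - iv c) :=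
    comm_bd.2 θ i j f g qf qg hθ hθ1 hqfr hqgr
  refine ⟨F, Φ, hΦ, hFr, hfr, ?_⟩
  intro τ hτ
  -- integer box
  set lo' : Fin 4 → ℤ := fun k => lo k - (if k = i then (Fm : ℤ) else 0) -
    (if k = j then (Gm : ℤ) else 0) - 1 with hlo'
  set hi' : Fin 4 → ℤ := fun k => hi k + (if k = i then (Fp : ℤ) else 0) +
    (if k = j then (Gp : ℤ) else 0) + 1 with hhi'
  have elo : ∀ k, ((lo' k : ℤ) : ℝ) = cLo i j (fun k => (lo k : ℝ)) Fm Gm k - 1 := by
    intro k
    simp only [hlo', cLo]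
    push_cast
    ring
  have ehi : ∀ k, ((hi' k : ℤ) : ℝ) = cHi i j (fun k => (hi k : ℝ)) Fp Gp k + 1 := by
    intro k
    simp only [hhi', cHi]
    push_cast
    ring
  have hbox : ibox lo' hi' = U := by
    simp only [ibox, hUdef]
    congr 1
    · funext k
      exact elo k
    · funext k
      exact ehi k
  have hle : ∀ k, lo' k ≤ hi' k := by
    intro k
    have h1 : lo k ≤ hi k := by exact_mod_cast h.lh k
    simp only [hlo', hhi']
    split_ifs <;> omega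
  have hCR : CR θ (ibox lo' hi') F := by
    rw [hbox]
    refine ⟨hFs, hFb, hFd, hFsupp, ?_⟩
    intro c
    refine ⟨qmap i j f g c - c, ?_⟩
    intro x hx
    rw [hFr c x hx]
    congr 1
    apply PiLp.ext
    intro k
    show ((qmap i j f g c k : ℤ) : ℝ) - (c k : ℝ) = ((qmap i j f g c k - c k : ℤ) : ℝ)
    push_cast
    ring
  have hFB := hbd i j qf qg hqf hqg (fun x => ⟨(hqfd x).2.1, (hqgd x).2.1, (hqfd x).2.2,
    (hqgd x).2.2⟩)
  have c2 := hblow lo' hi' F hle hCR hFB τ hτ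
  rw [hbox] at c2
  have hζb : ∀ a, Function.Bijective (ζ a) := by
    intro a
    refine ⟨fun x y hxy => ?_, fun y => ⟨ζ (-a) y, ?_⟩⟩
    · have h1 : ζ (-a) (ζ a x) = ζ (-a) (ζ a y) := by rw [hxy]
      rwa [← hζ.add, ← hζ.add, neg_add_cancel, hζ.zero, hζ.zero] at h1
    · rw [← hζ.add, add_neg_cancel, hζ.zero]
  have hT : Function.Bijective (Pool.Agent.H6.ST.Th ζ τ F) :=
    (hζb τ).comp (hFb.comp (hζb (-τ)))
  have c3 := FK.inv 4 s U _ _ hs hs1 c2
  rw [stc6_invFun_comp hT hFb] at c3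
  have c1 := hcost i j f g qf qg _ _ _ _ _ _ hcg0 hcg
    (fun x => ⟨(hB x).1.trans (le_max_left _ _), (hB x).2.1.trans (le_max_left _ _),
      (hB x).2.2.1.trans (le_max_left _ _), (hB x).2.2.2.trans (le_max_left _ _)⟩)
    (fun x => ⟨(hqfd x).2.1.trans (le_max_right _ _), (hqgd x).2.1.trans (le_max_right _ _),
      (hqfd x).2.2.trans (le_max_right _ _), (hqgd x).2.2.trans (le_max_right _ _)⟩)
    (fun x => ⟨by rw [abs_sub_comm]; exact (hqfd x).1.trans (le_max_right _ _),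
      by rw [abs_sub_comm]; exact (hqgd x).1.trans (le_max_right _ _)⟩) U hUo hU
  have c4 := FK.comp 4 s U _ _ _ _ hs hs1 c1 c3
  have e4 : (fun x => (fun x => comm i j f g (Function.invFun (comm i j qf qg) x))
      ((fun x => F (Function.invFun (Pool.Agent.H6.ST.Th ζ τ F) x)) x)) =
      fun x => comm i j f g (Function.invFun (Pool.Agent.H6.ST.Th ζ τ F) x) := by
    funext x
    show comm i j f g (Function.invFun F (F (Function.invFun (Pool.Agent.H6.ST.Th ζ τ F) x))) = _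
    rw [Function.leftInverse_invFun hFb.injective (Function.invFun (Pool.Agent.H6.ST.Th ζ τ F) x)]
  rw [e4] at c4
  refine FK.mono 4 s U U _ _ _ subset_rfl ?_ c4
  have hpos : ∀ k, 0 ≤ cHi i j (fun k => (hi k : ℝ)) Fp Gp k -
      cLo i j (fun k => (lo k : ℝ)) Fm Gm k := by
    intro k
    have h1 : (lo k : ℝ) ≤ hi k := h.lh k
    obtain ⟨n1, n2, n3, n4⟩ := h.nn
    simp only [cHi, cLo]
    split_ifs <;> linarith
  have b1 : ∏ k, (cHi i j (fun k => (hi k : ℝ) + θ) Fp Gp k -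
      cLo i j (fun k => (lo k : ℝ) - θ) Fm Gm k) ≤
      ∏ k, (cHi i j (fun k => (hi k : ℝ)) Fp Gp k - cLo i j (fun k => (lo k : ℝ)) Fm Gm k + 2) := by
    apply Finset.prod_le_prod
    · intro k _
      rw [hlo, hhi]
      linarith [hpos k]
    · intro k _
      rw [hlo, hhi]
      linarith [hpos k]
  have b2 : ∏ k, (((hi' k : ℤ) : ℝ) - ((lo' k : ℤ) : ℝ)) =
      ∏ k, (cHi i j (fun k => (hi k : ℝ)) Fp Gp k - cLo i j (fun k => (lo k : ℝ)) Fm Gm k + 2) := by
    apply Finset.prod_congr rfl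
    intro k _
    rw [elo, ehi]
    ring
  rw [b2, add_mul]
  gcongr

end Pool.Agent.H23.ST
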