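import Pool.Agent.H23.ST.Bu2
import Pool.Agent.H68.VD.Fam

/-! # Maps that move the cores by translations: the walls, the inverse -/

namespace Pool.Agent.H23.ST

open MeasureTheory Set Pool.Agent.H68.VD Pool.Agent.H68.GM Pool.Agent.H6.ST
open scoped ENNReal ContDiff Topology

namespace CrW

theorem iv_apply (k : Fin 4 → ℤ) (i : Fin 4) : (iv k : Eu 4) i = (k i : ℝ) := rfl

theorem iv_injective {k l : Fin 4 → ℤ} (h : (iv k : Eu 4) = iv l) : k = l := by
  funext i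
  have h1 := congrArg (fun x : Eu 4 => x i) h
  simp only [iv_apply] at h1
  exact_mod_cast h1

theorem iv_add (k l : Fin 4 → ℤ) : (iv (k + l) : Eu 4) = iv k + iv l := by
  ext i
  simp [iv_apply]

theorem iv_neg (k : Fin 4 → ℤ) : (iv (-k) : Eu 4) = -iv k := by
  ext i
  simp [iv_apply]

theorem iv_zero : (iv (0 : Fin 4 → ℤ) : Eu 4) = 0 := by
  ext i
  simp [iv_apply]

theorem ctr_apply (c : Fin 4 → ℤ) (i : Fin 4) : (ctr c : Eu 4) i = (c i : ℝ) + 1 / 2 := rfl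

theorem ctr_add (c k : Fin 4 → ℤ) : (ctr (c + k) : Eu 4) = ctr c + iv k := by
  ext i
  simp only [ctr_apply, PiLp.add_apply, iv_apply, Pi.add_apply]
  push_cast
  ring

theorem ctr_injective {c d : Fin 4 → ℤ} (h : (ctr c : Eu 4) = ctr d) : c = d := by
  funext i
  have h1 := congrArg (fun x : Eu 4 => x i) h
  simp only [ctr_apply] at h1
  have h2 : (c i : ℝ) = d i := by linarith
  exact_mod_cast h2

theorem ctr_mem {θ : ℝ} (hθ1 : θ < 1 / 2) (c : Fin 4 → ℤ) : (ctr c : Eu 4) ∈ core θ c := by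
  intro i
  rw [ctr_apply, sub_self, abs_zero]
  linarith

/-- the open core -/
def oc (θ : ℝ) (c : Fin 4 → ℤ) : Set (Eu 4) := {x | ∀ k, |x k - ((c k : ℝ) + 1 / 2)| < 1 / 2 - θ}

theorem oc_sub (θ : ℝ) (c : Fin 4 → ℤ) : oc θ c ⊆ core θ c := fun _ hx k => (hx k).le

theorem isOpen_oc (θ : ℝ) (c : Fin 4 → ℤ) : IsOpen (oc θ c) := by
  have h : oc θ c = ⋂ k, {x : Eu 4 | |x k - ((c k : ℝ) + 1 / 2)| < 1 / 2 - θ} := by
    ext x; simp [oc]
  rw [h]
  refine isOpen_iInter_of_finite fun k => ?_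
  exact isOpen_lt (by fun_prop) continuous_const

theorem one_dim {θ t : ℝ} : θ < |t - round t| ↔ |t - ((⌊t⌋ : ℝ) + 1 / 2)| < 1 / 2 - θ := by
  rw [abs_sub_round_eq_min, lt_min_iff, abs_lt, Int.fract]
  constructor
  · rintro ⟨h1, h2⟩
    constructor <;> linarith
  · rintro ⟨h1, h2⟩
    constructor <;> linarith

theorem one_dim' {θ t : ℝ} (hθ : 0 < θ) {m : ℤ} (h : |t - ((m : ℝ) + 1 / 2)| < 1 / 2 - θ) :
    θ < |t - round t| := by
  have h1 : ⌊t⌋ = m := by
    rw [Int.floor_eq_iff]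
    rw [abs_lt] at h
    constructor <;> linarith
  rw [one_dim, h1]
  exact h

theorem not_mem_Wl {θ : ℝ} {x : Eu 4} (hx : x ∉ Wl (wP θ)) : x ∈ oc θ (fun k => ⌊x k⌋) := by
  intro k
  rw [← one_dim]
  by_contra hcon
  exact hx ⟨k, not_lt.mp hcon⟩

theorem not_mem_of_oc {θ : ℝ} (hθ : 0 < θ) {x : Eu 4} {c : Fin 4 → ℤ} (hx : x ∈ oc θ c) :
    x ∉ Wl (wP θ) := by
  rintro ⟨k, hk⟩
  exact absurd (one_dim' hθ (hx k)) (not_lt.mpr hk)

theorem core_sub {θ : ℝ} {c k : Fin 4 → ℤ} {x : Eu 4} (hx : x ∈ core θ (c + k)) :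
    x - iv k ∈ core θ c := by
  intro i
  have h := hx i
  rw [PiLp.sub_apply, iv_apply]
  have h1 : x i - (k i : ℝ) - ((c i : ℝ) + 1 / 2) = x i - (((c + k) i : ℤ) + 1 / 2 : ℝ) := by
    rw [Pi.add_apply]
    push_cast
    ring
  rw [h1]
  exact h

theorem oc_sub_iv {θ : ℝ} {c k : Fin 4 → ℤ} {x : Eu 4} (hx : x ∈ oc θ (c + k)) :
    x - iv k ∈ oc θ c := by
  intro i
  have h := hx i
  rw [PiLp.sub_apply, iv_apply]
  have h1 : x i - (k i : ℝ) - ((c i : ℝ) + 1 / 2) = x i - (((c + k) i : ℤ) + 1 / 2 : ℝ) := by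
    rw [Pi.add_apply]
    push_cast
    ring
  rw [h1]
  exact h

/-- every core is the image of a core -/
theorem surj {θ : ℝ} (hθ1 : θ < 1 / 2) {U : Set (Eu 4)} {F : Eu 4 → Eu 4} (h : CR θ U F)
    (k : (Fin 4 → ℤ) → Fin 4 → ℤ) (hk : ∀ c, ∀ x ∈ core θ c, F x = x + iv (k c))
    (c' : Fin 4 → ℤ) : ∃ c, c + k c = c' := by
  classical
  obtain ⟨K, hK, -, hK2⟩ := h.supp
  set g : (Fin 4 → ℤ) → Fin 4 → ℤ := fun c => c + k c with hg
  have hginj : Function.Injective g := by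
    intro c d hcd
    apply ctr_injective
    apply h.bij.1
    rw [hk c _ (ctr_mem hθ1 c), hk d _ (ctr_mem hθ1 d), ← ctr_add, ← ctr_add]
    exact congrArg ctr hcd
  set S : Set (Fin 4 → ℤ) := {c | (ctr c : Eu 4) ∈ K} with hS
  have hSfin : S.Finite := by
    obtain ⟨R, hR⟩ := hK.isBounded.subset_closedBall (0 : Eu 4)
    have h1 : S ⊆ Set.pi Set.univ fun _ => Set.Icc (-⌈R⌉ - 1) (⌈R⌉ + 1) := by
      intro c hc i _
      have h2 := hR hc
      rw [mem_closedBall_zero_iff] at h2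
      have h3 : |(ctr c : Eu 4) i| ≤ R := by
        have h4 := PiLp.norm_apply_le (ctr c : Eu 4) i
        rw [Real.norm_eq_abs] at h4
        exact h4.trans h2
      rw [ctr_apply, abs_le] at h3
      have h5 := Int.le_ceil R
      rw [Set.mem_Icc]
      constructor
      · have : (-(⌈R⌉ : ℝ) - 1) ≤ c i := by linarith [h3.1]
        exact_mod_cast this
      · have : (c i : ℝ) ≤ ⌈R⌉ + 1 := by linarith [h3.2]
        exact_mod_cast this
    exact (Set.Finite.pi fun _ => Set.finite_Icc (-⌈R⌉ - 1) (⌈R⌉ + 1)).subset h1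
  have hoff : ∀ c, c ∉ S → g c = c := by
    intro c hc
    have h1 := hK2 (ctr c) hc
    rw [hk c _ (ctr_mem hθ1 c)] at h1
    have h2 : (iv (k c) : Eu 4) = iv 0 := by
      rw [iv_zero]
      exact add_eq_left.mp h1
    rw [hg]
    simp only
    rw [iv_injective h2, add_zero]
  by_cases hc' : c' ∈ S
  · have hmaps : Set.MapsTo g S S := by
      intro c hc
      by_contra hcon
      have h1 := hginj (hoff (g c) hcon)
      rw [h1] at hcon
      exact hcon hc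
    have hbij := (Set.Finite.injOn_iff_bijOn_of_mapsTo hSfin hmaps).mp hginj.injOn
    obtain ⟨c, -, hc⟩ := hbij.surjOn hc'
    exact ⟨c, hc⟩
  · exact ⟨c', hoff c' hc'⟩

end CrW

open CrW in
theorem cr_walls (θ : ℝ) (hθ : 0 < θ) (hθ1 : θ < 1 / 2) (U : Set (Eu 4)) (F : Eu 4 → Eu 4)
    (h : CR θ U F) (s : ℝ → ℝ) (hs : ∀ t, s (t + 1) = s t) :
    Cmp s (wP θ) F ∧ CR θ U (Function.invFun F) := by
  choose k hk using h.rigid
  have hinv : ∀ x, Function.invFun F (F x) = x := Function.leftInverse_invFun h.bij.1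
  have hinv' : ∀ x, F (Function.invFun F x) = x := Function.rightInverse_invFun h.bij.2
  refine ⟨⟨fun x hx => ?_, fun x hx => ?_⟩, ?_⟩
  · refine ⟨k (fun i => ⌊x i⌋), Or.inr hs, ?_⟩
    filter_upwards [(isOpen_oc θ _).mem_nhds (not_mem_Wl hx)] with y hy
    exact hk _ y (oc_sub θ _ hy)
  · by_contra hcon
    have h1 := not_mem_Wl hcon
    obtain ⟨c, hc⟩ := surj hθ1 h k hk (fun i => ⌊F x i⌋)
    rw [← hc] at h1
    have h2 := oc_sub_iv h1
    have h3 : F (F x - iv (k c)) = F x := by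
      rw [hk c _ (oc_sub θ c h2)]
      abel
    rw [h.bij.1 h3] at h2
    exact not_mem_of_oc hθ h2 hx
  · have hfam : IsFam (⊥ : Subgroup (Eu 4 ≃ᵃ[ℝ] Eu 4)) (fun _ : ℝ => F) := by
      refine ⟨h.smooth.comp contDiff_snd, fun _ => h.bij, fun _ => h.det, fun _ g hg x => ?_⟩
      rw [Subgroup.mem_bot] at hg
      rw [hg]
      rfl
    have hI := FamA.isFamInv hfam
    have hsm : ContDiff ℝ ∞ (Function.invFun F) :=
      FamA.smoothX (F := fun _ : ℝ => Function.invFun F) hI.smooth (0 : ℝ)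
    refine ⟨hsm, hI.bij (0 : ℝ), hI.det (0 : ℝ), ?_, fun c' => ?_⟩
    · obtain ⟨K, hK, hKU, hK2⟩ := h.supp
      refine ⟨K, hK, hKU, fun x hx => ?_⟩
      conv_lhs => rw [← hK2 x hx]
      exact hinv x
    · obtain ⟨c, rfl⟩ := surj hθ1 h k hk c'
      refine ⟨-k c, fun x hx => ?_⟩
      have h1 := hk c _ (core_sub hx)
      rw [sub_add_cancel] at h1
      rw [iv_neg, ← sub_eq_add_neg]
      conv_lhs => rw [← h1]
      exact hinv _

end Pool.Agent.H23.ST
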