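import Pool.Agent.H23.ST.Bu

/-! # Project ST, row ST-B3: the field `v⁰` is smooth with bounded derivatives; its divergence -/

namespace Pool.Agent.H23.ST

open MeasureTheory Set Pool.Agent.H68.VD Pool.Agent.H68.GM
open scoped ENNReal ContDiff Topology

/-- smooth with bounded derivatives of all orders -/
private def stb3_BD {E F : Type*} [NormedAddCommGroup E] [NormedSpace ℝ E]
    [NormedAddCommGroup F] [NormedSpace ℝ F] (f : E → F) : Prop :=
  ContDiff ℝ ∞ f ∧ ∀ m : ℕ, ∃ B : ℝ, ∀ x, ‖iteratedFDeriv ℝ m f x‖ ≤ B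

private theorem stb3_mul {E : Type*} [NormedAddCommGroup E] [NormedSpace ℝ E] {f g : E → ℝ}
    (hf : stb3_BD f) (hg : stb3_BD g) : stb3_BD (fun x => f x * g x) := by
  refine ⟨hf.1.mul hg.1, fun m => ?_⟩
  choose A hA using hf.2
  choose B hB using hg.2
  refine ⟨∑ i ∈ Finset.range (m + 1), (m.choose i : ℝ) * A i * B (m - i), fun x => ?_⟩
  refine (norm_iteratedFDeriv_mul_le hf.1 hg.1 x (n := m) (by exact_mod_cast le_top)).trans ?_
  refine Finset.sum_le_sum fun i _ => ?_
  have hA0 : 0 ≤ A i := (norm_nonneg _).trans (hA i x)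
  exact mul_le_mul (mul_le_mul_of_nonneg_left (hA i x) (Nat.cast_nonneg _)) (hB _ x)
    (norm_nonneg _) (mul_nonneg (Nat.cast_nonneg _) hA0)

private theorem stb3_const {E F : Type*} [NormedAddCommGroup E] [NormedSpace ℝ E]
    [NormedAddCommGroup F] [NormedSpace ℝ F] (c : F) : stb3_BD (fun _ : E => c) := by
  refine ⟨contDiff_const, fun m => ⟨‖c‖, fun x => ?_⟩⟩
  rcases m with _ | m
  · rw [norm_iteratedFDeriv_zero]
  · rw [iteratedFDeriv_succ_const, Pi.zero_apply, norm_zero]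
    exact norm_nonneg c

private theorem stb3_add {E F : Type*} [NormedAddCommGroup E] [NormedSpace ℝ E]
    [NormedAddCommGroup F] [NormedSpace ℝ F] {f g : E → F}
    (hf : stb3_BD f) (hg : stb3_BD g) : stb3_BD (fun x => f x + g x) := by
  refine ⟨hf.1.add hg.1, fun m => ?_⟩
  obtain ⟨A, hA⟩ := hf.2 m
  obtain ⟨B, hB⟩ := hg.2 m
  refine ⟨A + B, fun x => ?_⟩
  have h1 : iteratedFDeriv ℝ m (fun x => f x + g x) x =
      iteratedFDeriv ℝ m f x + iteratedFDeriv ℝ m g x :=
    iteratedFDeriv_add_apply (hf.1.of_le (by exact_mod_cast le_top)).contDiffAt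
      (hg.1.of_le (by exact_mod_cast le_top)).contDiffAt
  rw [h1]
  exact (norm_add_le _ _).trans (add_le_add (hA x) (hB x))

private theorem stb3_prod {E ι : Type*} [NormedAddCommGroup E] [NormedSpace ℝ E]
    (t : Finset ι) {f : ι → E → ℝ} (hf : ∀ i, stb3_BD (f i)) :
    stb3_BD (fun x => ∏ i ∈ t, f i x) := by
  classical
  induction t using Finset.induction_on with
  | empty => simpa using stb3_const (E := E) (1 : ℝ)
  | insert a s ha ih =>
    simp only [Finset.prod_insert ha]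
    exact stb3_mul (hf a) ih

private theorem stb3_sum {E F ι : Type*} [NormedAddCommGroup E] [NormedSpace ℝ E]
    [NormedAddCommGroup F] [NormedSpace ℝ F]
    (t : Finset ι) {f : ι → E → F} (hf : ∀ i, stb3_BD (f i)) :
    stb3_BD (fun x => ∑ i ∈ t, f i x) := by
  classical
  induction t using Finset.induction_on with
  | empty => simpa using stb3_const (E := E) (0 : F)
  | insert a s ha ih =>
    simp only [Finset.sum_insert ha]
    exact stb3_add (hf a) ih

private theorem stb3_left {E F G : Type*} [NormedAddCommGroup E] [NormedSpace ℝ E]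
    [NormedAddCommGroup F] [NormedSpace ℝ F] [NormedAddCommGroup G] [NormedSpace ℝ G]
    (L : F →L[ℝ] G) {f : E → F} (hf : stb3_BD f) : stb3_BD (fun x => L (f x)) := by
  refine ⟨L.contDiff.comp hf.1, fun m => ?_⟩
  obtain ⟨A, hA⟩ := hf.2 m
  refine ⟨‖L‖ * A, fun x => ?_⟩
  refine (L.norm_iteratedFDeriv_comp_left (hf.1.contDiffAt (x := x)) (n := m)
    (by exact_mod_cast le_top)).trans ?_
  exact mul_le_mul_of_nonneg_left (hA x) (norm_nonneg L)

private theorem stb3_right {E F G : Type*} [NormedAddCommGroup E] [NormedSpace ℝ E]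
    [NormedAddCommGroup F] [NormedSpace ℝ F] [NormedAddCommGroup G] [NormedSpace ℝ G]
    (L : G →L[ℝ] E) {f : E → F} (hf : stb3_BD f) : stb3_BD (fun x => f (L x)) := by
  refine ⟨hf.1.comp L.contDiff, fun m => ?_⟩
  obtain ⟨A, hA⟩ := hf.2 m
  refine ⟨A * ∏ _i : Fin m, ‖L‖, fun x => ?_⟩
  have h1 : iteratedFDeriv ℝ m (fun x => f (L x)) x =
      (iteratedFDeriv ℝ m f (L x)).compContinuousLinearMap fun _ => L :=
    L.iteratedFDeriv_comp_right (f := f) hf.1 x (i := m) (by exact_mod_cast le_top)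
  rw [h1]
  refine (ContinuousMultilinearMap.norm_compContinuousLinearMap_le _ _).trans ?_
  exact mul_le_mul_of_nonneg_right (hA _) (Finset.prod_nonneg fun _ _ => norm_nonneg _)

private theorem stb3_one {s : ℝ → ℝ} (hs : ContDiff ℝ ∞ s)
    (hb : ∀ m : ℕ, ∃ B : ℝ, ∀ t, |iteratedDeriv m s t| ≤ B) : stb3_BD s := by
  refine ⟨hs, fun m => ?_⟩
  obtain ⟨B, hB⟩ := hb m
  refine ⟨B, fun x => ?_⟩
  rw [norm_iteratedFDeriv_eq_norm_iteratedDeriv]
  exact hB x

private theorem stb3_deriv {s : ℝ → ℝ} (hs : ContDiff ℝ ∞ s)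
    (hb : ∀ m : ℕ, ∃ B : ℝ, ∀ t, |iteratedDeriv m s t| ≤ B) : stb3_BD (deriv s) := by
  refine stb3_one (contDiff_infty_iff_deriv.1 hs).2 fun m => ?_
  obtain ⟨B, hB⟩ := hb (m + 1)
  refine ⟨B, fun t => ?_⟩
  rw [← iteratedDeriv_succ']
  exact hB t

private theorem stb3_v0 (s : ℝ → ℝ) (x : Eu 4) :
    v0 s x = ∑ k, (s (x k) * ∏ j ∈ Finset.univ.filter (· < k), (1 - deriv s (x j))) • ev k := by
  ext i
  simp [v0, ev, Pi.single_apply]

theorem v0_kit (s : ℝ → ℝ) (w : Set ℝ) (θ : ℝ) (h : Prof s w θ) :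
    ContDiff ℝ ∞ (v0 s) ∧ (∀ m : ℕ, ∃ B : ℝ, ∀ x, ‖iteratedFDeriv ℝ m (v0 s) x‖ ≤ B) ∧
      (∀ x, divg (v0 s) x = 1 - ∏ k, (1 - deriv s (x k))) := by
  have hS := stb3_one h.smooth h.bd
  have hD := stb3_deriv h.smooth h.bd
  have hcomp : ∀ k : Fin 4, stb3_BD (fun x : Eu 4 =>
      s (x k) * ∏ j ∈ Finset.univ.filter (· < k), (1 - deriv s (x j))) := by
    intro k
    refine stb3_mul (stb3_right (EuclideanSpace.proj (𝕜 := ℝ) k) hS) (stb3_prod _ fun j => ?_)
    have h1 : stb3_BD (fun x : Eu 4 => deriv s (x j)) :=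
      stb3_right (EuclideanSpace.proj (𝕜 := ℝ) j) hD
    have h2 := stb3_add (stb3_const (E := Eu 4) (1 : ℝ))
      (stb3_left (-(ContinuousLinearMap.id ℝ ℝ)) h1)
    simpa [sub_eq_add_neg] using h2
  have hv : stb3_BD (v0 s) := by
    have h1 : stb3_BD (fun x : Eu 4 => ∑ k : Fin 4,
        (s (x k) * ∏ j ∈ Finset.univ.filter (· < k), (1 - deriv s (x j))) • (ev k : Eu 4)) :=
      stb3_sum _ fun k => stb3_left
        ((ContinuousLinearMap.id ℝ ℝ).smulRight (ev k : Eu 4)) (hcomp k)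
    have h2 : v0 s = (fun x : Eu 4 => ∑ k : Fin 4,
        (s (x k) * ∏ j ∈ Finset.univ.filter (· < k), (1 - deriv s (x j))) • (ev k : Eu 4)) :=
      funext (stb3_v0 s)
    rw [h2]
    exact h1
  refine ⟨hv.1, hv.2, fun x => ?_⟩
  have hdiff : ∀ y, DifferentiableAt ℝ (v0 s) y := fun y =>
    (hv.1.differentiable (by simp)) y
  have hds : ∀ t, DifferentiableAt ℝ s t := fun t => (h.smooth.differentiable (by simp)) t
  have hpart : ∀ j : Fin 4, (fderiv ℝ (v0 s) x (ev j)) j =
      deriv s (x j) * ∏ i ∈ Finset.univ.filter (· < j), (1 - deriv s (x i)) := by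
    intro j
    have h1 : HasDerivAt (fun t : ℝ => x + t • (ev j : Eu 4)) (ev j) 0 := by
      simpa using ((hasDerivAt_id (0 : ℝ)).smul_const (ev j : Eu 4)).const_add x
    have h2 : HasDerivAt (fun t : ℝ => v0 s (x + t • (ev j : Eu 4)))
        (fderiv ℝ (v0 s) x (ev j)) 0 := by
      have h3 : HasFDerivAt (v0 s) (fderiv ℝ (v0 s) x) (x + (0 : ℝ) • (ev j : Eu 4)) := by
        rw [zero_smul, add_zero]
        exact (hdiff x).hasFDerivAt
      exact h3.comp_hasDerivAt 0 h1
    have h4 : HasDerivAt (fun t : ℝ => (v0 s (x + t • (ev j : Eu 4))) j)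
        ((fderiv ℝ (v0 s) x (ev j)) j) 0 :=
      ((EuclideanSpace.proj (𝕜 := ℝ) j).hasFDerivAt).comp_hasDerivAt 0 h2
    have h5 : (fun t : ℝ => (v0 s (x + t • (ev j : Eu 4))) j) =
        fun t => s (x j + t) * ∏ i ∈ Finset.univ.filter (· < j), (1 - deriv s (x i)) := by
      funext t
      have h6 : (x + t • (ev j : Eu 4)) j = x j + t := by simp [ev]
      show s ((x + t • (ev j : Eu 4)) j) *
        ∏ i ∈ Finset.univ.filter (· < j), (1 - deriv s ((x + t • (ev j : Eu 4)) i)) = _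
      rw [h6]
      congr 1
      refine Finset.prod_congr rfl fun i hi => ?_
      have h7 : (x + t • (ev j : Eu 4)) i = x i := by
        have hij : i ≠ j := ne_of_lt (Finset.mem_filter.1 hi).2
        simp [ev, hij]
      rw [h7]
    have h8 : HasDerivAt (fun t : ℝ => s (x j + t) *
        ∏ i ∈ Finset.univ.filter (· < j), (1 - deriv s (x i)))
        (deriv s (x j) * ∏ i ∈ Finset.univ.filter (· < j), (1 - deriv s (x i))) 0 := by
      have h9 : HasDerivAt (fun t : ℝ => s (x j + t)) (deriv s (x j)) 0 := by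
        have h10 : HasDerivAt s (deriv s (x j)) (x j + 0) := by
          rw [add_zero]
          exact (hds _).hasDerivAt
        exact h10.comp_const_add (x j) 0
      exact h9.mul_const _
    rw [h5] at h4
    exact h4.unique h8
  unfold divg
  rw [Finset.sum_congr rfl fun j _ => hpart j, Finset.prod_one_sub_ordered]
  simp

end Pool.Agent.H23.ST
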