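import Pool.Agent.H23.ST.Bu2
import Pool.Agent.H23.ST.V0
import Pool.Agent.H23.ST.CrW

/-! # Project ST, row ST-B11: the field `v⁰ - F_* v⁰` is supported in the walls and bounded -/

namespace Pool.Agent.H23.ST

open MeasureTheory Set Pool.Agent.H68.VD Pool.Agent.H68.GM Pool.Agent.H6.ST
open scoped ENNReal ContDiff Topology

/-- Linear maps of bounded norm and determinant one have bounded inverses. -/
private theorem stb11_inv (B : ℝ) : ∃ M : ℝ, 0 ≤ M ∧ ∀ A A' : Eu 4 →L[ℝ] Eu 4, ‖A‖ ≤ B →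
    A.det = 1 → A'.comp A = ContinuousLinearMap.id ℝ (Eu 4) → ‖A'‖ ≤ M := by
  let K : Set (Eu 4 →L[ℝ] Eu 4) := {A | ‖A‖ ≤ B ∧ A.det = 1}
  have hK : IsCompact K := by
    refine (isCompact_closedBall (0 : Eu 4 →L[ℝ] Eu 4) B).of_isClosed_subset ?_ ?_
    · refine (isClosed_le continuous_norm continuous_const).inter ?_
      exact isClosed_eq ContinuousLinearMap.continuous_det continuous_const
    · intro A hA
      rw [mem_closedBall_zero_iff]
      exact hA.1
  have hunit : ∀ A ∈ K, IsUnit A := by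
    intro A hA
    have h1 : A.det ≠ 0 := by rw [hA.2]; exact one_ne_zero
    let e := A.toContinuousLinearEquivOfDetNeZero h1
    have he : ∀ x, e x = A x := fun x =>
      ContinuousLinearMap.toContinuousLinearEquivOfDetNeZero_apply A h1 x
    refine ⟨⟨A, (e.symm : Eu 4 →L[ℝ] Eu 4), ?_, ?_⟩, rfl⟩
    · ext1 x
      show A (e.symm x) = x
      rw [← he]
      exact e.apply_symm_apply x
    · ext1 x
      show e.symm (A x) = x
      rw [← he]
      exact e.symm_apply_apply x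
  have hcont : ContinuousOn (fun A : Eu 4 →L[ℝ] Eu 4 => Ring.inverse A) K := by
    intro A hA
    obtain ⟨u, rfl⟩ := hunit A hA
    exact (NormedRing.inverse_continuousAt u).continuousWithinAt
  obtain ⟨M, hM⟩ := hK.exists_bound_of_continuousOn hcont
  refine ⟨max M 0, le_max_right _ _, ?_⟩
  intro A A' h1 h2 h3
  have hA : A ∈ K := ⟨h1, h2⟩
  have h4 : A' = Ring.inverse A := by
    have h5 : A' * A = 1 := h3
    obtain ⟨u, hu⟩ := hunit A hA
    rw [← hu] at h5 ⊢
    rw [Ring.inverse_unit]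
    exact (Units.eq_inv_of_mul_eq_one_right h5)
  rw [h4]
  exact (hM A hA).trans (le_max_left _ _)

private theorem stb11_vol (lo hi : Fin 4 → ℤ) (hlh : ∀ k, lo k ≤ hi k) :
    MeasurableSet (ibox lo hi) ∧ volume (ibox lo hi) < ⊤ ∧
      volume.real (ibox lo hi) = ∏ k, ((hi k : ℝ) - lo k) := by
  have e1 : ibox lo hi = (WithLp.ofLp : Eu 4 → Fin 4 → ℝ) ⁻¹'
      (Set.univ.pi fun k => Ioo (lo k : ℝ) (hi k : ℝ)) := by
    ext x
    simp [ibox, obox, Set.mem_pi]
  have hm : MeasurableSet (Set.univ.pi fun k => Ioo (lo k : ℝ) (hi k : ℝ)) :=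
    MeasurableSet.univ_pi fun k => measurableSet_Ioo
  have h1 := (PiLp.volume_preserving_ofLp (Fin 4)).measure_preimage hm.nullMeasurableSet
  have h2 : volume (ibox lo hi) = ∏ k, ENNReal.ofReal ((hi k : ℝ) - lo k) := by
    rw [e1, h1, Real.volume_pi_Ioo]
  have h3 : ∀ k, 0 ≤ (hi k : ℝ) - lo k := by
    intro k
    have : (lo k : ℝ) ≤ hi k := by exact_mod_cast hlh k
    linarith
  refine ⟨?_, ?_, ?_⟩
  · rw [e1]
    exact (PiLp.volume_preserving_ofLp (Fin 4)).measurable hm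
  · rw [h2]
    exact ENNReal.prod_lt_top fun k _ => ENNReal.ofReal_lt_top
  · rw [Measure.real, h2, ENNReal.toReal_prod]
    exact Finset.prod_congr rfl fun k _ => ENNReal.toReal_ofReal (h3 k)

private theorem stb11_per (s : ℝ → ℝ) (hp : ∀ t, s (t + 1) = s t) (m : ℤ) (t : ℝ) :
    s (t + m) = s t := by
  have h : Function.Periodic s 1 := hp
  have := h.int_mul m t
  simpa using this

private theorem stb11_v0 (s : ℝ → ℝ) (hp : ∀ t, s (t + 1) = s t) (k : Fin 4 → ℤ) (x : Eu 4) :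
    v0 s (x + iv k) = v0 s x := by
  have h1 : ∀ i, (x + iv k) i = x i + (k i : ℝ) := fun i => rfl
  have h2 : ∀ t (m : ℤ), deriv s (t + m) = deriv s t := by
    intro t m
    have h3 : (fun u => s (u + m)) = s := funext fun u => stb11_per s hp m u
    have h4 := deriv_comp_add_const (f := s) (m : ℝ) t
    rw [h3] at h4
    exact h4.symm
  unfold v0
  congr 1
  funext i
  rw [h1, stb11_per s hp]
  congr 1
  refine Finset.prod_congr rfl fun j _ => ?_
  rw [h1, h2]

theorem zF_bd (s : ℝ → ℝ) (θc θ : ℝ) (hθc : 0 < θc) (hθc1 : θc < 1 / 4)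
    (h : Prof s (wP θc) θ) (hp : ∀ t, s (t + 1) = s t) (B : ℝ) :
    ∃ C : ℝ, 0 ≤ C ∧ ∀ (lo hi : Fin 4 → ℤ) (F : Eu 4 → Eu 4), (∀ k, lo k ≤ hi k) →
      CR θc (ibox lo hi) F → (∀ x, ‖fderiv ℝ F x‖ ≤ B ∧ ‖fderiv ℝ (fderiv ℝ F) x‖ ≤ B) →
      ContDiff ℝ ∞ (zF s F) ∧ HasCompactSupport (zF s F) ∧
      (∀ x ∉ Wl (wP θc), zF s F x = 0) ∧
      ∫ y, ‖zF s F y‖ ≤ C * ∏ k, ((hi k : ℝ) - lo k) ∧
      ∫ y, ‖fderiv ℝ (zF s F) y‖ ≤ C * ∏ k, ((hi k : ℝ) - lo k) := by
  obtain ⟨hv, hvb, -⟩ := v0_kit s (wP θc) θ h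
  obtain ⟨V0, hV0⟩ := hvb 0
  obtain ⟨V1, hV1⟩ := hvb 1
  obtain ⟨M, hM0, hM⟩ := stb11_inv B
  have hV0' : ∀ x, ‖v0 s x‖ ≤ V0 := fun x => by
    rw [← norm_iteratedFDeriv_zero (𝕜 := ℝ) (f := v0 s)]; exact hV0 x
  have hV1' : ∀ x, ‖fderiv ℝ (v0 s) x‖ ≤ V1 := fun x => by
    rw [← norm_iteratedFDeriv_one]; exact hV1 x
  have hV00 : 0 ≤ V0 := (norm_nonneg _).trans (hV0' 0)
  have hV10 : 0 ≤ V1 := (norm_nonneg _).trans (hV1' 0)
  by_cases hB : B < 0
  · refine ⟨0, le_rfl, ?_⟩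
    intro lo hi F _ _ hb
    exact absurd ((norm_nonneg _).trans (hb 0).1) (not_le.2 hB)
  rw [not_lt] at hB
  refine ⟨(V0 + B * V0) + (V1 + (B * M * V0 + B * V1 * M)), by positivity, ?_⟩
  intro lo hi F hlh hF hb
  set G : Eu 4 → Eu 4 := Function.invFun F with hG
  have hFG : ∀ y, F (G y) = y := fun y => Function.invFun_eq (hF.bij.2 y)
  have hGF : ∀ y, G (F y) = y := fun y => Function.leftInverse_invFun hF.bij.1 y
  obtain ⟨-, hGR⟩ := cr_walls θc hθc (by linarith) _ F hF s hp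
  obtain ⟨hGC, -⟩ := cr_walls θc hθc (by linarith) _ G hGR s hp
  have hFd : ∀ x, DifferentiableAt ℝ F x := fun x => (hF.smooth.differentiable (by simp)) x
  have hGd : ∀ x, DifferentiableAt ℝ G x := fun x => (hGR.smooth.differentiable (by simp)) x
  have hvd : ∀ x, DifferentiableAt ℝ (v0 s) x := fun x => (hv.differentiable (by simp)) x
  have hDF : ContDiff ℝ ∞ (fderiv ℝ F) := hF.smooth.fderiv_right (by simp)
  have hDFd : ∀ x, DifferentiableAt ℝ (fderiv ℝ F) x := fun x => (hDF.differentiable (by simp)) x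
  -- smoothness
  have hz : zF s F = fun y => v0 s y - fderiv ℝ F (G y) (v0 s (G y)) := rfl
  have hsm : ContDiff ℝ ∞ (zF s F) := by
    rw [hz]
    exact hv.sub ((hDF.comp hGR.smooth).clm_apply (hv.comp hGR.smooth))
  -- the support
  obtain ⟨K, hK, hKU, hKF⟩ := hF.supp
  obtain ⟨K', hK', hKU', hKG⟩ := hGR.supp
  have hzero : ∀ y ∉ K ∪ K', zF s F y = 0 := by
    intro y hy
    have h1 : G y = y := hKG y fun h' => hy (Or.inr h')
    have h2 : F =ᶠ[𝓝 y] id := by
      have : Kᶜ ∈ 𝓝 y := hK.isClosed.isOpen_compl.mem_nhds fun h' => hy (Or.inl h')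
      filter_upwards [this] with z hz'
      exact hKF z hz'
    rw [hz]
    show v0 s y - fderiv ℝ F (G y) (v0 s (G y)) = 0
    rw [h1, h2.fderiv_eq, fderiv_id]
    simp
  have hbox : ∀ y ∉ ibox lo hi, y ∉ K ∪ K' := by
    rintro y hy (h' | h')
    · exact hy (hKU h')
    · exact hy (hKU' h')
  have hcl : IsClosed (K ∪ K') := hK.isClosed.union hK'.isClosed
  have hzero' : ∀ y ∉ K ∪ K', fderiv ℝ (zF s F) y = 0 := by
    intro y hy
    have h2 : zF s F =ᶠ[𝓝 y] fun _ => 0 := by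
      filter_upwards [hcl.isOpen_compl.mem_nhds hy] with z hz'
      exact hzero z hz'
    rw [h2.fderiv_eq]
    simp
  -- the norm of the derivative of the inverse
  have hGn : ∀ y, ‖fderiv ℝ G y‖ ≤ M := by
    intro y
    refine hM (fderiv ℝ F (G y)) (fderiv ℝ G y) (hb _).1 (hF.det _) ?_
    have h1 : G ∘ F = id := funext hGF
    have h2 : fderiv ℝ (G ∘ F) (G y) = (fderiv ℝ G (F (G y))).comp (fderiv ℝ F (G y)) :=
      fderiv_comp (G y) (hGd _) (hFd _)
    rw [h1, fderiv_id, hFG] at h2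
    exact h2.symm
  -- pointwise bounds
  have hb0 : ∀ y, ‖zF s F y‖ ≤ V0 + B * V0 := by
    intro y
    rw [hz]
    refine (norm_sub_le _ _).trans (add_le_add (hV0' y) ?_)
    refine (ContinuousLinearMap.le_opNorm _ _).trans ?_
    exact mul_le_mul (hb _).1 (hV0' _) (norm_nonneg _) hB
  have hb1 : ∀ y, ‖fderiv ℝ (zF s F) y‖ ≤ V1 + (B * M * V0 + B * V1 * M) := by
    intro y
    have d1 : HasFDerivAt (fun y => fderiv ℝ F (G y))
        ((fderiv ℝ (fderiv ℝ F) (G y)).comp (fderiv ℝ G y)) y :=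
      (hDFd (G y)).hasFDerivAt.comp y (hGd y).hasFDerivAt
    have d2 : HasFDerivAt (fun y => v0 s (G y))
        ((fderiv ℝ (v0 s) (G y)).comp (fderiv ℝ G y)) y :=
      (hvd (G y)).hasFDerivAt.comp y (hGd y).hasFDerivAt
    have d3 := (hvd y).hasFDerivAt.sub (d1.clm_apply d2)
    have d4 : HasFDerivAt (zF s F) _ y := d3
    rw [d4.fderiv]
    refine (norm_sub_le _ _).trans (add_le_add (hV1' y) ?_)
    refine (norm_add_le _ _).trans ?_
    have e1 : ‖(fderiv ℝ F (G y)).comp ((fderiv ℝ (v0 s) (G y)).comp (fderiv ℝ G y))‖ ≤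
        B * V1 * M := by
      refine (ContinuousLinearMap.opNorm_comp_le _ _).trans ?_
      have h1 : ‖(fderiv ℝ (v0 s) (G y)).comp (fderiv ℝ G y)‖ ≤ V1 * M :=
        (ContinuousLinearMap.opNorm_comp_le _ _).trans
          (mul_le_mul (hV1' _) (hGn y) (norm_nonneg _) hV10)
      rw [mul_assoc]
      exact mul_le_mul (hb _).1 h1 (norm_nonneg _) hB
    have e2 : ‖((fderiv ℝ (fderiv ℝ F) (G y)).comp (fderiv ℝ G y)).flip (v0 s (G y))‖ ≤
        B * M * V0 := by
      refine (ContinuousLinearMap.le_opNorm _ _).trans ?_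
      rw [ContinuousLinearMap.opNorm_flip]
      refine mul_le_mul ?_ (hV0' _) (norm_nonneg _) (by positivity)
      exact (ContinuousLinearMap.opNorm_comp_le _ _).trans
          (mul_le_mul (hb _).2 (hGn y) (norm_nonneg _) hB)
    rw [add_comm (B * M * V0)]
    exact add_le_add e1 e2
  obtain ⟨hmeas, hfin, hvol⟩ := stb11_vol lo hi hlh
  have hprod : 0 ≤ ∏ k, ((hi k : ℝ) - lo k) := by
    rw [← hvol]; exact measureReal_nonneg
  have hint : ∀ (φ : Eu 4 → ℝ) (c : ℝ), (∀ y, 0 ≤ φ y) → (∀ y, φ y ≤ c) →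
      (∀ y ∉ K ∪ K', φ y = 0) → ∫ y, φ y ≤ c * ∏ k, ((hi k : ℝ) - lo k) := by
    intro φ c h0 hc hs
    have h1 : ∫ y in ibox lo hi, φ y = ∫ y, φ y :=
      setIntegral_eq_integral_of_forall_compl_eq_zero fun y hy => hs y (hbox y hy)
    have h2 := norm_setIntegral_le_of_norm_le_const (μ := volume) (f := φ) (C := c) hfin
      (fun y _ => by rw [Real.norm_eq_abs, abs_of_nonneg (h0 y)]; exact hc y)
    rw [← h1, ← hvol]
    exact (le_abs_self _).trans h2
  refine ⟨hsm, HasCompactSupport.intro (hK.union hK') hzero, ?_, ?_, ?_⟩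
  · intro x hx
    obtain ⟨k, -, hk⟩ := hGC.off x hx
    have h1 : G x = x + iv k := hk.eq_of_nhds
    have h2 : F =ᶠ[𝓝 (x + iv k)] fun z => z - iv k := by
      have h3 : Filter.Tendsto (fun z : Eu 4 => z - iv k) (𝓝 (x + iv k)) (𝓝 x) := by
        have : Continuous fun z : Eu 4 => z - iv k := continuous_id.sub continuous_const
        have h4 := this.tendsto (x + iv k)
        simpa using h4
      filter_upwards [h3.eventually hk] with z hz'
      have h5 : G (z - iv k) = z := by rw [hz']; abel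
      rw [← h5, hFG, h5]
    have h3 : fderiv ℝ F (x + iv k) = ContinuousLinearMap.id ℝ (Eu 4) := by
      rw [h2.fderiv_eq, fderiv_sub_const]
      exact fderiv_id
    rw [hz]
    show v0 s x - fderiv ℝ F (G x) (v0 s (G x)) = 0
    rw [h1, h3, stb11_v0 s hp]
    simp
  · refine (hint _ _ (fun y => norm_nonneg _) hb0 fun y hy => by rw [hzero y hy, norm_zero]).trans ?_
    refine mul_le_mul_of_nonneg_right ?_ hprod
    have : 0 ≤ V1 + (B * M * V0 + B * V1 * M) := by positivity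
    linarith
  · refine (hint _ _ (fun y => norm_nonneg _) hb1 fun y hy => by
      rw [hzero' y hy, norm_zero]).trans ?_
    refine mul_le_mul_of_nonneg_right ?_ hprod
    have : 0 ≤ V0 + B * V0 := by positivity
    linarith

end Pool.Agent.H23.ST
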