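import Pool.Agent.H23.ST.BRel
import Pool.Agent.H23.ST.CrW
import Pool.Agent.H23.ST.ZFb

/-! # ST-B12: the cost of the blow up -/

namespace Pool.Agent.H23.ST

open MeasureTheory Set Pool.Agent.H68.VD Pool.Agent.H68.GM Pool.Agent.H6.ST
open scoped ENNReal ContDiff Topology

theorem bcost_int {s : ℝ → ℝ} (hp : ∀ t, s (t + 1) = s t) (ho : ∀ t, s (-t) = - s t) (m : ℤ) :
    s m = 0 := by
  have h0 : s 0 = 0 := by
    have h1 := ho 0
    simp only [neg_zero] at h1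
    linarith
  have hn : ∀ n : ℕ, s n = 0 := by
    intro n
    induction n with
    | zero => simpa using h0
    | succ n ih => push_cast; rw [hp, ih]
  rcases Int.eq_nat_or_neg m with ⟨n, rfl | rfl⟩
  · simpa using hn n
  · have h1 := ho n
    rw [hn n] at h1
    simpa using h1

theorem bcost_box {s : ℝ → ℝ} {w : Set ℝ} {θ : ℝ} (h : Prof s w θ) (hp : ∀ t, s (t + 1) = s t)
    (ho : ∀ t, s (-t) = - s t) {ζ : ℝ → Eu 4 → Eu 4} (hζ : Blow s ζ) (lo hi : Fin 4 → ℤ) (τ : ℝ)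
    (x : Eu 4) (hx : x ∈ ibox lo hi) : ζ τ x ∈ ibox lo hi := by
  have hf := ((blow_a s w θ h).2 ζ hζ).2.2.2.1
  intro k
  have hk := hx k
  exact ⟨(hf _ (bcost_int hp ho (lo k)) τ x k).2.2 hk.1,
    (hf _ (bcost_int hp ho (hi k)) τ x k).2.1 hk.2⟩

/-- The homogeneous version of `brel_real`. -/
theorem bcost_real (σ θ D r : ℝ) (hσ1 : σ < 1) (hσ : 0 ≤ σ) (hθ : 0 < θ)
    (hθσ : θ ≤ (1 - σ) / 20) (hD : 0 ≤ D) (hr : 0 ≤ r) :
    (D * Real.exp (-(1 - 3 * θ) * r)) ^ (1 - σ) * (D * Real.exp (12 * θ * r)) ^ σ ≤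
      D * Real.exp (-(2 / 5 * (1 - σ)) * r) := by
  rcases hD.eq_or_lt with h | h
  · rw [← h, zero_mul, zero_mul, zero_mul, Real.zero_rpow (by linarith), zero_mul]
  · exact brel_real σ θ D r hσ1 hσ hθ hθσ h hr

/-- The integral of the length. -/
theorem bcost_int_l (κ r D : ℝ) (hκ : 0 < κ) (hr : 0 ≤ r) (hD : 0 ≤ D) (ρ : ℝ → ℝ)
    (hρ : ContDiff ℝ ∞ ρ) (h0 : ρ 0 = 0) (h1 : ρ 1 = 1) :
    ∫ t in (0 : ℝ)..1, D * (r * deriv ρ t * Real.exp (-κ * (r * ρ t))) ≤ D / κ := by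
  have hder : ∀ t ∈ uIcc (0 : ℝ) 1, HasDerivAt (fun t => -(D / κ) * Real.exp (-κ * (r * ρ t)))
      (D * (r * deriv ρ t * Real.exp (-κ * (r * ρ t)))) t := by
    intro t _
    have h2 : HasDerivAt ρ (deriv ρ t) t := (hρ.differentiable (by simp) t).hasDerivAt
    have h3 := (((h2.const_mul r).const_mul (-κ)).exp).const_mul (-(D / κ))
    refine h3.congr_deriv ?_
    field_simp
  have hc : Continuous (fun t => D * (r * deriv ρ t * Real.exp (-κ * (r * ρ t)))) := by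
    have h2 : Continuous (deriv ρ) := hρ.continuous_deriv (by simp)
    have h3 : Continuous ρ := hρ.continuous
    fun_prop
  rw [intervalIntegral.integral_eq_sub_of_hasDerivAt hder (hc.intervalIntegrable _ _)]
  rw [h0, h1]
  simp only [mul_zero, Real.exp_zero, mul_one]
  have h4 := Real.exp_pos (-κ * r)
  have h5 : 0 ≤ D / κ := div_nonneg hD hκ.le
  nlinarith [mul_nonneg h5 h4.le]

/-- ST-B12. -/
theorem blow_cost (σ : ℝ) (hσ : 0 ≤ σ) (hσ1 : σ < 1) (s : ℝ → ℝ) (θc θ : ℝ) (hθ : 0 < θ)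
    (hθ1 : θ ≤ 1 / 8) (hθσ : θ ≤ (1 - σ) / 20) (hθc : 0 < θc) (hθc1 : θc < 1 / 4)
    (h : Prof s (wP θc) θ) (hp : ∀ t, s (t + 1) = s t) (ho : ∀ t, s (-t) = - s t)
    (ζ : ℝ → Eu 4 → Eu 4) (hζ : Blow s ζ)
    (B : ℝ) : ∃ C : ℝ, 0 ≤ C ∧ ∀ (lo hi : Fin 4 → ℤ) (F : Eu 4 → Eu 4), (∀ k, lo k ≤ hi k) →
      CR θc (ibox lo hi) F →
      (∀ x, ‖fderiv ℝ F x‖ ≤ B ∧ ‖fderiv ℝ (fderiv ℝ F) x‖ ≤ B) → ∀ τ ≤ 0,
      FCost σ (ibox lo hi) (fun x => Th ζ τ F (Function.invFun F x))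
        (C * ∏ k, ((hi k : ℝ) - lo k)) := by
  obtain ⟨C₀, hC₀, hz⟩ := zF_bd s θc θ hθc hθc1 h hp B
  obtain ⟨C₁, hC₁, hpf⟩ := pf_bd s (wP θc) θ h hθ hθ1 ζ hζ
  have hA := (blow_a s _ θ h).2 ζ hζ
  have hz0 := hζ.flow.zero
  have hg := hA.2.1
  set κ : ℝ := 2 / 5 * (1 - σ) with hκdef
  have hκ : 0 < κ := by rw [hκdef]; nlinarith
  refine ⟨2 * C₁ * C₀ / κ, by positivity, fun lo hi F hlh hF hFB τ hτ => ?_⟩
  obtain ⟨hzs, hzc, hzw, hz1, hz2⟩ := hz lo hi F hlh hF hFB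
  obtain ⟨hcmp, hFi⟩ := cr_walls θc hθc (by linarith) (ibox lo hi) F hF s hp
  set V : ℝ := ∏ k, ((hi k : ℝ) - lo k) with hV
  have hV0 : 0 ≤ V := by
    rw [hV]
    refine Finset.prod_nonneg fun k _ => ?_
    have := hlh k
    have h2 : (lo k : ℝ) ≤ hi k := by exact_mod_cast this
    linarith
  set D : ℝ := 2 * C₁ * C₀ * V with hD
  have hD0 : 0 ≤ D := by positivity
  have hinv : ∀ x, Function.invFun F (F x) = x := Function.leftInverse_invFun hF.bij.1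
  have hinv' : ∀ x, F (Function.invFun F x) = x := Function.rightInverse_invFun hF.bij.2
  set ρ : ℝ → ℝ := Real.smoothTransition with hρdef
  have hρ : ContDiff ℝ ∞ ρ := Real.smoothTransition.contDiff
  have hρ0 : ρ 0 = 0 := Real.smoothTransition.zero
  have hρ1 : ρ 1 = 1 := Real.smoothTransition.one
  have hρnn : ∀ t, 0 ≤ ρ t := Real.smoothTransition.nonneg
  have hρle : ∀ t, ρ t ≤ 1 := Real.smoothTransition.le_one
  have hρm : Monotone ρ := Real.smoothTransition.monotone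
  have hρd : ∀ t, 0 ≤ deriv ρ t := fun t => hρm.deriv_nonneg
  have hρc : Continuous (deriv ρ) := hρ.continuous_deriv (by simp)
  have hCF0 : CF (ibox lo hi) (fun (_ : ℝ) => F) :=
    ⟨hF.smooth.comp contDiff_snd, fun _ => hF.bij, fun _ => hF.det, by
      obtain ⟨K, hK1, hK2, hK3⟩ := hF.supp
      exact ⟨K, hK1, hK2, fun _ => hK3⟩⟩
  have hCFi : CF (ibox lo hi) (fun (_ : ℝ) => Function.invFun F) :=
    ⟨hFi.smooth.comp contDiff_snd, fun _ => hFi.bij, fun _ => hFi.det, by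
      obtain ⟨K, hK1, hK2, hK3⟩ := hFi.supp
      exact ⟨K, hK1, hK2, fun _ => hK3⟩⟩
  have hτρ : ContDiff ℝ ∞ (fun t => τ * ρ t) := contDiff_const.mul hρ
  have hCF1 : CF (ibox lo hi) (fun t => Th ζ (τ * ρ t) F) :=
    conj_cf s _ θ h ζ hζ (ibox lo hi) (fun τ x hx => bcost_box h hp ho hζ lo hi τ x hx) ℝ
      (fun _ => F) hCF0 (fun _ => hcmp) (fun t => τ * ρ t) hτρ τ
      (fun t => ⟨by nlinarith [hρle t, hρnn t], by nlinarith [hρnn t]⟩)
  have hCF : CF (ibox lo hi) (fun t x => Th ζ (τ * ρ t) F (Function.invFun F x)) :=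
    cfKit.1 4 _ ℝ _ _ hCF1 hCFi
  have hvel : ∀ t, vel (fun t x => Th ζ (τ * ρ t) F (Function.invFun F x)) t =
      fun y => (τ * deriv ρ t) • pf ζ (τ * ρ t) (zF s F) y := by
    intro t
    funext y
    rw [(vel_conj s _ θ h ζ hζ).2 θc (ibox lo hi) F (Function.invFun F) hF hFi.bij
      (fun t => τ * ρ t) hτρ t y]
    congr 1
    exact deriv_const_mul τ (hρ.differentiable (by simp) t)
  refine ⟨fun t x => Th ζ (τ * ρ t) F (Function.invFun F x),
    fun t => D * (|τ| * deriv ρ t * Real.exp (-κ * (|τ| * ρ t))), hCF, ?_, ?_, ?_, ?_, ?_, ?_⟩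
  · funext x
    show Th ζ (τ * ρ 0) F (Function.invFun F x) = x
    unfold Th
    rw [hρ0, mul_zero, neg_zero, hz0, hz0, hinv']
  · funext x
    show Th ζ (τ * ρ 1) F (Function.invFun F x) = Th ζ τ F (Function.invFun F x)
    rw [hρ1, mul_one]
  · have h3 : Continuous ρ := hρ.continuous
    fun_prop
  · intro t
    have := hρd t
    positivity
  · intro t ht
    have hτt : τ * ρ t ≤ 0 := by nlinarith [hρnn t]
    have habs : |τ * ρ t| = |τ| * ρ t := by rw [abs_mul, abs_of_nonneg (hρnn t)]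
    obtain ⟨-, hvs, ⟨Kv, hKv, -, hKv0⟩, -⟩ := cfKit.2.2.2.1 4 _ _ hCF
    have hsm : ContDiff ℝ ∞ (vel (fun t x => Th ζ (τ * ρ t) F (Function.invFun F x)) t) := by
      have h1 : ContDiff ℝ ∞ (fun x : Eu 4 => ((t, x) : ℝ × Eu 4)) :=
        contDiff_const.prodMk contDiff_id
      exact hvs.comp h1
    have hcs : HasCompactSupport (vel (fun t x => Th ζ (τ * ρ t) F (Function.invFun F x)) t) :=
      HasCompactSupport.intro hKv (hKv0 t)
    have hI1 := ofReal_integral_norm_eq_lintegral_enorm (μ := (volume : Measure (Eu 4)))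
      (hsm.continuous.integrable_of_hasCompactSupport hcs)
    have hI2 := ofReal_integral_norm_eq_lintegral_enorm (μ := (volume : Measure (Eu 4)))
      ((hsm.continuous_fderiv (by simp)).integrable_of_hasCompactSupport (hcs.fderiv ℝ))
    obtain ⟨hb1, hb2⟩ := hpf (zF s F) hzs hzc hzw (τ * ρ t) hτt
    rw [habs] at hb1 hb2
    set c : ℝ := |τ| * deriv ρ t with hc
    have hc0 : 0 ≤ c := mul_nonneg (abs_nonneg _) (hρd t)
    have hcn : ‖τ * deriv ρ t‖ = c := by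
      rw [Real.norm_eq_abs, abs_mul, abs_of_nonneg (hρd t)]
    unfold FE
    rw [← hI1, ← hI2, hvel t, ENNReal.ofReal_rpow_of_nonneg (by positivity) (by linarith),
      ENNReal.ofReal_rpow_of_nonneg (by positivity) hσ, ← ENNReal.ofReal_mul (by positivity)]
    refine ENNReal.ofReal_le_ofReal ?_
    have hfd : ∀ y, fderiv ℝ (fun y => (τ * deriv ρ t) • pf ζ (τ * ρ t) (zF s F) y) y =
        (τ * deriv ρ t) • fderiv ℝ (pf ζ (τ * ρ t) (zF s F)) y := fun y => by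
      exact congrFun (fderiv_const_smul_field (𝕜 := ℝ) (f := pf ζ (τ * ρ t) (zF s F))
        (τ * deriv ρ t)) y
    have e1 : ∫ y, ‖(τ * deriv ρ t) • pf ζ (τ * ρ t) (zF s F) y‖ ≤
        c * (D * Real.exp (-(1 - 3 * θ) * (|τ| * ρ t))) := by
      simp only [norm_smul, hcn]
      rw [integral_const_mul]
      refine mul_le_mul_of_nonneg_left (hb1.trans ?_) hc0
      have h1 : C₁ * Real.exp (-(1 - 3 * θ) * (|τ| * ρ t)) * ∫ y, ‖zF s F y‖ ≤
          C₁ * Real.exp (-(1 - 3 * θ) * (|τ| * ρ t)) * (C₀ * V) :=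
        mul_le_mul_of_nonneg_left hz1 (by positivity)
      refine h1.trans ?_
      have h2 := Real.exp_pos (-(1 - 3 * θ) * (|τ| * ρ t))
      have h3 : 0 ≤ C₁ * C₀ * V := by positivity
      rw [hD]
      nlinarith [mul_nonneg h3 h2.le]
    have e2 : ∫ y, ‖fderiv ℝ (fun y => (τ * deriv ρ t) • pf ζ (τ * ρ t) (zF s F) y) y‖ ≤
        c * (D * Real.exp (12 * θ * (|τ| * ρ t))) := by
      simp only [hfd, norm_smul, hcn]
      rw [integral_const_mul]
      refine mul_le_mul_of_nonneg_left (hb2.trans ?_) hc0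
      have h1 : C₁ * Real.exp (12 * θ * (|τ| * ρ t)) *
          ((∫ y, ‖zF s F y‖) + ∫ y, ‖fderiv ℝ (zF s F) y‖) ≤
          C₁ * Real.exp (12 * θ * (|τ| * ρ t)) * (C₀ * V + C₀ * V) :=
        mul_le_mul_of_nonneg_left (add_le_add hz1 hz2) (by positivity)
      refine h1.trans (le_of_eq ?_)
      rw [hD]
      ring
    have hr : 0 ≤ |τ| * ρ t := mul_nonneg (abs_nonneg _) (hρnn t)
    calc (∫ y, ‖(τ * deriv ρ t) • pf ζ (τ * ρ t) (zF s F) y‖) ^ (1 - σ) *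
          (∫ y, ‖fderiv ℝ (fun y => (τ * deriv ρ t) • pf ζ (τ * ρ t) (zF s F) y) y‖) ^ σ
        ≤ (c * (D * Real.exp (-(1 - 3 * θ) * (|τ| * ρ t)))) ^ (1 - σ) *
          (c * (D * Real.exp (12 * θ * (|τ| * ρ t)))) ^ σ := by
          refine mul_le_mul (Real.rpow_le_rpow (by positivity) e1 (by linarith))
            (Real.rpow_le_rpow (by positivity) e2 hσ) (by positivity) (by positivity)
      _ = ((c * D) * Real.exp (-(1 - 3 * θ) * (|τ| * ρ t))) ^ (1 - σ) *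
          ((c * D) * Real.exp (12 * θ * (|τ| * ρ t))) ^ σ := by
          rw [mul_assoc c D, mul_assoc c D]
      _ ≤ (c * D) * Real.exp (-(2 / 5 * (1 - σ)) * (|τ| * ρ t)) :=
          bcost_real σ θ _ _ hσ1 hσ hθ hθσ (mul_nonneg hc0 hD0) hr
      _ = D * (|τ| * deriv ρ t * Real.exp (-κ * (|τ| * ρ t))) := by
          rw [hc, hκdef]
          ring
  · refine (bcost_int_l κ |τ| D hκ (abs_nonneg _) hD0 ρ hρ hρ0 hρ1).trans (le_of_eq ?_)
    rw [hD]
    ring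

end Pool.Agent.H23.ST
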