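import Pool.Agent.H23.ST.Bu
import Pool.Agent.SFl.Glob

/-! # ST-B4: the blow up flow, existence and first properties -/

namespace Pool.Agent.H23.ST

open MeasureTheory Set Pool.Agent.H68.VD Pool.Agent.H68.GM
open scoped ENNReal ContDiff Topology

/-- the factor in front of `s (x k)` -/
noncomputable def blaP (s : ℝ → ℝ) (k : Fin 4) (x : Eu 4) : ℝ :=
  ∏ j ∈ Finset.univ.filter (· < k), (1 - deriv s (x j))

theorem bla_v0_apply (s : ℝ → ℝ) (x : Eu 4) (k : Fin 4) : v0 s x k = s (x k) * blaP s k x := rfl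

theorem bla_P_smooth {s : ℝ → ℝ} (hs : ContDiff ℝ ∞ s) (k : Fin 4) : ContDiff ℝ ∞ (blaP s k) := by
  have h1 : ContDiff ℝ ∞ (deriv s) := (contDiff_infty_iff_deriv.1 hs).2
  refine contDiff_prod fun j _ => ?_
  have h2 : ContDiff ℝ ∞ (fun x : Eu 4 => x j) := (EuclideanSpace.proj (𝕜 := ℝ) j).contDiff
  exact contDiff_const.sub (h1.comp h2)

theorem bla_v0_smooth {s : ℝ → ℝ} (hs : ContDiff ℝ ∞ s) : ContDiff ℝ ∞ (v0 s) := by
  refine contDiff_euclidean.2 fun k => ?_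
  have h2 : ContDiff ℝ ∞ (fun x : Eu 4 => x k) := (EuclideanSpace.proj (𝕜 := ℝ) k).contDiff
  exact (hs.comp h2).mul (bla_P_smooth hs k)

section

variable {s : ℝ → ℝ} {w : Set ℝ} {θ : ℝ}

theorem bla_s_bd (h : Prof s w θ) : ∃ B : ℝ, 0 ≤ B ∧ ∀ t, |s t| ≤ B := by
  obtain ⟨B, hB⟩ := h.bd 0
  refine ⟨B, (abs_nonneg _).trans (hB 0), fun t => ?_⟩
  simpa using hB t

theorem bla_d_bd (h : Prof s w θ) : ∃ B : ℝ, 0 ≤ B ∧ ∀ t, |deriv s t| ≤ B := by
  obtain ⟨B, hB⟩ := h.bd 1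
  refine ⟨B, (abs_nonneg _).trans (hB 0), fun t => ?_⟩
  simpa using hB t

theorem bla_P_nonneg (h : Prof s w θ) (k : Fin 4) (x : Eu 4) : 0 ≤ blaP s k x :=
  Finset.prod_nonneg fun _ _ => sub_nonneg.2 (h.le1 _)

theorem bla_P_bd (h : Prof s w θ) : ∃ C : ℝ, 0 ≤ C ∧ ∀ k x, |blaP s k x| ≤ C := by
  obtain ⟨B, hB0, hB⟩ := bla_d_bd h
  refine ⟨(1 + B) ^ 4, by positivity, fun k x => ?_⟩
  unfold blaP
  rw [Finset.abs_prod]
  calc ∏ j ∈ Finset.univ.filter (· < k), |1 - deriv s (x j)|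
      ≤ ∏ j ∈ Finset.univ.filter (· < k), (1 + B) := by
        refine Finset.prod_le_prod (fun _ _ => abs_nonneg _) fun j _ => ?_
        calc |1 - deriv s (x j)| ≤ |(1 : ℝ)| + |deriv s (x j)| := abs_sub _ _
          _ ≤ 1 + B := by rw [abs_one]; linarith [hB (x j)]
    _ = (1 + B) ^ (Finset.univ.filter (· < k)).card := by rw [Finset.prod_const]
    _ ≤ (1 + B) ^ 4 := by
        refine pow_le_pow_right₀ (by linarith) ?_
        exact (Finset.card_filter_le _ _).trans (by simp)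

theorem bla_v0_bd (h : Prof s w θ) : ∃ M : ℝ, ∀ x, ‖v0 s x‖ ≤ M := by
  obtain ⟨B, hB0, hB⟩ := bla_s_bd h
  obtain ⟨C, hC0, hC⟩ := bla_P_bd h
  refine ⟨Real.sqrt (∑ _i : Fin 4, (B * C) ^ 2), fun x => ?_⟩
  rw [EuclideanSpace.norm_eq]
  refine Real.sqrt_le_sqrt (Finset.sum_le_sum fun i _ => ?_)
  refine pow_le_pow_left₀ (norm_nonneg _) ?_ 2
  change ‖v0 s x i‖ ≤ _
  rw [bla_v0_apply, norm_mul, Real.norm_eq_abs, Real.norm_eq_abs]
  exact mul_le_mul (hB _) (hC _ _) (abs_nonneg _) hB0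

theorem bla_exists (h : Prof s w θ) : ∃ ζ : ℝ → Eu 4 → Eu 4, Blow s ζ := by
  obtain ⟨M, hM⟩ := bla_v0_bd h
  have hu : ContDiff ℝ ∞ (fun q : ℝ × Eu 4 => v0 s q.2) := (bla_v0_smooth h.smooth).comp contDiff_snd
  obtain ⟨φ, h1, h2⟩ := SFl.exists_smooth hu (fun T => ⟨M, fun t x _ => hM x⟩)
  exact ⟨φ, h1, h2⟩

theorem bla_unique (h : Prof s w θ) {γ γ' : ℝ → Eu 4} (h0 : γ 0 = γ' 0)
    (hγ : ∀ t, HasDerivAt γ (v0 s (γ t)) t) (hγ' : ∀ t, HasDerivAt γ' (v0 s (γ' t)) t) (t : ℝ) :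
    γ t = γ' t := by
  have hu : ContDiff ℝ ∞ (fun q : ℝ × Eu 4 => v0 s q.2) := (bla_v0_smooth h.smooth).comp contDiff_snd
  have ht : |t| < |t| + 1 := by linarith
  exact SFl.flow_unique hu (T := |t| + 1) h0 (fun r _ => hγ r) (fun r _ => hγ' r) t (abs_lt.1 ht)

/-- coordinates of a curve -/
theorem bla_coord {ζ : ℝ → Eu 4 → Eu 4} (hζ : Blow s ζ) (x : Eu 4) (k : Fin 4) (t : ℝ) :
    HasDerivAt (fun τ => ζ τ x k) (s (ζ t x k) * blaP s k (ζ t x)) t := by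
  have h1 := hζ.flow.deriv t x
  have h2 := (EuclideanSpace.proj (𝕜 := ℝ) k).hasFDerivAt (x := ζ t x) |>.comp_hasDerivAt t h1
  exact h2

theorem bla_lip (h : Prof s w θ) : ∃ L : NNReal, LipschitzWith L s := by
  obtain ⟨B, hB0, hB⟩ := bla_d_bd h
  refine ⟨⟨B, hB0⟩, lipschitzWith_of_nnnorm_deriv_le (h.smooth.differentiable (by simp)) fun x => ?_⟩
  rw [← NNReal.coe_le_coe]
  exact hB x

theorem bla_lip2 (h : Prof s w θ) : ∃ K : NNReal, ∀ p : ℝ → Eu 4, ∀ k t,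
    LipschitzWith K (fun y : ℝ => s y * blaP s k (p t)) := by
  obtain ⟨L, hL⟩ := bla_lip h
  obtain ⟨C, hC0, hC⟩ := bla_P_bd h
  refine ⟨L * ⟨C, hC0⟩, fun p k t => LipschitzWith.of_dist_le_mul fun y z => ?_⟩
  rw [Real.dist_eq, ← sub_mul, abs_mul]
  have h1 := hL.dist_le_mul y z
  rw [Real.dist_eq] at h1
  calc |s y - s z| * |blaP s k (p t)| ≤ (L * dist y z) * C :=
        mul_le_mul h1 (hC _ _) (abs_nonneg _) (by positivity)
    _ = (L : ℝ) * C * dist y z := by ring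
    _ = _ := rfl

/-- the faces: a coordinate that is once at a zero of `s` stays there -/
theorem bla_const (h : Prof s w θ) {ζ : ℝ → Eu 4 → Eu 4} (hζ : Blow s ζ) {a : ℝ} (ha : s a = 0)
    (x : Eu 4) (k : Fin 4) {t₀ : ℝ} (h0 : ζ t₀ x k = a) (t : ℝ) : ζ t x k = a := by
  obtain ⟨K, hK⟩ := bla_lip2 h
  have h1 : (fun τ => ζ τ x k) = fun _ => a := by
    refine ODE_solution_unique_univ (v := fun t y => s y * blaP s k (ζ t x)) (s := fun _ => univ)
      (K := K) (t₀ := t₀) (fun t => (hK (fun t => ζ t x) k t).lipschitzOnWith)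
      (fun t => ⟨bla_coord hζ x k t, mem_univ _⟩) (fun t => ⟨?_, mem_univ _⟩) h0
    simp only [ha, zero_mul]
    exact hasDerivAt_const t a
  exact congrFun h1 t

theorem bla_cont {ζ : ℝ → Eu 4 → Eu 4} (hζ : Blow s ζ) (x : Eu 4) (k : Fin 4) :
    Continuous (fun τ => ζ τ x k) :=
  continuous_iff_continuousAt.2 fun t => (bla_coord hζ x k t).continuousAt

theorem bla_face (h : Prof s w θ) {ζ : ℝ → Eu 4 → Eu 4} (hζ : Blow s ζ) {a : ℝ} (ha : s a = 0)
    (τ : ℝ) (x : Eu 4) (k : Fin 4) : (x k = a → ζ τ x k = a) ∧ (x k < a → ζ τ x k < a) ∧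
        (a < x k → a < ζ τ x k) := by
  have h0 : ζ 0 x = x := hζ.flow.zero x
  refine ⟨fun hx => bla_const h hζ ha x k (t₀ := 0) (by rw [h0]; exact hx) τ, fun hx => ?_,
    fun hx => ?_⟩
  · by_contra hc
    rw [not_lt] at hc
    have hm : a ∈ uIcc ((fun τ => ζ τ x k) 0) ((fun τ => ζ τ x k) τ) := by
      simp only [h0]
      rw [mem_uIcc]
      exact Or.inl ⟨hx.le, hc⟩
    obtain ⟨t₀, -, ht⟩ := intermediate_value_uIcc (bla_cont hζ x k).continuousOn hm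
    have h2 := bla_const h hζ ha x k ht 0
    rw [h0] at h2
    exact hx.ne h2
  · by_contra hc
    rw [not_lt] at hc
    have hm : a ∈ uIcc ((fun τ => ζ τ x k) 0) ((fun τ => ζ τ x k) τ) := by
      simp only [h0]
      rw [mem_uIcc]
      exact Or.inr ⟨hc, hx.le⟩
    obtain ⟨t₀, -, ht⟩ := intermediate_value_uIcc (bla_cont hζ x k).continuousOn hm
    have h2 := bla_const h hζ ha x k ht 0
    rw [h0] at h2
    exact hx.ne' h2

/-- on the walls `s` is affine -/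
theorem bla_affine (h : Prof s w θ) {t₀ b : ℝ} (h0 : s t₀ = 0) (hw : uIcc t₀ b ⊆ w) {t : ℝ}
    (ht : t ∈ uIcc t₀ b) : s t = t - t₀ := by
  have h1 : ∀ r ∈ uIcc t₀ b, HasDerivWithinAt (fun r => s r - r) (deriv s r - 1) (uIcc t₀ b) r :=
    fun r _ => (((h.smooth.differentiable (by simp)) r).hasDerivAt.sub (hasDerivAt_id r)).hasDerivWithinAt
  have h2 := Convex.norm_image_sub_le_of_norm_hasDerivWithin_le h1 (C := 0)
    (fun r hr => by rw [h.wall r (hw hr)]; simp) (convex_uIcc t₀ b) left_mem_uIcc ht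
  rw [zero_mul] at h2
  have h3 := norm_le_zero_iff.1 h2
  simp only [h0] at h3
  linarith

theorem bla_wall (h : Prof s w θ) {ζ : ℝ → Eu 4 → Eu 4} (hζ : Blow s ζ) {τ : ℝ} (hτ : τ ≤ 0)
    {x : Eu 4} {k : Fin 4} (hx : x k ∈ w) : ζ τ x k ∈ w := by
  obtain ⟨t₀, ht0, hw⟩ := h.back _ hx
  obtain ⟨K, hK⟩ := bla_lip2 h
  have h0 : ζ 0 x = x := hζ.flow.zero x
  have hPc : Continuous (fun t => blaP s k (ζ t x)) := by
    have h1 : Continuous (fun t => ζ t x) :=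
      continuous_iff_continuousAt.2 fun t => (hζ.flow.deriv t x).continuousAt
    exact (bla_P_smooth h.smooth k).continuous.comp h1
  set z : ℝ → ℝ := fun t => t₀ + (x k - t₀) * Real.exp (∫ r in (0 : ℝ)..t, blaP s k (ζ r x)) with hz
  have hzd : ∀ t, HasDerivAt z ((z t - t₀) * blaP s k (ζ t x)) t := by
    intro t
    have h1 := (hPc.integral_hasStrictDerivAt 0 t).hasDerivAt
    have h2 := (h1.exp.const_mul (x k - t₀)).const_add t₀
    have h3 : (x k - t₀) * (Real.exp (∫ r in (0 : ℝ)..t, blaP s k (ζ r x)) * blaP s k (ζ t x))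
        = (z t - t₀) * blaP s k (ζ t x) := by
      simp only [hz]; ring
    rw [h3] at h2
    exact h2
  have hzm : ∀ t ≤ 0, z t ∈ uIcc t₀ (x k) := by
    intro t ht
    have h1 : ∫ r in (0 : ℝ)..t, blaP s k (ζ r x) ≤ 0 := by
      rw [intervalIntegral.integral_symm]
      have := intervalIntegral.integral_nonneg ht (f := fun r => blaP s k (ζ r x))
        (μ := volume) (fun r _ => bla_P_nonneg h k _)
      linarith
    have h2 : Real.exp (∫ r in (0 : ℝ)..t, blaP s k (ζ r x)) ≤ 1 := Real.exp_le_one_iff.2 h1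
    have h3 := Real.exp_pos (∫ r in (0 : ℝ)..t, blaP s k (ζ r x))
    have h4 : z t = AffineMap.lineMap t₀ (x k) (Real.exp (∫ r in (0 : ℝ)..t, blaP s k (ζ r x))) := by
      rw [AffineMap.lineMap_apply_ring']
      simp only [hz]; ring
    rw [h4, ← segment_eq_uIcc]
    exact segment_eq_image_lineMap ℝ t₀ (x k) ▸ ⟨_, ⟨h3.le, h2⟩, rfl⟩
  have key : EqOn (fun t => ζ t x k) z (Icc τ 0) := by
    refine ODE_solution_unique_of_mem_Icc_left (v := fun t y => s y * blaP s k (ζ t x))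
      (s := fun _ => univ) (K := K) (fun t _ => (hK (fun t => ζ t x) k t).lipschitzOnWith)
      (bla_cont hζ x k).continuousOn (fun t _ => (bla_coord hζ x k t).hasDerivWithinAt)
      (fun t _ => mem_univ _) (fun t _ => (hzd t).continuousAt.continuousWithinAt) (fun t ht => ?_)
      (fun t _ => mem_univ _) ?_
    · have h1 := bla_affine h ht0 hw (hzm t ht.2)
      simp only [h1]
      exact (hzd t).hasDerivWithinAt
    · simp only [h0, hz, intervalIntegral.integral_same, Real.exp_zero, mul_one]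
      ring
  have h5 := key ⟨le_rfl, hτ⟩
  simp only at h5
  rw [h5]
  exact hw (hzm τ hτ)

theorem bla_per (h : Prof s w θ) {ζ : ℝ → Eu 4 → Eu 4} (hζ : Blow s ζ)
    (hp : ∀ t, s (t + 1) = s t) (τ : ℝ) (x : Eu 4) (m : Fin 4 → ℤ) :
    ζ τ (x + iv m) = ζ τ x + iv m := by
  have hp1 : ∀ (n : ℤ) (t : ℝ), s (t + n) = s t := by
    intro n t
    have h1 : Function.Periodic s 1 := hp
    simpa using h1.int_mul n t
  have hd1 : ∀ (n : ℤ) (t : ℝ), deriv s (t + n) = deriv s t := by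
    intro n t
    rw [← deriv_comp_add_const]
    congr 1
    funext r
    exact hp1 n r
  have hv : ∀ y : Eu 4, v0 s (y + iv m) = v0 s y := by
    intro y
    ext k
    have h2 : ∀ j, (y + iv m) j = y j + (m j : ℝ) := fun j => rfl
    rw [bla_v0_apply, bla_v0_apply, h2, hp1]
    unfold blaP
    congr 1
    refine Finset.prod_congr rfl fun j _ => ?_
    rw [h2, hd1]
  refine bla_unique h (γ := fun t => ζ t (x + iv m)) (γ' := fun t => ζ t x + iv m) ?_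
    (fun t => hζ.flow.deriv t _) (fun t => ?_) τ
  · simp only [hζ.flow.zero]
  · simp only [hv]
    exact (hζ.flow.deriv t x).add_const _

end

/-- ST-B4 (file BlowA.lean). -/
theorem blow_a (s : ℝ → ℝ) (w : Set ℝ) (θ : ℝ) (h : Prof s w θ) :
    (∃ ζ : ℝ → Eu 4 → Eu 4, Blow s ζ) ∧ ∀ ζ : ℝ → Eu 4 → Eu 4, Blow s ζ →
      (∀ x, ζ 0 x = x) ∧ (∀ a b x, ζ (a + b) x = ζ a (ζ b x)) ∧
      ((∀ t, s (t + 1) = s t) → ∀ τ x m, ζ τ (x + iv m) = ζ τ x + iv m) ∧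
      (∀ a, s a = 0 → ∀ τ x k, (x k = a → ζ τ x k = a) ∧ (x k < a → ζ τ x k < a) ∧
        (a < x k → a < ζ τ x k)) ∧
      (∀ x, (∀ k, s (x k) = 0) → ∀ τ, ζ τ x = x) ∧
      (∀ τ ≤ 0, ∀ x ∈ Wl w, ζ τ x ∈ Wl w) := by
  refine ⟨bla_exists h, fun ζ hζ => ⟨hζ.flow.zero, fun a b x => ?_, fun hp τ x m =>
    bla_per h hζ hp τ x m, fun a ha τ x k => bla_face h hζ ha τ x k, fun x hx τ => ?_, ?_⟩⟩
  · refine bla_unique h (γ := fun t => ζ (t + b) x) (γ' := fun t => ζ t (ζ b x)) ?_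
      (fun t => ?_) (fun t => hζ.flow.deriv t _) a
    · simp only [zero_add, hζ.flow.zero]
    · exact HasDerivAt.comp_add_const t b (hζ.flow.deriv (t + b) x)
  · ext k
    exact (bla_face h hζ (hx k) τ x k).1 rfl
  · rintro τ hτ x ⟨k, hk⟩
    exact ⟨k, bla_wall h hζ hτ hk⟩

end Pool.Agent.H23.ST
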