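import Pool.Agent.H23.ST.Bu2
import Pool.Agent.H68.VD.Fam
import Pool.Agent.H68.VD.VelDiv

/-! # Row ST-K1: the calculus of compactly supported families -/

namespace Pool.Agent.H23.ST

open MeasureTheory Set Pool.Agent.H68.VD Pool.Agent.H68.GM Pool.Agent.H6.ST
open scoped ENNReal ContDiff Topology

private theorem ck_fam {n : ℕ} {U : Set (Eu n)} {E : Type} [NormedAddCommGroup E]
    [NormedSpace ℝ E] {F : E → Eu n → Eu n} (h : CF U F) : IsFam (⊥ : Subgroup (Eu n ≃ᵃ[ℝ] Eu n)) F :=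
  ⟨h.smooth, h.bij, h.det, by
    intro e g hg x
    rw [Subgroup.mem_bot] at hg
    rw [hg]
    rfl⟩

private theorem ck_inv {n : ℕ} {U : Set (Eu n)} {E : Type} [NormedAddCommGroup E]
    [NormedSpace ℝ E] [CompleteSpace E] {F : E → Eu n → Eu n} (h : CF U F) :
    CF U (fun e => Function.invFun (F e)) := by
  have h1 := famKit.inv n _ E F (ck_fam h)
  refine ⟨h1.smooth, h1.bij, h1.det, ?_⟩
  obtain ⟨K, hK, hKU, hKF⟩ := h.supp
  refine ⟨K, hK, hKU, fun e x hx => ?_⟩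
  have h2 := Function.leftInverse_invFun (h.bij e).injective x
  rw [hKF e x hx] at h2
  exact h2

/-- ST-K1 -/
theorem cfKit : (∀ (n : ℕ) (U : Set (Eu n)) (E : Type) [NormedAddCommGroup E] [NormedSpace ℝ E]
      (F G : E → Eu n → Eu n), CF U F → CF U G → CF U (fun e x => F e (G e x))) ∧
    (∀ (n : ℕ) (U : Set (Eu n)) (E : Type) [NormedAddCommGroup E] [NormedSpace ℝ E]
      [CompleteSpace E] (F : E → Eu n → Eu n), CF U F → CF U (fun e => Function.invFun (F e))) ∧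
    (∀ (n : ℕ) (U : Set (Eu n)) (E E' : Type) [NormedAddCommGroup E] [NormedSpace ℝ E]
      [NormedAddCommGroup E'] [NormedSpace ℝ E'] (F : E → Eu n → Eu n) (h : E' → E), CF U F →
      ContDiff ℝ ∞ h → CF U (fun e => F (h e))) ∧
    (∀ (n : ℕ) (U : Set (Eu n)) (φ : ℝ → Eu n → Eu n), CF U φ →
      (∀ t x, HasDerivAt (fun τ => φ τ x) (vel φ t (φ t x)) t) ∧
      ContDiff ℝ ∞ (fun q : ℝ × Eu n => vel φ q.1 q.2) ∧
      (∃ K : Set (Eu n), IsCompact K ∧ K ⊆ U ∧ ∀ t, ∀ x ∉ K, vel φ t x = 0) ∧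
      (∀ t x, divg (vel φ t) x = 0) ∧
      (∀ h : ℝ → ℝ, ContDiff ℝ ∞ h → ∀ t x, vel (fun t => φ (h t)) t x =
        deriv h t • vel φ (h t) x)) ∧
    (∀ (n : ℕ) (U : Set (Eu n)) (φ ψ : ℝ → Eu n → Eu n), CF U φ → CF U ψ → ∀ t x,
      vel (fun t x => φ t (ψ t x)) t (φ t x) = vel φ t (φ t x) + fderiv ℝ (φ t) x (vel ψ t x)) ∧
    (∀ (n : ℕ) (φ : ℝ → Eu n → Eu n) (f : Eu n → Eu n), (∀ t, Function.Bijective (φ t)) →
      Function.Bijective f → ∀ t x, vel (fun t x => φ t (f x)) t x = vel φ t x) ∧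
    (∀ (n : ℕ) (U : Set (Eu n)) (φ : ℝ → Eu n → Eu n), CF U φ → ∀ t x,
      vel (fun t => Function.invFun (φ t)) t (Function.invFun (φ t) x) =
        - fderiv ℝ (Function.invFun (φ t)) x (vel φ t x)) := by
  refine ⟨?_, ?_, ?_, ?_, ?_, ?_, ?_⟩
  · intro n U E _ _ F G hF hG
    have h1 := famKit.comp n _ E F G (ck_fam hF) (ck_fam hG)
    refine ⟨h1.smooth, h1.bij, h1.det, ?_⟩
    obtain ⟨K, hK, hKU, hKF⟩ := hF.supp
    obtain ⟨L, hL, hLU, hLG⟩ := hG.supp
    refine ⟨K ∪ L, hK.union hL, union_subset hKU hLU, fun e x hx => ?_⟩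
    rw [hLG e x (fun hh => hx (Or.inr hh)), hKF e x (fun hh => hx (Or.inl hh))]
  · intro n U E _ _ _ F hF
    exact ck_inv hF
  · intro n U E E' _ _ _ _ F h hF hh
    have h1 := famKit.re n _ E E' F h (ck_fam hF) hh
    refine ⟨h1.smooth, h1.bij, h1.det, ?_⟩
    obtain ⟨K, hK, hKU, hKF⟩ := hF.supp
    exact ⟨K, hK, hKU, fun e x hx => hKF (h e) x hx⟩
  · intro n U φ hφ
    have hP : IsPath (⊥ : Subgroup (Eu n ≃ᵃ[ℝ] Eu n)) φ := ck_fam hφ
    refine ⟨famKit.velEq n _ φ hP, famKit.velSmooth n _ φ hP, ?_, ?_, ?_⟩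
    · obtain ⟨K, hK, hKU, hKF⟩ := (ck_inv hφ).supp
      obtain ⟨L, hL, hLU, hLF⟩ := hφ.supp
      refine ⟨K ∪ L, hK.union hL, union_subset hKU hLU, fun t x hx => ?_⟩
      have h1 : Function.invFun (φ t) x = x := hKF t x (fun hh => hx (Or.inl hh))
      have h2 : (fun τ => φ τ x) = fun _ => x := by
        funext τ
        exact hLF τ x (fun hh => hx (Or.inr hh))
      unfold vel
      rw [h1, h2, deriv_const]
    · intro t x
      exact velDiv famKit n _ φ hP t x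
    · intro h hh t x
      exact famKit.velRe n _ φ h hP t (hh.differentiable (by simp) t) x
  · intro n U φ ψ hφ hψ t x
    exact famKit.velComp n _ φ ψ (ck_fam hφ) (ck_fam hψ) t x
  · exact famKit.velConst
  · intro n U φ hφ t x
    have h1 := famKit.velComp n _ (fun t => Function.invFun (φ t)) φ (ck_fam (ck_inv hφ))
      (ck_fam hφ) t x
    have h2 : (fun (t : ℝ) (x : Eu n) => Function.invFun (φ t) (φ t x)) = fun _ x => x := by
      funext t x
      exact Function.leftInverse_invFun (hφ.bij t).injective x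
    have h3 : vel (fun (_ : ℝ) (x : Eu n) => x) t (Function.invFun (φ t) x) = 0 := by
      unfold vel
      rw [deriv_const]
    rw [h2, h3] at h1
    exact (neg_eq_of_add_eq_zero_left h1.symm).symm

end Pool.Agent.H23.ST
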