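import Pool.Agent.H23.ST.Bu
import Pool.Agent.H23.ST.V0
import Pool.Agent.H23.ST.BlowA
import Pool.Agent.H68.VD.VelDiv

/-! # The determinant of the blow up flow (row ST-B5)

The determinant of the derivative of the flow solves `D' = div v⁰(ζ) D`, and `div v⁰ = 1` on the walls,
which are mapped into themselves for negative times. -/

set_option autoImplicit false

namespace Pool.Agent.H23.ST

open MeasureTheory Set Pool.Agent.H68.VD Pool.Agent.H68.GM
open scoped ENNReal ContDiff Topology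

/-- The derivative of the determinant at the identity is the trace. -/
private theorem b5_det (A : ℝ → (Eu 4 →L[ℝ] Eu 4)) (A' : Eu 4 →L[ℝ] Eu 4) (t : ℝ)
    (h : ∀ i, HasDerivAt (fun τ => A τ (ev i)) (A' (ev i)) t)
    (h1 : A t = ContinuousLinearMap.id ℝ (Eu 4)) :
    HasDerivAt (fun τ => (A τ).det) (∑ j, (A' (ev j)) j) t := by
  classical
  set b := (EuclideanSpace.basisFun (Fin 4) ℝ).toBasis with hb
  have hbe : ∀ i, b i = ev i := by
    intro i
    simp [hb, ev]
  have hcoord : ∀ (B : Eu 4 →L[ℝ] Eu 4) (i j : Fin 4),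
      LinearMap.toMatrix b b (B : Eu 4 →ₗ[ℝ] Eu 4) i j = (B (ev j)) i := by
    intro B i j
    rw [LinearMap.toMatrix_apply, hbe]
    simp [hb]
  have hdet : ∀ τ, (LinearMap.toMatrix b b (A τ : Eu 4 →ₗ[ℝ] Eu 4)).det = (A τ).det := by
    intro τ
    rw [LinearMap.det_toMatrix]
  have hM := VelDivA.hasDerivAt_det (fun τ => LinearMap.toMatrix b b (A τ : Eu 4 →ₗ[ℝ] Eu 4))
    (LinearMap.toMatrix b b (A' : Eu 4 →ₗ[ℝ] Eu 4)) t ?_ ?_
  · simp_rw [hdet, hcoord] at hM
    exact hM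
  · intro i j
    simp_rw [hcoord]
    exact (EuclideanSpace.proj (𝕜 := ℝ) i : Eu 4 →L[ℝ] ℝ).hasFDerivAt.comp_hasDerivAt t (h j)
  · rw [h1]
    simp

/-- The determinant of the derivative of the flow solves a linear equation. -/
private theorem b5_deriv {s : ℝ → ℝ} {ζ : ℝ → Eu 4 → Eu 4} (hζ : Blow s ζ)
    (h0 : ∀ x, ζ 0 x = x) (hg : ∀ a b x, ζ (a + b) x = ζ a (ζ b x)) (t : ℝ) (x : Eu 4) :
    HasDerivAt (fun τ => (fderiv ℝ (ζ τ) x).det)
      (divg (v0 s) (ζ t x) * (fderiv ℝ (ζ t) x).det) t := by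
  have hsm : ∀ τ, ContDiff ℝ ∞ (ζ τ) := fun τ =>
    hζ.smooth.comp (contDiff_const.prodMk contDiff_id)
  -- at time zero
  have h1 : ∀ y, HasDerivAt (fun τ => (fderiv ℝ (ζ τ) y).det) (divg (v0 s) y) 0 := by
    intro y
    refine b5_det (fun τ => fderiv ℝ (ζ τ) y) (fderiv ℝ (v0 s) y) 0 (fun i => ?_) ?_
    · have h2 := VelDivA.mixed (fun q : ℝ × Eu 4 => ζ q.1 q.2) hζ.smooth 0 y (ev i)
      have h3 : (fun z => deriv (fun τ => ζ τ z) 0) = v0 s := by
        funext z
        have h4 := (hζ.flow.deriv 0 z).deriv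
        rw [h4]
        show v0 s (ζ 0 z) = v0 s z
        rw [h0]
      simp only [h3] at h2
      exact h2
    · have h4 : ζ 0 = id := funext h0
      rw [h4]
      exact fderiv_id
  have h2 : (fun τ => (fderiv ℝ (ζ τ) x).det) =
      fun τ => (fderiv ℝ (ζ (τ - t)) (ζ t x)).det * (fderiv ℝ (ζ t) x).det := by
    funext τ
    have h3 : ζ τ = ζ (τ - t) ∘ ζ t := by
      funext y
      have h4 := hg (τ - t) t y
      rw [sub_add_cancel] at h4
      exact h4
    have h5 : fderiv ℝ (ζ τ) x = (fderiv ℝ (ζ (τ - t)) (ζ t x)).comp (fderiv ℝ (ζ t) x) := by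
      conv_lhs => rw [h3]
      exact fderiv_comp x ((hsm _).differentiable (by simp) _) ((hsm _).differentiable (by simp) _)
    rw [h5]
    exact LinearMap.det_comp _ _
  rw [h2]
  have h3 := h1 (ζ t x)
  have h4 : HasDerivAt (fun τ : ℝ => τ - t) 1 t := (hasDerivAt_id t).sub_const t
  have h6 : HasDerivAt (fun τ => (fderiv ℝ (ζ (τ - t)) (ζ t x)).det)
      (divg (v0 s) (ζ t x) * 1) t :=
    HasDerivAt.comp_of_eq t h3 h4 (sub_self t).symm
  rw [mul_one] at h6
  exact h6.mul_const _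

theorem blow_det (s : ℝ → ℝ) (w : Set ℝ) (θ : ℝ) (h : Prof s w θ) (ζ : ℝ → Eu 4 → Eu 4)
    (hζ : Blow s ζ) : (∀ τ x, 0 < (fderiv ℝ (ζ τ) x).det) ∧
      ∀ τ ≤ 0, ∀ x ∈ Wl w, (fderiv ℝ (ζ τ) x).det = Real.exp τ := by
  obtain ⟨_, _, hdiv⟩ := v0_kit s w θ h
  obtain ⟨h0, hg, _, _, _, hwall⟩ := (blow_a s w θ h).2 ζ hζ
  have hcont : ∀ x, Continuous fun τ => divg (v0 s) (ζ τ x) := by
    intro x
    have h1 : (fun τ => divg (v0 s) (ζ τ x)) =
        fun τ => 1 - ∏ k, (1 - deriv s ((ζ τ x) k)) := by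
      funext τ
      rw [hdiv]
    rw [h1]
    have h2 : Continuous (deriv s) := h.smooth.continuous_deriv (by simp)
    have h3 : Continuous fun τ => ζ τ x :=
      hζ.smooth.continuous.comp (continuous_id.prodMk continuous_const)
    have h4 : ∀ k : Fin 4, Continuous fun τ => (ζ τ x) k := fun k =>
      (EuclideanSpace.proj (𝕜 := ℝ) k : Eu 4 →L[ℝ] ℝ).continuous.comp h3
    exact continuous_const.sub (continuous_finsetProd _ fun k _ =>
      continuous_const.sub (h2.comp (h4 k)))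
  have key : ∀ x τ, (fderiv ℝ (ζ τ) x).det =
      Real.exp (∫ r in (0 : ℝ)..τ, divg (v0 s) (ζ r x)) := by
    intro x τ
    set D : ℝ → ℝ := fun τ => ∫ r in (0 : ℝ)..τ, divg (v0 s) (ζ r x) with hD
    have hDd : ∀ τ, HasDerivAt D (divg (v0 s) (ζ τ x)) τ := fun τ =>
      intervalIntegral.integral_hasDerivAt_right ((hcont x).intervalIntegrable _ _)
        ((hcont x).stronglyMeasurableAtFilter _ _) (hcont x).continuousAt
    have hgd : ∀ τ, HasDerivAt (fun τ => (fderiv ℝ (ζ τ) x).det * Real.exp (-D τ)) 0 τ := by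
      intro τ
      have h1 := (b5_deriv hζ h0 hg τ x).mul (hDd τ).neg.exp
      refine h1.congr_deriv ?_
      ring
    have h2 := is_const_of_deriv_eq_zero (fun τ => (hgd τ).differentiableAt)
      (fun τ => (hgd τ).deriv) τ 0
    have h3 : (fderiv ℝ (ζ 0) x).det = 1 := by
      have h4 : ζ 0 = id := funext h0
      rw [h4, fderiv_id]
      exact LinearMap.det_id
    have h5 : D 0 = 0 := by
      rw [hD]
      exact intervalIntegral.integral_same
    rw [h3, h5, neg_zero, Real.exp_zero, mul_one, Real.exp_neg] at h2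
    have h6 := Real.exp_pos (D τ)
    field_simp at h2
    exact h2
  refine ⟨fun τ x => ?_, fun τ hτ x hx => ?_⟩
  · rw [key]
    exact Real.exp_pos _
  · rw [key]
    congr 1
    have h1 : ∫ r in (0 : ℝ)..τ, divg (v0 s) (ζ r x) = ∫ _r in (0 : ℝ)..τ, (1 : ℝ) := by
      refine intervalIntegral.integral_congr fun r hr => ?_
      rw [uIcc_of_ge hτ] at hr
      obtain ⟨k, hk⟩ := hwall r hr.2 x hx
      show divg (v0 s) (ζ r x) = 1
      rw [hdiv, Finset.prod_eq_zero (Finset.mem_univ k), sub_zero]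
      rw [h.wall _ hk, sub_self]
    rw [h1]
    simp

end Pool.Agent.H23.ST
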