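import Pool.Agent.H23.ST.Bu2
import Pool.Agent.H23.ST.BlowA
import Pool.Agent.H23.ST.BlowD

/-! # Project ST, row ST-B9: conjugation of a compactly supported family by the blow up flow -/

namespace Pool.Agent.H23.ST

open MeasureTheory Set Pool.Agent.H68.VD Pool.Agent.H68.GM Pool.Agent.H6.ST
open scoped ENNReal ContDiff Topology

theorem conj_cf (s : ℝ → ℝ) (w : Set ℝ) (θ : ℝ) (h : Prof s w θ) (ζ : ℝ → Eu 4 → Eu 4)
    (hζ : Blow s ζ) (U : Set (Eu 4)) (hUζ : ∀ τ, ∀ x ∈ U, ζ τ x ∈ U) (E : Type)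
    [NormedAddCommGroup E] [NormedSpace ℝ E] (Φ : E → Eu 4 → Eu 4) (hΦ : CF U Φ)
    (hc : ∀ e, Cmp s w (Φ e)) (τ : E → ℝ) (hτ : ContDiff ℝ ∞ τ) (τ₀ : ℝ)
    (hτ0 : ∀ e, τ₀ ≤ τ e ∧ τ e ≤ 0) : CF U (fun e => Th ζ (τ e) (Φ e)) := by
  obtain ⟨hz0, hzadd, hzper, -, -, hzW⟩ := (blow_a s w θ h).2 ζ hζ
  obtain ⟨hdpos, hdW⟩ := blow_det s w θ h ζ hζ
  have hinv : ∀ a x, ζ a (ζ (-a) x) = x := fun a x => by
    rw [← hzadd, add_neg_cancel, hz0]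
  have hinv' : ∀ a x, ζ (-a) (ζ a x) = x := fun a x => by
    rw [← hzadd, neg_add_cancel, hz0]
  have hsm : ∀ a, ContDiff ℝ ∞ (ζ a) := fun a => by
    have h1 : ContDiff ℝ ∞ (fun x : Eu 4 => ((a, x) : ℝ × Eu 4)) :=
      contDiff_const.prodMk contDiff_id
    exact hζ.smooth.comp h1
  have hd : ∀ a x, DifferentiableAt ℝ (ζ a) x := fun a x =>
    ((hsm a).differentiable (by simp)) x
  have hΦs : ∀ e, ContDiff ℝ ∞ (Φ e) := fun e => by
    have h1 : ContDiff ℝ ∞ (fun x : Eu 4 => ((e, x) : E × Eu 4)) :=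
      contDiff_const.prodMk contDiff_id
    exact hΦ.smooth.comp h1
  have hΦd : ∀ e x, DifferentiableAt ℝ (Φ e) x := fun e x =>
    ((hΦs e).differentiable (by simp)) x
  -- the determinants at `x` and `Φ x` agree
  have hkey : ∀ e x, (fderiv ℝ (ζ (τ e)) (Φ e x)).det = (fderiv ℝ (ζ (τ e)) x).det := by
    intro e x
    by_cases hx : x ∈ Wl w
    · rw [hdW _ (hτ0 e).2 _ hx, hdW _ (hτ0 e).2 _ ((hc e).on x hx)]
    · obtain ⟨k, hk, hkF⟩ := (hc e).off x hx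
      have hx1 : Φ e x = x + iv k := hkF.self_of_nhds
      have htr : ∀ y, ζ (τ e) (y + iv k) = ζ (τ e) y + iv k := by
        intro y
        rcases hk with hk | hk
        · have h0 : (iv k : Eu 4) = 0 := by
            ext i
            simp [iv, hk]
          rw [h0, add_zero, add_zero]
        · exact hzper hk _ _ _
      rw [hx1]
      have h2 : fderiv ℝ (fun y => ζ (τ e) (y + iv k)) x = fderiv ℝ (ζ (τ e)) (x + iv k) :=
        fderiv_comp_add_right (iv k)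
      have h3 : (fun y => ζ (τ e) (y + iv k)) = fun y => ζ (τ e) y + iv k := funext htr
      rw [← h2, h3, fderiv_add_const]
  refine ⟨?_, ?_, ?_, ?_⟩
  · have h1 : ContDiff ℝ ∞ (fun q : E × Eu 4 => ζ (-(τ q.1)) q.2) := by
      have h2 : ContDiff ℝ ∞ (fun q : E × Eu 4 => ((-(τ q.1), q.2) : ℝ × Eu 4)) :=
        (hτ.comp contDiff_fst).neg.prodMk contDiff_snd
      exact hζ.smooth.comp h2
    have h3 : ContDiff ℝ ∞ (fun q : E × Eu 4 => Φ q.1 (ζ (-(τ q.1)) q.2)) :=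
      hΦ.smooth.comp (contDiff_fst.prodMk h1)
    exact hζ.smooth.comp ((hτ.comp contDiff_fst).prodMk h3)
  · intro e
    have hb1 : ∀ a, Function.Bijective (ζ a) := fun a =>
      ⟨fun x y hxy => by rw [← hinv' a x, ← hinv' a y, hxy], fun y => ⟨ζ (-a) y, hinv a y⟩⟩
    have : Th ζ (τ e) (Φ e) = (ζ (τ e)) ∘ (Φ e) ∘ (ζ (-(τ e))) := rfl
    rw [this]
    exact (hb1 _).comp ((hΦ.bij e).comp (hb1 _))
  · intro e y
    set a := τ e with ha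
    set x := ζ (-a) y with hx
    have hy : ζ a x = y := hinv a y
    have h1 : HasFDerivAt (ζ (-a)) (fderiv ℝ (ζ (-a)) y) y := (hd _ _).hasFDerivAt
    have h2 : HasFDerivAt (Φ e) (fderiv ℝ (Φ e) x) (ζ (-a) y) := (hΦd _ _).hasFDerivAt
    have h3 : HasFDerivAt (ζ a) (fderiv ℝ (ζ a) (Φ e x)) (Φ e (ζ (-a) y)) := (hd _ _).hasFDerivAt
    have h4 : HasFDerivAt (fun y => ζ a (Φ e (ζ (-a) y)))
        ((fderiv ℝ (ζ a) (Φ e x)).comp ((fderiv ℝ (Φ e) x).comp (fderiv ℝ (ζ (-a)) y))) y :=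
      h3.comp y (h2.comp y h1)
    have h5 : fderiv ℝ (Th ζ a (Φ e)) y =
        (fderiv ℝ (ζ a) (Φ e x)).comp ((fderiv ℝ (Φ e) x).comp (fderiv ℝ (ζ (-a)) y)) := h4.fderiv
    show (fderiv ℝ (Th ζ a (Φ e)) y).det = 1
    have hmul : ∀ A B : Eu 4 →L[ℝ] Eu 4, (A.comp B).det = A.det * B.det := fun A B =>
      LinearMap.det_comp (A : Eu 4 →ₗ[ℝ] Eu 4) (B : Eu 4 →ₗ[ℝ] Eu 4)
    rw [h5, hmul, hmul, hΦ.det, one_mul, hkey e x, ← hmul]
    -- `D ζ_a (x) ∘ D ζ_{-a} (y) = id`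
    have h6 : HasFDerivAt (ζ a) (fderiv ℝ (ζ a) x) (ζ (-a) y) := (hd _ _).hasFDerivAt
    have h7 : HasFDerivAt (fun y => ζ a (ζ (-a) y))
        ((fderiv ℝ (ζ a) x).comp (fderiv ℝ (ζ (-a)) y)) y := h6.comp y h1
    have h8 : (fun y => ζ a (ζ (-a) y)) = fun y => y := funext fun y => hinv a y
    rw [h8] at h7
    rw [h7.unique (hasFDerivAt_id y)]
    unfold ContinuousLinearMap.det
    simp
  · obtain ⟨K, hK, hKU, hKs⟩ := hΦ.supp
    refine ⟨(fun q : ℝ × Eu 4 => ζ q.1 q.2) '' (Icc τ₀ 0 ×ˢ K), ?_, ?_, ?_⟩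
    · exact (isCompact_Icc.prod hK).image hζ.smooth.continuous
    · rintro _ ⟨⟨t, x⟩, ⟨-, hx⟩, rfl⟩
      exact hUζ t x (hKU hx)
    · intro e y hy
      have hx : ζ (-(τ e)) y ∉ K := by
        intro hxK
        exact hy ⟨(τ e, ζ (-(τ e)) y), ⟨⟨(hτ0 e).1, (hτ0 e).2⟩, hxK⟩, hinv _ _⟩
      show ζ (τ e) (Φ e (ζ (-(τ e)) y)) = y
      rw [hKs e _ hx, hinv]

end Pool.Agent.H23.ST
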