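import Pool.Agent.H23.ST.Bu
import Pool.Agent.H23.ST.V0

/-! # Exponential bounds for the derivatives of the blow up flow -/

namespace Pool.Agent.H23.ST

open MeasureTheory Set Pool.Agent.H68.VD Pool.Agent.H68.GM
open scoped ENNReal ContDiff Topology

section general

variable {E : Type*} [NormedAddCommGroup E] [NormedSpace ℝ E]

private theorem slice {F : Type*} [NormedAddCommGroup F] [NormedSpace ℝ F]
    {f : ℝ → E → F} (hf : ContDiff ℝ ∞ (fun z : ℝ × E => f z.1 z.2)) (t : ℝ) :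
    ContDiff ℝ ∞ (f t) :=
  hf.comp (contDiff_prodMk_right t)

private theorem slice_fderiv {F : Type*} [NormedAddCommGroup F] [NormedSpace ℝ F]
    {f : ℝ → E → F} (hf : ContDiff ℝ ∞ (fun z : ℝ × E => f z.1 z.2)) (t : ℝ) (x : E) :
    fderiv ℝ (f t) x = (fderiv ℝ (fun z : ℝ × E => f z.1 z.2) (t, x)).comp
      (ContinuousLinearMap.inr ℝ ℝ E) := by
  have h1 : HasFDerivAt (fun z : ℝ × E => f z.1 z.2)
      (fderiv ℝ (fun z : ℝ × E => f z.1 z.2) (t, x)) (t, x) :=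
    (hf.differentiable (by simp) _).hasFDerivAt
  have h2 := h1.comp x (hasFDerivAt_prodMk_right t x)
  exact h2.fderiv

private theorem two_le : minSmoothness ℝ 2 ≤ (∞ : WithTop ℕ∞) := by
  rw [minSmoothness_of_isRCLikeNormedField]
  have h : ((2 : ℕ∞) : WithTop ℕ∞) ≤ ((⊤ : ℕ∞) : WithTop ℕ∞) := WithTop.coe_le_coe.2 le_top
  exact h

/-- The variational equation of the flow of an autonomous field. -/
theorem blowE_dt {v : E → E} (hv : ContDiff ℝ ∞ v) {φ : ℝ → E → E}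
    (hφ : ∀ t x, HasDerivAt (fun τ => φ τ x) (v (φ t x)) t)
    (hs : ContDiff ℝ ∞ (fun z : ℝ × E => φ z.1 z.2)) (t : ℝ) (x w : E) :
    HasDerivAt (fun τ => fderiv ℝ (φ τ) x w) (fderiv ℝ v (φ t x) (fderiv ℝ (φ t) x w)) t := by
  set F : ℝ × E → E := fun z => φ z.1 z.2 with hF
  have hF1 : ContDiff ℝ ∞ (fderiv ℝ F) := hs.fderiv_right (by simp)
  have h1 : HasFDerivAt (fderiv ℝ F) (fderiv ℝ (fderiv ℝ F) (t, x)) (t, x) :=
    (hF1.differentiable (by simp) _).hasFDerivAt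
  have h2 : HasDerivAt (fun τ : ℝ => (τ, x)) ((1 : ℝ), (0 : E)) t :=
    (hasDerivAt_id t).prodMk (hasDerivAt_const t x)
  have h3 : HasDerivAt (fun τ => fderiv ℝ F (τ, x)) (fderiv ℝ (fderiv ℝ F) (t, x) (1, 0)) t :=
    h1.comp_hasDerivAt t h2
  have h4 : HasDerivAt (fun τ => fderiv ℝ F (τ, x) ((0 : ℝ), w))
      (fderiv ℝ (fderiv ℝ F) (t, x) (1, 0) ((0 : ℝ), w)) t := by
    have := ((ContinuousLinearMap.apply ℝ E ((0 : ℝ), w)).hasFDerivAt).comp_hasDerivAt t h3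
    exact this
  have h5 : (fun τ => fderiv ℝ F (τ, x) ((0 : ℝ), w)) = fun τ => fderiv ℝ (φ τ) x w := by
    funext τ
    rw [slice_fderiv hs τ x]
    rfl
  rw [h5] at h4
  have h6 : fderiv ℝ (fderiv ℝ F) (t, x) (1, 0) ((0 : ℝ), w) =
      fderiv ℝ (fderiv ℝ F) (t, x) ((0 : ℝ), w) (1, 0) :=
    (hs.contDiffAt (x := (t, x))).isSymmSndFDerivAt two_le (1, 0) ((0 : ℝ), w)
  have h7 : HasFDerivAt (fun y : E => fderiv ℝ F (t, y) ((1 : ℝ), (0 : E)))
      ((ContinuousLinearMap.apply ℝ E ((1 : ℝ), (0 : E))).comp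
        ((fderiv ℝ (fderiv ℝ F) (t, x)).comp (ContinuousLinearMap.inr ℝ ℝ E))) x :=
    (ContinuousLinearMap.apply ℝ E ((1 : ℝ), (0 : E))).hasFDerivAt.comp x
      (h1.comp x (hasFDerivAt_prodMk_right t x))
  have h8 : (fun y : E => fderiv ℝ F (t, y) ((1 : ℝ), (0 : E))) = fun y => v (φ t y) := by
    funext y
    have h9 : HasFDerivAt F (fderiv ℝ F (t, y)) (t, y) :=
      (hs.differentiable (by simp) _).hasFDerivAt
    have h10 : HasDerivAt (fun τ : ℝ => (τ, y)) ((1 : ℝ), (0 : E)) t :=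
      (hasDerivAt_id t).prodMk (hasDerivAt_const t y)
    have h11 := h9.comp_hasDerivAt t h10
    exact h11.unique (hφ t y)
  rw [h8] at h7
  have h12 : HasFDerivAt (fun y => v (φ t y))
      ((fderiv ℝ v (φ t x)).comp (fderiv ℝ (φ t) x)) x := by
    have h13 : HasFDerivAt v (fderiv ℝ v (φ t x)) (φ t x) :=
      (hv.differentiable (by simp) _).hasFDerivAt
    have h14 : HasFDerivAt (φ t) (fderiv ℝ (φ t) x) x :=
      ((slice hs t).differentiable (by simp) _).hasFDerivAt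
    exact h13.comp x h14
  have h15 := congrArg (fun L => L w) (h7.unique h12)
  have h16 : fderiv ℝ (fderiv ℝ F) (t, x) ((0 : ℝ), w) (1, 0) =
      fderiv ℝ v (φ t x) (fderiv ℝ (φ t) x w) := h15
  rw [h6, h16] at h4
  exact h4

/-- The equation of the second derivative of the flow of an autonomous field. -/
theorem blowE_dt2 {v : E → E} (hv : ContDiff ℝ ∞ v) {φ : ℝ → E → E}
    (hφ : ∀ t x, HasDerivAt (fun τ => φ τ x) (v (φ t x)) t)
    (hs : ContDiff ℝ ∞ (fun z : ℝ × E => φ z.1 z.2)) (t : ℝ) (x a w : E) :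
    HasDerivAt (fun τ => fderiv ℝ (fderiv ℝ (φ τ)) x a w)
      (fderiv ℝ (fderiv ℝ v) (φ t x) (fderiv ℝ (φ t) x a) (fderiv ℝ (φ t) x w) +
        fderiv ℝ v (φ t x) (fderiv ℝ (fderiv ℝ (φ t)) x a w)) t := by
  set F : ℝ × E → E := fun z => φ z.1 z.2 with hF
  have hF1 : ContDiff ℝ ∞ (fderiv ℝ F) := hs.fderiv_right (by simp)
  have hv1 : ContDiff ℝ ∞ (fderiv ℝ v) := hv.fderiv_right (by simp)
  -- derivative of the pair `(f p.1, Df(p.1) p.2)`
  have key : ∀ (f : E → E), ContDiff ℝ ∞ f → ∀ p b : E × E,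
      fderiv ℝ (fun p : E × E => (f p.1, fderiv ℝ f p.1 p.2)) p b =
        (fderiv ℝ f p.1 b.1, fderiv ℝ (fderiv ℝ f) p.1 b.1 p.2 + fderiv ℝ f p.1 b.2) := by
    intro f hf p b
    have hf1 : ContDiff ℝ ∞ (fderiv ℝ f) := hf.fderiv_right (by simp)
    have g1 : HasFDerivAt (fun p : E × E => f p.1)
        ((fderiv ℝ f p.1).comp (ContinuousLinearMap.fst ℝ E E)) p :=
      HasFDerivAt.comp p (hf.differentiable (by simp) _).hasFDerivAt hasFDerivAt_fst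
    have g2 : HasFDerivAt (fun p : E × E => fderiv ℝ f p.1)
        ((fderiv ℝ (fderiv ℝ f) p.1).comp (ContinuousLinearMap.fst ℝ E E)) p :=
      HasFDerivAt.comp p (hf1.differentiable (by simp) _).hasFDerivAt hasFDerivAt_fst
    have g3 := g2.clm_apply (hasFDerivAt_snd (𝕜 := ℝ) (E := E) (F := E) (p := p))
    rw [(g1.prodMk g3).fderiv]
    ext1
    · rfl
    · simp [add_comm]
  set v2 : E × E → E × E := fun p => (v p.1, fderiv ℝ v p.1 p.2) with hv2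
  set φ2 : ℝ → E × E → E × E := fun t p => (φ t p.1, fderiv ℝ (φ t) p.1 p.2) with hφ2
  have s1 : ContDiff ℝ ∞ v2 := by
    refine (hv.comp contDiff_fst).prodMk ?_
    exact (hv1.comp contDiff_fst).clm_apply contDiff_snd
  have s2 : ∀ t p, HasDerivAt (fun τ => φ2 τ p) (v2 (φ2 t p)) t := by
    intro t p
    exact (hφ t p.1).prodMk (blowE_dt hv hφ hs t p.1 p.2)
  have s3 : ContDiff ℝ ∞ (fun z : ℝ × (E × E) => φ2 z.1 z.2) := by
    have e : (fun z : ℝ × (E × E) => φ2 z.1 z.2) =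
        fun z => (F (z.1, z.2.1), fderiv ℝ F (z.1, z.2.1) (0, z.2.2)) := by
      funext z
      simp only [hφ2, hF]
      rw [slice_fderiv hs z.1 z.2.1]
      rfl
    rw [e]
    have e1 : ContDiff ℝ ∞ (fun z : ℝ × (E × E) => (z.1, z.2.1)) :=
      contDiff_fst.prodMk (contDiff_fst.comp contDiff_snd)
    have e2 : ContDiff ℝ ∞ (fun z : ℝ × (E × E) => ((0 : ℝ), z.2.2)) :=
      contDiff_const.prodMk (contDiff_snd.comp contDiff_snd)
    exact (hs.comp e1).prodMk ((hF1.comp e1).clm_apply e2)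
  have h := blowE_dt s1 s2 s3 t (x, w) (a, 0)
  have h2 : HasDerivAt (fun τ => (fderiv ℝ (φ2 τ) (x, w) (a, 0)).2)
      (fderiv ℝ v2 (φ2 t (x, w)) (fderiv ℝ (φ2 t) (x, w) (a, 0))).2 t :=
    (ContinuousLinearMap.snd ℝ E E).hasFDerivAt.comp_hasDerivAt t h
  have e3 : ∀ τ, fderiv ℝ (φ2 τ) (x, w) (a, 0) =
      (fderiv ℝ (φ τ) x a, fderiv ℝ (fderiv ℝ (φ τ)) x a w) := by
    intro τ
    rw [hφ2]
    rw [key (φ τ) (slice hs τ)]
    simp
  simp only [e3] at h2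
  rw [hv2, key v hv] at h2
  exact h2

end general

/-- comparison for times `≤ 0` -/
private theorem back {Q Q' : ℝ → ℝ} (hQ : ∀ t, HasDerivAt Q (Q' t) t) {α β D : ℝ} (hβ : α < β)
    (hD : 0 ≤ D) (h : ∀ t ≤ 0, -α * Q t - D * Real.exp (-β * t) ≤ Q' t) :
    ∀ t ≤ 0, Q t ≤ Q 0 * Real.exp (-α * t) + D / (β - α) * Real.exp (-β * t) := by
  have hβα : 0 < β - α := by linarith
  set P : ℝ → ℝ := fun t => Real.exp (α * t) * Q t - D / (β - α) * Real.exp ((α - β) * t) with hP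
  have hPd : ∀ t, HasDerivAt P (Real.exp (α * t) * α * Q t + Real.exp (α * t) * Q' t -
      D / (β - α) * (Real.exp ((α - β) * t) * (α - β))) t := by
    intro t
    have e1 : HasDerivAt (fun t => Real.exp (α * t)) (Real.exp (α * t) * α) t := by
      have := ((hasDerivAt_id t).const_mul α).exp
      simpa using this
    have e2 : HasDerivAt (fun t => Real.exp ((α - β) * t)) (Real.exp ((α - β) * t) * (α - β)) t := by
      have := ((hasDerivAt_id t).const_mul (α - β)).exp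
      simpa using this
    exact (e1.mul (hQ t)).sub (e2.const_mul _)
  have hmono : MonotoneOn P (Iic 0) := by
    refine monotoneOn_of_deriv_nonneg (convex_Iic 0)
      (fun t _ => (hPd t).continuousAt.continuousWithinAt)
      (fun t _ => (hPd t).differentiableAt.differentiableWithinAt) ?_
    intro t ht
    rw [interior_Iic] at ht
    rw [(hPd t).deriv]
    have h1 := h t (le_of_lt ht)
    have h2 : Real.exp ((α - β) * t) = Real.exp (α * t) * Real.exp (-β * t) := by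
      rw [← Real.exp_add]; ring_nf
    have h3 : D / (β - α) * (Real.exp ((α - β) * t) * (α - β)) =
        -(Real.exp (α * t) * (D * Real.exp (-β * t))) := by
      rw [h2]; field_simp; ring
    rw [h3]
    have h4 := mul_le_mul_of_nonneg_left h1 (Real.exp_pos (α * t)).le
    nlinarith [h4]
  intro t ht
  have h1 := hmono (mem_Iic.2 ht) (mem_Iic.2 le_rfl) ht
  simp only [hP, mul_zero, Real.exp_zero, one_mul, mul_one] at h1
  have h2 : 0 ≤ D / (β - α) := by positivity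
  have h3 : Real.exp (α * t) * Q t ≤ Q 0 + D / (β - α) * Real.exp ((α - β) * t) := by linarith
  have h4 := mul_le_mul_of_nonneg_left h3 (Real.exp_pos (-α * t)).le
  have h5 : Real.exp (-α * t) * (Real.exp (α * t) * Q t) = Q t := by
    rw [← mul_assoc, ← Real.exp_add]
    ring_nf
    simp
  have h6 : Real.exp (-α * t) * Real.exp ((α - β) * t) = Real.exp (-β * t) := by
    rw [← Real.exp_add]; ring_nf
  rw [h5] at h4
  calc Q t ≤ _ := h4
    _ = Q 0 * Real.exp (-α * t) + D / (β - α) * (Real.exp (-α * t) * Real.exp ((α - β) * t)) := by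
      ring
    _ = _ := by rw [h6]

/-- the weighted square -/
private noncomputable def qq (η : ℝ) (a : Eu 4) : ℝ := ∑ k : Fin 4, (η ^ (k : ℕ) * a k) ^ 2

/-- the weighted bilinear form -/
private noncomputable def bl (η : ℝ) (a b : Eu 4) : ℝ :=
  ∑ k : Fin 4, (η ^ (k : ℕ)) ^ 2 * (a k * b k)

private theorem qq_nonneg (η : ℝ) (a : Eu 4) : 0 ≤ qq η a :=
  Finset.sum_nonneg fun _ _ => sq_nonneg _

private theorem nsq (a : Eu 4) : ‖a‖ ^ 2 = ∑ k : Fin 4, a k ^ 2 := by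
  rw [EuclideanSpace.norm_sq_eq]
  simp

private theorem qq_le {η : ℝ} (h0 : 0 < η) (h1 : η ≤ 1) (a : Eu 4) : qq η a ≤ ‖a‖ ^ 2 := by
  rw [nsq]
  refine Finset.sum_le_sum fun k _ => ?_
  rw [mul_pow]
  have h2 : (η ^ (k : ℕ)) ^ 2 ≤ 1 := by
    have h3 : η ^ (k : ℕ) ≤ 1 := pow_le_one₀ h0.le h1
    have h4 : 0 ≤ η ^ (k : ℕ) := by positivity
    nlinarith
  nlinarith [sq_nonneg (a k)]

private theorem le_qq {η : ℝ} (h0 : 0 < η) (h1 : η ≤ 1) (a : Eu 4) :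
    (η ^ 3 * ‖a‖) ^ 2 ≤ qq η a := by
  rw [mul_pow, nsq, Finset.mul_sum]
  refine Finset.sum_le_sum fun k _ => ?_
  rw [mul_pow]
  have h3 : η ^ 3 ≤ η ^ (k : ℕ) := pow_le_pow_of_le_one h0.le h1 (by omega)
  have h4 : 0 ≤ η ^ 3 := by positivity
  have h5 : (η ^ 3) ^ 2 ≤ (η ^ (k : ℕ)) ^ 2 := by nlinarith
  nlinarith [sq_nonneg (a k)]

private theorem qq_deriv {η : ℝ} {A A' : ℝ → Eu 4} {t : ℝ} (hA : HasDerivAt A (A' t) t) :
    HasDerivAt (fun t => qq η (A t)) (2 * bl η (A t) (A' t)) t := by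
  have h1 : ∀ k : Fin 4, HasDerivAt (fun t => A t k) (A' t k) t := fun k =>
    (EuclideanSpace.proj (𝕜 := ℝ) k).hasFDerivAt.comp_hasDerivAt t hA
  have h2 : HasDerivAt (fun t => qq η (A t))
      (∑ k : Fin 4, ((2 : ℕ) * (η ^ (k : ℕ) * A t k) ^ (2 - 1) * (η ^ (k : ℕ) * A' t k))) t :=
    HasDerivAt.fun_sum fun k _ => ((h1 k).const_mul _).pow 2
  convert h2 using 1
  rw [bl, Finset.mul_sum]
  refine Finset.sum_congr rfl fun k _ => ?_
  push_cast
  ring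

private theorem pair_bd {η K θ m a b : ℝ} {j k : ℕ} (h0 : 0 < η) (h1 : η ≤ 1)
    (hηK : η * K ≤ 2 * θ / 3) (hjk : j < k) (hm : |m| ≤ K) :
    |(η ^ k) ^ 2 * (a * (m * b))| ≤ θ / 3 * ((η ^ k * a) ^ 2 + (η ^ j * b) ^ 2) := by
  have hk : η ^ k = η ^ j * η ^ (k - j) := by
    rw [← pow_add]; congr 1; omega
  have h2 : η ^ (k - j) ≤ η := by
    calc η ^ (k - j) ≤ η ^ 1 := pow_le_pow_of_le_one h0.le h1 (by omega)
      _ = η := pow_one _
  have h3 : 0 < η ^ (k - j) := by positivity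
  have e : (η ^ k) ^ 2 * (a * (m * b)) = η ^ (k - j) * m * ((η ^ k * a) * (η ^ j * b)) := by
    rw [hk]; ring
  rw [e, abs_mul, abs_mul, abs_of_pos h3]
  have h4 : η ^ (k - j) * |m| ≤ 2 * θ / 3 := by
    calc η ^ (k - j) * |m| ≤ η * K := by
          have := abs_nonneg m
          nlinarith
      _ ≤ _ := hηK
  have h5 : |η ^ k * a * (η ^ j * b)| ≤ ((η ^ k * a) ^ 2 + (η ^ j * b) ^ 2) / 2 := by
    rw [abs_le]
    constructor <;> nlinarith [sq_nonneg (η ^ k * a + η ^ j * b), sq_nonneg (η ^ k * a - η ^ j * b)]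
  have h6 : 0 ≤ |η ^ k * a * (η ^ j * b)| := abs_nonneg _
  have h7 : 0 ≤ η ^ (k - j) * |m| := by positivity
  calc η ^ (k - j) * |m| * |η ^ k * a * (η ^ j * b)|
      ≤ (2 * θ / 3) * (((η ^ k * a) ^ 2 + (η ^ j * b) ^ 2) / 2) := by
        apply mul_le_mul h4 h5 h6
        linarith
    _ = _ := by ring

private theorem quad {η K θ : ℝ} (h0 : 0 < η) (h1 : η ≤ 1)
    (hηK : η * K ≤ 2 * θ / 3) {M : Fin 4 → Fin 4 → ℝ} (hu : ∀ k j, k < j → M k j = 0)
    (hd1 : ∀ k, -(2 * θ) ≤ M k k) (hd2 : ∀ k, M k k ≤ 1 + 4 * θ) (hb : ∀ k j, |M k j| ≤ K)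
    {a b : Eu 4} (hab : ∀ k, b k = ∑ j, M k j * a j) :
    -(3 * θ) * qq η a ≤ bl η a b ∧ bl η a b ≤ (1 + 5 * θ) * qq η a := by
  have e : bl η a b = ∑ k : Fin 4, ∑ j : Fin 4, (η ^ (k : ℕ)) ^ 2 * (a k * (M k j * a j)) := by
    rw [bl]
    refine Finset.sum_congr rfl fun k _ => ?_
    rw [hab, Finset.mul_sum, Finset.mul_sum]
  have z : ∀ k j : Fin 4, k < j → (η ^ (k : ℕ)) ^ 2 * (a k * (M k j * a j)) = 0 := by
    intro k j hkj
    rw [hu k j hkj]; ring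
  have o : ∀ k j : Fin 4, j < k → |(η ^ (k : ℕ)) ^ 2 * (a k * (M k j * a j))| ≤
      θ / 3 * ((η ^ (k : ℕ) * a k) ^ 2 + (η ^ (j : ℕ) * a j) ^ 2) := fun k j hkj =>
    pair_bd h0 h1 hηK hkj (hb k j)
  have d : ∀ k : Fin 4, -(2 * θ) * (η ^ (k : ℕ) * a k) ^ 2 ≤
      (η ^ (k : ℕ)) ^ 2 * (a k * (M k k * a k)) ∧ (η ^ (k : ℕ)) ^ 2 * (a k * (M k k * a k)) ≤
      (1 + 4 * θ) * (η ^ (k : ℕ) * a k) ^ 2 := by
    intro k
    have e1 : (η ^ (k : ℕ)) ^ 2 * (a k * (M k k * a k)) = M k k * (η ^ (k : ℕ) * a k) ^ 2 := by ring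
    rw [e1]
    exact ⟨mul_le_mul_of_nonneg_right (hd1 k) (sq_nonneg _),
      mul_le_mul_of_nonneg_right (hd2 k) (sq_nonneg _)⟩
  have z01 := z 0 1 (by decide)
  have z02 := z 0 2 (by decide)
  have z03 := z 0 3 (by decide)
  have z12 := z 1 2 (by decide)
  have z13 := z 1 3 (by decide)
  have z23 := z 2 3 (by decide)
  have o10 := abs_le.1 (o 1 0 (by decide))
  have o20 := abs_le.1 (o 2 0 (by decide))
  have o30 := abs_le.1 (o 3 0 (by decide))
  have o21 := abs_le.1 (o 2 1 (by decide))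
  have o31 := abs_le.1 (o 3 1 (by decide))
  have o32 := abs_le.1 (o 3 2 (by decide))
  have d0 := d 0
  have d1 := d 1
  have d2 := d 2
  have d3 := d 3
  rw [e, qq]
  simp only [Fin.sum_univ_four]
  constructor <;> linarith [d0.1, d0.2, d1.1, d1.2, d2.1, d2.2, d3.1, d3.2, o10.1, o10.2, o20.1,
    o20.2, o30.1, o30.2, o21.1, o21.2, o31.1, o31.2, o32.1, o32.2]

private theorem bl_ge {η θ : ℝ} (h0 : 0 < η) (h1 : η ≤ 1) (hθ : 0 < θ) (a r : Eu 4) :
    -(2 * θ) * qq η a - ‖r‖ ^ 2 / (2 * θ) ≤ 2 * bl η a r := by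
  have h2 : -(2 * θ) * qq η a - qq η r / (2 * θ) ≤ 2 * bl η a r := by
    rw [qq, qq, bl, Finset.mul_sum, Finset.mul_sum, Finset.sum_div, ← Finset.sum_sub_distrib]
    refine Finset.sum_le_sum fun k _ => ?_
    set p := η ^ (k : ℕ) * a k with hp
    set q := η ^ (k : ℕ) * r k with hq
    have e : (η ^ (k : ℕ)) ^ 2 * (a k * r k) = p * q := by rw [hp, hq]; ring
    rw [e]
    have h3 : 0 ≤ (2 * θ * p + q) ^ 2 / (2 * θ) := by positivity
    have h4 : (2 * θ * p + q) ^ 2 / (2 * θ) = 2 * θ * p ^ 2 + 2 * (p * q) + q ^ 2 / (2 * θ) := by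
      field_simp; ring
    linarith
  have h3 : qq η r / (2 * θ) ≤ ‖r‖ ^ 2 / (2 * θ) := by
    gcongr
    exact qq_le h0 h1 r
  linarith

private theorem v0_line {s : ℝ → ℝ} (hv : ContDiff ℝ ∞ (v0 s)) (x e : Eu 4) (k : Fin 4) :
    HasDerivAt (fun t : ℝ => v0 s (x + t • e) k) (fderiv ℝ (v0 s) x e k) 0 := by
  have h1 : HasFDerivAt (v0 s) (fderiv ℝ (v0 s) (x + (0 : ℝ) • e)) (x + (0 : ℝ) • e) :=
    (hv.differentiable (by simp) _).hasFDerivAt
  have h2 : HasDerivAt (fun t : ℝ => x + t • e) e 0 := by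
    simpa using ((hasDerivAt_id (0 : ℝ)).smul_const e).const_add x
  have h3 := h1.comp_hasDerivAt 0 h2
  have h4 := (EuclideanSpace.proj (𝕜 := ℝ) k).hasFDerivAt.comp_hasDerivAt 0 h3
  rw [zero_smul, add_zero] at h4
  exact h4

private theorem v0_upper {s : ℝ → ℝ} (hv : ContDiff ℝ ∞ (v0 s)) (x : Eu 4) (k j : Fin 4)
    (hkj : k < j) : fderiv ℝ (v0 s) x (EuclideanSpace.single j 1) k = 0 := by
  have h1 := v0_line hv x (EuclideanSpace.single j 1) k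
  have h2 : (fun t : ℝ => v0 s (x + t • EuclideanSpace.single j 1) k) = fun _ => v0 s x k := by
    funext t
    have h3 : ∀ i : Fin 4, i ≠ j → (x + t • (EuclideanSpace.single j (1 : ℝ) : Eu 4)) i = x i := by
      intro i hi
      simp [hi]
    simp only [v0]
    rw [h3 k hkj.ne]
    congr 1
    refine Finset.prod_congr rfl fun i hi => ?_
    rw [Finset.mem_filter] at hi
    rw [h3 i (hi.2.trans hkj).ne]
  rw [h2] at h1
  exact h1.unique (hasDerivAt_const _ _)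

private theorem v0_diag {s : ℝ → ℝ} (hs : ContDiff ℝ ∞ s) (hv : ContDiff ℝ ∞ (v0 s)) (x : Eu 4)
    (k : Fin 4) : fderiv ℝ (v0 s) x (EuclideanSpace.single k 1) k =
      deriv s (x k) * ∏ j ∈ Finset.univ.filter (· < k), (1 - deriv s (x j)) := by
  have h1 := v0_line hv x (EuclideanSpace.single k 1) k
  have h2 : (fun t : ℝ => v0 s (x + t • EuclideanSpace.single k 1) k) =
      fun t => s (x k + t) * ∏ j ∈ Finset.univ.filter (· < k), (1 - deriv s (x j)) := by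
    funext t
    have h3 : ∀ i : Fin 4, i ≠ k → (x + t • (EuclideanSpace.single k (1 : ℝ) : Eu 4)) i = x i := by
      intro i hi
      simp [hi]
    have h4 : (x + t • (EuclideanSpace.single k (1 : ℝ) : Eu 4)) k = x k + t := by simp
    simp only [v0]
    rw [h4]
    congr 1
    refine Finset.prod_congr rfl fun i hi => ?_
    rw [Finset.mem_filter] at hi
    rw [h3 i hi.2.ne]
  rw [h2] at h1
  have h5 : HasDerivAt (fun t : ℝ => s (x k + t)) (deriv s (x k)) 0 := by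
    have h6 : HasDerivAt s (deriv s (x k + 0)) (x k + 0) :=
      (hs.differentiable (by simp) _).hasDerivAt
    have h7 := h6.comp_const_add (x k) 0
    simpa using h7
  exact h1.unique (h5.mul_const _)

private theorem prod_bd {s : ℝ → ℝ} {w : Set ℝ} {θ : ℝ} (h : Prof s w θ) (hθ : 0 < θ)
    (x : Eu 4) (k : Fin 4) :
    0 ≤ ∏ j ∈ Finset.univ.filter (· < k), (1 - deriv s (x j)) ∧
      ∏ j ∈ Finset.univ.filter (· < k), (1 - deriv s (x j)) ≤ (1 + θ) ^ 3 := by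
  have hc : ∀ k : Fin 4, (Finset.univ.filter (· < k)).card ≤ 3 := by decide
  constructor
  · exact Finset.prod_nonneg fun j _ => by linarith [h.le1 (x j)]
  · calc ∏ j ∈ Finset.univ.filter (· < k), (1 - deriv s (x j))
        ≤ ∏ j ∈ Finset.univ.filter (· < k), (1 + θ) :=
          Finset.prod_le_prod (fun j _ => by linarith [h.le1 (x j)])
            (fun j _ => by linarith [h.ge (x j)])
      _ = (1 + θ) ^ (Finset.univ.filter (· < k)).card := by rw [Finset.prod_const]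
      _ ≤ (1 + θ) ^ 3 := pow_le_pow_right₀ (by linarith) (hc k)

private theorem v0_quad {s : ℝ → ℝ} {w : Set ℝ} {θ η K : ℝ} (h : Prof s w θ) (hθ : 0 < θ)
    (hθ1 : θ ≤ 1 / 8) (hv : ContDiff ℝ ∞ (v0 s)) (hK : ∀ x, ‖fderiv ℝ (v0 s) x‖ ≤ K)
    (h0 : 0 < η) (h1 : η ≤ 1) (hηK : η * K ≤ 2 * θ / 3) (x a : Eu 4) :
    -(3 * θ) * qq η a ≤ bl η a (fderiv ℝ (v0 s) x a) ∧
      bl η a (fderiv ℝ (v0 s) x a) ≤ (1 + 5 * θ) * qq η a := by
  have hp := prod_bd h hθ x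
  have h3 : (1 + θ) ^ 3 ≤ 1 + 4 * θ := by nlinarith [mul_pos hθ hθ]
  refine quad (M := fun k j => fderiv ℝ (v0 s) x (EuclideanSpace.single j 1) k) h0 h1 hηK
    (fun k j hkj => v0_upper hv x k j hkj) ?_ ?_ ?_ ?_
  · intro k
    simp only
    rw [v0_diag h.smooth hv]
    have := h.ge (x k)
    nlinarith [(hp k).1, (hp k).2]
  · intro k
    simp only
    rw [v0_diag h.smooth hv]
    have := h.le1 (x k)
    nlinarith [(hp k).1, (hp k).2]
  · intro k j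
    simp only
    calc |fderiv ℝ (v0 s) x (EuclideanSpace.single j 1) k|
        ≤ ‖fderiv ℝ (v0 s) x (EuclideanSpace.single j 1)‖ := by
          rw [← Real.norm_eq_abs]
          exact PiLp.norm_apply_le _ k
      _ ≤ ‖fderiv ℝ (v0 s) x‖ * ‖(EuclideanSpace.single j (1 : ℝ) : Eu 4)‖ :=
          ContinuousLinearMap.le_opNorm _ _
      _ = ‖fderiv ℝ (v0 s) x‖ := by simp
      _ ≤ K := hK x
  · intro k
    have ha : a = ∑ j, a j • (EuclideanSpace.single j (1 : ℝ) : Eu 4) := by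
      ext i
      simp [Fin.sum_univ_four]
      fin_cases i <;> simp
    conv_lhs => rw [ha]
    rw [map_sum]
    simp [mul_comm]

/-- ST-B6 -/
theorem blow_bd (s : ℝ → ℝ) (w : Set ℝ) (θ : ℝ) (h : Prof s w θ) (hθ : 0 < θ) (hθ1 : θ ≤ 1 / 8)
    (ζ : ℝ → Eu 4 → Eu 4) (hζ : Blow s ζ) :
    ∃ C : ℝ, 0 < C ∧ ∀ τ ≤ 0, ∀ x, ‖fderiv ℝ (ζ τ) x‖ ≤ C * Real.exp (3 * θ * |τ|) ∧
      ‖fderiv ℝ (ζ (-τ)) x‖ ≤ C * Real.exp ((1 + 5 * θ) * |τ|) ∧
      ‖fderiv ℝ (fderiv ℝ (ζ τ)) x‖ ≤ C * Real.exp (7 * θ * |τ|) := by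
  obtain ⟨hv, hB, -⟩ := v0_kit s w θ h
  obtain ⟨K₁, hK₁⟩ := hB 1
  obtain ⟨K₂, hK₂⟩ := hB 2
  have hK1 : ∀ x, ‖fderiv ℝ (v0 s) x‖ ≤ K₁ := fun x => by
    rw [← norm_iteratedFDeriv_one]; exact hK₁ x
  have hK2 : ∀ x, ‖fderiv ℝ (fderiv ℝ (v0 s)) x‖ ≤ K₂ := fun x => by
    rw [← norm_iteratedFDeriv_one, norm_iteratedFDeriv_fderiv]; exact hK₂ x
  have hK10 : 0 ≤ K₁ := (norm_nonneg _).trans (hK1 0)
  have hK20 : 0 ≤ K₂ := le_trans (norm_nonneg (fderiv ℝ (fderiv ℝ (v0 s)) 0)) (hK2 0)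
  set η : ℝ := min 1 (2 * θ / (3 * (K₁ + 1))) with hη
  have h0 : 0 < η := by
    rw [hη]; positivity
  have h1 : η ≤ 1 := min_le_left _ _
  have hηK : η * K₁ ≤ 2 * θ / 3 := by
    have h2 : η ≤ 2 * θ / (3 * (K₁ + 1)) := min_le_right _ _
    have h3 : 2 * θ / (3 * (K₁ + 1)) * (K₁ + 1) = 2 * θ / 3 := by field_simp
    nlinarith
  have hd : ∀ t x, HasDerivAt (fun τ => ζ τ x) (v0 s (ζ t x)) t := hζ.flow.deriv
  have h00 : ζ 0 = id := funext fun x => hζ.flow.zero x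
  have hq := v0_quad h hθ hθ1 hv hK1 h0 h1 hηK
  -- first derivative
  have F1 : ∀ x a : Eu 4, ∀ τ ≤ 0, η ^ 3 * ‖fderiv ℝ (ζ τ) x a‖ ≤ Real.exp (-(3 * θ) * τ) * ‖a‖ := by
    intro x a τ hτ
    have e1 := fun t => qq_deriv (η := η) (A := fun t => fderiv ℝ (ζ t) x a)
      (A' := fun t => fderiv ℝ (v0 s) (ζ t x) (fderiv ℝ (ζ t) x a)) (t := t)
      (blowE_dt hv hd hζ.smooth t x a)
    have e2 := back e1 (α := 6 * θ) (β := 6 * θ + 1) (D := 0) (by linarith) le_rfl (by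
      intro t _
      have := (hq (ζ t x) (fderiv ℝ (ζ t) x a)).1
      simp only [zero_mul, sub_zero]
      linarith) τ hτ
    have e3 : qq η (fderiv ℝ (ζ 0) x a) ≤ ‖a‖ ^ 2 := by
      rw [h00, fderiv_id]
      exact qq_le h0 h1 a
    have e4 : (η ^ 3 * ‖fderiv ℝ (ζ τ) x a‖) ^ 2 ≤ (Real.exp (-(3 * θ) * τ) * ‖a‖) ^ 2 := by
      calc _ ≤ qq η (fderiv ℝ (ζ τ) x a) := le_qq h0 h1 _
        _ ≤ _ := e2
        _ = qq η (fderiv ℝ (ζ 0) x a) * Real.exp (-(6 * θ) * τ) := by ring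
        _ ≤ ‖a‖ ^ 2 * Real.exp (-(6 * θ) * τ) := by gcongr
        _ = _ := by
          rw [mul_pow, ← Real.exp_nat_mul]
          push_cast
          rw [mul_comm]
          congr 2
          ring
    exact (abs_le_of_sq_le_sq' e4 (by positivity)).2
  have F2 : ∀ x a : Eu 4, ∀ τ ≤ 0, η ^ 3 * ‖fderiv ℝ (ζ (-τ)) x a‖ ≤
      Real.exp (-(1 + 5 * θ) * τ) * ‖a‖ := by
    intro x a τ hτ
    have e1 := fun t => qq_deriv (η := η) (A := fun t => fderiv ℝ (ζ t) x a)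
      (A' := fun t => fderiv ℝ (v0 s) (ζ t x) (fderiv ℝ (ζ t) x a)) (t := t)
      (blowE_dt hv hd hζ.smooth t x a)
    have e1' : ∀ t, HasDerivAt (fun t => qq η (fderiv ℝ (ζ (-t)) x a))
        (-(2 * bl η (fderiv ℝ (ζ (-t)) x a)
          (fderiv ℝ (v0 s) (ζ (-t) x) (fderiv ℝ (ζ (-t)) x a)))) t := by
      intro t
      have h3 := (e1 (-t)).scomp t (hasDerivAt_neg t)
      rw [neg_one_smul] at h3
      exact h3
    have e2 := back e1' (α := 2 * (1 + 5 * θ)) (β := 2 * (1 + 5 * θ) + 1) (D := 0) (by linarith)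
      le_rfl (by
      intro t _
      have := (hq (ζ (-t) x) (fderiv ℝ (ζ (-t)) x a)).2
      simp only [zero_mul, sub_zero]
      linarith) τ hτ
    have e3 : qq η (fderiv ℝ (ζ (-0)) x a) ≤ ‖a‖ ^ 2 := by
      rw [neg_zero, h00, fderiv_id]
      exact qq_le h0 h1 a
    have e4 : (η ^ 3 * ‖fderiv ℝ (ζ (-τ)) x a‖) ^ 2 ≤ (Real.exp (-(1 + 5 * θ) * τ) * ‖a‖) ^ 2 := by
      calc _ ≤ qq η (fderiv ℝ (ζ (-τ)) x a) := le_qq h0 h1 _
        _ ≤ _ := e2
        _ = qq η (fderiv ℝ (ζ (-0)) x a) * Real.exp (-(2 * (1 + 5 * θ)) * τ) := by ring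
        _ ≤ ‖a‖ ^ 2 * Real.exp (-(2 * (1 + 5 * θ)) * τ) := by gcongr
        _ = _ := by
          rw [mul_pow, ← Real.exp_nat_mul]
          push_cast
          rw [mul_comm]
          congr 2
          ring
    exact (abs_le_of_sq_le_sq' e4 (by positivity)).2
  -- second derivative
  have F3 : ∀ x a b : Eu 4, ∀ τ ≤ 0, η ^ 3 * ‖fderiv ℝ (fderiv ℝ (ζ τ)) x a b‖ ≤
      K₂ / (η ^ 6 * θ) * Real.exp (-(6 * θ) * τ) * (‖a‖ * ‖b‖) := by
    intro x a b τ hτ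
    set R : ℝ → Eu 4 := fun t =>
      fderiv ℝ (fderiv ℝ (v0 s)) (ζ t x) (fderiv ℝ (ζ t) x a) (fderiv ℝ (ζ t) x b) with hR
    set G : ℝ := K₂ / η ^ 6 * (‖a‖ * ‖b‖) with hG
    have hG0 : 0 ≤ G := by positivity
    have hRb : ∀ t ≤ 0, ‖R t‖ ≤ G * Real.exp (-(6 * θ) * t) := by
      intro t ht
      have f1 := F1 x a t ht
      have f2 := F1 x b t ht
      have f3 : ‖R t‖ ≤ K₂ * ‖fderiv ℝ (ζ t) x a‖ * ‖fderiv ℝ (ζ t) x b‖ := by
        calc ‖R t‖ ≤ ‖fderiv ℝ (fderiv ℝ (v0 s)) (ζ t x)‖ * ‖fderiv ℝ (ζ t) x a‖ *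
              ‖fderiv ℝ (ζ t) x b‖ := ContinuousLinearMap.le_opNorm₂ _ _ _
          _ ≤ _ := by gcongr; exact hK2 _
      have f4 : (η ^ 3 * ‖fderiv ℝ (ζ t) x a‖) * (η ^ 3 * ‖fderiv ℝ (ζ t) x b‖) ≤
          (Real.exp (-(3 * θ) * t) * ‖a‖) * (Real.exp (-(3 * θ) * t) * ‖b‖) := by
        apply mul_le_mul f1 f2 (by positivity) (by positivity)
      have f5 : Real.exp (-(3 * θ) * t) * Real.exp (-(3 * θ) * t) = Real.exp (-(6 * θ) * t) := by
        rw [← Real.exp_add]; ring_nf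
      have f6 : ‖fderiv ℝ (ζ t) x a‖ * ‖fderiv ℝ (ζ t) x b‖ ≤
          Real.exp (-(6 * θ) * t) * (‖a‖ * ‖b‖) / η ^ 6 := by
        rw [le_div_iff₀ (by positivity)]
        calc _ = (η ^ 3 * ‖fderiv ℝ (ζ t) x a‖) * (η ^ 3 * ‖fderiv ℝ (ζ t) x b‖) := by ring
          _ ≤ _ := f4
          _ = (Real.exp (-(3 * θ) * t) * Real.exp (-(3 * θ) * t)) * (‖a‖ * ‖b‖) := by ring
          _ = _ := by rw [f5]
      calc ‖R t‖ ≤ K₂ * (‖fderiv ℝ (ζ t) x a‖ * ‖fderiv ℝ (ζ t) x b‖) := by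
            rw [← mul_assoc]; exact f3
        _ ≤ K₂ * (Real.exp (-(6 * θ) * t) * (‖a‖ * ‖b‖) / η ^ 6) := by gcongr
        _ = _ := by rw [hG]; ring
    have e1 := fun t => qq_deriv (η := η) (A := fun t => fderiv ℝ (fderiv ℝ (ζ t)) x a b)
      (A' := fun t => R t + fderiv ℝ (v0 s) (ζ t x) (fderiv ℝ (fderiv ℝ (ζ t)) x a b)) (t := t)
      (blowE_dt2 hv hd hζ.smooth t x a b)
    have bladd : ∀ p q r : Eu 4, bl η p (q + r) = bl η p q + bl η p r := by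
      intro p q r
      simp only [bl, ← Finset.sum_add_distrib]
      refine Finset.sum_congr rfl fun k _ => ?_
      simp only [PiLp.add_apply]
      ring
    have e2 := back e1 (α := 8 * θ) (β := 12 * θ) (D := G ^ 2 / (2 * θ)) (by linarith)
      (by positivity) (by
      intro t ht
      have g1 := (hq (ζ t x) (fderiv ℝ (fderiv ℝ (ζ t)) x a b)).1
      have g2 := bl_ge h0 h1 hθ (fderiv ℝ (fderiv ℝ (ζ t)) x a b) (R t)
      have g3 : ‖R t‖ ^ 2 ≤ G ^ 2 * Real.exp (-(12 * θ) * t) := by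
        calc ‖R t‖ ^ 2 ≤ (G * Real.exp (-(6 * θ) * t)) ^ 2 := by
              gcongr; exact hRb t ht
          _ = _ := by
            rw [mul_pow, ← Real.exp_nat_mul]
            push_cast
            congr 2
            ring
      have g4 : ‖R t‖ ^ 2 / (2 * θ) ≤ G ^ 2 / (2 * θ) * Real.exp (-(12 * θ) * t) := by
        calc ‖R t‖ ^ 2 / (2 * θ) ≤ G ^ 2 * Real.exp (-(12 * θ) * t) / (2 * θ) := by gcongr
          _ = _ := by ring
      rw [bladd]
      linarith) τ hτ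
    have e3 : fderiv ℝ (fderiv ℝ (ζ 0)) x a b = 0 := by
      rw [h00]
      have : fderiv ℝ (id : Eu 4 → Eu 4) = fun _ => ContinuousLinearMap.id ℝ (Eu 4) :=
        funext fun y => fderiv_id
      rw [this]
      simp
    have e4 : qq η (0 : Eu 4) = 0 := by simp [qq]
    rw [e3, e4, zero_mul, zero_add] at e2
    have e5 : (η ^ 3 * ‖fderiv ℝ (fderiv ℝ (ζ τ)) x a b‖) ^ 2 ≤
        (K₂ / (η ^ 6 * θ) * Real.exp (-(6 * θ) * τ) * (‖a‖ * ‖b‖)) ^ 2 := by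
      calc _ ≤ qq η (fderiv ℝ (fderiv ℝ (ζ τ)) x a b) := le_qq h0 h1 _
        _ ≤ _ := e2
        _ = G ^ 2 / (8 * θ ^ 2) * Real.exp (-(12 * θ) * τ) := by
          rw [show 12 * θ - 8 * θ = 4 * θ by ring]
          congr 1
          field_simp
          ring
        _ ≤ G ^ 2 / θ ^ 2 * Real.exp (-(12 * θ) * τ) := by
          gcongr
          nlinarith [sq_nonneg θ]
        _ = _ := by
          rw [show -(12 * θ) * τ = (2 : ℕ) * (-(6 * θ) * τ) by push_cast; ring, Real.exp_nat_mul]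
          rw [hG]
          field_simp
    exact (abs_le_of_sq_le_sq' e5 (by positivity)).2
  refine ⟨1 / η ^ 3 + K₂ / (η ^ 9 * θ), by positivity, ?_⟩
  intro τ hτ x
  have ht : |τ| = -τ := abs_of_nonpos hτ
  have hc1 : 1 / η ^ 3 ≤ 1 / η ^ 3 + K₂ / (η ^ 9 * θ) := by
    have : 0 ≤ K₂ / (η ^ 9 * θ) := by positivity
    linarith
  have hc2 : K₂ / (η ^ 9 * θ) ≤ 1 / η ^ 3 + K₂ / (η ^ 9 * θ) := by
    have : 0 ≤ 1 / η ^ 3 := by positivity
    linarith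
  refine ⟨?_, ?_, ?_⟩
  · refine ContinuousLinearMap.opNorm_le_bound _ (by positivity) fun a => ?_
    have f := F1 x a τ hτ
    calc ‖fderiv ℝ (ζ τ) x a‖ = (η ^ 3 * ‖fderiv ℝ (ζ τ) x a‖) / η ^ 3 := by field_simp
      _ ≤ (Real.exp (-(3 * θ) * τ) * ‖a‖) / η ^ 3 := by gcongr
      _ = 1 / η ^ 3 * Real.exp (3 * θ * |τ|) * ‖a‖ := by
        rw [ht, show -(3 * θ) * τ = 3 * θ * -τ by ring]; ring
      _ ≤ _ := by gcongr
  · refine ContinuousLinearMap.opNorm_le_bound _ (by positivity) fun a => ?_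
    have f := F2 x a τ hτ
    calc ‖fderiv ℝ (ζ (-τ)) x a‖ = (η ^ 3 * ‖fderiv ℝ (ζ (-τ)) x a‖) / η ^ 3 := by field_simp
      _ ≤ (Real.exp (-(1 + 5 * θ) * τ) * ‖a‖) / η ^ 3 := by gcongr
      _ = 1 / η ^ 3 * Real.exp ((1 + 5 * θ) * |τ|) * ‖a‖ := by
        rw [ht, show -(1 + 5 * θ) * τ = (1 + 5 * θ) * -τ by ring]; ring
      _ ≤ _ := by gcongr
  · refine ContinuousLinearMap.opNorm_le_bound₂ _ (by positivity) fun a b => ?_
    have f := F3 x a b τ hτ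
    have g : Real.exp (-(6 * θ) * τ) ≤ Real.exp (7 * θ * |τ|) := by
      rw [ht, Real.exp_le_exp]
      nlinarith
    calc ‖fderiv ℝ (fderiv ℝ (ζ τ)) x a b‖ =
          (η ^ 3 * ‖fderiv ℝ (fderiv ℝ (ζ τ)) x a b‖) / η ^ 3 := by field_simp
      _ ≤ (K₂ / (η ^ 6 * θ) * Real.exp (-(6 * θ) * τ) * (‖a‖ * ‖b‖)) / η ^ 3 := by gcongr
      _ = K₂ / (η ^ 9 * θ) * Real.exp (-(6 * θ) * τ) * (‖a‖ * ‖b‖) := by field_simp
      _ ≤ (1 / η ^ 3 + K₂ / (η ^ 9 * θ)) * Real.exp (7 * θ * |τ|) * (‖a‖ * ‖b‖) := by gcongr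
      _ = _ := by ring

end Pool.Agent.H23.ST
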