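import Pool.Agent.H23.ST.PfBdC
import Pool.Agent.H23.ST.BlowA
import Pool.Agent.H23.ST.BlowD
import Pool.Agent.H23.ST.BlowE

/-! # ST-B7: the bounds for the transported field -/

namespace Pool.Agent.H23.ST

open MeasureTheory Set Pool.Agent.H68.VD Pool.Agent.H68.GM
open scoped ENNReal ContDiff Topology

/-- ST-B7. -/
theorem pf_bd (s : ℝ → ℝ) (w : Set ℝ) (θ : ℝ) (h : Prof s w θ) (hθ : 0 < θ) (hθ1 : θ ≤ 1 / 8)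
    (ζ : ℝ → Eu 4 → Eu 4) (hζ : Blow s ζ) :
    ∃ C : ℝ, 0 < C ∧ ∀ z : Eu 4 → Eu 4, ContDiff ℝ ∞ z → HasCompactSupport z →
      (∀ x ∉ Wl w, z x = 0) → ∀ τ ≤ 0,
      ∫ y, ‖pf ζ τ z y‖ ≤ C * Real.exp (-(1 - 3 * θ) * |τ|) * ∫ y, ‖z y‖ ∧
      ∫ y, ‖fderiv ℝ (pf ζ τ z) y‖ ≤
        C * Real.exp (12 * θ * |τ|) * ((∫ y, ‖z y‖) + ∫ y, ‖fderiv ℝ z y‖) :=
  pfc_core s w θ h hθ ζ hζ ((blow_a s w θ h).2 ζ hζ).2.1 (blow_det s w θ h ζ hζ).2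
    (blow_bd s w θ h hθ hθ1 ζ hζ)

end Pool.Agent.H23.ST
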