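import Pool.Agent.H23.ST.Bu

/-! # Project ST, row ST-B2: the profile with an offset at the ends of `[0, N]`

`s' t = lam t * lam (N - t) * (s t + chi t * D t - chi (N - t) * D (N - t))`, where
`D t = c * Bf (t / c) - t`, `Bf` vanishes for `x ≤ 1 / 2`, is `x - 1` for `x ≥ 1` and has slope in
`[-θ, 1]`, `chi` is `1` up to `1 / 4` and `0` from `1 / 2` on, `lam` is `0` for `t ≤ 0` and `1` for
`t ≥ c / 2`.
-/

namespace Pool.Agent.H23.ST

open MeasureTheory Set Pool.Agent.H68.VD Pool.Agent.H68.GM
open scoped ENNReal ContDiff Topology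

/-- the ramp -/
private theorem exists_ramp (θ : ℝ) (hθ : 0 < θ) : ∃ B : ℝ → ℝ, ContDiff ℝ ∞ B ∧
    (∀ x, x ≤ 1 / 2 → B x = 0) ∧ (∀ x, 1 ≤ x → B x = x - 1) ∧
    ∀ x, -θ ≤ deriv B x ∧ deriv B x ≤ 1 := by
  let g : ℝ → ℝ := fun x => Real.smoothTransition (8 * x - 4) *
    (1 - Real.smoothTransition (8 * x - 5))
  have hgs : ContDiff ℝ ∞ g := by
    refine ContDiff.mul ?_ (contDiff_const.sub ?_)
    · exact Real.smoothTransition.contDiff.comp (by fun_prop)
    · exact Real.smoothTransition.contDiff.comp (by fun_prop)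
  have hg0 : ∀ x, 0 ≤ g x := fun x => mul_nonneg (Real.smoothTransition.nonneg _)
    (sub_nonneg.2 (Real.smoothTransition.le_one _))
  have hg1 : ∀ x, g x ≤ 1 := fun x => mul_le_one₀ (Real.smoothTransition.le_one _)
    (sub_nonneg.2 (Real.smoothTransition.le_one _))
    (by have := Real.smoothTransition.nonneg (8 * x - 5); linarith)
  have hgl : ∀ x, x ≤ 1 / 2 → g x = 0 := fun x hx => by
    simp only [g]
    rw [Real.smoothTransition.zero_of_nonpos (by linarith), zero_mul]
  have hgr : ∀ x, 3 / 4 ≤ x → g x = 0 := fun x hx => by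
    simp only [g]
    rw [Real.smoothTransition.one_of_one_le (x := 8 * x - 5) (by linarith), sub_self, mul_zero]
  have hgc : Continuous g := hgs.continuous
  set G : ℝ := ∫ x in (1 / 2 : ℝ)..1, g x with hG
  have hG0 : 0 < G := by
    refine intervalIntegral.integral_pos (by norm_num) hgc.continuousOn (fun x _ => hg0 x)
      ⟨5 / 8, by constructor <;> norm_num, ?_⟩
    simp only [g]
    rw [show (8 * (5 / 8 : ℝ) - 4) = 1 by norm_num, show (8 * (5 / 8 : ℝ) - 5) = 0 by norm_num,
      Real.smoothTransition.one, Real.smoothTransition.zero]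
    norm_num
  set ε : ℝ := min (1 / 4) (θ * G) with hε
  have hε0 : 0 < ε := lt_min (by norm_num) (mul_pos hθ hG0)
  have hε4 : ε ≤ 1 / 4 := min_le_left _ _
  have hεG : ε ≤ θ * G := min_le_right _ _
  let A : ℝ → ℝ := fun x => Real.smoothTransition ((x - (1 - ε)) / ε)
  have hAs : ContDiff ℝ ∞ A := Real.smoothTransition.contDiff.comp (by fun_prop)
  have hAc : Continuous A := hAs.continuous
  have hA0 : ∀ x, 0 ≤ A x := fun x => Real.smoothTransition.nonneg _
  have hA1 : ∀ x, A x ≤ 1 := fun x => Real.smoothTransition.le_one _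
  have hAl : ∀ x, x ≤ 1 - ε → A x = 0 := fun x hx =>
    Real.smoothTransition.zero_of_nonpos (div_nonpos_of_nonpos_of_nonneg (by linarith) hε0.le)
  have hAr : ∀ x, 1 ≤ x → A x = 1 := fun x hx =>
    Real.smoothTransition.one_of_one_le ((one_le_div hε0).2 (by linarith))
  set I : ℝ := ∫ x in (1 / 2 : ℝ)..1, A x with hI
  have hIle : I ≤ ε := by
    have h1 : I = (∫ x in (1 / 2 : ℝ)..(1 - ε), A x) + ∫ x in (1 - ε)..1, A x :=
      (intervalIntegral.integral_add_adjacent_intervals (hAc.intervalIntegrable _ _)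
        (hAc.intervalIntegrable _ _)).symm
    have h2 : ∫ x in (1 / 2 : ℝ)..(1 - ε), A x = 0 := by
      rw [← intervalIntegral.integral_zero (μ := volume) (a := (1 / 2 : ℝ)) (b := 1 - ε)]
      refine intervalIntegral.integral_congr fun x hx => ?_
      rw [uIcc_of_le (by linarith)] at hx
      exact hAl x hx.2
    have h3 : ∫ x in (1 - ε)..1, A x ≤ ∫ _x in (1 - ε)..1, (1 : ℝ) :=
      intervalIntegral.integral_mono_on (by linarith) (hAc.intervalIntegrable _ _)
        (intervalIntegrable_const) fun x _ => hA1 x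
    rw [intervalIntegral.integral_const, smul_eq_mul, mul_one] at h3
    rw [h1, h2]
    linarith
  have hI0 : 0 ≤ I := intervalIntegral.integral_nonneg (by norm_num) fun x _ => hA0 x
  set κ : ℝ := I / G with hκ
  have hκ0 : 0 ≤ κ := div_nonneg hI0 hG0.le
  have hκθ : κ ≤ θ := by
    rw [hκ, div_le_iff₀ hG0]
    linarith
  let β : ℝ → ℝ := fun x => A x - κ * g x
  have hβs : ContDiff ℝ ∞ β := hAs.sub (contDiff_const.mul hgs)
  have hβc : Continuous β := hβs.continuous
  let B : ℝ → ℝ := fun x => ∫ y in (1 / 2 : ℝ)..x, β y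
  have hBd : ∀ x, HasDerivAt B (β x) x := fun x =>
    intervalIntegral.integral_hasDerivAt_right (hβc.intervalIntegrable _ _)
      (hβc.stronglyMeasurableAtFilter _ _) hβc.continuousAt
  have hBd' : deriv B = β := funext fun x => (hBd x).deriv
  have hBs : ContDiff ℝ ∞ B := by
    rw [contDiff_infty_iff_deriv, hBd']
    exact ⟨fun x => (hBd x).differentiableAt, hβs⟩
  have hB1 : B 1 = 0 := by
    show ∫ y in (1 / 2 : ℝ)..1, (A y - κ * g y) = 0
    rw [intervalIntegral.integral_sub (hAc.intervalIntegrable _ _)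
      ((hgc.const_mul κ).intervalIntegrable _ _), intervalIntegral.integral_const_mul, ← hI, ← hG,
      hκ]
    field_simp
    ring
  refine ⟨B, hBs, ?_, ?_, ?_⟩
  · intro x hx
    show ∫ y in (1 / 2 : ℝ)..x, β y = 0
    rw [← intervalIntegral.integral_zero (μ := volume) (a := (1 / 2 : ℝ)) (b := x)]
    refine intervalIntegral.integral_congr fun y hy => ?_
    rw [uIcc_of_ge hx] at hy
    show A y - κ * g y = 0
    rw [hAl y (by linarith [hy.2]), hgl y hy.2]
    ring
  · intro x hx
    have h1 : B x = B 1 + ∫ y in (1 : ℝ)..x, β y :=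
      (intervalIntegral.integral_add_adjacent_intervals (hβc.intervalIntegrable _ _)
        (hβc.intervalIntegrable _ _)).symm
    have h2 : ∫ y in (1 : ℝ)..x, β y = ∫ _y in (1 : ℝ)..x, (1 : ℝ) := by
      refine intervalIntegral.integral_congr fun y hy => ?_
      rw [uIcc_of_le hx] at hy
      show A y - κ * g y = 1
      rw [hAr y hy.1, hgr y (by linarith [hy.1])]
      ring
    rw [h1, hB1, h2, intervalIntegral.integral_const, smul_eq_mul]
    ring
  · intro x
    rw [hBd']
    show -θ ≤ A x - κ * g x ∧ A x - κ * g x ≤ 1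
    have h1 := mul_le_mul hκθ (hg1 x) (hg0 x) hθ.le
    have h2 := mul_nonneg hκ0 (hg0 x)
    constructor
    · linarith [hA0 x]
    · linarith [hA1 x]


/-- the slope of `Real.smoothTransition` is bounded on `[0, 2]` -/
private theorem exists_slope : ∃ K : ℝ, 0 < K ∧ ∀ x ∈ Icc (0 : ℝ) 2,
    |deriv Real.smoothTransition x| ≤ K := by
  have hc : Continuous (deriv Real.smoothTransition) :=
    (Real.smoothTransition.contDiff (n := 1)).continuous_deriv le_rfl
  obtain ⟨K, hK⟩ := isCompact_Icc.exists_bound_of_continuousOn (s := Icc (0 : ℝ) 2)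
    hc.continuousOn
  refine ⟨max K 1, lt_max_of_lt_right one_pos, fun x hx => ?_⟩
  have := hK x hx
  rw [Real.norm_eq_abs] at this
  exact this.trans (le_max_left _ _)

/-- ST-B2 (file ProfO.lean): offset at the ends of `[0, N]`. -/
theorem exists_off (θ : ℝ) (hθ : 0 < θ) (s : ℝ → ℝ) (δ : ℝ) (hδ : 0 < δ) (hδ1 : δ < 1 / 4)
    (hs : Prof s {t | |t - round t| ≤ δ} θ)
    (hp : ∀ t, s (t + 1) = s t) (ho : ∀ t, s (-t) = - s t) (hw : ∀ t, |t| ≤ δ → s t = t)
    (hd : ∀ t, 1 / 4 ≤ t → t ≤ 3 / 4 → s t = 0) :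
    ∃ c₀ : ℝ, 0 < c₀ ∧ c₀ < δ ∧ ∀ c : ℝ, 0 < c → c < c₀ → ∀ N : ℕ, 2 ≤ N →
    ∃ s' : ℝ → ℝ, Prof s' {t | c ≤ t ∧ t ≤ N - c ∧ |t - round t| ≤ δ} θ ∧
      (∀ t : ℝ, 1 / 2 ≤ t → t ≤ N - 1 / 2 → s' t = s t) ∧
      (∀ t, t ≤ c / 2 → s' t = 0) ∧ (∀ t, N - c / 2 ≤ t → s' t = 0) := by
  obtain ⟨Bf, hBs, hBl, hBr, hBd⟩ := exists_ramp θ hθ
  obtain ⟨K, hK0, hK⟩ := exists_slope
  have hm0 : 0 < min 1 θ := lt_min one_pos hθ
  set c₀ : ℝ := min (δ / 2) (min 1 θ / (4 * K)) with hc₀
  have hc₀0 : 0 < c₀ := lt_min (by linarith) (div_pos hm0 (by linarith))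
  refine ⟨c₀, hc₀0, (min_le_left _ _).trans_lt (by linarith), fun c hc hcc N hN => ?_⟩
  have hcδ : c < δ / 2 := hcc.trans_le (min_le_left _ _)
  have hcK : 4 * c * K ≤ min 1 θ := by
    have h1 : c ≤ min 1 θ / (4 * K) := hcc.le.trans (min_le_right _ _)
    rw [le_div_iff₀ (by linarith)] at h1
    linarith
  have hcK1 : 4 * c * K ≤ 1 := hcK.trans (min_le_left _ _)
  have hcKθ : 4 * c * K ≤ θ := hcK.trans (min_le_right _ _)
  have hN2 : (2 : ℝ) ≤ N := by exact_mod_cast hN
  have hss : ContDiff ℝ ∞ s := hs.smooth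
  -- the pieces
  let lam : ℝ → ℝ := fun t => Real.smoothTransition (2 * t / c)
  let chi : ℝ → ℝ := fun t => 1 - Real.smoothTransition (4 * t - 1)
  let D : ℝ → ℝ := fun t => c * Bf (t / c) - t
  have hlams : ContDiff ℝ ∞ lam := Real.smoothTransition.contDiff.comp (by fun_prop)
  have hchis : ContDiff ℝ ∞ chi := contDiff_const.sub
    (Real.smoothTransition.contDiff.comp (by fun_prop))
  have hDs : ContDiff ℝ ∞ D := (contDiff_const.mul (hBs.comp (by fun_prop))).sub contDiff_id
  have hlaml : ∀ t, t ≤ 0 → lam t = 0 := fun t ht =>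
    Real.smoothTransition.zero_of_nonpos (div_nonpos_of_nonpos_of_nonneg (by linarith) hc.le)
  have hlamr : ∀ t, c / 2 ≤ t → lam t = 1 := fun t ht =>
    Real.smoothTransition.one_of_one_le ((one_le_div hc).2 (by linarith))
  have hchil : ∀ t, t ≤ 1 / 4 → chi t = 1 := fun t ht => by
    simp only [chi]
    rw [Real.smoothTransition.zero_of_nonpos (by linarith), sub_zero]
  have hchir : ∀ t, 1 / 2 ≤ t → chi t = 0 := fun t ht => by
    simp only [chi]
    rw [Real.smoothTransition.one_of_one_le (by linarith), sub_self]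
  have hDl : ∀ t, t ≤ c / 2 → D t = -t := fun t ht => by
    simp only [D]
    rw [hBl _ (by rw [div_le_iff₀ hc]; linarith)]
    ring
  have hDr : ∀ t, c ≤ t → D t = -c := fun t ht => by
    simp only [D]
    rw [hBr _ ((one_le_div hc).2 ht)]
    field_simp
    ring
  let f : ℝ → ℝ := fun t => lam t * lam (N - t) *
    (s t + chi t * D t - chi (N - t) * D (N - t))
  have hfs : ContDiff ℝ ∞ f := by
    have h1 : ContDiff ℝ ∞ (fun t : ℝ => (N : ℝ) - t) := contDiff_const.sub contDiff_id
    exact (hlams.mul (hlams.comp h1)).mul ((hss.add (hchis.mul hDs)).sub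
      ((hchis.comp h1).mul (hDs.comp h1)))
  -- periodicity
  have hpn : ∀ (m : ℕ) t, s (t + m) = s t := by
    intro m
    induction m with
    | zero => intro t; simp
    | succ m ih =>
      intro t
      rw [Nat.cast_succ, ← add_assoc, hp, ih]
  have hrefl : ∀ t, s (N - t) = - s t := by
    intro t
    rw [show (N : ℝ) - t = -t + N by ring, hpn, ho]
  have hsym : ∀ t, f (N - t) = - f t := by
    intro t
    simp only [f]
    rw [hrefl t, sub_sub_cancel]
    ring
  -- the values
  have hfl : ∀ t, t ≤ c / 2 → f t = 0 := by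
    intro t ht
    by_cases h0 : t ≤ 0
    · simp only [f]
      rw [hlaml t h0]
      ring
    · push Not at h0
      simp only [f]
      rw [hw t (by rw [abs_of_pos h0]; linarith), hchil t (by linarith), hDl t ht,
        hchir (N - t) (by linarith)]
      ring
  have hfr : ∀ t, N - c / 2 ≤ t → f t = 0 := by
    intro t ht
    have h1 := hsym (N - t)
    rw [sub_sub_cancel, hfl (N - t) (by linarith)] at h1
    rw [h1, neg_zero]
  have hf1 : ∀ t, 0 < t → t ≤ δ → f t = c * Bf (t / c) := by
    intro t h0 ht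
    by_cases h1 : t ≤ c / 2
    · rw [hfl t h1, hBl _ (by rw [div_le_iff₀ hc]; linarith), mul_zero]
    · push Not at h1
      simp only [f]
      rw [hlamr t h1.le, hlamr (N - t) (by linarith), hw t (by rw [abs_of_pos h0]; exact ht),
        hchil t (by linarith), hchir (N - t) (by linarith)]
      simp only [D]
      ring
  have hf2 : ∀ t, c ≤ t → t ≤ 3 / 4 → f t = s t - c * chi t := by
    intro t h0 ht
    simp only [f]
    rw [hlamr t (by linarith), hlamr (N - t) (by linarith), hDr t h0,
      hchir (N - t) (by linarith)]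
    ring
  have hf3 : ∀ t : ℝ, 1 / 2 ≤ t → t ≤ N - 1 / 2 → f t = s t := by
    intro t h0 ht
    simp only [f]
    rw [hlamr t (by linarith), hlamr (N - t) (by linarith), hchir t h0,
      hchir (N - t) (by linarith)]
    ring
  -- derivatives
  have hdfc : Continuous (deriv f) := hfs.continuous_deriv (by simp)
  have hd0 : ∀ t, t < c / 2 → deriv f t = 0 := by
    intro t ht
    have h1 : f =ᶠ[𝓝 t] fun _ => (0 : ℝ) := by
      filter_upwards [Iio_mem_nhds ht] with x hx
      exact hfl x (le_of_lt hx)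
    rw [h1.deriv_eq, deriv_const]
  have hd1 : ∀ t, 0 < t → t < δ → deriv f t = deriv Bf (t / c) := by
    intro t h0 ht
    have h1 : f =ᶠ[𝓝 t] fun x => c * Bf (x / c) := by
      filter_upwards [Ioo_mem_nhds h0 ht] with x hx
      exact hf1 x hx.1 hx.2.le
    rw [h1.deriv_eq]
    have h2 : HasDerivAt (fun x => c * Bf (x / c)) (c * (deriv Bf (t / c) * (1 / c))) t := by
      refine HasDerivAt.const_mul c ?_
      have h3 : HasDerivAt (fun x : ℝ => x / c) (1 / c) t := (hasDerivAt_id t).div_const c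
      have h4 : HasDerivAt Bf (deriv Bf (t / c)) (t / c) :=
        ((hBs.differentiable (by simp)) (t / c)).hasDerivAt
      exact h4.comp t h3
    rw [h2.deriv]
    field_simp
  have hd2 : ∀ t, c < t → t < 1 / 4 → deriv f t = deriv s t := by
    intro t h0 ht
    have h1 : f =ᶠ[𝓝 t] fun x => s x - c := by
      filter_upwards [Ioo_mem_nhds h0 ht] with x hx
      rw [hf2 x hx.1.le (by linarith [hx.2]), hchil x hx.2.le, mul_one]
    rw [h1.deriv_eq, deriv_sub_const]
  have hd3 : ∀ t, 1 / 4 < t → t < 3 / 4 →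
      deriv f t = 4 * c * deriv Real.smoothTransition (4 * t - 1) := by
    intro t h0 ht
    have h1 : f =ᶠ[𝓝 t] fun x => c * (Real.smoothTransition (4 * x - 1) - 1) := by
      filter_upwards [Ioo_mem_nhds h0 ht] with x hx
      rw [hf2 x (by linarith [hx.1]) hx.2.le, hd x hx.1.le hx.2.le]
      simp only [chi]
      ring
    rw [h1.deriv_eq]
    have h2 : HasDerivAt (fun x => c * (Real.smoothTransition (4 * x - 1) - 1))
        (c * (deriv Real.smoothTransition (4 * t - 1) * 4)) t := by
      refine HasDerivAt.const_mul c (HasDerivAt.sub_const 1 ?_)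
      have h3 : HasDerivAt (fun x : ℝ => 4 * x - 1) 4 t := by
        have := ((hasDerivAt_id t).const_mul (4 : ℝ)).sub_const 1
        simpa using this
      have h4 : HasDerivAt Real.smoothTransition (deriv Real.smoothTransition (4 * t - 1))
          (4 * t - 1) :=
        (((Real.smoothTransition.contDiff (n := 1)).differentiable (by simp)) _).hasDerivAt
      exact h4.comp t h3
    rw [h2.deriv]
    ring
  have hd4 : ∀ t : ℝ, 1 / 2 < t → t < N - 1 / 2 → deriv f t = deriv s t := by
    intro t h0 ht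
    have h1 : f =ᶠ[𝓝 t] s := by
      filter_upwards [Ioo_mem_nhds h0 ht] with x hx
      exact hf3 x hx.1.le hx.2.le
    exact h1.deriv_eq
  have hdsym : ∀ t, deriv f (N - t) = deriv f t := by
    intro t
    have h1 : (fun x => f (N - x)) = fun x => - f x := funext hsym
    have h2 : deriv (fun x => f (N - x)) t = - deriv f (N - t) := by
      rw [deriv_comp_const_sub]
    rw [h1, deriv.fun_neg] at h2
    linarith
  -- the slope
  have hclosed : IsClosed {t : ℝ | -θ ≤ deriv f t ∧ deriv f t ≤ 1} :=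
    (isClosed_le continuous_const hdfc).inter (isClosed_le hdfc continuous_const)
  have hP3 : ∀ t ∈ Icc (1 / 4 : ℝ) (3 / 4), -θ ≤ deriv f t ∧ deriv f t ≤ 1 := by
    have h1 : Ioo (1 / 4 : ℝ) (3 / 4) ⊆ {t : ℝ | -θ ≤ deriv f t ∧ deriv f t ≤ 1} := by
      intro t ht
      have h2 := hK (4 * t - 1) ⟨by linarith [ht.1], by linarith [ht.2]⟩
      have h3 := abs_le.1 h2
      rw [mem_setOf_eq, hd3 t ht.1 ht.2]
      have h4 : 0 < 4 * c := by linarith
      constructor
      · nlinarith
      · nlinarith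
    have h2 := closure_minimal h1 hclosed
    rw [closure_Ioo (by norm_num)] at h2
    exact fun t ht => h2 ht
  have hP : ∀ t : ℝ, t < N - 1 / 2 → -θ ≤ deriv f t ∧ deriv f t ≤ 1 := by
    intro t ht
    rcases lt_or_ge t (c / 2) with h1 | h1
    · rw [hd0 t h1]
      constructor <;> linarith
    rcases lt_or_ge t δ with h2 | h2
    · rw [hd1 t (by linarith) h2]
      exact hBd _
    rcases lt_or_ge t (1 / 4) with h3 | h3
    · rw [hd2 t (by linarith) h3]
      exact ⟨hs.ge t, hs.le1 t⟩
    rcases le_or_gt t (3 / 4) with h4 | h4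
    · exact hP3 t ⟨h3, h4⟩
    · rw [hd4 t (by linarith) ht]
      exact ⟨hs.ge t, hs.le1 t⟩
  have hPall : ∀ t, -θ ≤ deriv f t ∧ deriv f t ≤ 1 := by
    intro t
    rcases lt_or_ge t (N - 1 / 2) with h1 | h1
    · exact hP t h1
    · rw [← hdsym t]
      exact hP (N - t) (by linarith)
  -- rounding
  have hround : ∀ (x : ℝ) (m : ℤ), |x - m| < 1 / 2 → round x = m := by
    intro x m hx
    rw [round_eq, Int.floor_eq_iff]
    have := abs_lt.1 hx
    constructor <;> linarith
  have hround' : ∀ (x : ℝ) (m : ℤ), |x - m| ≤ δ → |x - round x| ≤ δ := by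
    intro x m hx
    rw [hround x m (by linarith)]
    exact hx
  have hsm : ∀ m : ℤ, 0 ≤ m → s m = 0 := by
    intro m hm
    obtain ⟨j, rfl⟩ := Int.eq_ofNat_of_zero_le hm
    have h1 := hpn j 0
    rw [zero_add, hw 0 (by rw [abs_zero]; exact hδ.le)] at h1
    exact_mod_cast h1
  -- the walls: three cases
  have hcase : ∀ t, c ≤ t → t ≤ N - c → |t - round t| ≤ δ →
      (t ≤ δ) ∨ (N - δ ≤ t) ∨ (1 ≤ round t ∧ (round t : ℝ) ≤ N - 1) := by
    intro t h1 h2 h3
    have h4 := abs_le.1 h3
    rcases lt_or_ge (round t) 1 with h5 | h5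
    · left
      have : (round t : ℝ) ≤ 0 := by exact_mod_cast Int.lt_add_one_iff.1 h5
      linarith
    · rcases lt_or_ge (N - 1 : ℤ) (round t) with h6 | h6
      · right; left
        have : (N : ℝ) ≤ round t := by
          have h7 : (N : ℤ) ≤ round t := by omega
          exact_mod_cast h7
        linarith
      · right; right
        refine ⟨h5, ?_⟩
        have : ((round t : ℤ) : ℝ) ≤ ((N - 1 : ℤ) : ℝ) := by exact_mod_cast h6
        simpa using this
  have hwall1 : ∀ t, c ≤ t → t ≤ δ → deriv f t = 1 := by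
    intro t h1 h2
    rcases lt_or_ge t δ with h3 | h3
    · rcases eq_or_lt_of_le h1 with h4 | h4
      · -- at `c`: the slope of the ramp is one at the limit
        subst h4
        have h5 : IsClosed {t : ℝ | deriv f t = 1} := isClosed_eq hdfc continuous_const
        have h6 : Ioo c δ ⊆ {t : ℝ | deriv f t = 1} := by
          intro x hx
          rw [mem_setOf_eq, hd2 x hx.1 (by linarith [hx.2])]
          exact hs.wall x (hround' x 0 (by
            rw [Int.cast_zero, sub_zero, abs_of_pos (by linarith [hx.1])]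
            exact hx.2.le))
        have h7 := closure_minimal h6 h5
        rw [closure_Ioo (by linarith : c < δ).ne] at h7
        exact h7 ⟨le_rfl, h3.le⟩
      · rw [hd2 t h4 (by linarith)]
        exact hs.wall t (hround' t 0 (by
          rw [Int.cast_zero, sub_zero, abs_of_pos (by linarith)]
          exact h2))
    · rw [hd2 t (by linarith) (by linarith)]
      exact hs.wall t (hround' t 0 (by
        rw [Int.cast_zero, sub_zero, abs_of_pos (by linarith)]
        exact h2))
  have hfc : f c = 0 := by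
    rw [hf1 c hc (by linarith), div_self hc.ne', hBr 1 le_rfl, sub_self, mul_zero]
  have hmem1 : ∀ x, c ≤ x → x ≤ δ → c ≤ x ∧ x ≤ N - c ∧ |x - round x| ≤ δ := by
    intro x h1 h2
    refine ⟨h1, by linarith, hround' x 0 ?_⟩
    rw [Int.cast_zero, sub_zero, abs_of_pos (by linarith)]
    exact h2
  have hmem2 : ∀ x, N - δ ≤ x → x ≤ N - c → c ≤ x ∧ x ≤ N - c ∧ |x - round x| ≤ δ := by
    intro x h1 h2
    refine ⟨by linarith, h2, hround' x N ?_⟩
    rw [Int.cast_natCast, abs_le]
    constructor <;> linarith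
  refine ⟨f, ⟨hfs, ?_, fun t => (hPall t).2, fun t => (hPall t).1, ?_, ?_, ?_⟩, hf3, hfl, hfr⟩
  · -- bounded derivatives
    have hsupp : HasCompactSupport f := by
      refine HasCompactSupport.intro (isCompact_Icc (a := (0 : ℝ)) (b := N)) fun x hx => ?_
      rw [mem_Icc, not_and_or, not_le, not_le] at hx
      rcases hx with h | h
      · exact hfl x (by linarith)
      · exact hfr x (by linarith)
    intro m
    have h1 : Continuous (iteratedDeriv m f) := hfs.continuous_iteratedDeriv m (by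
      exact_mod_cast le_top)
    have h2 : HasCompactSupport (iteratedDeriv m f) := by
      have h3 : HasCompactSupport (iteratedFDeriv ℝ m f) := hsupp.iteratedFDeriv m
      refine HasCompactSupport.intro h3 fun x hx => ?_
      rw [iteratedDeriv_eq_iteratedFDeriv, image_eq_zero_of_notMem_tsupport hx]
      rfl
    obtain ⟨B, hB⟩ := h2.exists_bound_of_continuous h1
    exact ⟨B, fun t => by simpa [Real.norm_eq_abs] using hB t⟩
  · -- closed
    have h1 : {t : ℝ | c ≤ t ∧ t ≤ N - c ∧ |t - round t| ≤ δ} =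
        Icc c (N - c) ∩ {t | |t - round t| ≤ δ} := by
      ext t
      simp only [mem_setOf_eq, mem_inter_iff, mem_Icc, and_assoc]
    rw [h1]
    exact isClosed_Icc.inter hs.closed
  · -- walls
    rintro t ⟨h1, h2, h3⟩
    rcases hcase t h1 h2 h3 with h4 | h4 | h4
    · exact hwall1 t h1 h4
    · rw [← hdsym t]
      exact hwall1 (N - t) (by linarith) (by linarith)
    · have h5 := abs_le.1 h3
      have h6 : (1 : ℝ) ≤ round t := by exact_mod_cast h4.1
      rw [hd4 t (by linarith) (by linarith [h4.2])]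
      exact hs.wall t h3
  · rintro t ⟨h1, h2, h3⟩
    rcases hcase t h1 h2 h3 with h4 | h4 | h4
    · refine ⟨c, hfc, fun x hx => ?_⟩
      rw [uIcc_of_le h1] at hx
      exact hmem1 x hx.1 (hx.2.trans h4)
    · refine ⟨N - c, by rw [hsym, hfc, neg_zero], fun x hx => ?_⟩
      rw [uIcc_of_ge h2] at hx
      exact hmem2 x (h4.trans hx.1) hx.2
    · have h6 : (1 : ℝ) ≤ round t := by exact_mod_cast h4.1
      refine ⟨round t, ?_, fun x hx => ?_⟩
      · rw [hf3 _ (by linarith) (by linarith [h4.2])]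
        exact hsm _ (by linarith [h4.1])
      · have h7 : |x - round t| ≤ δ := by
          refine le_trans ?_ h3
          exact abs_sub_left_of_mem_uIcc hx
        have h8 := abs_le.1 h7
        exact ⟨by linarith, by linarith [h4.2], hround' x _ h7⟩

end Pool.Agent.H23.ST
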