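import Pool.Agent.H23.ST.Bu2
import Pool.Agent.H23.ST.V0
import Pool.Agent.SFl.Glob

/-! # Project ST, row ST-B10: the velocity of conjugated families -/

set_option autoImplicit false

namespace Pool.Agent.H23.ST

open MeasureTheory Set Pool.Agent.H68.VD Pool.Agent.H68.GM Pool.Agent.H6.ST
open scoped ENNReal ContDiff Topology

/-- The flow of the autonomous field is a group. -/
private theorem b10_group {s : ℝ → ℝ} {w : Set ℝ} {θ : ℝ} (h : Prof s w θ)
    {ζ : ℝ → Eu 4 → Eu 4} (hζ : Blow s ζ) (a b : ℝ) (x : Eu 4) :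
    ζ (a + b) x = ζ a (ζ b x) := by
  have hu : ContDiff ℝ ∞ (fun q : ℝ × Eu 4 => v0 s q.2) :=
    (v0_kit s w θ h).1.comp contDiff_snd
  have h1 : ∀ t ∈ Ioo (-(|a| + 1)) (|a| + 1), (fun τ => ζ (τ + b) x) t = (fun τ => ζ τ (ζ b x)) t := by
    refine SFl.flow_unique hu ?_ ?_ ?_
    · simp [hζ.flow.zero]
    · intro t _
      have h2 := hζ.flow.deriv (t + b) x
      exact h2.comp_add_const t b
    · intro t _
      exact hζ.flow.deriv t (ζ b x)
  exact h1 a ⟨by linarith [neg_abs_le a], by linarith [le_abs_self a]⟩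

private theorem b10_inv {f : Eu 4 → Eu 4} (hf : Function.Bijective f) {x y : Eu 4}
    (h : f x = y) : Function.invFun f y = x := by
  apply hf.1
  rw [h]
  exact Function.invFun_eq ⟨x, h⟩

theorem vel_conj (s : ℝ → ℝ) (w : Set ℝ) (θ : ℝ) (h : Prof s w θ) (ζ : ℝ → Eu 4 → Eu 4)
    (hζ : Blow s ζ) : (∀ (U : Set (Eu 4)) (Φ : ℝ → Eu 4 → Eu 4), CF U Φ → ∀ τ t y,
      vel (fun t => Th ζ τ (Φ t)) t y = pf ζ τ (vel Φ t) y) ∧
    (∀ (θc : ℝ) (U : Set (Eu 4)) (F G : Eu 4 → Eu 4), CR θc U F → Function.Bijective G →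
      ∀ a : ℝ → ℝ, ContDiff ℝ ∞ a → ∀ t y, vel (fun t x => Th ζ (a t) F (G x)) t y =
        deriv a t • pf ζ (a t) (zF s F) y) := by
  have h0 : ∀ x, ζ 0 x = x := hζ.flow.zero
  have hg := b10_group h hζ
  have hl : ∀ τ x, ζ (-τ) (ζ τ x) = x := by
    intro τ x
    rw [← hg, neg_add_cancel, h0]
  have hr : ∀ τ x, ζ τ (ζ (-τ) x) = x := by
    intro τ x
    rw [← hg, add_neg_cancel, h0]
  have hsm : ∀ τ, ContDiff ℝ ∞ (ζ τ) := fun τ =>
    hζ.smooth.comp (contDiff_const.prodMk contDiff_id)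
  have hbij : ∀ τ, Function.Bijective (ζ τ) := fun τ =>
    ⟨Function.LeftInverse.injective (hl τ), Function.RightInverse.surjective (hr τ)⟩
  have hdζ : ∀ τ x, HasFDerivAt (ζ τ) (fderiv ℝ (ζ τ) x) x := fun τ x =>
    ((hsm τ).differentiable (by simp) x).hasFDerivAt
  -- the flow preserves the field
  have hinv : ∀ τ x, fderiv ℝ (ζ τ) x (v0 s x) = v0 s (ζ τ x) := by
    intro τ x
    have e1 : HasDerivAt (fun r => ζ r x) (v0 s x) 0 := by
      have e := hζ.flow.deriv 0 x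
      simpa [h0] using e
    have e2 : HasDerivAt (fun r => ζ τ (ζ r x)) (fderiv ℝ (ζ τ) x (v0 s x)) 0 := by
      have e : HasFDerivAt (ζ τ) (fderiv ℝ (ζ τ) x) (ζ 0 x) := by
        rw [h0]
        exact hdζ τ x
      exact e.comp_hasDerivAt 0 e1
    have e3 : HasDerivAt (fun r => ζ r (ζ τ x)) (v0 s (ζ τ x)) 0 := by
      have e := hζ.flow.deriv 0 (ζ τ x)
      simpa [h0] using e
    have e4 : (fun r => ζ τ (ζ r x)) = fun r => ζ r (ζ τ x) := by
      funext r
      rw [← hg, ← hg, add_comm]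
    rw [e4] at e2
    exact e2.unique e3
  refine ⟨?_, ?_⟩
  · intro U Φ hΦ τ t y
    have hb : Function.Bijective (Th ζ τ (Φ t)) := by
      have e : Th ζ τ (Φ t) = ζ τ ∘ Φ t ∘ ζ (-τ) := rfl
      rw [e]
      exact (hbij τ).comp ((hΦ.bij t).comp (hbij (-τ)))
    set q : Eu 4 := Function.invFun (Φ t) (ζ (-τ) y) with hq
    have hq1 : Φ t q = ζ (-τ) y := Function.invFun_eq ((hΦ.bij t).2 _)
    have hq2 : Function.invFun (Th ζ τ (Φ t)) y = ζ τ q := by
      apply b10_inv hb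
      show ζ τ (Φ t (ζ (-τ) (ζ τ q))) = y
      rw [hl, hq1, hr]
    have hd : HasDerivAt (fun r => Φ r q) (vel Φ t (ζ (-τ) y)) t := by
      have e1 : ContDiff ℝ ∞ (fun r : ℝ => Φ r q) :=
        hΦ.smooth.comp (contDiff_id.prodMk contDiff_const)
      have e2 := (e1.differentiable (by simp) t).hasDerivAt
      exact e2
    have hd2 : HasDerivAt (fun r => ζ τ (Φ r q))
        (fderiv ℝ (ζ τ) (ζ (-τ) y) (vel Φ t (ζ (-τ) y))) t := by
      have e : HasFDerivAt (ζ τ) (fderiv ℝ (ζ τ) (ζ (-τ) y)) (Φ t q) := by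
        rw [hq1]
        exact hdζ τ _
      exact e.comp_hasDerivAt t hd
    show deriv (fun r => Th ζ τ (Φ r) (Function.invFun (Th ζ τ (Φ t)) y)) t = _
    have e5 : (fun r => Th ζ τ (Φ r) (Function.invFun (Th ζ τ (Φ t)) y)) =
        fun r => ζ τ (Φ r q) := by
      funext r
      rw [hq2]
      show ζ τ (Φ r (ζ (-τ) (ζ τ q))) = _
      rw [hl]
    rw [e5]
    exact hd2.deriv
  · intro θc U F G hF hG a ha t y
    have hb : Function.Bijective (fun x => Th ζ (a t) F (G x)) := by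
      have e : (fun x => Th ζ (a t) F (G x)) = ζ (a t) ∘ F ∘ ζ (-(a t)) ∘ G := rfl
      rw [e]
      exact (hbij _).comp (hF.bij.comp ((hbij _).comp hG))
    obtain ⟨x₀, hx₀⟩ := hb.2 y
    have hx1 : ζ (a t) (F (ζ (-(a t)) (G x₀))) = y := hx₀
    have hx2 : Function.invFun (fun x => Th ζ (a t) F (G x)) y = x₀ := b10_inv hb hx₀
    set p : Eu 4 := G x₀ with hp
    set q : Eu 4 := ζ (-(a t)) p with hq
    have hFq : F q = ζ (-(a t)) y := by rw [← hx1, hl]
    have hda : HasDerivAt a (deriv a t) t := (ha.differentiable (by simp) t).hasDerivAt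
    have hdF : HasFDerivAt F (fderiv ℝ F q) q := (hF.smooth.differentiable (by simp) q).hasFDerivAt
    -- the inner curve
    have hd1 : HasDerivAt (fun r => ζ (-(a r)) p) (-(deriv a t) • v0 s q) t := by
      have e1 : HasDerivAt (fun r => ζ r p) (v0 s q) (-(a t)) := hζ.flow.deriv (-(a t)) p
      exact e1.scomp t hda.neg
    have hd2 : HasDerivAt (fun r => F (ζ (-(a r)) p)) (fderiv ℝ F q (-(deriv a t) • v0 s q)) t :=
      hdF.comp_hasDerivAt t hd1
    -- the outer map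
    set Z : ℝ × Eu 4 → Eu 4 := fun z => ζ z.1 z.2 with hZ
    have hZd : HasFDerivAt Z (fderiv ℝ Z (a t, F q)) (a t, F q) :=
      (hζ.smooth.differentiable (by simp) _).hasFDerivAt
    have hd3 : HasDerivAt (fun r => Z (a r, F (ζ (-(a r)) p)))
        (fderiv ℝ Z (a t, F q) (deriv a t, fderiv ℝ F q (-(deriv a t) • v0 s q))) t := by
      have e : HasFDerivAt Z (fderiv ℝ Z (a t, F q))
          ((fun r => (a r, F (ζ (-(a r)) p))) t) := hZd
      exact e.comp_hasDerivAt t (hda.prodMk hd2)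
    have hp1 : fderiv ℝ Z (a t, F q) (1, 0) = v0 s y := by
      have e1 : HasDerivAt (fun r : ℝ => ((r, F q) : ℝ × Eu 4)) (1, 0) (a t) :=
        (hasDerivAt_id (a t)).prodMk (hasDerivAt_const (a t) (F q))
      have e2 : HasDerivAt (fun r : ℝ => Z (r, F q)) (fderiv ℝ Z (a t, F q) (1, 0)) (a t) := by
        have e : HasFDerivAt Z (fderiv ℝ Z (a t, F q)) ((fun r : ℝ => (r, F q)) (a t)) := hZd
        exact e.comp_hasDerivAt (a t) e1
      have e3 : HasDerivAt (fun r : ℝ => Z (r, F q)) (v0 s (ζ (a t) (F q))) (a t) :=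
        hζ.flow.deriv (a t) (F q)
      rw [e2.unique e3, hx1]
    have hp2 : ∀ v : Eu 4, fderiv ℝ Z (a t, F q) (0, v) = fderiv ℝ (ζ (a t)) (F q) v := by
      intro v
      have e1 : HasFDerivAt (fun x : Eu 4 => ((a t, x) : ℝ × Eu 4))
          (ContinuousLinearMap.inr ℝ ℝ (Eu 4)) (F q) := hasFDerivAt_prodMk_right (a t) (F q)
      have e2 : HasFDerivAt (fun x : Eu 4 => Z (a t, x))
          ((fderiv ℝ Z (a t, F q)).comp (ContinuousLinearMap.inr ℝ ℝ (Eu 4))) (F q) :=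
        hZd.comp (F q) e1
      have e3 := (hdζ (a t) (F q)).unique e2
      rw [e3]
      rfl
    have hval : fderiv ℝ Z (a t, F q) (deriv a t, fderiv ℝ F q (-(deriv a t) • v0 s q)) =
        deriv a t • pf ζ (a t) (zF s F) y := by
      have e1 : ((deriv a t, fderiv ℝ F q (-(deriv a t) • v0 s q)) : ℝ × Eu 4) =
          deriv a t • ((1, 0) : ℝ × Eu 4) + (0, fderiv ℝ F q (-(deriv a t) • v0 s q)) := by
        ext <;> simp
      rw [e1, map_add, map_smul, hp1, hp2]
      have e2 : Function.invFun F (F q) = q := Function.leftInverse_invFun hF.bij.1 q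
      show _ = deriv a t • fderiv ℝ (ζ (a t)) (ζ (-(a t)) y) (zF s F (ζ (-(a t)) y))
      rw [← hFq]
      unfold zF
      rw [e2, map_sub, hinv, hx1, smul_sub, map_smul, map_smul, neg_smul, sub_eq_add_neg]
    show deriv (fun r => Th ζ (a r) F (G (Function.invFun (fun x => Th ζ (a t) F (G x)) y))) t = _
    rw [hx2]
    have e6 : HasDerivAt (fun r => Th ζ (a r) F (G x₀))
        (deriv a t • pf ζ (a t) (zF s F) y) t := by
      rw [← hval]
      exact hd3
    exact e6.deriv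

end Pool.Agent.H23.ST
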