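import Pool.Agent.H23.ST.Bu2
import Pool.Agent.H23.ST.ProfO
import Pool.Agent.H23.ST.V0
import Pool.Agent.H23.ST.BlowA
import Pool.Agent.H23.ST.PfBd
import Pool.Agent.H23.ST.CfK
import Pool.Agent.H23.ST.ConjCF
import Pool.Agent.H23.ST.VelC
import Pool.Agent.SFl.Glob

/-! # ST-B13: the cost of the conjugate of a map which is isotopic to the identity rel cores -/

namespace Pool.Agent.H23.ST

open MeasureTheory Set Pool.Agent.H68.VD Pool.Agent.H68.GM Pool.Agent.H6.ST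
open scoped ENNReal ContDiff Topology

theorem brel_closed {s : ℝ → ℝ} {w : Set ℝ} {θ : ℝ} (h : Prof s w θ) {ζ : ℝ → Eu 4 → Eu 4}
    (hζ : Blow s ζ) {a b : ℝ} (ha : s a = 0) (hb : s b = 0) (τ : ℝ) (x : Eu 4)
    (hx : ∀ k, a ≤ x k ∧ x k ≤ b) : ∀ k, a ≤ ζ τ x k ∧ ζ τ x k ≤ b := by
  have hf := ((blow_a s w θ h).2 ζ hζ).2.2.2.1
  intro k
  refine ⟨?_, ?_⟩
  · rcases (hx k).1.lt_or_eq with h1 | h1
    · exact ((hf a ha τ x k).2.2 h1).le
    · exact ((hf a ha τ x k).1 h1.symm).ge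
  · rcases (hx k).2.lt_or_eq with h1 | h1
    · exact ((hf b hb τ x k).2.1 h1).le
    · exact ((hf b hb τ x k).1 h1).le

theorem brel_open {s : ℝ → ℝ} {w : Set ℝ} {θ : ℝ} (h : Prof s w θ) {ζ : ℝ → Eu 4 → Eu 4}
    (hζ : Blow s ζ) {a b : ℝ} (ha : s a = 0) (hb : s b = 0) (τ : ℝ) (x : Eu 4)
    (hx : ∀ k, a < x k ∧ x k < b) : ∀ k, a < ζ τ x k ∧ ζ τ x k < b := by
  have hf := ((blow_a s w θ h).2 ζ hζ).2.2.2.1
  intro k
  exact ⟨(hf a ha τ x k).2.2 (hx k).1, (hf b hb τ x k).2.1 (hx k).2⟩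

theorem brel_v0 {s s' : ℝ → ℝ} (x : Eu 4) (h : ∀ k, s =ᶠ[𝓝 (x k)] s') : v0 s x = v0 s' x := by
  unfold v0
  congr 1
  funext k
  rw [(h k).eq_of_nhds]
  congr 1
  refine Finset.prod_congr rfl fun j _ => ?_
  rw [(h j).deriv_eq]

theorem brel_unique {s s' : ℝ → ℝ} {w' : Set ℝ} {θ : ℝ} (h' : Prof s' w' θ)
    {ζ ζ' : ℝ → Eu 4 → Eu 4} (hζ : Blow s ζ) (hζ' : Blow s' ζ') (x : Eu 4)
    (hx : ∀ t, v0 s (ζ t x) = v0 s' (ζ t x)) (t : ℝ) : ζ t x = ζ' t x := by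
  have hu : ContDiff ℝ ∞ (fun q : ℝ × Eu 4 => v0 s' q.2) := (v0_kit s' w' θ h').1.comp contDiff_snd
  refine SFl.flow_unique hu (T := |t| + 1) (γ := fun τ => ζ τ x) (γ' := fun τ => ζ' τ x) ?_ ?_ ?_ t
    ⟨by linarith [neg_abs_le t], by linarith [le_abs_self t]⟩
  · simp only [hζ.flow.zero, hζ'.flow.zero]
  · intro τ _
    have := hζ.flow.deriv τ x
    simpa only [hx τ] using this
  · intro τ _
    exact hζ'.flow.deriv τ x

/-- The two flows give the same conjugate of a map with support in a closed cube. -/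
theorem brel_th {s s' : ℝ → ℝ} {w w' : Set ℝ} {θ : ℝ} (h : Prof s w θ) (h' : Prof s' w' θ)
    {ζ ζ' : ℝ → Eu 4 → Eu 4} (hζ : Blow s ζ) (hζ' : Blow s' ζ') {a b : ℝ}
    (ha : s a = 0) (hb : s b = 0) (ha' : s' a = 0) (hb' : s' b = 0)
    (he : ∀ t, a ≤ t → t ≤ b → s =ᶠ[𝓝 t] s') (F : Eu 4 → Eu 4) (hF : Function.Injective F)
    (hs : ∀ x, (¬ ∀ k, a ≤ x k ∧ x k ≤ b) → F x = x) (τ : ℝ) : Th ζ τ F = Th ζ' τ F := by
  have hg := ((blow_a s w θ h).2 ζ hζ).2.1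
  have hg' := ((blow_a s' w' θ h').2 ζ' hζ').2.1
  have hz := hζ.flow.zero
  have hz' := hζ'.flow.zero
  have heq : ∀ t x, (∀ k, a ≤ x k ∧ x k ≤ b) → ζ t x = ζ' t x := by
    intro t x hx
    refine brel_unique h' hζ hζ' x (fun τ => brel_v0 _ fun k => ?_) t
    have h1 := brel_closed h hζ ha hb τ x hx k
    exact he _ h1.1 h1.2
  have hFm : ∀ x, (∀ k, a ≤ x k ∧ x k ≤ b) → ∀ k, a ≤ F x k ∧ F x k ≤ b := by
    intro x hx
    by_contra hc
    have h1 : F (F x) = F x := hs _ hc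
    have h2 := hF h1
    rw [h2] at hc
    exact hc hx
  funext y
  unfold Th
  by_cases hy : ∀ k, a ≤ y k ∧ y k ≤ b
  · rw [← heq (-τ) y hy]
    exact heq τ _ (hFm _ (brel_closed h hζ ha hb (-τ) y hy))
  · have h1 : ¬ ∀ k, a ≤ ζ (-τ) y k ∧ ζ (-τ) y k ≤ b := by
      intro hc
      have h2 := brel_closed h hζ ha hb τ _ hc
      rw [← hg, add_neg_cancel, hz] at h2
      exact hy h2
    have h1' : ¬ ∀ k, a ≤ ζ' (-τ) y k ∧ ζ' (-τ) y k ≤ b := by
      intro hc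
      have h2 := brel_closed h' hζ' ha' hb' τ _ hc
      rw [← hg', add_neg_cancel, hz'] at h2
      exact hy h2
    rw [hs _ h1, hs _ h1', ← hg, ← hg', add_neg_cancel, hz, hz']

/-- Compact subsets of a box. -/
theorem brel_compact {a b : ℝ} {K : Set (Eu 4)} (hK : IsCompact K)
    (hs : K ⊆ obox (fun _ => a) (fun _ => b)) :
    ∃ c : ℝ, 0 < c ∧ ∀ x ∈ K, ∀ k, a + c < x k ∧ x k < b - c := by
  have ho : IsOpen (obox (n := 4) (fun _ => a) (fun _ => b)) := by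
    have : obox (n := 4) (fun _ => a) (fun _ => b) =
        ⋂ k : Fin 4, {x : Eu 4 | a < x k ∧ x k < b} := by
      ext x
      simp [obox]
    rw [this]
    refine isOpen_iInter_of_finite fun k => ?_
    have hck : Continuous (fun x : Eu 4 => x k) := by fun_prop
    exact (isOpen_lt continuous_const hck).inter (isOpen_lt hck continuous_const)
  obtain ⟨δ, hδ, hsub⟩ := hK.exists_thickening_subset_open ho hs
  refine ⟨δ / 2, by positivity, fun x hx k => ⟨?_, ?_⟩⟩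
  · have h1 : x - (δ / 2) • ev k ∈ Metric.thickening δ K := by
      refine Metric.mem_thickening_iff.2 ⟨x, hx, ?_⟩
      rw [dist_eq_norm]
      have : x - (δ / 2) • ev k - x = -((δ / 2) • ev k) := by abel
      rw [this, norm_neg, norm_smul, ev, PiLp.norm_single]
      simp only [norm_one, mul_one, Real.norm_eq_abs]
      rw [abs_of_pos (by positivity)]
      linarith
    have h2 := (hsub h1 k).1
    simp [ev] at h2
    linarith
  · have h1 : x + (δ / 2) • ev k ∈ Metric.thickening δ K := by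
      refine Metric.mem_thickening_iff.2 ⟨x, hx, ?_⟩
      rw [dist_eq_norm]
      have : x + (δ / 2) • ev k - x = (δ / 2) • ev k := by abel
      rw [this, norm_smul, ev, PiLp.norm_single]
      simp only [norm_one, mul_one, Real.norm_eq_abs]
      rw [abs_of_pos (by positivity)]
      linarith
    have h2 := (hsub h1 k).2
    simp [ev] at h2
    linarith

theorem brel_iv0 : iv (0 : Fin 4 → ℤ) = 0 := by
  ext i
  simp [iv]

/-- The path is the identity near the points off the walls. -/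
theorem brel_off (L : ℕ) (Φ : ℝ → Eu 4 → Eu 4) (θc c : ℝ) (hc : 0 < c)
    (hsupp : ∀ t x, (¬ ∀ k, c ≤ x k ∧ x k ≤ (NN L : ℝ) - c) → Φ t x = x)
    (hcore : ∀ t c, BigCell L c → ∀ x ∈ core θc c, Φ t x = x) (t : ℝ) :
    ∀ x ∉ Wl {t | c ≤ t ∧ t ≤ (NN L : ℝ) - c ∧ |t - round t| ≤ θc},
      Φ t =ᶠ[𝓝 x] fun y => y := by
  intro x hx
  by_cases hb : ∀ k, c ≤ x k ∧ x k ≤ (NN L : ℝ) - c
  · have h1 : ∀ k, θc < |x k - round (x k)| := by
      intro k
      by_contra hcon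
      exact hx ⟨k, (hb k).1, (hb k).2, not_lt.1 hcon⟩
    have h2 : ∀ k, |x k - ((⌊x k⌋ : ℝ) + 1 / 2)| < 1 / 2 - θc := by
      intro k
      have h3 := h1 k
      rw [abs_sub_round_eq_min] at h3
      have h4 := (lt_min_iff.1 h3).1
      have h5 := (lt_min_iff.1 h3).2
      rw [Int.fract] at h4 h5
      rw [abs_lt]
      constructor <;> linarith
    have h6 : ∀ᶠ y in 𝓝 x, ∀ k, |y k - ((⌊x k⌋ : ℝ) + 1 / 2)| < 1 / 2 - θc := by
      rw [Filter.eventually_all]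
      intro k
      have hcont : Continuous (fun y : Eu 4 => |y k - ((⌊x k⌋ : ℝ) + 1 / 2)|) := by fun_prop
      exact (hcont.tendsto x).eventually (gt_mem_nhds (h2 k))
    filter_upwards [h6] with y hy
    refine hcore t (fun k => ⌊x k⌋) (fun k => ⟨?_, ?_⟩) y (fun k => (hy k).le)
    · exact Int.floor_nonneg.2 (hc.le.trans (hb k).1)
    · rw [Int.floor_lt]
      have := (hb k).2
      push_cast
      linarith
  · push Not at hb
    obtain ⟨k, hk⟩ := hb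
    by_cases h1 : c ≤ x k
    · have h2 := hk h1
      have h3 : ∀ᶠ y : Eu 4 in 𝓝 x, (NN L : ℝ) - c < y k :=
        (isOpen_lt continuous_const (by fun_prop)).mem_nhds h2
      filter_upwards [h3] with y hy
      exact hsupp t y fun hcon => absurd (hcon k).2 (not_le.2 hy)
    · have h3 : ∀ᶠ y : Eu 4 in 𝓝 x, y k < c :=
        (isOpen_lt (by fun_prop) continuous_const).mem_nhds (not_le.1 h1)
      filter_upwards [h3] with y hy
      exact hsupp t y fun hcon => absurd (hcon k).1 (not_le.2 hy)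

/-- The path is compatible with the offset profile. -/
theorem brel_cmp {w : Set ℝ} {F : Eu 4 → Eu 4} (hinj : Function.Injective F)
    (hoff : ∀ x ∉ Wl w, F =ᶠ[𝓝 x] fun y => y) (s' : ℝ → ℝ) : Cmp s' w F := by
  refine ⟨fun x hx => ⟨0, Or.inl rfl, ?_⟩, fun x hx => ?_⟩
  · simpa only [brel_iv0, add_zero] using hoff x hx
  · by_contra hcon
    have h1 := (hoff _ hcon).eq_of_nhds
    exact hcon (by rwa [hinj h1])

theorem brel_real (σ θ D r : ℝ) (hσ1 : σ < 1) (hσ : 0 ≤ σ) (hθ : 0 < θ) (hθσ : θ ≤ (1 - σ) / 20)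
    (hD : 0 < D) (hr : 0 ≤ r) :
    (D * Real.exp (-(1 - 3 * θ) * r)) ^ (1 - σ) * (D * Real.exp (12 * θ * r)) ^ σ ≤
      D * Real.exp (-(2 / 5 * (1 - σ)) * r) := by
  rw [Real.mul_rpow hD.le (Real.exp_pos _).le, Real.mul_rpow hD.le (Real.exp_pos _).le,
    ← Real.exp_mul, ← Real.exp_mul]
  have h1 : D ^ (1 - σ) * D ^ σ = D := by
    rw [← Real.rpow_add hD]
    simp
  calc D ^ (1 - σ) * Real.exp (-(1 - 3 * θ) * r * (1 - σ)) *
        (D ^ σ * Real.exp (12 * θ * r * σ))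
      = (D ^ (1 - σ) * D ^ σ) *
        (Real.exp (-(1 - 3 * θ) * r * (1 - σ)) * Real.exp (12 * θ * r * σ)) := by ring
    _ = D * Real.exp (-(1 - 3 * θ) * r * (1 - σ) + 12 * θ * r * σ) := by
        rw [h1, ← Real.exp_add]
    _ ≤ D * Real.exp (-(2 / 5 * (1 - σ)) * r) := by
        refine mul_le_mul_of_nonneg_left (Real.exp_le_exp.2 ?_) hD.le
        have h2 : -(1 - 3 * θ) * (1 - σ) + 12 * θ * σ ≤ -(2 / 5 * (1 - σ)) := by
          nlinarith [mul_nonneg hθ.le hσ, mul_pos hθ (sub_pos.2 hσ1)]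
        nlinarith [mul_le_mul_of_nonneg_right h2 hr]

theorem brel_small (D a η : ℝ) (hD : 0 < D) (ha : 0 < a) (hη : 0 < η) :
    ∃ T : ℝ, 0 ≤ T ∧ ∀ r, T ≤ r → D * Real.exp (-a * r) ≤ η := by
  refine ⟨D / (a * η), by positivity, fun r hr => ?_⟩
  have h1 : D / η ≤ Real.exp (a * r) := by
    have h2 := Real.add_one_le_exp (a * r)
    have h3 : D / η ≤ a * r := by
      have := mul_le_mul_of_nonneg_left hr ha.le
      calc D / η = a * (D / (a * η)) := by field_simp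
        _ ≤ a * r := this
    linarith
  have h4 : Real.exp (-a * r) = (Real.exp (a * r))⁻¹ := by
    rw [← Real.exp_neg]
    congr 1
    ring
  rw [h4]
  have h5 : 0 < Real.exp (a * r) := Real.exp_pos _
  rw [← div_eq_mul_inv, div_le_iff₀ h5]
  rw [div_le_iff₀ hη] at h1
  linarith

/-- The velocity and its derivative have bounded integrals on the unit interval. -/
theorem brel_unif (v : ℝ → Eu 4 → Eu 4) (hv : ContDiff ℝ ∞ (fun q : ℝ × Eu 4 => v q.1 q.2))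
    (K : Set (Eu 4)) (hK : IsCompact K) (hv0 : ∀ t, ∀ x ∉ K, v t x = 0) :
    ∃ M : ℝ, 0 ≤ M ∧ ∀ t ∈ Icc (0 : ℝ) 1, (∫ y, ‖v t y‖) ≤ M ∧ (∫ y, ‖fderiv ℝ (v t) y‖) ≤ M := by
  have hd : Continuous (fun q : ℝ × Eu 4 => fderiv ℝ (v q.1) q.2) := by
    have h1 : ContDiff ℝ ∞ (Function.uncurry fun (q : ℝ × Eu 4) (y : Eu 4) => v q.1 y) := by
      have h2 : ContDiff ℝ ∞ (fun p : (ℝ × Eu 4) × Eu 4 => ((p.1.1, p.2) : ℝ × Eu 4)) := by
        fun_prop
      exact hv.comp h2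
    exact (ContDiff.fderiv (m := ∞) (n := 0) h1 (contDiff_snd (𝕜 := ℝ)) (by simp)).continuous
  have hc : Continuous (fun q : ℝ × Eu 4 => ‖v q.1 q.2‖ + ‖fderiv ℝ (v q.1) q.2‖) :=
    hv.continuous.norm.add hd.norm
  obtain ⟨B, hB⟩ := ((isCompact_Icc (a := (0 : ℝ)) (b := 1)).prod hK).exists_bound_of_continuousOn
    hc.continuousOn
  have hB' : ∀ t ∈ Icc (0 : ℝ) 1, ∀ y ∈ K, ‖v t y‖ ≤ max B 0 ∧ ‖fderiv ℝ (v t) y‖ ≤ max B 0 := by
    intro t ht y hy
    have h1 := hB (t, y) ⟨ht, hy⟩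
    simp only [Real.norm_eq_abs] at h1
    have h2 := le_abs_self (‖v t y‖ + ‖fderiv ℝ (v t) y‖)
    have h3 := norm_nonneg (v t y)
    have h4 := norm_nonneg (fderiv ℝ (v t) y)
    have h5 := le_max_left B 0
    constructor <;> linarith
  have hfd0 : ∀ t, ∀ x ∉ K, fderiv ℝ (v t) x = 0 := by
    intro t x hx
    have h1 : v t =ᶠ[𝓝 x] fun _ => (0 : Eu 4) := by
      filter_upwards [hK.isClosed.isOpen_compl.mem_nhds hx] with y hy
      exact hv0 t y hy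
    rw [h1.fderiv_eq]
    simp
  refine ⟨max B 0 * (volume : Measure (Eu 4)).real K, by positivity, fun t ht => ⟨?_, ?_⟩⟩
  · rw [← setIntegral_eq_integral_of_forall_compl_eq_zero (s := K)
      (fun x hx => by rw [hv0 t x hx, norm_zero])]
    refine (le_abs_self _).trans ?_
    rw [← Real.norm_eq_abs]
    refine norm_setIntegral_le_of_norm_le_const hK.measure_lt_top fun x hx => ?_
    rw [norm_norm]
    exact (hB' t ht x hx).1
  · rw [← setIntegral_eq_integral_of_forall_compl_eq_zero (s := K)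
      (fun x hx => by rw [hfd0 t x hx, norm_zero])]
    refine (le_abs_self _).trans ?_
    rw [← Real.norm_eq_abs]
    refine norm_setIntegral_le_of_norm_le_const hK.measure_lt_top fun x hx => ?_
    rw [norm_norm]
    exact (hB' t ht x hx).2

/-- ST-B13. -/
theorem blow_rel (σ : ℝ) (hσ : 0 ≤ σ) (hσ1 : σ < 1) (s : ℝ → ℝ) (θc θ : ℝ) (hθ : 0 < θ)
    (hθ1 : θ ≤ 1 / 8) (hθσ : θ ≤ (1 - σ) / 20) (hθc : 0 < θc) (hθc1 : θc < 1 / 4)
    (h : Prof s (wP θc) θ) (hp : ∀ t, s (t + 1) = s t) (ho : ∀ t, s (-t) = - s t)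
    (hw : ∀ t, |t| ≤ θc → s t = t) (hd : ∀ t, 1 / 4 ≤ t → t ≤ 3 / 4 → s t = 0)
    (ζ : ℝ → Eu 4 → Eu 4) (hζ : Blow s ζ) :
    ∀ (L : ℕ) (w : Eu 4 → Eu 4) (Φ : ℝ → Eu 4 → Eu 4), CPath (bigC L) w Φ →
    (∃ K : Set (Eu 4), IsCompact K ∧ K ⊆ innC L ∧ ∀ x ∉ K, w x = x) →
    (∀ t c, BigCell L c → ∀ x ∈ core θc c, Φ t x = x) → ∃ c' : ℝ, 0 < c' ∧ ∀ η : ℝ, 0 < η →
    ∃ τ₀ : ℝ, τ₀ ≤ 0 ∧ ∀ τ ≤ τ₀,
      FCost σ (obox (fun _ => c') (fun _ => (NN L : ℝ) - c')) (Th ζ τ w) η := by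
  intro L w Φ hΦ hwK hcore
  obtain ⟨K, hK, hKU, hKΦ⟩ := hΦ.fam.supp
  obtain ⟨Kw, hKw, hKwi, hKw0⟩ := hwK
  obtain ⟨c₁, hc₁, hc₁K⟩ := brel_compact hK hKU
  obtain ⟨c₀, hc₀, hc₀δ, hoff⟩ := exists_off θ hθ s θc hθc hθc1 h hp ho hw hd
  obtain ⟨c, hc, hcc⟩ : ∃ c : ℝ, 0 < c ∧ c < c₀ ∧ c ≤ c₁ :=
    ⟨min (c₀ / 2) c₁, by positivity, (min_le_left _ _).trans_lt (by linarith), min_le_right _ _⟩
  obtain ⟨hcc0, hcc1⟩ := hcc
  have hN2 : 2 ≤ NN L := by
    have h1 : 1 ≤ 2 ^ L := Nat.one_le_two_pow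
    unfold NN
    omega
  have hN3 : (3 : ℝ) ≤ (NN L : ℝ) := by
    have h1 : 1 ≤ 2 ^ L := Nat.one_le_two_pow
    have h2 : 3 ≤ NN L := by unfold NN; omega
    exact_mod_cast h2
  obtain ⟨s', hs', hss', hs0, hsN⟩ := hoff c hc hcc0 (NN L) hN2
  have hc4 : c < 1 / 4 := by linarith
  set N : ℝ := (NN L : ℝ) with hN
  obtain ⟨⟨ζ', hζ'⟩, -⟩ := blow_a s' _ θ hs'
  have hA := (blow_a s' _ θ hs').2 ζ' hζ'
  have hz' := hζ'.flow.zero
  have hg' := hA.2.1
  -- the values of the profiles at the faces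
  have hsi : ∀ m : ℕ, s m = 0 := by
    intro m
    induction m with
    | zero => simpa using hw 0 (by simpa using hθc.le)
    | succ m ih => push_cast; rw [hp, ih]
  have hs1 : s 1 = 0 := by simpa using hsi 1
  have hsN1 : s (N - 1) = 0 := by
    have h1 : N - 1 = ((NN L - 1 : ℕ) : ℝ) := by
      rw [Nat.cast_sub (by omega)]
      simp [hN]
    rw [h1]
    exact hsi _
  have hs'1 : s' 1 = 0 := by rw [hss' 1 (by norm_num) (by linarith), hs1]
  have hs'N1 : s' (N - 1) = 0 := by rw [hss' (N - 1) (by linarith) (by linarith), hsN1]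
  -- the map does not change
  have hwinj : Function.Injective w := by
    have h1 : Φ 1 = w := funext fun x => hΦ.ge1 1 le_rfl x
    rw [← h1]
    exact (hΦ.fam.bij 1).1
  have hTh : ∀ τ, Th ζ τ w = Th ζ' τ w := by
    refine brel_th h hs' hζ hζ' (a := 1) (b := N - 1) hs1 hsN1 hs'1 hs'N1 ?_ w hwinj ?_
    · intro t h1 h2
      have h3 : Ioo (1 / 2) (N - 1 / 2) ∈ 𝓝 t := Ioo_mem_nhds (by linarith) (by linarith)
      filter_upwards [h3] with u hu
      exact (hss' u hu.1.le hu.2.le).symm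
    · intro x hx
      refine hKw0 x fun hxK => hx fun k => ?_
      have h1 := hKwi hxK k
      exact ⟨h1.1.le, h1.2.le⟩
  set U : Set (Eu 4) := obox (fun _ => c / 2) (fun _ => N - c / 2) with hU
  have hUζ : ∀ τ, ∀ x ∈ U, ζ' τ x ∈ U := fun τ x hx =>
    brel_open hs' hζ' (hs0 (c / 2) le_rfl) (hsN (N - c / 2) le_rfl) τ x hx
  have hCF : CF U Φ := by
    refine ⟨hΦ.fam.smooth, hΦ.fam.bij, hΦ.fam.det, K, hK, fun x hx k => ?_, hKΦ⟩
    have h1 := hc₁K x hx k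
    constructor <;> linarith [h1.1, h1.2]
  have hsupp : ∀ t x, (¬ ∀ k, c ≤ x k ∧ x k ≤ (NN L : ℝ) - c) → Φ t x = x := by
    intro t x hx
    refine hKΦ t x fun hxK => hx fun k => ?_
    have h1 := hc₁K x hxK k
    constructor <;> linarith [h1.1, h1.2]
  have hoffw := brel_off L Φ θc c hc hsupp hcore
  have hcmp : ∀ t, Cmp s' {t | c ≤ t ∧ t ≤ (NN L : ℝ) - c ∧ |t - round t| ≤ θc} (Φ t) :=
    fun t => brel_cmp (hΦ.fam.bij t).1 (hoffw t) s'
  have hK1 := cfKit.2.2.2.1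
  obtain ⟨-, hvs, ⟨Kv, hKv, -, hKv0⟩, -⟩ := hK1 4 U Φ hCF
  obtain ⟨M, hM, hMb⟩ := brel_unif (vel Φ) hvs Kv hKv hKv0
  obtain ⟨C, hC, hCb⟩ := pf_bd s' _ θ hs' hθ hθ1 ζ' hζ'
  have hwall : ∀ t, ∀ x ∉ Wl {t | c ≤ t ∧ t ≤ (NN L : ℝ) - c ∧ |t - round t| ≤ θc},
      vel Φ t x = 0 := by
    intro t x hx
    have h1 : ∀ τ, Φ τ x = x := fun τ => (hoffw τ x hx).eq_of_nhds
    have h2 : Function.invFun (Φ t) x = x := by
      have h3 := Function.leftInverse_invFun (hΦ.fam.bij t).1 x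
      rwa [h1 t] at h3
    unfold vel
    rw [h2]
    simp only [h1]
    simp
  refine ⟨c / 2, by positivity, fun η hη => ?_⟩
  obtain ⟨T, hT, hTb⟩ := brel_small (2 * C * M + 1) (2 / 5 * (1 - σ)) η (by positivity)
    (by nlinarith) hη
  refine ⟨-T, by linarith, fun τ hτ => ?_⟩
  have hτ0 : τ ≤ 0 := by linarith
  have hτa : |τ| = -τ := abs_of_nonpos hτ0
  have hCFτ : CF U (fun t => Th ζ' τ (Φ t)) :=
    conj_cf s' _ θ hs' ζ' hζ' U hUζ ℝ Φ hCF hcmp (fun _ => τ) contDiff_const τ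
      (fun _ => ⟨le_rfl, hτ0⟩)
  obtain ⟨-, hvs', ⟨Kv', hKv', -, hKv0'⟩, -⟩ := hK1 4 U _ hCFτ
  have hvel : ∀ t, vel (fun t => Th ζ' τ (Φ t)) t = pf ζ' τ (vel Φ t) := fun t =>
    funext fun y => (vel_conj s' _ θ hs' ζ' hζ').1 U Φ hCF τ t y
  refine ⟨fun t => Th ζ' τ (Φ t), fun _ => η, hCFτ, ?_, ?_, continuous_const, fun _ => hη.le, ?_,
    by simp⟩
  · funext x
    show Th ζ' τ (Φ 0) x = x
    unfold Th
    rw [hΦ.le0 0 le_rfl, ← hg', add_neg_cancel, hz']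
  · rw [hTh τ]
    funext x
    show Th ζ' τ (Φ 1) x = Th ζ' τ w x
    unfold Th
    rw [hΦ.ge1 1 le_rfl]
  · intro t ht
    have hsm : ContDiff ℝ ∞ (vel (fun t => Th ζ' τ (Φ t)) t) := by
      have h1 : ContDiff ℝ ∞ (fun x : Eu 4 => ((t, x) : ℝ × Eu 4)) :=
        contDiff_const.prodMk contDiff_id
      exact hvs'.comp h1
    have hcs : HasCompactSupport (vel (fun t => Th ζ' τ (Φ t)) t) :=
      HasCompactSupport.intro hKv' (hKv0' t)
    have hsmv : ContDiff ℝ ∞ (vel Φ t) := by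
      have h1 : ContDiff ℝ ∞ (fun x : Eu 4 => ((t, x) : ℝ × Eu 4)) :=
        contDiff_const.prodMk contDiff_id
      exact hvs.comp h1
    have hcsv : HasCompactSupport (vel Φ t) := HasCompactSupport.intro hKv (hKv0 t)
    have hb := hCb (vel Φ t) hsmv hcsv (hwall t) τ hτ0
    have hI1 := ofReal_integral_norm_eq_lintegral_enorm (μ := (volume : Measure (Eu 4)))
      (hsm.continuous.integrable_of_hasCompactSupport hcs)
    have hI2 := ofReal_integral_norm_eq_lintegral_enorm (μ := (volume : Measure (Eu 4)))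
      ((hsm.continuous_fderiv (by simp)).integrable_of_hasCompactSupport (hcs.fderiv ℝ))
    unfold FE
    rw [← hI1, ← hI2, hvel t, ENNReal.ofReal_rpow_of_nonneg (by positivity) (by linarith),
      ENNReal.ofReal_rpow_of_nonneg (by positivity) hσ, ← ENNReal.ofReal_mul (by positivity)]
    refine ENNReal.ofReal_le_ofReal ?_
    have hMt := hMb t ht
    have hD : 0 < 2 * C * M + 1 := by positivity
    have e1 : ∫ y, ‖pf ζ' τ (vel Φ t) y‖ ≤
        (2 * C * M + 1) * Real.exp (-(1 - 3 * θ) * |τ|) := by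
      refine hb.1.trans ?_
      have h1 : C * Real.exp (-(1 - 3 * θ) * |τ|) * ∫ y, ‖vel Φ t y‖ ≤
          C * Real.exp (-(1 - 3 * θ) * |τ|) * M :=
        mul_le_mul_of_nonneg_left hMt.1 (by positivity)
      have h2 := Real.exp_pos (-(1 - 3 * θ) * |τ|)
      have h3 : 0 ≤ C * M := by positivity
      nlinarith [mul_nonneg h3 h2.le]
    have e2 : ∫ y, ‖fderiv ℝ (pf ζ' τ (vel Φ t)) y‖ ≤
        (2 * C * M + 1) * Real.exp (12 * θ * |τ|) := by
      refine hb.2.trans ?_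
      have h1 : C * Real.exp (12 * θ * |τ|) * ((∫ y, ‖vel Φ t y‖) + ∫ y, ‖fderiv ℝ (vel Φ t) y‖) ≤
          C * Real.exp (12 * θ * |τ|) * (M + M) :=
        mul_le_mul_of_nonneg_left (add_le_add hMt.1 hMt.2) (by positivity)
      have h2 := Real.exp_pos (12 * θ * |τ|)
      have h3 : 0 ≤ C * M := by positivity
      nlinarith [mul_nonneg h3 h2.le]
    calc (∫ y, ‖pf ζ' τ (vel Φ t) y‖) ^ (1 - σ) *
          (∫ y, ‖fderiv ℝ (pf ζ' τ (vel Φ t)) y‖) ^ σ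
        ≤ ((2 * C * M + 1) * Real.exp (-(1 - 3 * θ) * |τ|)) ^ (1 - σ) *
          ((2 * C * M + 1) * Real.exp (12 * θ * |τ|)) ^ σ := by
          refine mul_le_mul (Real.rpow_le_rpow (by positivity) e1 (by linarith))
            (Real.rpow_le_rpow (by positivity) e2 hσ) (by positivity) (by positivity)
      _ ≤ (2 * C * M + 1) * Real.exp (-(2 / 5 * (1 - σ)) * |τ|) :=
          brel_real σ θ _ _ hσ1 hσ hθ hθσ hD (abs_nonneg _)
      _ ≤ η := hTb _ (by rw [hτa]; linarith)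

end Pool.Agent.H23.ST
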