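import Pool.Agent.H23.ST.ProfP
import Pool.Agent.H23.ST.BlowA
import Pool.Agent.H23.ST.BCost
import Pool.Agent.H23.ST.BRel

/-! # ST-B14: the blow up flow -/

namespace Pool.Agent.H23.ST

open MeasureTheory Set Pool.Agent.H68.VD Pool.Agent.H68.GM Pool.Agent.H6.ST
open scoped ENNReal ContDiff Topology

/-- ST-B14. -/
theorem bUthm : BUthm := by
  intro σ hσ hσ1
  obtain ⟨θ, hθ, hθ1, hθσ⟩ : ∃ θ : ℝ, 0 < θ ∧ θ ≤ 1 / 8 ∧ θ ≤ (1 - σ) / 20 :=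
    ⟨min (1 / 8) ((1 - σ) / 20), lt_min (by norm_num) (by linarith), min_le_left _ _,
      min_le_right _ _⟩
  obtain ⟨s, δ, hδ, hδ1, h, hp, ho, hw, hd⟩ := exists_prof θ hθ
  have h' : Prof s (wP δ) θ := h
  obtain ⟨⟨ζ, hζ⟩, hA⟩ := blow_a s (wP δ) θ h'
  obtain ⟨h0, hadd, hper, -⟩ := hA ζ hζ
  refine ⟨δ, ζ, hδ, hδ1, hζ.smooth, h0, hadd, fun τ x k => hper hp τ x k,
    fun τ lo hi x hx => bcost_box h' hp ho hζ lo hi τ x hx, ?_, ?_⟩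
  · intro B
    exact blow_cost σ hσ hσ1 s δ θ hθ hθ1 hθσ hδ hδ1 h' hp ho ζ hζ B
  · exact blow_rel σ hσ hσ1 s δ θ hθ hθ1 hθσ hδ hδ1 h' hp ho hw hd ζ hζ

end Pool.Agent.H23.ST
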