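import Pool.Agent.H23.ST.Bu2
import Pool.Agent.H23.ST.V0
import Pool.Agent.SFl.Glob

/-! # Project ST (MP_b0bf68), row ST-T2: the backward flow maps the cores into small cores -/

set_option autoImplicit false

namespace Pool.Agent.H23.ST

open MeasureTheory Set Pool.Agent.H68.VD Pool.Agent.H68.GM Pool.Agent.H6.ST
open scoped ENNReal ContDiff Topology

/-! ## the profile -/

private theorem stt2_int {s : ℝ → ℝ} (hp : ∀ t, s (t + 1) = s t) (n : ℤ) (t : ℝ) :
    s (t + n) = s t := by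
  have h1 : Function.Periodic s ((n : ℝ) * 1) := Function.Periodic.int_mul hp n
  rw [mul_one] at h1
  exact h1 t

private theorem stt2_refl {s : ℝ → ℝ} (hp : ∀ t, s (t + 1) = s t) (ho : ∀ t, s (-t) = - s t)
    (y : ℝ) : y * s (1 / 2 + y) = - (|y| * s (1 / 2 - |y|)) := by
  rcases le_total 0 y with h | h
  · rw [abs_of_nonneg h]
    have h1 : s (1 / 2 + y) = s (y - 1 / 2) := by
      rw [← hp (y - 1 / 2)]
      congr 1
      ring
    have h2 : s (y - 1 / 2) = - s (1 / 2 - y) := by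
      rw [← ho]
      congr 1
      ring
    rw [h1, h2]
    ring
  · rw [abs_of_nonpos h]
    have h1 : (1 / 2 : ℝ) - -y = 1 / 2 + y := by ring
    rw [h1]
    ring

private theorem stt2_nonneg {s : ℝ → ℝ} (ρ : ℝ) (ho : ∀ t, s (-t) = - s t)
    (hpos : ∀ t, 0 < t → t < 1 / 2 - ρ / 2 → 0 < s t)
    (hz : ∀ t, 1 / 2 - ρ / 2 ≤ t → t ≤ 1 / 2 → s t = 0) (u : ℝ) (h0 : 0 ≤ u) (h1 : u ≤ 1 / 2) :
    0 ≤ s u := by
  rcases h0.eq_or_lt with h | h
  · have h2 := ho 0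
    rw [neg_zero] at h2
    rw [← h]
    linarith
  · rcases lt_or_ge u (1 / 2 - ρ / 2) with h2 | h2
    · exact (hpos u h h2).le
    · exact (hz u h2 h1).ge

private theorem stt2_sin {s : ℝ → ℝ} (ρ : ℝ) (hp : ∀ t, s (t + 1) = s t)
    (ho : ∀ t, s (-t) = - s t) (hpos : ∀ t, 0 < t → t < 1 / 2 - ρ / 2 → 0 < s t)
    (hz : ∀ t, 1 / 2 - ρ / 2 ≤ t → t ≤ 1 / 2 → s t = 0) (y : ℝ) :
    Real.sin (2 * Real.pi * y) * s (1 / 2 + y) ≤ 0 := by
  have h1 : |y - round y| ≤ 1 / 2 := abs_sub_round y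
  obtain ⟨z, hz0⟩ : ∃ z : ℝ, z = y - round y := ⟨_, rfl⟩
  have hy : y = z + (round y : ℤ) := by rw [hz0]; ring
  rw [← hz0] at h1
  have h2 : Real.sin (2 * Real.pi * y) = Real.sin (2 * Real.pi * z) := by
    have h3 : 2 * Real.pi * y = 2 * Real.pi * z + (round y : ℤ) * (2 * Real.pi) := by
      conv_lhs => rw [hy]
      ring
    rw [h3, Real.sin_add_int_mul_two_pi]
  have h3 : s (1 / 2 + y) = s (1 / 2 + z) := by
    conv_lhs => rw [hy, ← add_assoc]
    exact stt2_int hp _ _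
  rw [h2, h3]
  have hpi := Real.pi_pos
  rw [abs_le] at h1
  rcases le_total 0 z with h | h
  · have h4 : 0 ≤ Real.sin (2 * Real.pi * z) :=
      Real.sin_nonneg_of_nonneg_of_le_pi (by positivity) (by nlinarith)
    have h5 : s (1 / 2 + z) = - s (1 / 2 - z) := by
      rw [← ho, ← hp (-(1 / 2 - z))]
      congr 1
      ring
    have h6 := stt2_nonneg ρ ho hpos hz (1 / 2 - z) (by linarith [h1.2]) (by linarith)
    rw [h5]
    nlinarith
  · have h4 : Real.sin (2 * Real.pi * z) ≤ 0 :=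
      Real.sin_nonpos_of_nonpos_of_neg_pi_le (by nlinarith) (by nlinarith)
    have h6 := stt2_nonneg ρ ho hpos hz (1 / 2 + z) (by linarith [h1.1]) (by linarith)
    nlinarith

/-! ## one coordinate -/

private theorem stt2_in {s : ℝ → ℝ} (ρ : ℝ) (hp : ∀ t, s (t + 1) = s t)
    (ho : ∀ t, s (-t) = - s t) (hpos : ∀ t, 0 < t → t < 1 / 2 - ρ / 2 → 0 < s t)
    (hz : ∀ t, 1 / 2 - ρ / 2 ≤ t → t ≤ 1 / 2 → s t = 0) (y p : ℝ → ℝ)
    (hy : ∀ t, HasDerivAt y (s (1 / 2 + y t) * p t) t) (hp0 : ∀ t, 0 ≤ p t)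
    (h0 : |y 0| < 1 / 2) (t : ℝ) (ht : 0 ≤ t) : |y t| < 1 / 2 := by
  have hpi := Real.pi_pos
  have hU : ∀ r, HasDerivAt (fun r => Real.cos (2 * Real.pi * y r))
      (-Real.sin (2 * Real.pi * y r) * (2 * Real.pi * (s (1 / 2 + y r) * p r))) r := fun r =>
    ((hy r).const_mul (2 * Real.pi)).cos
  have hmono : Monotone (fun r => Real.cos (2 * Real.pi * y r)) := by
    refine monotone_of_deriv_nonneg (fun r => (hU r).differentiableAt) fun r => ?_
    rw [(hU r).deriv]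
    have h1 := stt2_sin ρ hp ho hpos hz (y r)
    have h2 : -Real.sin (2 * Real.pi * y r) * (2 * Real.pi * (s (1 / 2 + y r) * p r)) =
        (2 * Real.pi * p r) * -(Real.sin (2 * Real.pi * y r) * s (1 / 2 + y r)) := by ring
    rw [h2]
    exact mul_nonneg (mul_nonneg (by positivity) (hp0 r)) (by linarith)
  by_contra hcon
  rw [not_lt] at hcon
  have hcont : Continuous y := continuous_iff_continuousAt.mpr fun r => (hy r).continuousAt
  obtain ⟨r, hr, hr2⟩ := intermediate_value_Icc ht (continuous_abs.comp hcont).continuousOn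
    (show (1 / 2 : ℝ) ∈ Icc (|y 0|) (|y t|) from ⟨h0.le, hcon⟩)
  have h1 : Real.cos (2 * Real.pi * y r) = -1 := by
    have h2 : |2 * Real.pi * y r| = Real.pi := by
      have h3 : |y r| = 1 / 2 := hr2
      rw [abs_mul, abs_of_pos (by positivity), h3]
      ring
    rw [← Real.cos_abs, h2, Real.cos_pi]
  have h2 := hmono hr.1
  simp only at h2
  rw [h1] at h2
  have h3 : Real.cos Real.pi < Real.cos (2 * Real.pi * |y 0|) := by
    refine Real.cos_lt_cos_of_nonneg_of_le_pi (by positivity) le_rfl ?_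
    nlinarith
  rw [Real.cos_pi] at h3
  have h4 : Real.cos (2 * Real.pi * y 0) = Real.cos (2 * Real.pi * |y 0|) := by
    rw [← Real.cos_abs, abs_mul, abs_of_pos (by positivity : 0 < 2 * Real.pi)]
  linarith

private theorem stt2_anti {s : ℝ → ℝ} (ρ : ℝ) (hp : ∀ t, s (t + 1) = s t)
    (ho : ∀ t, s (-t) = - s t) (hpos : ∀ t, 0 < t → t < 1 / 2 - ρ / 2 → 0 < s t)
    (hz : ∀ t, 1 / 2 - ρ / 2 ≤ t → t ≤ 1 / 2 → s t = 0) (y p : ℝ → ℝ)
    (hy : ∀ t, HasDerivAt y (s (1 / 2 + y t) * p t) t) (hp0 : ∀ t, 0 ≤ p t)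
    (h0 : |y 0| < 1 / 2) : AntitoneOn (fun t => y t ^ 2) (Ici 0) := by
  have hd : ∀ t, HasDerivAt (fun t => y t ^ 2) (2 * (y t * s (1 / 2 + y t)) * p t) t := by
    intro t
    have h1 := (hy t).fun_pow 2
    exact h1.congr_deriv (by push_cast; ring)
  refine antitoneOn_of_deriv_nonpos (convex_Ici 0)
    (fun t _ => (hd t).continuousAt.continuousWithinAt)
    (fun t _ => (hd t).differentiableAt.differentiableWithinAt) fun t ht => ?_
  rw [interior_Ici, mem_Ioi] at ht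
  rw [(hd t).deriv, stt2_refl hp ho]
  have h1 := stt2_in ρ hp ho hpos hz y p hy hp0 h0 t ht.le
  have h2 := stt2_nonneg ρ ho hpos hz (1 / 2 - |y t|) (by linarith) (by linarith [abs_nonneg (y t)])
  have h3 := mul_nonneg (mul_nonneg (abs_nonneg (y t)) h2) (hp0 t)
  nlinarith

private theorem stt2_small {s : ℝ → ℝ} (ρ : ℝ) (hp : ∀ t, s (t + 1) = s t)
    (ho : ∀ t, s (-t) = - s t) (hpos : ∀ t, 0 < t → t < 1 / 2 - ρ / 2 → 0 < s t)
    (hz : ∀ t, 1 / 2 - ρ / 2 ≤ t → t ≤ 1 / 2 → s t = 0) (y p : ℝ → ℝ)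
    (hy : ∀ t, HasDerivAt y (s (1 / 2 + y t) * p t) t) (hp0 : ∀ t, 0 ≤ p t)
    (θ ρ' m δ T : ℝ) (hθ : 0 < θ) (h0 : |y 0| ≤ 1 / 2 - θ) (hρ' : 0 < ρ') (hm : 0 < m)
    (hms : ∀ u, θ ≤ u → u ≤ 1 / 2 - ρ' → m ≤ s u) (hδ : 0 < δ) (hT : 0 ≤ T)
    (hpδ : ∀ t, T ≤ t → δ ≤ p t) (t : ℝ) (ht : T + 1 / (ρ' * m * δ) ≤ t) : |y t| ≤ ρ' := by
  by_contra hcon
  rw [not_le] at hcon
  have hq : 0 < 1 / (ρ' * m * δ) := by positivity
  have hTt : T ≤ t := by linarith
  have h0' : |y 0| < 1 / 2 := by linarith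
  have hanti := stt2_anti ρ hp ho hpos hz y p hy hp0 h0'
  have hle : ∀ r r', 0 ≤ r → r ≤ r' → |y r'| ≤ |y r| := fun r r' hr hrr => by
    rw [← sq_le_sq]
    exact hanti (mem_Ici.mpr hr) (mem_Ici.mpr (hr.trans hrr)) hrr
  have hd : ∀ t, HasDerivAt (fun t => y t ^ 2 + 2 * (ρ' * m * δ) * t)
      (2 * (y t * s (1 / 2 + y t)) * p t + 2 * (ρ' * m * δ)) t := by
    intro t
    have h1 := ((hy t).fun_pow 2).fun_add ((hasDerivAt_id t).const_mul (2 * (ρ' * m * δ)))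
    exact h1.congr_deriv (by push_cast; ring)
  have h1 : AntitoneOn (fun t => y t ^ 2 + 2 * (ρ' * m * δ) * t) (Icc T t) := by
    refine antitoneOn_of_deriv_nonpos (convex_Icc T t)
      (fun t _ => (hd t).continuousAt.continuousWithinAt)
      (fun t _ => (hd t).differentiableAt.differentiableWithinAt) fun r hr => ?_
    rw [interior_Icc] at hr
    rw [(hd r).deriv, stt2_refl hp ho]
    have h2 : ρ' ≤ |y r| := hcon.le.trans (hle r t (hT.trans hr.1.le) hr.2.le)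
    have h3 : |y r| ≤ 1 / 2 - θ := (hle 0 r le_rfl (hT.trans hr.1.le)).trans h0
    have h4 := hms (1 / 2 - |y r|) (by linarith) (by linarith)
    have h5 := hpδ r hr.1.le
    have h6 : ρ' * m ≤ |y r| * s (1 / 2 - |y r|) :=
      mul_le_mul h2 h4 hm.le (abs_nonneg _)
    have h7 : ρ' * m * δ ≤ |y r| * s (1 / 2 - |y r|) * p r :=
      mul_le_mul h6 h5 hδ.le ((by positivity : 0 ≤ ρ' * m).trans h6)
    nlinarith
  have h2 := h1 (left_mem_Icc.mpr hTt) (right_mem_Icc.mpr hTt) hTt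
  simp only at h2
  have h3 : y T ^ 2 ≤ (1 / 2) ^ 2 := by
    have h4 : |y T| ≤ 1 / 2 := (hle 0 T le_rfl hT).trans h0'.le
    rw [← abs_of_pos (by norm_num : (0 : ℝ) < 1 / 2)] at h4
    exact sq_le_sq.mpr h4
  have h4 : 1 ≤ (ρ' * m * δ) * (t - T) := by
    have h5 : 1 / (ρ' * m * δ) ≤ t - T := by linarith
    rw [div_le_iff₀ (by positivity)] at h5
    linarith
  have h5 : 0 ≤ y t ^ 2 := sq_nonneg _
  nlinarith

theorem blow_core (ρ : ℝ) (hρ : 0 < ρ) (hρ1 : ρ < 1 / 4) (s : ℝ → ℝ) (θ' : ℝ)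
    (h : Prof s (wP (1 / 2 - ρ)) θ') (hp : ∀ t, s (t + 1) = s t) (ho : ∀ t, s (-t) = - s t)
    (hw : ∀ t, |t| ≤ 1 / 2 - ρ → s t = t) (hpos : ∀ t, 0 < t → t < 1 / 2 - ρ / 2 → 0 < s t)
    (hz : ∀ t, 1 / 2 - ρ / 2 ≤ t → t ≤ 1 / 2 → s t = 0)
    (hlt : ∀ t, 1 / 2 - ρ < t → t ≤ 1 / 2 → deriv s t < 1) (ζ : ℝ → Eu 4 → Eu 4)
    (hζ : Blow s ζ) (θ : ℝ) (hθ : 0 < θ) (hθ1 : θ < 1 / 4) :
    (∀ τ ≤ 0, ∀ c : Fin 4 → ℤ, ∀ x ∈ core θ c, ζ (-τ) x ∈ core θ c) ∧
    (∃ τ₀ : ℝ, τ₀ ≤ 0 ∧ ∀ τ ≤ τ₀, ∀ c : Fin 4 → ℤ, ∀ x ∈ core θ c, ∀ k,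
      |ζ (-τ) x k - ((c k : ℝ) + 1 / 2)| < ρ) ∧
    (∀ c : Fin 4 → ℤ, ∀ x : Eu 4, (∀ k, |x k - ((c k : ℝ) + 1 / 2)| ≤ ρ / 2) →
      ∀ τ, ζ τ x = x) := by
  classical
  -- the coordinates
  obtain ⟨Pk, hPk⟩ : ∃ Pk : Eu 4 → Fin 4 → ℝ → ℝ, Pk = fun x k t =>
      ∏ j ∈ Finset.univ.filter (· < k), (1 - deriv s (ζ t x j)) := ⟨_, rfl⟩
  have hPk0 : ∀ x k t, 0 ≤ Pk x k t := by
    intro x k t
    rw [hPk]
    exact Finset.prod_nonneg fun j _ => by linarith [h.le1 (ζ t x j)]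
  have hcoord : ∀ (x : Eu 4) (k : Fin 4) (t : ℝ), HasDerivAt (fun t => ζ t x k)
      (s (ζ t x k) * Pk x k t) t := by
    intro x k t
    have h1 := (EuclideanSpace.proj (𝕜 := ℝ) k).hasFDerivAt.comp_hasDerivAt t (hζ.flow.deriv t x)
    rw [hPk]
    exact h1
  have hy : ∀ (c : Fin 4 → ℤ) (x : Eu 4) (k : Fin 4) (t : ℝ),
      HasDerivAt (fun t => ζ t x k - ((c k : ℝ) + 1 / 2))
        (s (1 / 2 + (ζ t x k - ((c k : ℝ) + 1 / 2))) * Pk x k t) t := by
    intro c x k t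
    have h1 := (hcoord x k t).sub_const ((c k : ℝ) + 1 / 2)
    have h2 : s (1 / 2 + (ζ t x k - ((c k : ℝ) + 1 / 2))) = s (ζ t x k) := by
      rw [← stt2_int hp (c k)]
      congr 1
      ring
    rw [h2]
    exact h1
  have hz0 : ∀ x : Eu 4, ζ 0 x = x := hζ.flow.zero
  have hstart : ∀ (c : Fin 4 → ℤ) (x : Eu 4), x ∈ core θ c → ∀ k,
      |ζ 0 x k - ((c k : ℝ) + 1 / 2)| ≤ 1 / 2 - θ := by
    intro c x hx k
    rw [hz0]
    exact hx k
  refine ⟨?_, ?_, ?_⟩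
  · intro τ hτ c x hx k
    have h1 := stt2_anti ρ hp ho hpos hz _ _ (hy c x k) (hPk0 x k) (by
      linarith [hstart c x hx k]) (mem_Ici.mpr le_rfl) (mem_Ici.mpr (by linarith : (0 : ℝ) ≤ -τ))
      (by linarith)
    simp only at h1
    rw [sq_le_sq] at h1
    exact h1.trans (hstart c x hx k)
  · obtain ⟨ρ', hρ'⟩ : ∃ ρ' : ℝ, ρ' = 3 * ρ / 4 := ⟨_, rfl⟩
    have hρ'0 : 0 < ρ' := by linarith
    -- the speed
    obtain ⟨m, hm, hms⟩ : ∃ m : ℝ, 0 < m ∧ ∀ u, θ ≤ u → u ≤ 1 / 2 - ρ' → m ≤ s u := by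
      obtain ⟨u0, hu0, hmin⟩ := (isCompact_Icc (a := θ) (b := 1 / 2 - ρ')).exists_isMinOn
        ⟨θ, left_mem_Icc.mpr (by linarith)⟩ h.smooth.continuous.continuousOn
      exact ⟨s u0, hpos u0 (by linarith [hu0.1]) (by linarith [hu0.2]), fun u h1 h2 =>
        hmin ⟨h1, h2⟩⟩
    have hds : Continuous (deriv s) := h.smooth.continuous_deriv (by simp)
    obtain ⟨c0, hc0, hc01, hc0s⟩ : ∃ c0 : ℝ, 0 < c0 ∧ c0 ≤ 1 ∧ ∀ u, 1 / 2 - ρ' ≤ u → u ≤ 1 / 2 →
        c0 ≤ 1 - deriv s u := by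
      obtain ⟨u0, hu0, hmin⟩ := (isCompact_Icc (a := 1 / 2 - ρ') (b := 1 / 2)).exists_isMinOn
        ⟨1 / 2, right_mem_Icc.mpr (by linarith)⟩
        (continuous_const.sub hds : Continuous fun u => 1 - deriv s u).continuousOn
      refine ⟨min (1 - deriv s u0) 1, lt_min ?_ one_pos, min_le_right _ _, fun u h1 h2 => ?_⟩
      · have := hlt u0 (by linarith [hu0.1]) hu0.2
        linarith
      · exact (min_le_left _ _).trans (hmin ⟨h1, h2⟩)
    have hdp : ∀ t, deriv s (t + 1) = deriv s t := by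
      intro t
      rw [← deriv_comp_add_const]
      congr 1
      funext r
      exact hp r
    have hde : ∀ t, deriv s (-t) = deriv s t := by
      intro t
      have h1 : s = fun t => - s (-t) := by
        funext r
        rw [ho, neg_neg]
      have h2 : deriv s t = deriv (fun t => - s (-t)) t := congrArg (fun f => deriv f t) h1
      rw [h2, deriv.fun_neg, deriv_comp_neg, neg_neg]
    have hc0y : ∀ y, |y| ≤ ρ' → c0 ≤ 1 - deriv s (1 / 2 + y) := by
      intro y hy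
      have h1 : deriv s (1 / 2 + y) = deriv s (1 / 2 - |y|) := by
        rcases le_total 0 y with h2 | h2
        · rw [abs_of_nonneg h2, ← hde (1 / 2 - y), ← hdp (-(1 / 2 - y))]
          congr 1
          ring
        · rw [abs_of_nonpos h2]
          congr 1
          ring
      rw [h1]
      exact hc0s _ (by linarith) (by linarith [abs_nonneg y])
    have hδ : 0 < c0 ^ 4 := by positivity
    have key : ∀ i : ℕ, ∃ T : ℝ, 0 ≤ T ∧ ∀ t, T ≤ t → ∀ c : Fin 4 → ℤ, ∀ x ∈ core θ c,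
        ∀ j : Fin 4, (j : ℕ) < i → |ζ t x j - ((c j : ℝ) + 1 / 2)| ≤ ρ' := by
      intro i
      induction i with
      | zero => exact ⟨0, le_rfl, fun t _ c x _ j hj => absurd hj (Nat.not_lt_zero _)⟩
      | succ i ih =>
        obtain ⟨T, hT, hTs⟩ := ih
        have hq : 0 < 1 / (ρ' * m * c0 ^ 4) := by positivity
        refine ⟨T + 1 / (ρ' * m * c0 ^ 4), by linarith, fun t ht c x hx j hj => ?_⟩
        by_cases hji : (j : ℕ) < i
        · exact hTs t (by linarith) c x hx j hji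
        · have hji2 : (j : ℕ) = i := by omega
          refine stt2_small ρ hp ho hpos hz _ _ (hy c x j) (hPk0 x j) θ ρ' m (c0 ^ 4) T hθ
            (hstart c x hx j) hρ'0 hm hms hδ hT ?_ t ht
          intro r hr
          have h1 : ∀ l ∈ Finset.univ.filter (· < j), c0 ≤ 1 - deriv s (ζ r x l) := by
            intro l hl
            rw [Finset.mem_filter] at hl
            have h2 := hTs r hr c x hx l (by rw [← hji2]; exact hl.2)
            have h3 := hc0y _ h2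
            have h4 : deriv s (1 / 2 + (ζ r x l - ((c l : ℝ) + 1 / 2))) = deriv s (ζ r x l) := by
              rw [← stt2_int hdp (c l)]
              congr 1
              ring
            rwa [h4] at h3
          rw [hPk]
          show c0 ^ 4 ≤ ∏ l ∈ Finset.univ.filter (· < j), (1 - deriv s (ζ r x l))
          calc c0 ^ 4 ≤ c0 ^ (Finset.univ.filter (· < j)).card := by
                refine pow_le_pow_of_le_one hc0.le hc01 ?_
                exact (Finset.card_filter_le _ _).trans (by simp)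
            _ = ∏ _l ∈ Finset.univ.filter (· < j), c0 := (Finset.prod_const _).symm
            _ ≤ _ := Finset.prod_le_prod (fun _ _ => hc0.le) h1
    obtain ⟨T, hT, hTs⟩ := key 4
    refine ⟨-T, by linarith, fun τ hτ c x hx k => ?_⟩
    have h1 := hTs (-τ) (by linarith) c x hx k k.2
    linarith
  · intro c x hx τ
    have hv : v0 s x = 0 := by
      have h1 : ∀ k, s (x k) = 0 := by
        intro k
        obtain ⟨y, hyk⟩ : ∃ y : ℝ, y = x k - ((c k : ℝ) + 1 / 2) := ⟨_, rfl⟩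
        have h2 : |y| ≤ ρ / 2 := by rw [hyk]; exact hx k
        have h3 : s (x k) = s (1 / 2 + y) := by
          rw [← stt2_int hp (c k) (1 / 2 + y), hyk]
          congr 1
          ring
        rw [h3]
        rcases le_total 0 y with h4 | h4
        · rw [abs_of_nonneg h4] at h2
          have h5 : s (1 / 2 + y) = - s (1 / 2 - y) := by
            rw [← ho, ← hp (-(1 / 2 - y))]
            congr 1
            ring
          rw [h5, hz (1 / 2 - y) (by linarith) (by linarith), neg_zero]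
        · rw [abs_of_nonpos h4] at h2
          exact hz (1 / 2 + y) (by linarith) (by linarith)
      unfold v0
      ext k
      simp [h1 k]
    have hu : ContDiff ℝ ∞ (fun q : ℝ × Eu 4 => v0 s q.2) :=
      (v0_kit s _ _ h).1.comp contDiff_snd
    refine SFl.flow_unique hu (T := |τ| + 1) (γ := fun t => ζ t x) (γ' := fun _ => x) (hz0 x)
      (fun t _ => hζ.flow.deriv t x) (fun t _ => ?_) τ
      ⟨by linarith [neg_abs_le τ], by linarith [le_abs_self τ]⟩
    show HasDerivAt (fun _ => x) (v0 s x) t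
    rw [hv]
    exact hasDerivAt_const t x

end Pool.Agent.H23.ST
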