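import Pool.Agent.H23.ST.Bu2

/-! # ST-T1: a periodic profile with large walls -/

set_option autoImplicit false

namespace Pool.Agent.H23.ST

open MeasureTheory Set Pool.Agent.H68.VD Pool.Agent.H68.GM Pool.Agent.H6.ST
open scoped ENNReal ContDiff Topology

noncomputable section

/-- the profile on one period: `b u = u σ(u) σ(-u)` -/
theorem stt1_b (ρ : ℝ) (hρ : 0 < ρ) (hρ1 : ρ < 1 / 2) : ∃ b : ℝ → ℝ, ContDiff ℝ ∞ b ∧
    (∀ x, b (-x) = - b x) ∧ (∀ x, |x| ≤ 1 / 2 - ρ → b x = x) ∧
    (∀ x, 1 / 2 - ρ / 2 ≤ |x| → b x = 0) ∧ (∀ x, 0 < x → x < 1 / 2 - ρ / 2 → 0 < b x) ∧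
    (∀ x, 0 ≤ x → deriv b x ≤ 1) ∧ (∀ x, 0 ≤ x → x ≤ 1 / 2 - ρ → deriv b x = 1) ∧
    (∀ x, 1 / 2 - ρ < x → deriv b x < 1) ∧ (∀ x, deriv b (-x) = deriv b x) := by
  let σ : ℝ → ℝ := fun u => Real.smoothTransition ((1 / 2 - ρ / 2 - u) / (ρ / 2))
  have hρ2 : 0 < ρ / 2 := by positivity
  have hσsm : ContDiff ℝ ∞ σ :=
    Real.smoothTransition.contDiff.comp
      ((contDiff_const.sub contDiff_id).div_const (ρ / 2))
  have hσanti : Antitone σ := by
    intro x y h
    apply Real.smoothTransition.monotone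
    apply div_le_div_of_nonneg_right _ hρ2.le
    linarith
  have hσ1 : ∀ u, u ≤ 1 / 2 - ρ → σ u = 1 := by
    intro u hu
    apply Real.smoothTransition.one_of_one_le
    rw [le_div_iff₀ hρ2]
    linarith
  have hσ0 : ∀ u, 1 / 2 - ρ / 2 ≤ u → σ u = 0 := by
    intro u hu
    apply Real.smoothTransition.zero_of_nonpos
    apply div_nonpos_of_nonpos_of_nonneg _ hρ2.le
    linarith
  have hσpos : ∀ u, u < 1 / 2 - ρ / 2 → 0 < σ u := by
    intro u hu
    apply Real.smoothTransition.pos_of_pos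
    apply div_pos _ hρ2
    linarith
  have hσlt : ∀ u, 1 / 2 - ρ < u → σ u < 1 := by
    intro u hu
    apply Real.smoothTransition.lt_one_of_lt_one
    rw [div_lt_iff₀ hρ2]
    linarith
  have hσle : ∀ u, σ u ≤ 1 := fun u => Real.smoothTransition.le_one _
  have hσdiff : ∀ u, DifferentiableAt ℝ σ u := fun u =>
    (hσsm.differentiable (by simp)).differentiableAt
  have hσd : ∀ u, deriv σ u ≤ 0 := fun u => hσanti.deriv_nonpos
  have hσd0 : ∀ u, u ≤ 1 / 2 - ρ → deriv σ u = 0 := by
    intro u hu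
    apply IsLocalMax.deriv_eq_zero
    apply Filter.Eventually.of_forall
    intro v
    simp only [hσ1 u hu]
    exact hσle v
  let b : ℝ → ℝ := fun u => u * (σ u * σ (-u))
  have hbsm : ContDiff ℝ ∞ b := contDiff_id.mul (hσsm.mul (hσsm.comp contDiff_neg))
  have hodd : ∀ x, b (-x) = - b x := by
    intro x
    simp only [b, neg_neg]
    ring
  have hb' : ∀ u, 0 ≤ u → b =ᶠ[𝓝 u] fun v => v * σ v := by
    intro u hu
    have h1 : Ioi (-(1 / 2 - ρ)) ∈ 𝓝 u := Ioi_mem_nhds (by linarith)
    filter_upwards [h1] with v hv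
    have h2 : σ (-v) = 1 := hσ1 _ (by have := mem_Ioi.1 hv; linarith)
    simp only [b, h2, mul_one]
  have hbd : ∀ u, 0 ≤ u → deriv b u = σ u + u * deriv σ u := by
    intro u hu
    rw [(hb' u hu).deriv_eq]
    have := (hasDerivAt_id u).mul (hσdiff u).hasDerivAt
    have h2 := this.deriv
    simp only [id, one_mul] at h2
    exact h2
  refine ⟨b, hbsm, hodd, ?_, ?_, ?_, ?_, ?_, ?_, ?_⟩
  · intro x hx
    obtain ⟨h1, h2⟩ := abs_le.1 hx
    simp only [b, hσ1 x h2, hσ1 (-x) (by linarith), mul_one]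
  · intro x hx
    rcases le_abs.1 hx with h | h
    · simp only [b, hσ0 x h, zero_mul, mul_zero]
    · simp only [b, hσ0 (-x) h, mul_zero]
  · intro x h1 h2
    exact mul_pos h1 (mul_pos (hσpos x h2) (hσpos (-x) (by linarith)))
  · intro x hx
    rw [hbd x hx]
    have := mul_nonpos_of_nonneg_of_nonpos hx (hσd x)
    have := hσle x
    linarith
  · intro x hx h1
    rw [hbd x hx, hσ1 x h1, hσd0 x h1]
    ring
  · intro x hx
    have hx0 : 0 ≤ x := by linarith
    rw [hbd x hx0]
    have := mul_nonpos_of_nonneg_of_nonpos hx0 (hσd x)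
    have := hσlt x hx
    linarith
  · intro x
    have h1 : (fun y => b (-y)) = fun y => - b y := funext hodd
    have h2 : deriv (fun y => b (-y)) x = - deriv b (-x) := deriv_comp_neg b x
    have h3 : deriv (fun y => - b y) x = - deriv b x := deriv.fun_neg
    rw [h1, h3] at h2
    linarith

theorem exists_big (ρ : ℝ) (hρ : 0 < ρ) (hρ1 : ρ < 1 / 2) :
    ∃ (s : ℝ → ℝ) (θ : ℝ), 0 < θ ∧ Prof s (wP (1 / 2 - ρ)) θ ∧ (∀ t, s (t + 1) = s t) ∧
      (∀ t, s (-t) = - s t) ∧ (∀ t, |t| ≤ 1 / 2 - ρ → s t = t) ∧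
      (∀ t, 0 < t → t < 1 / 2 - ρ / 2 → 0 < s t) ∧
      (∀ t, 1 / 2 - ρ / 2 ≤ t → t ≤ 1 / 2 → s t = 0) ∧
      (∀ t, 1 / 2 - ρ < t → t ≤ 1 / 2 → deriv s t < 1) := by
  obtain ⟨b, hb, b3, b1, b2, b4, d1, d2, d3, d4⟩ := stt1_b ρ hρ hρ1
  let s : ℝ → ℝ := fun t => b (t - round t)
  have hs : ∀ (t : ℝ) (n : ℤ), |t - n| < 1 / 2 + ρ / 2 → s t = b (t - n) := by
    intro t n h
    by_cases hn : round t = n
    · simp only [s, hn]
    · have h1 : 1 ≤ |(round t : ℝ) - n| := by
        have : (1 : ℤ) ≤ |round t - n| := Int.one_le_abs (sub_ne_zero.2 hn)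
        have h2 : ((1 : ℤ) : ℝ) ≤ ((|round t - n| : ℤ) : ℝ) := by exact_mod_cast this
        rw [Int.cast_abs, Int.cast_sub, Int.cast_one] at h2
        exact h2
      have h2 := abs_sub_round t
      have h3 : |(round t : ℝ) - n| ≤ |t - n| + |t - round t| := by
        have : (round t : ℝ) - n = (t - n) - (t - round t) := by ring
        rw [this]
        exact abs_sub _ _
      have h4 : b (t - round t) = 0 := b2 _ (by linarith)
      have h5 : b (t - n) = 0 := b2 _ (by linarith)
      simp only [s, h4, h5]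
  have hloc : ∀ (t₀ : ℝ) (n : ℤ), |t₀ - n| < 1 / 2 + ρ / 2 → s =ᶠ[𝓝 t₀] fun t => b (t - n) := by
    intro t₀ n hn
    have h1 : {t : ℝ | |t - n| < 1 / 2 + ρ / 2} ∈ 𝓝 t₀ := by
      apply IsOpen.mem_nhds
      · exact isOpen_lt (by fun_prop) continuous_const
      · exact hn
    filter_upwards [h1] with t ht
    exact hs t _ ht
  have hround : ∀ t : ℝ, |t - round t| < 1 / 2 + ρ / 2 := fun t => by
    have := abs_sub_round t
    linarith
  have hsm : ContDiff ℝ ∞ s := by
    rw [contDiff_iff_contDiffAt]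
    intro t₀
    have : ContDiff ℝ ∞ (fun t : ℝ => b (t - round t₀)) :=
      hb.comp (contDiff_id.sub contDiff_const)
    exact this.contDiffAt.congr_of_eventuallyEq (hloc t₀ _ (hround t₀))
  have hder : ∀ (t₀ : ℝ) (n : ℤ), |t₀ - n| < 1 / 2 + ρ / 2 → deriv s t₀ = deriv b (t₀ - n) := by
    intro t₀ n hn
    rw [(hloc t₀ n hn).deriv_eq]
    exact deriv_comp_sub_const b (n : ℝ) t₀
  have hdabs : ∀ x, deriv b x = deriv b |x| := by
    intro x
    rcases le_total 0 x with h | h
    · rw [abs_of_nonneg h]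
    · rw [abs_of_nonpos h, d4]
  have hper : ∀ t, s (t + 1) = s t := by
    intro t
    simp only [s, round_add_one]
    congr 1
    push_cast
    ring
  have hbd : ∀ m : ℕ, ∃ B : ℝ, ∀ t, |iteratedDeriv m s t| ≤ B := by
    intro m
    have hc : Continuous (iteratedDeriv m s) := hsm.continuous_iteratedDeriv m (by exact_mod_cast le_top)
    have hp : Function.Periodic (iteratedDeriv m s) 1 := by
      intro t
      have h1 := iteratedDeriv_comp_add_const m s (1 : ℝ)
      have h2 : (fun z => s (z + 1)) = s := funext hper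
      rw [h2] at h1
      exact (congrFun h1 t).symm
    obtain ⟨C, hC⟩ := (hp.isBounded_of_continuous one_ne_zero hc).exists_norm_le
    exact ⟨C, fun t => by
      have := hC _ (mem_range_self t)
      rwa [Real.norm_eq_abs] at this⟩
  obtain ⟨B, hB⟩ := hbd 1
  refine ⟨s, max B 1, lt_of_lt_of_le one_pos (le_max_right _ _), ⟨hsm, hbd, ?_, ?_, ?_, ?_, ?_⟩,
    hper, ?_, ?_, ?_, ?_, ?_⟩
  · intro t
    rw [hder t _ (hround t), hdabs]
    exact d1 _ (abs_nonneg _)
  · intro t
    have h1 := hB t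
    rw [iteratedDeriv_one] at h1
    have h2 := (abs_le.1 h1).1
    have h3 := le_max_left B 1
    linarith
  · have h1 : Continuous fun t : ℝ => |t - round t| := by
      have : (fun t : ℝ => |t - round t|) = fun t : ℝ => ‖(t : UnitAddCircle)‖ := by
        funext t
        rw [UnitAddCircle.norm_eq]
      rw [this]
      exact continuous_norm.comp (AddCircle.continuous_mk' _)
    exact isClosed_le h1 continuous_const
  · intro t ht
    rw [hder t _ (hround t), hdabs]
    exact d2 _ (abs_nonneg _) ht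
  · intro t ht
    refine ⟨round t, ?_, ?_⟩
    · have := hs (round t : ℝ) (round t) (by simp; linarith)
      rw [this, sub_self]
      exact b1 0 (by simp; linarith)
    · intro x hx
      simp only [wP, mem_ofPred_eq] at ht ⊢
      refine (round_le x (round t)).trans (le_trans ?_ ht)
      exact abs_sub_left_of_mem_uIcc hx
  · intro t
    have h1 := abs_sub_round t
    have h2 := hs (-t) (-round t) (by
      have : (-t) - ((-round t : ℤ) : ℝ) = -(t - round t) := by push_cast; ring
      rw [this, abs_neg]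
      linarith)
    rw [h2]
    have : (-t) - ((-round t : ℤ) : ℝ) = -(t - round t) := by push_cast; ring
    rw [this, b3]
  · intro t ht
    have := hs t 0 (by simp only [Int.cast_zero, sub_zero]; linarith)
    rw [this, Int.cast_zero, sub_zero]
    exact b1 t ht
  · intro t h1 h2
    have := hs t 0 (by
      simp only [Int.cast_zero, sub_zero]
      rw [abs_of_pos h1]
      linarith)
    rw [this, Int.cast_zero, sub_zero]
    exact b4 t h1 h2
  · intro t h1 h2
    have := hs t 0 (by
      simp only [Int.cast_zero, sub_zero]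
      rw [abs_of_nonneg (by linarith)]
      linarith)
    rw [this, Int.cast_zero, sub_zero]
    exact b2 t (by rw [abs_of_nonneg (by linarith)]; exact h1)
  · intro t h1 h2
    have := hder t 0 (by
      simp only [Int.cast_zero, sub_zero]
      rw [abs_of_nonneg (by linarith)]
      linarith)
    rw [this, Int.cast_zero, sub_zero]
    exact d3 t h1

end

end Pool.Agent.H23.ST
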