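import Pool.Agent.H23.ST.Bu2
import Pool.Agent.H23.ST.ProfB
import Pool.Agent.H23.ST.Grow
import Pool.Agent.H23.ST.ConjCF
import Pool.Agent.H23.ST.BlowA

/-! # Project ST (MP_b0bf68), ST-T3: a path rel small balls can be replaced by a path rel cores -/

set_option autoImplicit false
set_option maxHeartbeats 400000

namespace Pool.Agent.H23.ST

open MeasureTheory Set Pool.Agent.H68.VD Pool.Agent.H68.GM Pool.Agent.H6.ST
open scoped ENNReal ContDiff Topology

/-- A point with all coordinates near those of the centre is near the centre. -/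
private theorem stt3_norm {c : Fin 4 → ℤ} {x : Eu 4} {ρ : ℝ}
    (h : ∀ k, |x k - ((c k : ℝ) + 1 / 2)| ≤ ρ) : ‖x - ctr c‖ ≤ 2 * ρ := by
  have hρ : 0 ≤ ρ := le_trans (abs_nonneg _) (h 0)
  rw [EuclideanSpace.norm_eq]
  have h1 : ∀ k : Fin 4, ‖(x - ctr c) k‖ ^ 2 ≤ ρ ^ 2 := by
    intro k
    have h2 : (x - ctr c) k = x k - ((c k : ℝ) + 1 / 2) := rfl
    rw [h2, Real.norm_eq_abs]
    exact pow_le_pow_left₀ (abs_nonneg _) (h k) 2
  have h3 : ∑ k : Fin 4, ‖(x - ctr c) k‖ ^ 2 ≤ (2 * ρ) ^ 2 := by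
    refine le_trans (Finset.sum_le_sum fun k _ => h1 k) ?_
    rw [Finset.sum_const, Finset.card_univ, Fintype.card_fin, nsmul_eq_mul]
    push_cast
    linarith
  calc √(∑ k : Fin 4, ‖(x - ctr c) k‖ ^ 2) ≤ √((2 * ρ) ^ 2) := Real.sqrt_le_sqrt h3
    _ = 2 * ρ := Real.sqrt_sq (by linarith)

/-- Off the walls a point is near the centre of a cell. -/
private theorem stt3_off {ρ : ℝ} {x : Eu 4} (h : x ∉ Wl (wP (1 / 2 - ρ))) :
    ∃ c : Fin 4 → ℤ, ∀ k, |x k - ((c k : ℝ) + 1 / 2)| < ρ := by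
  have h1 : ∀ k, 1 / 2 - ρ < |x k - round (x k)| := by
    intro k
    by_contra h2
    rw [not_lt] at h2
    exact h ⟨k, h2⟩
  have h2 : ∀ k, ∃ m : ℤ, |x k - ((m : ℝ) + 1 / 2)| < ρ := by
    intro k
    have h3 := h1 k
    have h4 := abs_sub_round (x k)
    rcases le_or_gt 0 (x k - round (x k)) with h5 | h5
    · refine ⟨round (x k), ?_⟩
      rw [abs_of_nonneg h5] at h3 h4
      rw [abs_lt]
      constructor <;> linarith
    · refine ⟨round (x k) - 1, ?_⟩
      rw [abs_of_neg h5] at h3 h4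
      push_cast
      rw [abs_lt]
      constructor <;> linarith
  choose c hc using h2
  exact ⟨c, hc⟩

/-- The small cubes are open. -/
private theorem stt3_open (c : Fin 4 → ℤ) (ρ : ℝ) :
    IsOpen {x : Eu 4 | ∀ k, |x k - ((c k : ℝ) + 1 / 2)| < ρ} := by
  have h : {x : Eu 4 | ∀ k, |x k - ((c k : ℝ) + 1 / 2)| < ρ} =
      ⋂ k : Fin 4, {x : Eu 4 | |x k - ((c k : ℝ) + 1 / 2)| < ρ} := by
    ext x
    simp
  rw [h]
  refine isOpen_iInter_of_finite fun k => ?_
  refine isOpen_lt ?_ continuous_const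
  fun_prop

/-- A small cube of a cell which is not in the big cube is off the big cube. -/
private theorem stt3_out {L : ℕ} {c : Fin 4 → ℤ} (hc : ¬ BigCell L c) {ρ : ℝ} (hρ : ρ < 1 / 2)
    {x : Eu 4} (h : ∀ k, |x k - ((c k : ℝ) + 1 / 2)| < ρ) : x ∉ bigC L := by
  intro hx
  apply hc
  intro k
  have h1 := abs_lt.1 (h k)
  have h2 := hx k
  constructor
  · by_contra h3
    rw [not_le] at h3
    have h4 : c k ≤ -1 := by omega
    have h5 : (c k : ℝ) ≤ -1 := by exact_mod_cast h4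
    linarith [h2.1]
  · by_contra h3
    rw [not_lt] at h3
    have h5 : (NN L : ℝ) ≤ (c k : ℝ) := by exact_mod_cast h3
    linarith [h2.2]

theorem tLthm : TLthm := by
  intro θ hθ hθ1 L w Φ r hΦ hr hball hcore
  set ρ : ℝ := min (r / 2) (1 / 8) with hρdef
  have hρ0 : 0 < ρ := lt_min (by linarith) (by norm_num)
  have hρ8 : ρ ≤ 1 / 8 := min_le_right _ _
  have hρr : 2 * ρ ≤ r := by
    have := min_le_left (r / 2) (1 / 8 : ℝ)
    linarith
  obtain ⟨s, θ', hθ', hs, hper, hodd, hid, hpos, hzero, hlt⟩ :=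
    exists_big ρ hρ0 (by linarith)
  obtain ⟨⟨ζ, hζ⟩, hall⟩ := blow_a s _ θ' hs
  obtain ⟨hz0, hadd, _, hface, _, _⟩ := hall ζ hζ
  obtain ⟨hcc, ⟨τ₀, hτ₀, hsm⟩, _⟩ := blow_core ρ hρ0 (by linarith) s θ' hs hper hodd hid hpos
    hzero hlt ζ hζ θ hθ hθ1
  -- the profile vanishes at the integers
  have hs0 : s 0 = 0 := by
    have h1 := hodd 0
    rw [neg_zero] at h1
    linarith
  have hsN : ∀ m : ℕ, s (m : ℝ) = 0 := by
    intro m
    induction m with
    | zero => simpa using hs0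
    | succ m ih =>
      push_cast
      rw [hper, ih]
  have hinv : ∀ τ x, ζ τ (ζ (-τ) x) = x := by
    intro τ x
    rw [← hadd, add_neg_cancel, hz0]
  have hbox : ∀ τ, ∀ x ∈ bigC L, ζ τ x ∈ bigC L := by
    intro τ x hx k
    have h1 := hx k
    constructor
    · exact (hface 0 hs0 τ x k).2.2 h1.1
    · exact (hface (NN L : ℝ) (hsN _) τ x k).2.1 h1.2
  -- the maps of the path are compatible with the walls
  obtain ⟨K, hK, hKU, hKx⟩ := hΦ.fam.supp
  have hnear : ∀ t, ∀ x ∉ Wl (wP (1 / 2 - ρ)), Φ t =ᶠ[𝓝 x] fun y => y := by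
    intro t x hx
    obtain ⟨c, hc⟩ := stt3_off hx
    by_cases hb : BigCell L c
    · have h1 : {y : Eu 4 | ∀ k, |y k - ((c k : ℝ) + 1 / 2)| < ρ} ∈ 𝓝 x :=
        (stt3_open c ρ).mem_nhds hc
      filter_upwards [h1] with y hy
      exact hball t c hb y (le_trans (stt3_norm fun k => (hy k).le) hρr)
    · have h1 : x ∉ K := fun h2 => stt3_out hb (by linarith) hc (hKU h2)
      have h2 : Kᶜ ∈ 𝓝 x := hK.isClosed.isOpen_compl.mem_nhds h1
      filter_upwards [h2] with y hy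
      exact hKx t y hy
  have hcmp : ∀ t, Cmp s (wP (1 / 2 - ρ)) (Φ t) := by
    intro t
    constructor
    · intro x hx
      refine ⟨0, Or.inl rfl, ?_⟩
      have h1 : (iv (0 : Fin 4 → ℤ) : Eu 4) = 0 := by
        ext k
        simp [iv]
      simpa [h1] using hnear t x hx
    · intro x hx
      by_contra h1
      have h2 : Φ t (Φ t x) = Φ t x := (hnear t _ h1).eq_of_nhds
      have h3 : Φ t x = x := (hΦ.fam.bij t).injective h2
      rw [h3] at h1
      exact h1 hx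
  -- the two steps
  set α : ℝ → ℝ := fun t => Real.smoothTransition (2 * t) with hα
  set β : ℝ → ℝ := fun t => Real.smoothTransition (2 * t - 1) with hβ
  have hαs : ContDiff ℝ ∞ α := Real.smoothTransition.contDiff.comp (contDiff_const.mul contDiff_id)
  have hβs : ContDiff ℝ ∞ β :=
    Real.smoothTransition.contDiff.comp ((contDiff_const.mul contDiff_id).sub contDiff_const)
  have hα0 : ∀ t ≤ 0, α t = 0 := fun t ht =>
    Real.smoothTransition.zero_of_nonpos (by linarith)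
  have hα1 : ∀ t, 1 / 2 ≤ t → α t = 1 := fun t ht =>
    Real.smoothTransition.one_of_one_le (by linarith)
  have hβ0 : ∀ t ≤ 1 / 2, β t = 0 := fun t ht =>
    Real.smoothTransition.zero_of_nonpos (by linarith)
  have hβ1 : ∀ t, 1 ≤ t → β t = 1 := fun t ht =>
    Real.smoothTransition.one_of_one_le (by linarith)
  have hβn : ∀ t, 0 ≤ β t := fun t => Real.smoothTransition.nonneg _
  have hβl : ∀ t, β t ≤ 1 := fun t => Real.smoothTransition.le_one _
  have hfam : CF (bigC L) (fun t : ℝ => Φ (α t)) := by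
    refine ⟨?_, fun t => hΦ.fam.bij _, fun t x => hΦ.fam.det _ _, K, hK, hKU, fun t => hKx _⟩
    exact hΦ.fam.smooth.comp ((hαs.comp contDiff_fst).prodMk contDiff_snd)
  have hτs : ContDiff ℝ ∞ (fun t : ℝ => τ₀ * (1 - β t)) :=
    contDiff_const.mul (contDiff_const.sub hβs)
  have hres := conj_cf s _ θ' hs ζ hζ (bigC L) hbox ℝ (fun t : ℝ => Φ (α t)) hfam
    (fun t => hcmp _) (fun t => τ₀ * (1 - β t)) hτs τ₀ (by
      intro t
      have h1 := hβn t
      have h2 := hβl t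
      constructor <;> nlinarith)
  refine ⟨fun t => Th ζ (τ₀ * (1 - β t)) (Φ (α t)), ⟨hres, ?_, ?_⟩, ?_⟩
  · intro t ht x
    change ζ (τ₀ * (1 - β t)) (Φ (α t) (ζ (-(τ₀ * (1 - β t))) x)) = x
    rw [hα0 t ht, hΦ.le0 0 le_rfl, hinv]
  · intro t ht x
    change ζ (τ₀ * (1 - β t)) (Φ (α t) (ζ (-(τ₀ * (1 - β t))) x)) = w x
    rw [hα1 t (by linarith), hβ1 t ht, sub_self, mul_zero, neg_zero, hz0, hz0,
      hΦ.ge1 1 le_rfl]
  · intro t c hc x hx
    change ζ (τ₀ * (1 - β t)) (Φ (α t) (ζ (-(τ₀ * (1 - β t))) x)) = x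
    rcases le_total t (1 / 2) with ht | ht
    · rw [hβ0 t ht, sub_zero, mul_one]
      have h1 := hsm τ₀ le_rfl c x hx
      rw [hball (α t) c hc (ζ (-τ₀) x) (le_trans (stt3_norm fun k => (h1 k).le) hρr), hinv]
    · rw [hα1 t ht, hΦ.ge1 1 le_rfl]
      have h1 : τ₀ * (1 - β t) ≤ 0 := by
        have h2 := hβl t
        nlinarith
      rw [hcore c hc _ (hcc _ h1 c x hx), hinv]

end Pool.Agent.H23.ST
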