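import Pool.Agent.H23.ST.Bu2
import Pool.Agent.H23.ST.ProfB
import Pool.Agent.H23.ST.Grow
import Pool.Agent.H23.ST.ConjCF
import Pool.Agent.H23.ST.BlowA
import Pool.Agent.H23.ST.CrW
import Pool.Agent.H23.ST.CfK

/-! # Project ST (MP_b0bf68), ST-T4: from a map which is rigid near the centres to a map which is
rigid on the cores -/

set_option autoImplicit false
set_option maxHeartbeats 400000

namespace Pool.Agent.H23.ST

open MeasureTheory Set Pool.Agent.H68.VD Pool.Agent.H68.GM Pool.Agent.H6.ST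
open scoped ENNReal ContDiff Topology

/-- A point with all coordinates near those of the centre is near the centre. -/
private theorem stt4_norm {c : Fin 4 → ℤ} {x : Eu 4} {ρ : ℝ}
    (h : ∀ k, |x k - ((c k : ℝ) + 1 / 2)| ≤ ρ) : ‖x - ctr c‖ ≤ 2 * ρ := by
  have hρ : 0 ≤ ρ := le_trans (abs_nonneg _) (h 0)
  rw [EuclideanSpace.norm_eq]
  have h1 : ∀ k : Fin 4, ‖(x - ctr c) k‖ ^ 2 ≤ ρ ^ 2 := by
    intro k
    have h2 : (x - ctr c) k = x k - ((c k : ℝ) + 1 / 2) := rfl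
    rw [h2, Real.norm_eq_abs]
    exact pow_le_pow_left₀ (abs_nonneg _) (h k) 2
  have h3 : ∑ k : Fin 4, ‖(x - ctr c) k‖ ^ 2 ≤ (2 * ρ) ^ 2 := by
    refine le_trans (Finset.sum_le_sum fun k _ => h1 k) ?_
    rw [Finset.sum_const, Finset.card_univ, Fintype.card_fin, nsmul_eq_mul]
    push_cast
    linarith
  calc √(∑ k : Fin 4, ‖(x - ctr c) k‖ ^ 2) ≤ √((2 * ρ) ^ 2) := Real.sqrt_le_sqrt h3
    _ = 2 * ρ := Real.sqrt_sq (by linarith)

/-- The small cubes are open. -/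
private theorem stt4_open (c : Fin 4 → ℤ) (ρ : ℝ) :
    IsOpen {x : Eu 4 | ∀ k, |x k - ((c k : ℝ) + 1 / 2)| < ρ} := by
  have h : {x : Eu 4 | ∀ k, |x k - ((c k : ℝ) + 1 / 2)| < ρ} =
      ⋂ k : Fin 4, {x : Eu 4 | |x k - ((c k : ℝ) + 1 / 2)| < ρ} := by
    ext x
    simp
  rw [h]
  refine isOpen_iInter_of_finite fun k => ?_
  refine isOpen_lt ?_ continuous_const
  fun_prop

/-- The derivative of a map which is a translation near the point. -/
private theorem stt4_deriv {f : Eu 4 → Eu 4} {x v : Eu 4} (h : f =ᶠ[𝓝 x] fun y => y + v) :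
    fderiv ℝ f x = ContinuousLinearMap.id ℝ (Eu 4) := by
  rw [h.fderiv_eq]
  have h1 : HasFDerivAt (fun y : Eu 4 => y + v) (ContinuousLinearMap.id ℝ (Eu 4)) x :=
    (hasFDerivAt_id x).add_const v
  exact h1.fderiv

/-- ST-T4 (file GrowP.lean): from a map which is rigid near the centres to a map which is rigid on the
cores. -/
theorem grow_path (θ : ℝ) (hθ : 0 < θ) (hθ1 : θ < 1 / 4) (lo hi : Fin 4 → ℤ) (F₀ : Eu 4 → Eu 4)
    (Φ₀ : ℝ → Eu 4 → Eu 4) (h : CPath (ibox lo hi) F₀ Φ₀) (r : ℝ) (hr : 0 < r)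
    (k : (Fin 4 → ℤ) → (Fin 4 → ℤ)) (hk : ∀ c, ∀ x, ‖x - ctr c‖ ≤ r → F₀ x = x + iv (k c)) :
    ∃ (F : Eu 4 → Eu 4) (Φ : ℝ → Eu 4 → Eu 4), CPath (ibox lo hi) F Φ ∧
      (∀ c, ∀ x ∈ core θ c, F x = x + iv (k c)) ∧
      ∀ c H₀, Contr (fun t => fderiv ℝ (Φ₀ t) (ctr c)) H₀ →
        ∃ H, Contr (fun t => fderiv ℝ (Φ t) (ctr c)) H := by
  set ρ : ℝ := min (r / 2) (1 / 8) with hρdef
  have hρ0 : 0 < ρ := lt_min (by linarith) (by norm_num)
  have hρ8 : ρ ≤ 1 / 8 := min_le_right _ _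
  have hρr : 2 * ρ ≤ r := by
    have := min_le_left (r / 2) (1 / 8 : ℝ)
    linarith
  obtain ⟨s, θ', hθ', hs, hper, hodd, hid, hpos, hzero, hlt⟩ :=
    exists_big ρ hρ0 (by linarith)
  obtain ⟨⟨ζ, hζ⟩, hall⟩ := blow_a s _ θ' hs
  obtain ⟨hz0, hadd, hzper, hface, _, _⟩ := hall ζ hζ
  obtain ⟨hcc, ⟨τ₀, hτ₀, hsm⟩, hfix⟩ := blow_core ρ hρ0 (by linarith) s θ' hs hper hodd hid hpos
    hzero hlt ζ hζ θ hθ hθ1
  have hF0 : ∀ x, Φ₀ 1 x = F₀ x := h.ge1 1 le_rfl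
  have hΦ1 : Φ₀ 1 = F₀ := funext hF0
  have hbij : Function.Bijective F₀ := hΦ1 ▸ h.fam.bij 1
  have hsmooth : ContDiff ℝ ∞ F₀ := by
    rw [← hΦ1]
    exact h.fam.smooth.comp (contDiff_const.prodMk contDiff_id)
  have hdet : ∀ x, (fderiv ℝ F₀ x).det = 1 := by
    intro x
    rw [← hΦ1]
    exact h.fam.det 1 x
  obtain ⟨K, hK, hKU, hKx⟩ := h.fam.supp
  have hKF : ∀ x ∉ K, F₀ x = x := by
    intro x hx
    rw [← hF0]
    exact hKx 1 x hx
  -- `F₀` moves the small cubes by integer vectors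
  have hcr : CR (1 / 2 - ρ) (ibox lo hi) F₀ := by
    refine ⟨hsmooth, hbij, hdet, ⟨K, hK, hKU, hKF⟩, fun c => ⟨k c, fun x hx => hk c x ?_⟩⟩
    refine le_trans (stt4_norm fun j => ?_) hρr
    have h1 := hx j
    linarith
  have hcmp : Cmp s (wP (1 / 2 - ρ)) F₀ :=
    (cr_walls (1 / 2 - ρ) (by linarith) (by linarith) _ F₀ hcr s hper).1
  -- the profile vanishes at the integers
  have hs0 : s 0 = 0 := by
    have h1 := hodd 0
    rw [neg_zero] at h1
    linarith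
  have hsN : ∀ m : ℕ, s (m : ℝ) = 0 := by
    intro m
    induction m with
    | zero => simpa using hs0
    | succ m ih =>
      push_cast
      rw [hper, ih]
  have hsZ : ∀ m : ℤ, s (m : ℝ) = 0 := by
    intro m
    obtain ⟨a, rfl | rfl⟩ := m.eq_nat_or_neg
    · simpa using hsN a
    · push_cast
      rw [hodd, hsN, neg_zero]
  have hinv : ∀ τ x, ζ τ (ζ (-τ) x) = x := by
    intro τ x
    rw [← hadd, add_neg_cancel, hz0]
  have hbox : ∀ τ, ∀ x ∈ ibox lo hi, ζ τ x ∈ ibox lo hi := by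
    intro τ x hx j
    have h1 := hx j
    constructor
    · exact (hface (lo j : ℝ) (hsZ _) τ x j).2.2 h1.1
    · exact (hface (hi j : ℝ) (hsZ _) τ x j).2.1 h1.2
  -- the two steps
  set α : ℝ → ℝ := fun t => Real.smoothTransition (2 * t) with hα
  set β : ℝ → ℝ := fun t => Real.smoothTransition (2 * t - 1) with hβ
  have hαs : ContDiff ℝ ∞ α := Real.smoothTransition.contDiff.comp (contDiff_const.mul contDiff_id)
  have hβs : ContDiff ℝ ∞ β :=
    Real.smoothTransition.contDiff.comp ((contDiff_const.mul contDiff_id).sub contDiff_const)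
  have hα0 : ∀ t ≤ 0, α t = 0 := fun t ht =>
    Real.smoothTransition.zero_of_nonpos (by linarith)
  have hα1 : ∀ t, 1 / 2 ≤ t → α t = 1 := fun t ht =>
    Real.smoothTransition.one_of_one_le (by linarith)
  have hβ0 : ∀ t ≤ 1 / 2, β t = 0 := fun t ht =>
    Real.smoothTransition.zero_of_nonpos (by linarith)
  have hβ1 : ∀ t, 1 ≤ t → β t = 1 := fun t ht =>
    Real.smoothTransition.one_of_one_le (by linarith)
  have hβn : ∀ t, 0 ≤ β t := fun t => Real.smoothTransition.nonneg _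
  have hβl : ∀ t, β t ≤ 1 := fun t => Real.smoothTransition.le_one _
  have hleft : ∀ x, Function.invFun F₀ (F₀ x) = x := Function.leftInverse_invFun hbij.1
  have hright : ∀ x, F₀ (Function.invFun F₀ x) = x := Function.rightInverse_invFun hbij.2
  have hfam1 : CF (ibox lo hi) (fun t : ℝ => Φ₀ (α t)) :=
    cfKit.2.2.1 4 _ ℝ ℝ Φ₀ α h.fam hαs
  have hfam2 : CF (ibox lo hi) (fun _ : ℝ => F₀) := by
    refine ⟨hsmooth.comp contDiff_snd, fun _ => hbij, fun _ => hdet, K, hK, hKU, fun _ => hKF⟩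
  have hfam3 : CF (ibox lo hi) (fun _ : ℝ => Function.invFun F₀) :=
    cfKit.2.1 4 _ ℝ (fun _ : ℝ => F₀) hfam2
  have hτs : ContDiff ℝ ∞ (fun t : ℝ => τ₀ * β t) := contDiff_const.mul hβs
  have hfam4 : CF (ibox lo hi) (fun t : ℝ => Th ζ (τ₀ * β t) F₀) :=
    conj_cf s _ θ' hs ζ hζ (ibox lo hi) hbox ℝ (fun _ : ℝ => F₀) hfam2
    (fun _ => hcmp) (fun t => τ₀ * β t) hτs τ₀ (by
      intro t
      have h1 := hβn t
      have h2 := hβl t
      constructor <;> nlinarith)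
  have hfam5 := cfKit.1 4 _ ℝ _ _ hfam3 hfam1
  have hfam6 := cfKit.1 4 _ ℝ _ _ hfam4 hfam5
  have hTh0 : ∀ x, Th ζ 0 F₀ x = F₀ x := by
    intro x
    rw [Th, neg_zero, hz0, hz0]
  -- the conjugates are translations near the centres
  have hnear : ∀ τ c, Th ζ τ F₀ =ᶠ[𝓝 (ctr c)] fun y => y + iv (k c) := by
    intro τ c
    have h1 : {y : Eu 4 | ∀ j, |y j - ((c j : ℝ) + 1 / 2)| < ρ / 2} ∈ 𝓝 (ctr c) := by
      refine (stt4_open c (ρ / 2)).mem_nhds fun j => ?_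
      have h2 : (ctr c) j - ((c j : ℝ) + 1 / 2) = 0 := by
        change (c j : ℝ) + 1 / 2 - ((c j : ℝ) + 1 / 2) = 0
        ring
      rw [h2, abs_zero]
      linarith
    filter_upwards [h1] with y hy
    rw [Th, hfix c y (fun j => (hy j).le) (-τ), hk c y (le_trans
      (stt4_norm fun j => le_trans (hy j).le (by linarith)) hρr), hzper hper,
      hfix c y (fun j => (hy j).le) τ]
  have hder : ∀ t c, fderiv ℝ (fun x => Th ζ (τ₀ * β t) F₀ (Function.invFun F₀ (Φ₀ (α t) x)))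
      (ctr c) = fderiv ℝ (Φ₀ (α t)) (ctr c) := by
    intro t c
    rcases le_total t (1 / 2) with ht | ht
    · congr 1
      funext x
      rw [hβ0 t ht, mul_zero, hTh0, hright]
    · have h1 : (fun x => Th ζ (τ₀ * β t) F₀ (Function.invFun F₀ (Φ₀ (α t) x))) =
          Th ζ (τ₀ * β t) F₀ := by
        funext x
        rw [hα1 t ht, hF0, hleft]
      have h2 : Φ₀ (α t) = Th ζ 0 F₀ := by
        funext x
        rw [hα1 t ht, hF0, hTh0]
      rw [h1, h2, stt4_deriv (hnear _ c), stt4_deriv (hnear _ c)]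
  refine ⟨Th ζ τ₀ F₀, fun t x => Th ζ (τ₀ * β t) F₀ (Function.invFun F₀ (Φ₀ (α t) x)),
    ⟨hfam6, ?_, ?_⟩, ?_, ?_⟩
  · intro t ht x
    change Th ζ (τ₀ * β t) F₀ (Function.invFun F₀ (Φ₀ (α t) x)) = x
    rw [hβ0 t (by linarith), mul_zero, hTh0, hright, hα0 t ht, h.le0 0 le_rfl]
  · intro t ht x
    change Th ζ (τ₀ * β t) F₀ (Function.invFun F₀ (Φ₀ (α t) x)) = Th ζ τ₀ F₀ x
    rw [hβ1 t ht, mul_one, hα1 t (by linarith), hF0, hleft]
  · intro c x hx
    have h1 := hsm τ₀ le_rfl c x hx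
    rw [Th, hk c _ (le_trans (stt4_norm fun j => (h1 j).le) hρr), hzper hper, hinv]
  · intro c H₀ hH
    refine ⟨fun u t => H₀ u (α t), ?_, fun u t => hH.det u _, fun u hu t => ?_,
      fun u hu t => hH.u1 u hu _, fun u t ht => ?_, fun u t ht => ?_⟩
    · exact hH.smooth.comp (contDiff_fst.prodMk (hαs.comp contDiff_snd))
    · rw [hH.u0 u hu (α t)]
      exact (hder t c).symm
    · rw [hα0 t ht]
      exact hH.t0 u 0 le_rfl
    · rw [hα1 t (by linarith)]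
      exact hH.t1 u 1 le_rfl

end Pool.Agent.H23.ST
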