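import Pool.Agent.H23.ST.TinyS
import Pool.Agent.H23.ST.GrowP

/-! # ST-X2: the swap of two adjacent cells -/

namespace Pool.Agent.H23.ST

open MeasureTheory Set Pool.Agent.H68.VD Pool.Agent.H68.GM Pool.Agent.H6.ST
open scoped ENNReal ContDiff Topology

theorem x2_iv0 : (iv (0 : Fin 4 → ℤ) : Eu 4) = 0 := by
  ext i; simp [iv]

theorem x2_ivs (k : Fin 4) : (iv (Pi.single k 1) : Eu 4) = ev k := by
  ext i
  rcases eq_or_ne i k with h | h
  · subst h; simp [iv, ev]
  · simp [iv, ev, h]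

theorem x2_ivn (k : Fin 4) : (iv (-(Pi.single k 1 : Fin 4 → ℤ)) : Eu 4) = - ev k := by
  ext i
  rcases eq_or_ne i k with h | h
  · subst h; simp [iv, ev]
  · simp [iv, ev, h]

theorem x2_coord (x y : Eu 4) (m : Fin 4) : |x m - y m| ≤ ‖x - y‖ := by
  have h := PiLp.norm_apply_le (x - y) m
  simpa [Real.norm_eq_abs] using h

theorem x2_open {n : ℕ} (a b : Fin n → ℝ) : IsOpen (obox a b) := by
  have h : obox a b = ⋂ k, {x : Eu n | a k < x k ∧ x k < b k} := by
    ext x; simp [obox]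
  rw [h]
  refine isOpen_iInter_of_finite fun k => ?_
  have hc : Continuous fun x : Eu n => x k := (EuclideanSpace.proj (𝕜 := ℝ) k).continuous
  exact (isOpen_lt continuous_const hc).inter (isOpen_lt hc continuous_const)

/-- a map which is the identity off a compact set has bounded derivatives -/
theorem x2_bd (F : Eu 4 → Eu 4) (hF : ContDiff ℝ ∞ F) (K : Set (Eu 4)) (hK : IsCompact K)
    (h : ∀ x ∉ K, F x = x) :
    ∃ B : ℝ, ∀ x, ‖fderiv ℝ F x‖ ≤ B ∧ ‖fderiv ℝ (fderiv ℝ F) x‖ ≤ B := by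
  have h1 : Continuous fun x => ‖fderiv ℝ F x‖ :=
    (hF.continuous_fderiv (by simp)).norm
  have hF2 : ContDiff ℝ ∞ (fderiv ℝ F) := hF.fderiv_right (by simp)
  have h2 : Continuous fun x => ‖fderiv ℝ (fderiv ℝ F) x‖ :=
    (hF2.continuous_fderiv (by simp)).norm
  obtain ⟨B1, hB1⟩ := (hK.image h1).bddAbove
  obtain ⟨B2, hB2⟩ := (hK.image h2).bddAbove
  refine ⟨max (max B1 B2) 1, fun x => ?_⟩
  by_cases hx : x ∈ K
  · exact ⟨le_trans (hB1 ⟨x, hx, rfl⟩) (le_trans (le_max_left _ _) (le_max_left _ _)),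
      le_trans (hB2 ⟨x, hx, rfl⟩) (le_trans (le_max_right _ _) (le_max_left _ _))⟩
  · have hU : Kᶜ ∈ 𝓝 x := hK.isClosed.isOpen_compl.mem_nhds hx
    have hev : ∀ y ∉ K, fderiv ℝ F y = ContinuousLinearMap.id ℝ (Eu 4) := by
      intro y hy
      have hUy : Kᶜ ∈ 𝓝 y := hK.isClosed.isOpen_compl.mem_nhds hy
      have : F =ᶠ[𝓝 y] fun z => z := by
        filter_upwards [hUy] with z hz
        exact h z hz
      rw [this.fderiv_eq]
      exact fderiv_id'
    have h3 : fderiv ℝ F =ᶠ[𝓝 x] fun _ => ContinuousLinearMap.id ℝ (Eu 4) := by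
      filter_upwards [hU] with z hz
      exact hev z hz
    constructor
    · rw [hev x hx]
      exact le_trans ContinuousLinearMap.norm_id_le (le_max_right _ _)
    · have h4 : fderiv ℝ (fderiv ℝ F) x = 0 := by
        rw [h3.fderiv_eq]
        exact fderiv_const_apply _
      rw [h4]
      exact le_trans (le_of_eq ContinuousLinearMap.opNorm_zero)
        (le_trans zero_le_one (le_max_right _ _))

theorem x2thm (FK : FKit) : X2thm := by
  intro s θ ζ hs hs1 hB k
  classical
  set hi : Fin 4 → ℤ := fun m => if m = k then 2 else 1 with hhi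
  obtain ⟨F₀, Φ₀, r, hr, hP, h0, h1, hfr⟩ := tiny_swap k
  set k' : (Fin 4 → ℤ) → (Fin 4 → ℤ) := fun c =>
    if c = (fun _ => 0) then Pi.single k 1 else
      if c = Pi.single k 1 then -Pi.single k 1 else 0 with hk'
  have hne : (Pi.single k 1 : Fin 4 → ℤ) ≠ fun _ => 0 := by
    intro h
    have := congrFun h k
    simp at this
  have hk0 : k' (fun _ => 0) = Pi.single k 1 := by simp [hk']
  have hk1 : k' (Pi.single k 1) = -Pi.single k 1 := by
    show (if (Pi.single k 1 : Fin 4 → ℤ) = (fun _ => 0) then (Pi.single k 1 : Fin 4 → ℤ) else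
      if (Pi.single k 1 : Fin 4 → ℤ) = Pi.single k 1 then -Pi.single k 1 else 0) = _
    rw [if_neg hne, if_pos rfl]
  obtain ⟨K, hK, hKU, hKs⟩ := hP.fam.supp
  have hid : ∀ x ∉ ibox (fun _ => 0) hi, F₀ x = x := by
    intro x hx
    rw [← hP.ge1 1 le_rfl x]
    exact hKs 1 x fun h => hx (hKU h)
  have hkk : ∀ c, ∀ x, ‖x - ctr c‖ ≤ min r (1 / 4) → F₀ x = x + iv (k' c) := by
    intro c x hx
    by_cases hc0 : c = fun _ => 0
    · rw [hc0, hk0, x2_ivs]
      rw [hc0] at hx
      exact h0 x (le_trans hx (min_le_left _ _))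
    by_cases hc1 : c = Pi.single k 1
    · rw [hc1, hk1, x2_ivn, ← sub_eq_add_neg]
      rw [hc1] at hx
      exact h1 x (le_trans hx (min_le_left _ _))
    have hkc : k' c = 0 := by
      simp only [hk']
      rw [if_neg hc0, if_neg hc1]
    rw [hkc, x2_iv0, add_zero]
    refine hid x fun hxU => ?_
    have hb : ∀ m, (0 : ℝ) < x m ∧ x m < (hi m : ℝ) := by
      intro m
      have := hxU m
      simpa using this
    have hcm : ∀ m, |x m - ((c m : ℝ) + 1 / 2)| ≤ 1 / 4 := by
      intro m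
      have h2 := x2_coord x (ctr c) m
      have h3 : (ctr c : Eu 4) m = (c m : ℝ) + 1 / 2 := rfl
      rw [h3] at h2
      exact le_trans h2 (le_trans hx (min_le_right _ _))
    have hge : ∀ m, 0 ≤ c m := by
      intro m
      have h2 := (abs_le.mp (hcm m)).2
      have h3 := (hb m).1
      have h4 : (-1 : ℝ) < c m := by linarith
      have h5 : (-1 : ℤ) < c m := by exact_mod_cast h4
      omega
    have hlt : ∀ m, c m < hi m := by
      intro m
      have h2 := (abs_le.mp (hcm m)).1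
      have h3 := (hb m).2
      have h4 : (c m : ℝ) < hi m := by linarith
      exact_mod_cast h4
    have hz : ∀ m, m ≠ k → c m = 0 := by
      intro m hm
      have h2 := hge m
      have h3 := hlt m
      rw [hhi] at h3
      simp only [hm, if_false] at h3
      omega
    have hck : c k = 0 ∨ c k = 1 := by
      have h2 := hge k
      have h3 := hlt k
      rw [hhi] at h3
      simp only [if_true] at h3
      omega
    rcases hck with h2 | h2
    · apply hc0
      funext m
      by_cases hm : m = k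
      · rw [hm]; exact h2
      · exact hz m hm
    · apply hc1
      funext m
      by_cases hm : m = k
      · rw [hm, h2]; simp
      · rw [hz m hm]; simp [hm]
  obtain ⟨F, Φ, hFP, hcore, hHH⟩ := grow_path θ hB.pos hB.lt (fun _ => 0) hi F₀ Φ₀ hP
    (min r (1 / 4)) (lt_min hr (by norm_num)) k' hkk
  have hF1 : F = Φ 1 := funext fun x => (hFP.ge1 1 le_rfl x).symm
  obtain ⟨K', hK', hKU', hKs'⟩ := hFP.fam.supp
  have hFs : ContDiff ℝ ∞ F := by
    rw [hF1]
    exact hFP.fam.smooth.comp (contDiff_const.prodMk contDiff_id)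
  have hFb : Function.Bijective F := by
    rw [hF1]; exact hFP.fam.bij 1
  have hFK : ∀ x ∉ K', F x = x := by
    intro x hx
    rw [hF1]; exact hKs' 1 x hx
  have hCR : CR θ (ibox (fun _ => 0) hi) F := by
    refine ⟨hFs, hFb, fun x => ?_, ⟨K', hK', hKU', hFK⟩, fun c => ⟨k' c, hcore c⟩⟩
    rw [hF1]; exact hFP.fam.det 1 x
  obtain ⟨B, hBd⟩ := x2_bd F hFs K' hK' hFK
  obtain ⟨C1, hC1, hcost⟩ := hB.cost B
  obtain ⟨C2, hC2, hfin⟩ := FK.fin 4 s (ibox (fun _ => 0) hi) F Φ hs hs1 (x2_open _ _) hFP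
  have hlh : ∀ m, (0 : ℤ) ≤ hi m := by
    intro m
    rw [hhi]
    dsimp only
    split <;> norm_num
  refine ⟨F, Φ, C1 * ∏ m, ((hi m : ℝ) - ((0 : ℤ) : ℝ)) + C2, hFP, ?_, ?_, ?_, ?_, ?_⟩
  · intro x hx
    rw [hcore _ x hx, hk0, x2_ivs]
  · intro x hx
    rw [hcore _ x hx, hk1, x2_ivn, sub_eq_add_neg]
  · intro c
    obtain ⟨H₀, hH₀⟩ := hfr c
    exact hHH c H₀ hH₀
  · refine add_nonneg (mul_nonneg hC1 (Finset.prod_nonneg fun m _ => ?_)) hC2
    have := hlh m
    have h2 : ((0 : ℤ) : ℝ) ≤ hi m := by exact_mod_cast this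
    linarith
  · intro τ hτ
    have h2 := hcost (fun _ => 0) hi F hlh hCR hBd τ hτ
    have h3 := FK.comp 4 s (ibox (fun _ => 0) hi) _ F _ C2 hs hs1 h2 hfin
    have h4 : (fun x => (fun x => Pool.Agent.H6.ST.Th ζ τ F (Function.invFun F x)) (F x)) =
        Pool.Agent.H6.ST.Th ζ τ F := by
      funext x
      show Pool.Agent.H6.ST.Th ζ τ F (Function.invFun F (F x)) = _
      rw [Function.leftInverse_invFun hFb.1 x]
    rw [h4] at h3
    exact h3

end Pool.Agent.H23.ST
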