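import Pool.Agent.H23.ST.GEs
import Pool.Agent.H23.ST.TLthm
import Pool.Agent.H23.ST.X2thm
import Pool.Agent.H23.ST.BCthm
import Pool.Agent.H23.ST.BUthm

/-! # The results of this folder

The names are `gE1 : GE1`, `gE2 : GE2`, `tLthm : TLthm`, `bUthm : BUthm`, `x2thm (FK : FKit) : X2thm`
and `bCthm (FK : FKit) : BCthm`. -/

namespace Pool.Agent.H23.ST.All

open Pool.Agent.H6.ST

theorem gE1 : GE1 := Pool.Agent.H23.ST.gE1

theorem gE2 : GE2 := Pool.Agent.H23.ST.gE2

theorem tLthm : TLthm := Pool.Agent.H23.ST.tLthm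

theorem bUthm : BUthm := Pool.Agent.H23.ST.bUthm

theorem x2thm (FK : FKit) : X2thm := Pool.Agent.H23.ST.x2thm FK

theorem bCthm (FK : FKit) : BCthm := Pool.Agent.H23.ST.bCthm FK

end Pool.Agent.H23.ST.All
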