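import Pool.Agent.H23.ST.Geo2

/-! # Project ST (MP_b0bf68), row ST-G1: an angle function -/

set_option autoImplicit false

namespace Pool.Agent.H23.ST

open MeasureTheory Set Pool.Agent.H68.VD Pool.Agent.H68.GM
open scoped ENNReal ContDiff Topology

theorem exists_angFn : ∃ g : ℝ → ℝ, AngFn g := by
  have hpi := Real.pi_pos
  have hs : ContDiff ℝ ∞ (fun b : ℝ => (b - Real.pi / 8) / (Real.pi / 4)) :=
    (contDiff_id.sub contDiff_const).div_const _
  have ht : ContDiff ℝ ∞ Real.smoothTransition := Real.smoothTransition.contDiff
  have hm : Monotone (fun b : ℝ => Real.pi / 2 *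
      Real.smoothTransition ((b - Real.pi / 8) / (Real.pi / 4))) := by
    intro x y hxy
    refine mul_le_mul_of_nonneg_left (Real.smoothTransition.monotone ?_) (by positivity)
    exact div_le_div_of_nonneg_right (by linarith) (by positivity)
  have hc : ContDiff ℝ ∞ (fun b : ℝ => Real.pi / 2 *
      Real.smoothTransition ((b - Real.pi / 8) / (Real.pi / 4))) :=
    contDiff_const.mul (ht.comp hs)
  refine ⟨fun b => b + Real.pi / 2 *
    Real.smoothTransition ((b - Real.pi / 8) / (Real.pi / 4)), ?_, ?_, ?_, ?_⟩
  · exact contDiff_id.add hc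
  · intro b
    have h1 : DifferentiableAt ℝ (fun b : ℝ => Real.pi / 2 *
        Real.smoothTransition ((b - Real.pi / 8) / (Real.pi / 4))) b :=
      (hc.differentiable (by simp)).differentiableAt
    have h2 : HasDerivAt (fun b : ℝ => b + Real.pi / 2 *
        Real.smoothTransition ((b - Real.pi / 8) / (Real.pi / 4)))
        (1 + deriv (fun b : ℝ => Real.pi / 2 *
          Real.smoothTransition ((b - Real.pi / 8) / (Real.pi / 4))) b) b :=
      (hasDerivAt_id b).add h1.hasDerivAt
    rw [h2.deriv]
    have h3 : 0 ≤ deriv (fun b : ℝ => Real.pi / 2 *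
          Real.smoothTransition ((b - Real.pi / 8) / (Real.pi / 4))) b := hm.deriv_nonneg
    linarith
  · intro b hb
    have h1 : Real.smoothTransition ((b - Real.pi / 8) / (Real.pi / 4)) = 0 := by
      apply Real.smoothTransition.zero_of_nonpos
      exact div_nonpos_of_nonpos_of_nonneg (by linarith) (by positivity)
    show b + Real.pi / 2 * Real.smoothTransition ((b - Real.pi / 8) / (Real.pi / 4)) = b
    rw [h1, mul_zero, add_zero]
  · intro b hb
    have h1 : Real.smoothTransition ((b - Real.pi / 8) / (Real.pi / 4)) = 1 := by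
      apply Real.smoothTransition.one_of_one_le
      rw [one_le_div (by positivity)]
      linarith
    show b + Real.pi / 2 * Real.smoothTransition ((b - Real.pi / 8) / (Real.pi / 4)) =
      b + Real.pi / 2
    rw [h1, mul_one]

end Pool.Agent.H23.ST
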