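import Pool.Agent.H23.ST.Geo2

/-! # Row ST-G5: the two charts of the sphere -/

namespace Pool.Agent.H23.ST

open MeasureTheory Set Pool.Agent.H68.VD Pool.Agent.H68.GM
open scoped ENNReal ContDiff Topology

private theorem atl_isOpen_Bx (r : ℝ) : IsOpen (Bx r) :=
  (isOpen_lt Complex.continuous_re.abs continuous_const).inter
    (isOpen_lt Complex.continuous_im.abs continuous_const)

private theorem atl_ball_sub (r : ℝ) : Metric.ball (0 : ℂ) r ⊆ Bx r := by
  intro w hw
  rw [mem_ball_zero_iff] at hw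
  exact ⟨(Complex.abs_re_le_norm w).trans_lt hw, (Complex.abs_im_le_norm w).trans_lt hw⟩

private theorem atl_Bx_sub (r : ℝ) : Bx (r / 2) ⊆ Metric.ball (0 : ℂ) r := by
  intro w hw
  rw [mem_ball_zero_iff]
  have h1 : |w.re| < r / 2 := hw.1
  have h2 : |w.im| < r / 2 := hw.2
  have h3 := Complex.norm_le_abs_re_add_abs_im w
  linarith

private theorem atl_Bx_zero {ρ : ℝ} (hρ : 0 < ρ) : (0 : ℂ) ∈ Bx ρ := by
  simp [Bx, hρ]

/-- the open square is not compact -/
private theorem atl_not_compact : ¬ IsCompact Sq := by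
  intro h
  have hc : IsClopen Sq := ⟨h.isClosed, isOpen_Sq⟩
  rcases isClopen_iff.1 hc with h0 | h1
  · have : (⟨1 / 2, 1 / 2⟩ : ℂ) ∈ Sq := by
      refine ⟨?_, ?_, ?_, ?_⟩ <;> norm_num
    rw [h0] at this
    exact this
  · have : (0 : ℂ) ∈ Sq := by rw [h1]; exact mem_univ _
    exact lt_irrefl _ this.1

private theorem atl_punct (r : ℝ) : IsPreconnected (Metric.ball (0 : ℂ) r \ {0}) := by
  have h : Metric.ball (0 : ℂ) r \ {0} =
      (fun p : ℝ × ℝ => (p.1 : ℂ) * Complex.exp ((p.2 : ℂ) * Complex.I)) '' (Ioo 0 r ×ˢ univ) := by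
    ext w
    constructor
    · rintro ⟨hw, hw0⟩
      rw [mem_ball_zero_iff] at hw
      refine ⟨(‖w‖, w.arg), ⟨⟨norm_pos_iff.2 hw0, hw⟩, mem_univ _⟩, ?_⟩
      exact Complex.norm_mul_exp_arg_mul_I w
    · rintro ⟨⟨t, θ⟩, ⟨⟨h1, h2⟩, -⟩, rfl⟩
      have h1' : 0 < t := h1
      have h2' : t < r := h2
      refine ⟨?_, ?_⟩
      · rw [mem_ball_zero_iff]
        simp only [norm_mul, Complex.norm_exp_ofReal_mul_I, mul_one, Complex.norm_real,
          Real.norm_eq_abs, abs_of_pos h1']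
        exact h2'
      · simp only [mem_singleton_iff, mul_eq_zero, Complex.ofReal_eq_zero, Complex.exp_ne_zero,
          or_false]
        exact h1'.ne'
  rw [h]
  refine (isPreconnected_Ioo.prod isPreconnected_univ).image _ ?_
  fun_prop

/-- near the point at infinity of the chart there are no points of a given compact set -/
private theorem atl_away {V : Set ℂ} {y z : ℂ → ℂ} {ρ C : ℝ} (h : EndChart V y z ρ C)
    {K : Set ℂ} (hK : IsCompact K) (hKS : K ⊆ Sq) :
    ∃ r : ℝ, 0 < r ∧ r ≤ ρ ∧ ∀ w ∈ Metric.ball (0 : ℂ) r, w ≠ 0 → z w ∉ K := by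
  have hCρ := h.proper ρ h.hρ le_rfl
  set C0 : Set ℂ := {a | a ∈ Sq ∧ (a ∈ V → y a ∉ Bx ρ)} with hC0
  have hC0S : C0 ⊆ Sq := fun a ha => ha.1
  have hC0V : ∀ a ∈ Sq, a ∉ C0 → a ∈ V := by
    intro a ha hn
    by_contra hV
    exact hn ⟨ha, fun h' => absurd h' hV⟩
  obtain ⟨K2, hK2, hK2a, hK2b⟩ := exists_compact_between (hCρ.union hK) isOpen_Sq
    (union_subset hC0S hKS)
  have hfr : IsCompact (frontier K2) := hK2.of_isClosed_subset isClosed_frontier
    hK2.isClosed.frontier_subset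
  have hfrV : frontier K2 ⊆ V := by
    intro a ha
    refine hC0V a (hK2b (hK2.isClosed.frontier_subset ha)) ?_
    intro hc
    exact ha.2 (hK2a (Or.inl hc))
  have hy : ContinuousOn y V := h.smy.continuousOn
  obtain ⟨δ, hδ, hδb⟩ : ∃ δ : ℝ, 0 < δ ∧ ∀ a ∈ frontier K2, δ ≤ ‖y a‖ := by
    by_cases hne : (frontier K2).Nonempty
    · obtain ⟨a0, ha0, hmin⟩ := hfr.exists_isMinOn hne (hy.mono hfrV).norm
      exact ⟨‖y a0‖, norm_pos_iff.2 (h.maps a0 (hfrV ha0)).2, fun a ha => hmin ha⟩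
    · exact ⟨1, one_pos, fun a ha => absurd ⟨a, ha⟩ hne⟩
  refine ⟨min δ ρ, lt_min hδ h.hρ, min_le_right _ _, ?_⟩
  set r := min δ ρ with hr
  have hr0 : 0 < r := lt_min hδ h.hρ
  have hrρ : r ≤ ρ := min_le_right _ _
  have hsub : Metric.ball (0 : ℂ) r \ {0} ⊆ Bx ρ \ {0} := by
    rintro w ⟨hw, hw0⟩
    exact ⟨atl_ball_sub ρ (Metric.ball_subset_ball hrρ hw), hw0⟩
  have hconn : IsPreconnected (z '' (Metric.ball (0 : ℂ) r \ {0})) :=
    (atl_punct r).image _ (h.smz.continuousOn.mono hsub)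
  have hdisj : ∀ a ∈ z '' (Metric.ball (0 : ℂ) r \ {0}), a ∉ frontier K2 := by
    rintro a ⟨w, hw, rfl⟩ ha
    have h1 := hδb _ ha
    rw [h.right w (hsub hw).1 hw.2] at h1
    have h2 := hw.1
    rw [mem_ball_zero_iff] at h2
    exact absurd (h2.trans_le (min_le_left _ _)) (not_lt.2 h1)
  -- a point of the image outside of K2
  have hC2 := h.proper (r / 2) (by positivity) (by linarith)
  obtain ⟨a, haS, haU⟩ : ∃ a ∈ Sq, a ∉ {a | a ∈ Sq ∧ (a ∈ V → y a ∉ Bx (r / 2))} ∪ K2 := by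
    by_contra hcon
    push Not at hcon
    apply atl_not_compact
    have : Sq = {a | a ∈ Sq ∧ (a ∈ V → y a ∉ Bx (r / 2))} ∪ K2 :=
      Subset.antisymm hcon (union_subset (fun a ha => ha.1) hK2b)
    rw [this]
    exact hC2.union hK2
  have haV : a ∈ V ∧ y a ∈ Bx (r / 2) := by
    by_contra hcon
    apply haU
    left
    refine ⟨haS, fun hv hb => hcon ⟨hv, hb⟩⟩
  have haI : a ∈ z '' (Metric.ball (0 : ℂ) r \ {0}) :=
    ⟨y a, ⟨atl_Bx_sub r haV.2, (h.maps a haV.1).2⟩, h.left a haV.1⟩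
  have haK : a ∉ K2 := fun hh => haU (Or.inr hh)
  intro w hw hw0 hzK
  have hzI : z w ∈ z '' (Metric.ball (0 : ℂ) r \ {0}) := ⟨w, ⟨hw, hw0⟩, rfl⟩
  have hint : z w ∈ interior K2 := hK2a (Or.inr hzK)
  have hcov : z '' (Metric.ball (0 : ℂ) r \ {0}) ⊆ interior K2 ∪ K2ᶜ := by
    intro b hb
    by_cases hbK : b ∈ K2
    · left
      by_contra hbi
      refine hdisj b hb ⟨subset_closure hbK, hbi⟩
    · exact Or.inr hbK
  obtain ⟨b, hb, hb1, hb2⟩ := hconn _ _ isOpen_interior hK2.isClosed.isOpen_compl hcov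
    ⟨_, hzI, hint⟩ ⟨a, haI, haK⟩
  exact hb2 (interior_subset hb1)

/-- ST-G5 -/
theorem atl2 (V : Set ℂ) (y z : ℂ → ℂ) (ρ C : ℝ) (h : EndChart V y z ρ C) :
    ∃ c : Fin 2 → OpenPartialHomeomorph S2 ℂ, Atl2 c V y ρ := by
  classical
  have hne : Nonempty Sq := ⟨⟨⟨1 / 2, 1 / 2⟩, by refine ⟨?_, ?_, ?_, ?_⟩ <;> norm_num⟩⟩
  let e1 : OpenPartialHomeomorph Sq S2 :=
    (OnePoint.isOpenEmbedding_coe (X := Sq)).toOpenPartialHomeomorph _
  let e2 : OpenPartialHomeomorph Sq ℂ :=
    (isOpen_Sq.isOpenEmbedding_subtypeVal).toOpenPartialHomeomorph _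
  let c0 : OpenPartialHomeomorph S2 ℂ := e1.symm.trans e2
  let iz : ℂ → S2 := fun w => if hw : w ∈ Bx ρ ∧ w ≠ 0 then
    ((⟨z w, h.sub (h.mapz w hw.1 hw.2)⟩ : Sq) : S2) else OnePoint.infty
  have hiz : ∀ w (h1 : w ∈ Bx ρ) (h2 : w ≠ 0), iz w =
      ((⟨z w, h.sub (h.mapz w h1 h2)⟩ : Sq) : S2) := by
    intro w h1 h2
    exact dif_pos ⟨h1, h2⟩
  have hiz0 : iz 0 = OnePoint.infty := dif_neg (fun hh => hh.2 rfl)
  let fy : S2 → ℂ := fun x => OnePoint.elim x 0 (fun a => y (a : ℂ))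
  have hfy : ∀ a : Sq, fy (a : S2) = y a := fun a => rfl
  have hfy0 : fy OnePoint.infty = 0 := rfl
  let src : Set S2 := {x | x = OnePoint.infty ∨ ∃ a : Sq, (a : ℂ) ∈ V ∧ (a : S2) = x}
  have hsrc : ∀ a : Sq, (a : S2) ∈ src ↔ (a : ℂ) ∈ V := by
    intro a
    constructor
    · rintro (h1 | ⟨b, hb, hab⟩)
      · exact absurd h1 (OnePoint.coe_ne_infty a)
      · rw [OnePoint.coe_eq_coe] at hab
        rw [← hab]
        exact hb
    · intro ha
      exact Or.inr ⟨a, ha, rfl⟩
  have hsrc0 : OnePoint.infty ∈ src := Or.inl rfl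
  have hcpt : ∀ r : ℝ, 0 < r → r ≤ ρ →
      IsCompact {a : Sq | (a : ℂ) ∈ V → y a ∉ Bx r} := by
    intro r h0 h1
    rw [Subtype.isCompact_iff]
    have : ((↑) : Sq → ℂ) '' {a : Sq | (a : ℂ) ∈ V → y a ∉ Bx r} =
        {a | a ∈ Sq ∧ (a ∈ V → y a ∉ Bx r)} := by
      ext a
      constructor
      · rintro ⟨b, hb, rfl⟩
        exact ⟨b.2, hb⟩
      · rintro ⟨ha, hb⟩
        exact ⟨⟨a, ha⟩, hb, rfl⟩
    rw [this]
    exact h.proper r h0 h1
  have hsopen : IsOpen src := by
    rw [OnePoint.isOpen_iff_of_mem' hsrc0]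
    have h1 : ((↑) : Sq → S2) ⁻¹' src = ((↑) : Sq → ℂ) ⁻¹' V := by
      ext a
      exact hsrc a
    rw [h1]
    refine ⟨?_, h.hV.preimage continuous_subtype_val⟩
    have h2 : (((↑) : Sq → ℂ) ⁻¹' V)ᶜ = {a : Sq | (a : ℂ) ∈ V → y a ∉ Bx ρ} := by
      ext a
      constructor
      · intro ha hv
        exact absurd hv ha
      · intro ha hv
        exact ha hv (h.maps a hv).1
    rw [h2]
    exact hcpt ρ h.hρ le_rfl
  let c1 : OpenPartialHomeomorph S2 ℂ :=
    { toFun := fy
      invFun := iz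
      source := src
      target := Bx ρ
      map_source' := by
        rintro x (rfl | ⟨a, ha, rfl⟩)
        · rw [hfy0]
          exact atl_Bx_zero h.hρ
        · rw [hfy]
          exact (h.maps a ha).1
      map_target' := by
        intro w hw
        by_cases hw0 : w = 0
        · rw [hw0, hiz0]
          exact hsrc0
        · rw [hiz w hw hw0, hsrc]
          exact h.mapz w hw hw0
      left_inv' := by
        rintro x (rfl | ⟨a, ha, rfl⟩)
        · rw [hfy0, hiz0]
        · rw [hfy, hiz _ (h.maps a ha).1 (h.maps a ha).2, OnePoint.coe_eq_coe]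
          exact Subtype.ext (h.left a ha)
      right_inv' := by
        intro w hw
        by_cases hw0 : w = 0
        · rw [hw0, hiz0, hfy0]
        · rw [hiz w hw hw0, hfy]
          exact h.right w hw hw0
      open_source := hsopen
      open_target := atl_isOpen_Bx ρ
      continuousOn_toFun := by
        rintro x (rfl | ⟨a, ha, rfl⟩)
        · refine ContinuousAt.continuousWithinAt ?_
          rw [OnePoint.continuousAt_infty, hfy0]
          intro N hN
          obtain ⟨ε, hε, hεN⟩ := Metric.mem_nhds_iff.1 hN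
          have hm : 0 < min (ε / 2) ρ := lt_min (by positivity) h.hρ
          refine ⟨{a : Sq | (a : ℂ) ∈ V → y a ∉ Bx (min (ε / 2) ρ)},
            (hcpt _ hm (min_le_right _ _)).isClosed, hcpt _ hm (min_le_right _ _), ?_⟩
          intro a hcon
          apply hεN
          have hv : (a : ℂ) ∈ V ∧ y a ∈ Bx (min (ε / 2) ρ) := by
            by_contra hh
            exact hcon (fun hv hb => hh ⟨hv, hb⟩)
          apply atl_Bx_sub ε
          exact ⟨hv.2.1.trans_le (min_le_left _ _), hv.2.2.trans_le (min_le_left _ _)⟩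
        · refine ContinuousAt.continuousWithinAt ?_
          rw [OnePoint.continuousAt_coe]
          have h1 : ContinuousAt y (a : ℂ) := h.smy.continuousOn.continuousAt (h.hV.mem_nhds ha)
          exact h1.comp continuous_subtype_val.continuousAt
      continuousOn_invFun := by
        intro w hw
        refine ContinuousAt.continuousWithinAt ?_
        by_cases hw0 : w = 0
        · rw [hw0]
          intro N hN
          rw [hiz0] at hN
          obtain ⟨K, ⟨hKc, hK⟩, hKN⟩ := (OnePoint.hasBasis_nhds_infty (X := Sq)).mem_iff.1 hN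
          have hK' : IsCompact (((↑) : Sq → ℂ) '' K) := Subtype.isCompact_iff.1 hK
          have hKS : ((↑) : Sq → ℂ) '' K ⊆ Sq := by
            rintro _ ⟨a, _, rfl⟩
            exact a.2
          obtain ⟨r, hr, hrρ, hrK⟩ := atl_away h hK' hKS
          rw [Filter.mem_map]
          refine Filter.mem_of_superset (Metric.ball_mem_nhds (0 : ℂ) hr) ?_
          intro v hv
          rw [mem_preimage]
          apply hKN
          by_cases hv0 : v = 0
          · right
            rw [hv0, hiz0]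
            exact mem_singleton _
          · left
            have hvρ : v ∈ Bx ρ := atl_ball_sub ρ (Metric.ball_subset_ball hrρ hv)
            rw [hiz v hvρ hv0]
            refine ⟨_, ?_, rfl⟩
            intro hmem
            exact hrK v hv hv0 ⟨_, hmem, rfl⟩
        · have hopen : IsOpen (Bx ρ \ {(0 : ℂ)}) := (atl_isOpen_Bx ρ).sdiff isClosed_singleton
          have hmem : w ∈ Bx ρ \ {(0 : ℂ)} := ⟨hw, hw0⟩
          have hzc : ContinuousAt z w := h.smz.continuousOn.continuousAt (hopen.mem_nhds hmem)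
          have hev : ∀ᶠ v in 𝓝 w, v ∈ Bx ρ \ {(0 : ℂ)} := hopen.mem_nhds hmem
          intro N hN
          rw [hiz w hw hw0, OnePoint.nhds_coe_eq, Filter.mem_map, nhds_subtype_eq_comap,
            Filter.mem_comap] at hN
          obtain ⟨t, ht, htN⟩ := hN
          rw [Filter.mem_map]
          filter_upwards [hev, hzc ht] with v hv hvt
          rw [mem_preimage, hiz v hv.1 hv.2]
          exact htN hvt }
  refine ⟨![c0, c1], ?_, ?_, ?_, ?_, ?_, ?_, ?_, ?_⟩
  · change c0.source = _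
    rw [OpenPartialHomeomorph.trans_source]
    simp [e1, e2]
  · change c0.target = _
    rw [OpenPartialHomeomorph.trans_target]
    simp [e1, e2]
  · intro a
    change e2 (e1.symm (e1 a)) = a
    rw [e1.left_inv (by simp [e1])]
    rfl
  · rfl
  · exact hsrc
  · intro a _
    rfl
  · exact hsrc0
  · rfl

end Pool.Agent.H23.ST
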