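import Pool.Agent.H68.GM.S
import Pool.Agent.SFl.Defs

/-! # The blow up flow of the lattice: definitions -/

namespace Pool.Agent.H23.ST

open MeasureTheory Set Pool.Agent.H68.VD Pool.Agent.H68.GM
open scoped ENNReal ContDiff Topology

noncomputable section

/-- The field `v⁰` of the profile `s`: `v_k = s(x_k) ∏_{j<k} (1 - s'(x_j))`. -/
def v0 (s : ℝ → ℝ) (x : Eu 4) : Eu 4 :=
  WithLp.toLp 2 (fun k => s (x k) * ∏ j ∈ Finset.univ.filter (· < k), (1 - deriv s (x j)))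

/-- The profile `s` with the walls `w`. -/
structure Prof (s : ℝ → ℝ) (w : Set ℝ) (θ : ℝ) : Prop where
  smooth : ContDiff ℝ ∞ s
  bd : ∀ m : ℕ, ∃ B : ℝ, ∀ t, |iteratedDeriv m s t| ≤ B
  le1 : ∀ t, deriv s t ≤ 1
  ge : ∀ t, -θ ≤ deriv s t
  closed : IsClosed w
  wall : ∀ t ∈ w, deriv s t = 1
  back : ∀ t ∈ w, ∃ t₀, s t₀ = 0 ∧ uIcc t₀ t ⊆ w

/-- The walls of the space. -/
def Wl (w : Set ℝ) : Set (Eu 4) := {x | ∃ k, x k ∈ w}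

/-- `ζ` is the flow of `v⁰`. -/
structure Blow (s : ℝ → ℝ) (ζ : ℝ → Eu 4 → Eu 4) : Prop where
  flow : SFl.IsFlow (fun q : ℝ × Eu 4 => v0 s q.2) ζ
  smooth : ContDiff ℝ ∞ (fun q : ℝ × Eu 4 => ζ q.1 q.2)

/-- The field `(ζ_τ)_* z`. -/
def pf (ζ : ℝ → Eu 4 → Eu 4) (τ : ℝ) (z : Eu 4 → Eu 4) (y : Eu 4) : Eu 4 :=
  fderiv ℝ (ζ τ) (ζ (-τ) y) (z (ζ (-τ) y))

/-- The conjugate `Θ_τ F = ζ_τ ∘ F ∘ ζ_(-τ)`. -/
def Th (ζ : ℝ → Eu 4 → Eu 4) (τ : ℝ) (F : Eu 4 → Eu 4) (y : Eu 4) : Eu 4 := ζ τ (F (ζ (-τ) y))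

end

end Pool.Agent.H23.ST
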