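import Pool.Agent.H6.ST.St
import Pool.Agent.H23.ST.Bu

/-! # Definitions for the rows on conjugation by the blow up flow -/

namespace Pool.Agent.H23.ST

open MeasureTheory Set Pool.Agent.H68.VD Pool.Agent.H68.GM Pool.Agent.H6.ST
open scoped ENNReal ContDiff Topology

noncomputable section

/-- The closed walls of the core parameter `θ`. -/
def wP (θ : ℝ) : Set ℝ := {t | |t - round t| ≤ θ}

/-- `F` is compatible with the profile `s` and the walls `w`: near each point outside of the walls it is
an integer translation (the identity, if `s` is not periodic), and it maps the walls into the walls. -/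
structure Cmp (s : ℝ → ℝ) (w : Set ℝ) (F : Eu 4 → Eu 4) : Prop where
  off : ∀ x ∉ Wl w, ∃ k : Fin 4 → ℤ, (k = 0 ∨ ∀ t, s (t + 1) = s t) ∧ F =ᶠ[𝓝 x] fun y => y + iv k
  on : ∀ x ∈ Wl w, F x ∈ Wl w

/-- The field `v⁰ - F_* v⁰`. -/
def zF (s : ℝ → ℝ) (F : Eu 4 → Eu 4) (y : Eu 4) : Eu 4 :=
  v0 s y - fderiv ℝ F (Function.invFun F y) (v0 s (Function.invFun F y))

end

end Pool.Agent.H23.ST
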