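import Pool.Agent.H23.ST.Geo2

/-! # Row ST-G2: the corner map -/

namespace Pool.Agent.H23.ST

open MeasureTheory Set Pool.Agent.H68.VD Pool.Agent.H68.GM
open scoped ENNReal ContDiff Topology

/-! ### the angular factor -/

/-- the angular factor -/
noncomputable def stg2_F (g : ℝ → ℝ) (b : ℝ) : ℂ :=
  (((√(deriv g b))⁻¹ : ℝ) : ℂ) * Complex.exp (((g b - b : ℝ) : ℂ) * Complex.I)

theorem stg2_cor (g : ℝ → ℝ) (z : ℂ) : cor g z = z * stg2_F g z.arg := by
  have h := Complex.norm_mul_exp_arg_mul_I z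
  have e : Complex.exp (((g z.arg : ℝ) : ℂ) * Complex.I) =
      Complex.exp ((z.arg : ℂ) * Complex.I) *
        Complex.exp (((g z.arg - z.arg : ℝ) : ℂ) * Complex.I) := by
    rw [← Complex.exp_add]
    congr 1
    push_cast
    ring
  unfold cor stg2_F
  rw [e]
  calc ((‖z‖ / √(deriv g z.arg) : ℝ) : ℂ) * (Complex.exp ((z.arg : ℂ) * Complex.I) *
        Complex.exp (((g z.arg - z.arg : ℝ) : ℂ) * Complex.I))
      = ((‖z‖ : ℂ) * Complex.exp ((z.arg : ℂ) * Complex.I)) *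
        ((((√(deriv g z.arg))⁻¹ : ℝ) : ℂ) *
          Complex.exp (((g z.arg - z.arg : ℝ) : ℂ) * Complex.I)) := by
        rw [div_eq_mul_inv]
        push_cast
        ring
    _ = _ := by rw [h]

section

variable {g : ℝ → ℝ} (hg : AngFn g)

include hg

theorem stg2_dsmooth : ContDiff ℝ ∞ (deriv g) := (contDiff_infty_iff_deriv.1 hg.smooth).2

theorem stg2_diff : Differentiable ℝ g := hg.smooth.differentiable (by simp)

theorem stg2_rho : ContDiff ℝ ∞ fun b => (√(deriv g b))⁻¹ :=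
  ((stg2_dsmooth hg).sqrt fun b => (hg.pos b).ne').inv fun b =>
    (Real.sqrt_pos.2 (hg.pos b)).ne'

theorem stg2_F_smooth : ContDiff ℝ ∞ (stg2_F g) := by
  have h1 : ContDiff ℝ ∞ fun b : ℝ => (((√(deriv g b))⁻¹ : ℝ) : ℂ) :=
    Complex.ofRealCLM.contDiff.comp (stg2_rho hg)
  have h2 : ContDiff ℝ ∞ fun b : ℝ => ((g b - b : ℝ) : ℂ) :=
    Complex.ofRealCLM.contDiff.comp (hg.smooth.sub contDiff_id)
  exact h1.mul ((h2.mul contDiff_const).cexp)

theorem stg2_F_deriv (b : ℝ) : HasDerivAt (stg2_F g)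
    (((deriv (fun t => (√(deriv g t))⁻¹) b : ℝ) : ℂ) *
        Complex.exp (((g b - b : ℝ) : ℂ) * Complex.I) +
      (((√(deriv g b))⁻¹ : ℝ) : ℂ) * (Complex.exp (((g b - b : ℝ) : ℂ) * Complex.I) *
        (((deriv g b - 1 : ℝ) : ℂ) * Complex.I))) b := by
  have h1 : HasDerivAt (fun t => (√(deriv g t))⁻¹) (deriv (fun t => (√(deriv g t))⁻¹) b) b :=
    ((stg2_rho hg).differentiable (by simp) b).hasDerivAt
  have h2 : HasDerivAt (fun t => g t - t) (deriv g b - 1) b :=
    (stg2_diff hg b).hasDerivAt.sub (hasDerivAt_id b)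
  have h3 := h1.ofReal_comp
  have h4 := (h2.ofReal_comp.mul_const Complex.I).cexp
  exact h3.mul h4

theorem stg2_deriv_low {b : ℝ} (hb : b ≤ Real.pi / 8) : deriv g b = 1 := by
  have h1 : derivWithin g (Iic (Real.pi / 8)) b = derivWithin id (Iic (Real.pi / 8)) b :=
    derivWithin_congr (fun x hx => hg.low x hx) (hg.low b hb)
  have h2 : UniqueDiffWithinAt ℝ (Iic (Real.pi / 8)) b := uniqueDiffOn_Iic _ b hb
  rw [(stg2_diff hg b).derivWithin h2, differentiableAt_id.derivWithin h2, deriv_id] at h1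
  exact h1

theorem stg2_deriv_high {b : ℝ} (hb : 3 * Real.pi / 8 ≤ b) : deriv g b = 1 := by
  have h1 : derivWithin g (Ici (3 * Real.pi / 8)) b =
      derivWithin (fun x => x + Real.pi / 2) (Ici (3 * Real.pi / 8)) b :=
    derivWithin_congr (fun x hx => hg.high x hx) (hg.high b hb)
  have h2 : UniqueDiffWithinAt ℝ (Ici (3 * Real.pi / 8)) b := uniqueDiffOn_Ici _ b hb
  have h3 : HasDerivAt (fun x : ℝ => x + Real.pi / 2) 1 b := (hasDerivAt_id b).add_const _
  rw [(stg2_diff hg b).derivWithin h2, h3.differentiableAt.derivWithin h2, h3.deriv] at h1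
  exact h1

theorem stg2_mono : StrictMono g := strictMono_of_deriv_pos hg.pos

theorem stg2_zero : g 0 = 0 := hg.low 0 (by positivity)

theorem stg2_top : g (Real.pi / 2) = Real.pi := by
  rw [hg.high _ (by linarith [Real.pi_pos])]
  ring

theorem stg2_gpos {b : ℝ} (hb : 0 < b) : 0 < g b := by
  have h := stg2_mono hg hb
  rwa [stg2_zero hg] at h

theorem stg2_glt {b : ℝ} (hb : b < Real.pi / 2) : g b < Real.pi := by
  have h := stg2_mono hg hb
  rwa [stg2_top hg] at h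

end

/-! ### the argument -/

theorem stg2_arg_smooth {z : ℂ} (hz : z ∈ Complex.slitPlane) : ContDiffAt ℝ ∞ Complex.arg z := by
  have h1 : ContDiffAt ℝ ∞ Complex.log z := (Complex.contDiffAt_log hz).restrict_scalars ℝ
  have h2 : ContDiffAt ℝ ∞ (fun w => (Complex.log w).im) z :=
    Complex.imCLM.contDiff.contDiffAt.comp z h1
  have h3 : Complex.arg = fun w => (Complex.log w).im := funext fun w => (Complex.log_im w).symm
  rw [h3]
  exact h2

theorem stg2_arg_fderiv {z : ℂ} (hz : z ∈ Complex.slitPlane) :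
    HasFDerivAt Complex.arg (Complex.imCLM.comp (z⁻¹ • (1 : ℂ →L[ℝ] ℂ))) z := by
  have h1 := (Complex.hasStrictFDerivAt_log_real hz).hasFDerivAt
  have h3 : Complex.arg = fun w => (Complex.log w).im := funext fun w => (Complex.log_im w).symm
  rw [h3]
  exact Complex.imCLM.hasFDerivAt.comp z h1

theorem stg2_Qd_slit {z : ℂ} (hz : z ∈ Qd) : z ∈ Complex.slitPlane := Or.inl hz.1

theorem stg2_Qd_ne {z : ℂ} (hz : z ∈ Qd) : z ≠ 0 := by
  rintro rfl
  exact lt_irrefl _ hz.1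

theorem stg2_arg_pos {z : ℂ} (hz : z ∈ Qd) : 0 < z.arg := by
  have h1 : 0 ≤ z.arg := Complex.arg_nonneg_iff.2 hz.2.le
  refine lt_of_le_of_ne h1 fun h => ?_
  have h2 := Complex.norm_mul_sin_arg z
  rw [← h, Real.sin_zero, mul_zero] at h2
  exact absurd hz.2 (by rw [← h2]; exact lt_irrefl _)

theorem stg2_arg_lt {z : ℂ} (hz : z ∈ Qd) : z.arg < Real.pi / 2 :=
  (abs_lt.1 (Complex.abs_arg_lt_pi_div_two_iff.2 (Or.inl hz.1))).2

theorem stg2_Qd_of {r b : ℝ} (hr : 0 < r) (h0 : 0 < b) (h1 : b < Real.pi / 2) :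
    (r : ℂ) * (Complex.cos b + Complex.sin b * Complex.I) ∈ Qd := by
  have hre : ((r : ℂ) * (Complex.cos b + Complex.sin b * Complex.I)).re = r * Real.cos b := by
    rw [← Complex.ofReal_cos, ← Complex.ofReal_sin, Complex.re_ofReal_mul, Complex.add_re,
      Complex.re_ofReal_mul, Complex.ofReal_re, Complex.I_re, mul_zero, add_zero]
  have him : ((r : ℂ) * (Complex.cos b + Complex.sin b * Complex.I)).im = r * Real.sin b := by
    rw [← Complex.ofReal_cos, ← Complex.ofReal_sin, Complex.im_ofReal_mul, Complex.add_im,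
      Complex.im_ofReal_mul, Complex.ofReal_im, Complex.I_im, mul_one, zero_add]
  constructor
  · rw [hre]
    exact mul_pos hr (Real.cos_pos_of_mem_Ioo ⟨by linarith [Real.pi_pos], h1⟩)
  · rw [him]
    exact mul_pos hr (Real.sin_pos_of_pos_of_lt_pi h0 (by linarith [Real.pi_pos]))

section

variable {g : ℝ → ℝ} (hg : AngFn g)

include hg

theorem stg2_cor_smooth {z : ℂ} (hz : z ∈ Complex.slitPlane) : ContDiffAt ℝ ∞ (cor g) z := by
  have h1 : ContDiffAt ℝ ∞ (fun w : ℂ => w * stg2_F g w.arg) z :=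
    contDiffAt_id.mul ((stg2_F_smooth hg).contDiffAt.comp z (stg2_arg_smooth hz))
  have h2 : cor g = fun w : ℂ => w * stg2_F g w.arg := funext (stg2_cor g)
  rw [h2]
  exact h1

theorem stg2_det {z : ℂ} (hz : z ∈ Complex.slitPlane) : (fderiv ℝ (cor g) z).det = 1 := by
  have hz0 : z ≠ 0 := Complex.slitPlane_ne_zero hz
  have h2 : cor g = fun w : ℂ => w * stg2_F g w.arg := funext (stg2_cor g)
  have hF := stg2_F_deriv hg z.arg
  set ρ : ℝ := (√(deriv g z.arg))⁻¹ with hρ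
  set ρ' : ℝ := deriv (fun t => (√(deriv g t))⁻¹) z.arg with hρ'
  set φ : ℝ := g z.arg - z.arg with hφ
  set φ' : ℝ := deriv g z.arg - 1 with hφ'
  set F' : ℂ := (ρ' : ℂ) * Complex.exp ((φ : ℂ) * Complex.I) +
      (ρ : ℂ) * (Complex.exp ((φ : ℂ) * Complex.I) * ((φ' : ℂ) * Complex.I)) with hF'
  have h3 : HasFDerivAt (fun w : ℂ => stg2_F g w.arg)
      ((ContinuousLinearMap.toSpanSingleton ℝ F').comp
        (Complex.imCLM.comp (z⁻¹ • (1 : ℂ →L[ℝ] ℂ)))) z :=
    hF.hasFDerivAt.comp z (stg2_arg_fderiv hz)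
  have h4 := (hasFDerivAt_id (𝕜 := ℝ) z).mul h3
  have h5 : HasFDerivAt (cor g) (id z • ((ContinuousLinearMap.toSpanSingleton ℝ F').comp
        (Complex.imCLM.comp (z⁻¹ • (1 : ℂ →L[ℝ] ℂ)))) +
      stg2_F g z.arg • ContinuousLinearMap.id ℝ ℂ) z := by
    rw [h2]
    exact h4
  rw [h5.fderiv]
  have hs : 0 < z.re ^ 2 + z.im ^ 2 := by
    have := Complex.normSq_pos.2 hz0
    rw [Complex.normSq_apply] at this
    nlinarith
  have hinv : z⁻¹ = ⟨z.re / (z.re ^ 2 + z.im ^ 2), -z.im / (z.re ^ 2 + z.im ^ 2)⟩ := by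
    apply Complex.ext
    · rw [Complex.inv_re, Complex.normSq_apply]
      ring_nf
    · rw [Complex.inv_im, Complex.normSq_apply]
      ring_nf
  have hFre : (stg2_F g z.arg).re = ρ * Real.cos φ := by
    unfold stg2_F
    rw [Complex.re_ofReal_mul, Complex.exp_ofReal_mul_I_re]
  have hFim : (stg2_F g z.arg).im = ρ * Real.sin φ := by
    unfold stg2_F
    rw [Complex.im_ofReal_mul, Complex.exp_ofReal_mul_I_im]
  have hEre : (Complex.exp ((φ : ℂ) * Complex.I)).re = Real.cos φ :=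
    Complex.exp_ofReal_mul_I_re φ
  have hEim : (Complex.exp ((φ : ℂ) * Complex.I)).im = Real.sin φ :=
    Complex.exp_ofReal_mul_I_im φ
  have hF're : F'.re = ρ' * Real.cos φ - ρ * φ' * Real.sin φ := by
    rw [hF']
    simp only [Complex.add_re, Complex.mul_re, Complex.mul_im, Complex.ofReal_re,
      Complex.ofReal_im, Complex.I_re, Complex.I_im, hEre, hEim]
    ring
  have hF'im : F'.im = ρ' * Real.sin φ + ρ * φ' * Real.cos φ := by
    rw [hF']
    simp only [Complex.add_im, Complex.mul_re, Complex.mul_im, Complex.ofReal_re,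
      Complex.ofReal_im, Complex.I_re, Complex.I_im, hEre, hEim]
    ring
  have hρ2 : ρ ^ 2 * (1 + φ') = 1 := by
    rw [hρ, hφ', inv_pow, Real.sq_sqrt (hg.pos _).le]
    have := hg.pos z.arg
    field_simp
    ring
  have hcs := Real.sin_sq_add_cos_sq φ
  rw [ContinuousLinearMap.det, ← LinearMap.det_toMatrix Complex.basisOneI, Matrix.det_fin_two]
  simp only [LinearMap.toMatrix_apply, Complex.coe_basisOneI, Complex.coe_basisOneI_repr,
    Matrix.cons_val_zero, Matrix.cons_val_one, ContinuousLinearMap.coe_coe,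
    add_apply, smul_apply,
    ContinuousLinearMap.toSpanSingleton_apply, ContinuousLinearMap.comp_apply,
    one_apply_eq_self, ContinuousLinearMap.id_apply, Complex.imCLM_apply,
    smul_eq_mul, id_eq, Complex.real_smul, Complex.add_re, Complex.add_im, Complex.mul_re,
    Complex.mul_im, Complex.ofReal_re, Complex.ofReal_im, Complex.one_re, Complex.one_im,
    Complex.I_re, Complex.I_im, hinv, hFre, hFim, hF're, hF'im]
  generalize Real.cos φ = c at *
  generalize Real.sin φ = s at *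
  generalize z.re = x at *
  generalize z.im = y at *
  have hs' : x ^ 2 + y ^ 2 ≠ 0 := hs.ne'
  field_simp
  linear_combination (x ^ 2 + y ^ 2) ^ 2 * (s ^ 2 + c ^ 2) * hρ2 + (x ^ 2 + y ^ 2) ^ 2 * hcs

/-! ### homogeneity -/

omit hg in
theorem stg2_hom {t : ℝ} (ht : 0 < t) (z : ℂ) : cor g (t • z) = t • cor g z := by
  rw [stg2_cor, stg2_cor, Complex.real_smul, Complex.real_smul, Complex.arg_real_mul _ ht,
    mul_assoc]

omit hg in
theorem stg2_hom1 {t : ℝ} (ht : 0 < t) (z : ℂ) :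
    fderiv ℝ (cor g) (t • z) = fderiv ℝ (cor g) z := by
  have h1 := fderiv_comp_smul (𝕜 := ℝ) (f := cor g) (x := z) t
  have h2 : (fun x : ℂ => cor g (t • x)) = fun x => t • cor g x := funext (stg2_hom ht)
  have h4 : fderiv ℝ (fun x => t • cor g x) z = t • fderiv ℝ (cor g) z :=
    congrFun (fderiv_const_smul_field (𝕜 := ℝ) (f := cor g) t) z
  rw [h2, h4] at h1
  have h3 : t • (fderiv ℝ (cor g) z) = t • fderiv ℝ (cor g) (t • z) := h1
  exact (smul_right_injective _ ht.ne' h3).symm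

omit hg in
theorem stg2_hom2 {t : ℝ} (ht : 0 < t) (z : ℂ) :
    fderiv ℝ (fderiv ℝ (cor g)) z = t • fderiv ℝ (fderiv ℝ (cor g)) (t • z) := by
  have h1 := fderiv_comp_smul (𝕜 := ℝ) (f := fderiv ℝ (cor g)) (x := z) t
  have h2 : (fun x : ℂ => fderiv ℝ (cor g) (t • x)) = fun x => fderiv ℝ (cor g) x :=
    funext (stg2_hom1 ht)
  rw [h2] at h1
  exact h1

theorem stg2_smoothOn : ContDiffOn ℝ ∞ (cor g) Complex.slitPlane :=
  fun _ hz => (stg2_cor_smooth hg hz).contDiffWithinAt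

omit hg in
theorem stg2_arc : IsCompact {z : ℂ | ‖z‖ = 1 ∧ 0 ≤ z.re ∧ 0 ≤ z.im} := by
  have h1 : {z : ℂ | ‖z‖ = 1 ∧ 0 ≤ z.re ∧ 0 ≤ z.im} =
      Metric.sphere (0 : ℂ) 1 ∩ {z : ℂ | 0 ≤ z.re ∧ 0 ≤ z.im} := by
    ext z
    simp
  rw [h1]
  exact (isCompact_sphere (0 : ℂ) 1).inter_right
    ((isClosed_le continuous_const Complex.continuous_re).inter
      (isClosed_le continuous_const Complex.continuous_im))

omit hg in
theorem stg2_arc_slit : {z : ℂ | ‖z‖ = 1 ∧ 0 ≤ z.re ∧ 0 ≤ z.im} ⊆ Complex.slitPlane := by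
  rintro z ⟨h1, h2, h3⟩
  rcases h2.lt_or_eq with h | h
  · exact Or.inl h
  · refine Or.inr fun h0 => ?_
    have : z = 0 := Complex.ext h.symm h0
    rw [this, norm_zero] at h1
    exact zero_ne_one h1

omit hg in
theorem stg2_unit {z : ℂ} (hz : z ∈ Qd) : ∃ u : ℂ, (‖u‖ = 1 ∧ 0 ≤ u.re ∧ 0 ≤ u.im) ∧
    ‖z‖ • u = z := by
  have h0 : 0 < ‖z‖ := norm_pos_iff.2 (stg2_Qd_ne hz)
  refine ⟨‖z‖⁻¹ • z, ⟨?_, ?_, ?_⟩, ?_⟩
  · rw [norm_smul, norm_inv, norm_norm, inv_mul_cancel₀ h0.ne']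
  · rw [Complex.smul_re, smul_eq_mul]
    exact mul_nonneg (inv_nonneg.2 h0.le) hz.1.le
  · rw [Complex.smul_im, smul_eq_mul]
    exact mul_nonneg (inv_nonneg.2 h0.le) hz.2.le
  · rw [smul_smul, mul_inv_cancel₀ h0.ne', one_smul]

theorem stg2_bd1 : ∃ K : ℝ, ∀ z ∈ Qd, ‖fderiv ℝ (cor g) z‖ ≤ K := by
  have h1 : ContinuousOn (fderiv ℝ (cor g)) Complex.slitPlane :=
    (stg2_smoothOn hg).continuousOn_fderiv_of_isOpen Complex.isOpen_slitPlane (by simp)
  obtain ⟨K, hK⟩ := stg2_arc.exists_bound_of_continuousOn (h1.mono stg2_arc_slit)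
  refine ⟨K, fun z hz => ?_⟩
  obtain ⟨u, hu, hz'⟩ := stg2_unit hz
  have h0 : 0 < ‖z‖ := norm_pos_iff.2 (stg2_Qd_ne hz)
  have h2 := stg2_hom1 (g := g) h0 u
  rw [hz'] at h2
  rw [h2]
  exact hK u hu

theorem stg2_bd2 : ∃ K : ℝ, ∀ z ∈ Qd, ‖fderiv ℝ (fderiv ℝ (cor g)) z‖ ≤ K / ‖z‖ := by
  have h0 : ContDiffOn ℝ ∞ (fderiv ℝ (cor g)) Complex.slitPlane :=
    (stg2_smoothOn hg).fderiv_of_isOpen Complex.isOpen_slitPlane (by simp)
  have h1 : ContinuousOn (fderiv ℝ (fderiv ℝ (cor g))) Complex.slitPlane :=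
    h0.continuousOn_fderiv_of_isOpen Complex.isOpen_slitPlane (by simp)
  obtain ⟨K, hK⟩ := IsCompact.exists_bound_of_continuousOn (E := ℂ →L[ℝ] ℂ →L[ℝ] ℂ)
    (f := fderiv ℝ (fderiv ℝ (cor g))) stg2_arc (h1.mono stg2_arc_slit)
  refine ⟨K, fun z hz => ?_⟩
  obtain ⟨u, hu, hz'⟩ := stg2_unit hz
  have h0 : 0 < ‖z‖ := norm_pos_iff.2 (stg2_Qd_ne hz)
  have h2 := stg2_hom2 (g := g) h0 u
  rw [hz'] at h2
  have h3 := hK u hu
  have h4 : fderiv ℝ (fderiv ℝ (cor g)) z = ‖z‖⁻¹ • fderiv ℝ (fderiv ℝ (cor g)) u := by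
    rw [h2, smul_smul, inv_mul_cancel₀ h0.ne', one_smul]
  have h5 : ‖fderiv ℝ (fderiv ℝ (cor g)) z‖ ≤ ‖‖z‖⁻¹‖ * ‖fderiv ℝ (fderiv ℝ (cor g)) u‖ := by
    rw [h4]
    exact ContinuousLinearMap.opNorm_smul_le _ _
  rw [norm_inv, norm_norm] at h5
  rw [div_eq_inv_mul]
  exact h5.trans (mul_le_mul_of_nonneg_left h3 (inv_nonneg.2 h0.le))

omit hg in
theorem stg2_norm (z : ℂ) : ‖cor g z‖ = ‖z‖ * (√(deriv g z.arg))⁻¹ := by
  unfold cor
  rw [norm_mul, Complex.norm_exp_ofReal_mul_I, mul_one, Complex.norm_real, Real.norm_eq_abs,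
    abs_of_nonneg (div_nonneg (norm_nonneg _) (Real.sqrt_nonneg _)), div_eq_mul_inv]

omit hg in
theorem stg2_im (z : ℂ) : (cor g z).im = ‖z‖ * ((√(deriv g z.arg))⁻¹ * Real.sin (g z.arg)) := by
  unfold cor
  rw [Complex.im_ofReal_mul, Complex.exp_ofReal_mul_I_im, div_eq_mul_inv, mul_assoc]

theorem stg2_sqrt_bd : ∃ M : ℝ, ∀ b ∈ Icc 0 (Real.pi / 2),
    √(deriv g b) ≤ M ∧ (√(deriv g b))⁻¹ ≤ M := by
  have h1 : ContinuousOn (fun b => √(deriv g b)) (Icc 0 (Real.pi / 2)) :=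
    ((stg2_dsmooth hg).continuous.sqrt).continuousOn
  have h2 : ContinuousOn (fun b => (√(deriv g b))⁻¹) (Icc 0 (Real.pi / 2)) :=
    (stg2_rho hg).continuous.continuousOn
  obtain ⟨M1, hM1⟩ := isCompact_Icc.exists_bound_of_continuousOn h1
  obtain ⟨M2, hM2⟩ := isCompact_Icc.exists_bound_of_continuousOn h2
  refine ⟨max M1 M2, fun b hb => ⟨?_, ?_⟩⟩
  · exact (le_abs_self _).trans ((hM1 b hb).trans (le_max_left _ _))
  · exact (le_abs_self _).trans ((hM2 b hb).trans (le_max_right _ _))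

theorem stg2_mid : ∃ Q : ℝ, ∀ b ∈ Icc (Real.pi / 8) (3 * Real.pi / 8),
    (√(deriv g b))⁻¹ * Real.sin (g b) ≤ Q * min (Real.cos b) (Real.sin b) ∧
    min (Real.cos b) (Real.sin b) ≤ Q * ((√(deriv g b))⁻¹ * Real.sin (g b)) := by
  have hpi := Real.pi_pos
  have hq : ∀ b ∈ Icc (Real.pi / 8) (3 * Real.pi / 8),
      0 < (√(deriv g b))⁻¹ * Real.sin (g b) := by
    intro b hb
    refine mul_pos (inv_pos.2 (Real.sqrt_pos.2 (hg.pos b))) (Real.sin_pos_of_pos_of_lt_pi ?_ ?_)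
    · exact stg2_gpos hg (by linarith [hb.1])
    · exact stg2_glt hg (by linarith [hb.2])
  have hr : ∀ b ∈ Icc (Real.pi / 8) (3 * Real.pi / 8), 0 < min (Real.cos b) (Real.sin b) := by
    intro b hb
    refine lt_min (Real.cos_pos_of_mem_Ioo ⟨by linarith [hb.1], by linarith [hb.2]⟩)
      (Real.sin_pos_of_pos_of_lt_pi (by linarith [hb.1]) (by linarith [hb.2]))
  have cq : Continuous fun b => (√(deriv g b))⁻¹ * Real.sin (g b) :=
    (stg2_rho hg).continuous.mul (Real.continuous_sin.comp hg.smooth.continuous)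
  have cr : Continuous fun b => min (Real.cos b) (Real.sin b) :=
    Real.continuous_cos.min Real.continuous_sin
  obtain ⟨Q1, hQ1⟩ := isCompact_Icc.exists_bound_of_continuousOn
    (cq.continuousOn.div cr.continuousOn fun b hb => (hr b hb).ne')
  obtain ⟨Q2, hQ2⟩ := isCompact_Icc.exists_bound_of_continuousOn
    (cr.continuousOn.div cq.continuousOn fun b hb => (hq b hb).ne')
  refine ⟨max Q1 Q2, fun b hb => ⟨?_, ?_⟩⟩
  · have h1 := (le_abs_self _).trans ((hQ1 b hb).trans (le_max_left Q1 Q2))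
    exact (div_le_iff₀ (hr b hb)).1 h1
  · have h1 := (le_abs_self _).trans ((hQ2 b hb).trans (le_max_right Q1 Q2))
    exact (div_le_iff₀ (hq b hb)).1 h1

theorem stg2_low {z : ℂ} (h : z.arg ≤ Real.pi / 8) : cor g z = z := by
  rw [stg2_cor, stg2_F, stg2_deriv_low hg h, hg.low _ h]
  simp

theorem stg2_high {z : ℂ} (h : 3 * Real.pi / 8 ≤ z.arg) : cor g z = Complex.I * z := by
  rw [stg2_cor, stg2_F, stg2_deriv_high hg h, hg.high _ h]
  have e : ((z.arg + Real.pi / 2 - z.arg : ℝ) : ℂ) * Complex.I = Real.pi / 2 * Complex.I := by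
    push_cast
    ring
  rw [e, Complex.exp_pi_div_two_mul_I]
  simp [mul_comm]

omit hg in
theorem stg2_sin_le_cos {b : ℝ} (h0 : 0 ≤ b) (h : b ≤ Real.pi / 4) :
    Real.sin b ≤ Real.cos b := by
  rw [← Real.sin_pi_div_two_sub]
  exact Real.sin_le_sin_of_le_of_le_pi_div_two (by linarith [Real.pi_pos]) (by linarith)
    (by linarith)

omit hg in
theorem stg2_cos_le_sin {b : ℝ} (h0 : b ≤ Real.pi / 2) (h : Real.pi / 4 ≤ b) :
    Real.cos b ≤ Real.sin b := by
  rw [← Real.sin_pi_div_two_sub]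
  exact Real.sin_le_sin_of_le_of_le_pi_div_two (by linarith [Real.pi_pos]) (by linarith)
    (by linarith)

omit hg in
theorem stg2_min (z : ℂ) :
    min z.re z.im = ‖z‖ * min (Real.cos z.arg) (Real.sin z.arg) := by
  rw [mul_min_of_nonneg _ _ (norm_nonneg z), Complex.norm_mul_cos_arg, Complex.norm_mul_sin_arg]

/-- the imaginary part of the image -/
theorem stg2_im_bd : ∃ Q : ℝ, 1 ≤ Q ∧ ∀ z ∈ Qd, (cor g z).im ≤ Q * min z.re z.im ∧
    min z.re z.im ≤ Q * (cor g z).im := by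
  obtain ⟨Q, hQ⟩ := stg2_mid hg
  refine ⟨1 + |Q|, by linarith [abs_nonneg Q], fun z hz => ?_⟩
  have hn := norm_nonneg z
  have hb0 := stg2_arg_pos hz
  have hb1 := stg2_arg_lt hz
  have hpi := Real.pi_pos
  have hQ0 := abs_nonneg Q
  rcases le_total z.arg (Real.pi / 8) with h | h
  · have h1 : min z.re z.im = z.im := by
      rw [stg2_min, min_eq_right (stg2_sin_le_cos hb0.le (by linarith)),
        Complex.norm_mul_sin_arg]
    rw [stg2_low hg h, h1]
    have := hz.2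
    constructor <;> nlinarith
  · rcases le_total (3 * Real.pi / 8) z.arg with h' | h'
    · have h1 : min z.re z.im = z.re := by
        rw [stg2_min, min_eq_left (stg2_cos_le_sin hb1.le (by linarith)),
          Complex.norm_mul_cos_arg]
      have h2 : (Complex.I * z).im = z.re := by simp
      rw [stg2_high hg h', h1, h2]
      have := hz.1
      constructor <;> nlinarith
    · obtain ⟨h1, h2⟩ := hQ z.arg ⟨h, h'⟩
      have hm : 0 < min z.re z.im := lt_min hz.1 hz.2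
      have hm' := stg2_min z
      have hi := stg2_im (g := g) z
      have hQ' := le_abs_self Q
      have h3 : (cor g z).im ≤ Q * min z.re z.im := by
        rw [hi, hm']
        calc ‖z‖ * ((√(deriv g z.arg))⁻¹ * Real.sin (g z.arg))
            ≤ ‖z‖ * (Q * min (Real.cos z.arg) (Real.sin z.arg)) :=
              mul_le_mul_of_nonneg_left h1 hn
          _ = _ := by ring
      have h4 : min z.re z.im ≤ Q * (cor g z).im := by
        rw [hi, hm']
        calc ‖z‖ * min (Real.cos z.arg) (Real.sin z.arg)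
            ≤ ‖z‖ * (Q * ((√(deriv g z.arg))⁻¹ * Real.sin (g z.arg))) :=
              mul_le_mul_of_nonneg_left h2 hn
          _ = _ := by ring
      have h5 : 0 ≤ (cor g z).im := by
        rw [hi]
        refine mul_nonneg hn (mul_nonneg (inv_nonneg.2 (Real.sqrt_nonneg _))
          (Real.sin_nonneg_of_nonneg_of_le_pi (stg2_gpos hg hb0).le (stg2_glt hg hb1).le))
      constructor
      · nlinarith
      · nlinarith

/-! ### the bijection -/

theorem stg2_maps {z : ℂ} (hz : z ∈ Qd) : 0 < (cor g z).im := by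
  rw [stg2_im]
  exact mul_pos (norm_pos_iff.2 (stg2_Qd_ne hz)) (mul_pos
    (inv_pos.2 (Real.sqrt_pos.2 (hg.pos _)))
    (Real.sin_pos_of_pos_of_lt_pi (stg2_gpos hg (stg2_arg_pos hz))
      (stg2_glt hg (stg2_arg_lt hz))))

theorem stg2_arg_cor {z : ℂ} (hz : z ∈ Qd) : (cor g z).arg = g z.arg := by
  unfold cor
  rw [Complex.exp_mul_I]
  refine Complex.arg_mul_cos_add_sin_mul_I (div_pos (norm_pos_iff.2 (stg2_Qd_ne hz))
    (Real.sqrt_pos.2 (hg.pos _))) ⟨?_, ?_⟩
  · linarith [Real.pi_pos, stg2_gpos hg (stg2_arg_pos hz)]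
  · exact (stg2_glt hg (stg2_arg_lt hz)).le

theorem stg2_bij : BijOn (cor g) Qd {w | 0 < w.im} := by
  refine ⟨fun z hz => stg2_maps hg hz, ?_, ?_⟩
  · intro z hz z' hz' h
    have h1 : z.arg = z'.arg := by
      have h2 := stg2_arg_cor hg hz
      rw [h, stg2_arg_cor hg hz'] at h2
      exact ((stg2_mono hg).injective h2).symm
    have h2 := stg2_norm (g := g) z
    rw [h, stg2_norm z', h1] at h2
    have h3 : ‖z'‖ = ‖z‖ :=
      mul_right_cancel₀ (inv_pos.2 (Real.sqrt_pos.2 (hg.pos z'.arg))).ne' h2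
    rw [← Complex.norm_mul_exp_arg_mul_I z, ← Complex.norm_mul_exp_arg_mul_I z', h1, h3]
  · intro w hw
    have hw' : 0 < w.im := hw
    have hw0 : w ≠ 0 := by
      rintro rfl
      exact lt_irrefl _ hw'
    have ha0 : 0 < w.arg := by
      have h1 : 0 ≤ w.arg := Complex.arg_nonneg_iff.2 hw'.le
      refine lt_of_le_of_ne h1 fun h => ?_
      have h2 := Complex.norm_mul_sin_arg w
      rw [← h, Real.sin_zero, mul_zero] at h2
      exact absurd hw' (by rw [← h2]; exact lt_irrefl _)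
    have ha1 : w.arg < Real.pi := by
      refine lt_of_le_of_ne (Complex.arg_le_pi w) fun h => ?_
      have h2 := Complex.norm_mul_sin_arg w
      rw [h, Real.sin_pi, mul_zero] at h2
      exact absurd hw' (by rw [← h2]; exact lt_irrefl _)
    obtain ⟨b, hb, hbw⟩ : ∃ b ∈ Ioo 0 (Real.pi / 2), g b = w.arg := by
      have h1 := intermediate_value_Ioo (f := g) (a := 0) (b := Real.pi / 2)
        (by linarith [Real.pi_pos]) hg.smooth.continuous.continuousOn
      rw [stg2_zero hg, stg2_top hg] at h1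
      exact h1 ⟨ha0, ha1⟩
    have hn : 0 < ‖w‖ := norm_pos_iff.2 hw0
    have hs : 0 < √(deriv g b) := Real.sqrt_pos.2 (hg.pos b)
    have hr : 0 < ‖w‖ * √(deriv g b) := mul_pos hn hs
    refine ⟨((‖w‖ * √(deriv g b) : ℝ) : ℂ) * (Complex.cos b + Complex.sin b * Complex.I),
      stg2_Qd_of hr hb.1 hb.2, ?_⟩
    have e1 : (((‖w‖ * √(deriv g b) : ℝ) : ℂ) *
        (Complex.cos b + Complex.sin b * Complex.I)).arg = b :=
      Complex.arg_mul_cos_add_sin_mul_I hr ⟨by linarith [hb.1, Real.pi_pos],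
        by linarith [hb.2, Real.pi_pos]⟩
    have e2 : ‖((‖w‖ * √(deriv g b) : ℝ) : ℂ) *
        (Complex.cos b + Complex.sin b * Complex.I)‖ = ‖w‖ * √(deriv g b) := by
      rw [← Complex.exp_mul_I, norm_mul, Complex.norm_exp_ofReal_mul_I, mul_one,
        Complex.norm_real, Real.norm_eq_abs, abs_of_pos hr]
    unfold cor
    rw [e1, e2, hbw, mul_div_assoc, div_self hs.ne', mul_one]
    exact Complex.norm_mul_exp_arg_mul_I w

end

/-- ST-G2 (file Cor.lean) -/
theorem corKit (g : ℝ → ℝ) (hg : AngFn g) : ∃ C : ℝ, CorKit g C := by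
  obtain ⟨K1, hK1⟩ := stg2_bd1 hg
  obtain ⟨K2, hK2⟩ := stg2_bd2 hg
  obtain ⟨M, hM⟩ := stg2_sqrt_bd hg
  obtain ⟨Q, hQ1, hQ⟩ := stg2_im_bd hg
  have a1 := abs_nonneg K1
  have a2 := abs_nonneg K2
  have a3 := abs_nonneg M
  have b1 := le_abs_self K1
  have b2 := le_abs_self K2
  have b3 := le_abs_self M
  have harg : ∀ z ∈ Qd, z.arg ∈ Icc 0 (Real.pi / 2) := fun z hz =>
    ⟨(stg2_arg_pos hz).le, (stg2_arg_lt hz).le⟩
  refine ⟨|K1| + |K2| + |M| + Q, ?_⟩
  refine
    { hC := by linarith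
      smooth := (stg2_smoothOn hg).mono fun z hz => stg2_Qd_slit hz
      det := fun z hz => by rw [stg2_det hg (stg2_Qd_slit hz), abs_one]
      bij := stg2_bij hg
      low := fun z _ h => stg2_low hg h
      high := fun z _ h => stg2_high hg h
      normu := ?_
      norml := ?_
      imu := ?_
      iml := ?_
      bd1 := fun z hz => (hK1 z hz).trans (by linarith)
      bd2 := fun z hz => (hK2 z hz).trans
        (div_le_div_of_nonneg_right (by linarith) (norm_nonneg z)) }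
  · intro z hz
    rw [stg2_norm, mul_comm]
    exact mul_le_mul_of_nonneg_right ((hM _ (harg z hz)).2.trans (by linarith)) (norm_nonneg z)
  · intro z hz
    rw [stg2_norm]
    have h1 : 0 < √(deriv g z.arg) := Real.sqrt_pos.2 (hg.pos _)
    have h2 : √(deriv g z.arg) ≤ |K1| + |K2| + |M| + Q :=
      (hM _ (harg z hz)).1.trans (by linarith)
    calc ‖z‖ = √(deriv g z.arg) * (‖z‖ * (√(deriv g z.arg))⁻¹) := by
          rw [mul_left_comm, mul_inv_cancel₀ h1.ne', mul_one]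
      _ ≤ _ := mul_le_mul_of_nonneg_right h2
          (mul_nonneg (norm_nonneg z) (inv_nonneg.2 h1.le))
  · intro z hz
    refine (hQ z hz).1.trans (mul_le_mul_of_nonneg_right (by linarith) ?_)
    exact le_min hz.1.le hz.2.le
  · intro z hz
    refine (hQ z hz).2.trans (mul_le_mul_of_nonneg_right (by linarith) ?_)
    exact (stg2_maps hg hz).le

end Pool.Agent.H23.ST
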