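import Pool.Agent.H23.ST.Geo2

/-! # Project ST, row ST-G4 (EndC.lean): gluing of the four corners -/

set_option autoImplicit false

namespace Pool.Agent.H23.ST

open MeasureTheory Set Pool.Agent.H68.VD Pool.Agent.H68.GM
open scoped ENNReal ContDiff Topology

/-- The rotation by `k` right angles about the centre of the square. -/
noncomputable def g4rt (k : ℕ) (z : ℂ) : ℂ :=
  (1 + Complex.I) / 2 + Complex.I ^ k * (z - (1 + Complex.I) / 2)

theorem g4rt_zero (z : ℂ) : g4rt 0 z = z := by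
  unfold g4rt
  ring

theorem g4rt_add (j k : ℕ) (z : ℂ) : g4rt j (g4rt k z) = g4rt (j + k) z := by
  unfold g4rt
  ring

theorem g4rt_one (z : ℂ) : g4rt 1 z = rt z := by
  unfold g4rt rt
  ring

theorem g4rt_three (z : ℂ) : g4rt 3 z = rt (rt (rt z)) := by
  rw [← g4rt_one, ← g4rt_one, ← g4rt_one, g4rt_add, g4rt_add]

theorem g4_pow (k : ℕ) : Complex.I ^ (4 * k) = 1 := by
  rw [pow_mul, Complex.I_pow_four, one_pow]

theorem g4rt_four (k : ℕ) (z : ℂ) : g4rt (4 * k) z = z := by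
  unfold g4rt
  rw [g4_pow]
  ring

theorem g4rt_add_four (q e : ℕ) (z : ℂ) : g4rt (4 * q + e) z = g4rt e z := by
  rw [← g4rt_add, g4rt_four]

theorem g4_pow_add_four (q e : ℕ) : Complex.I ^ (4 * q + e) = Complex.I ^ e := by
  rw [pow_add, g4_pow, one_mul]

theorem g4rt_inj (k : ℕ) {z z' : ℂ} (h : g4rt k z = g4rt k z') : z = z' := by
  have h1 : g4rt (3 * k) (g4rt k z) = g4rt (3 * k) (g4rt k z') := by rw [h]
  rw [g4rt_add, g4rt_add, show 3 * k + k = 4 * k by ring, g4rt_four, g4rt_four] at h1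
  exact h1

theorem g4rt_re_one (z : ℂ) : (g4rt 1 z).re = 1 - z.im ∧ (g4rt 1 z).im = z.re := by
  have h : g4rt 1 z = ⟨1 - z.im, z.re⟩ := by
    unfold g4rt
    apply Complex.ext
    · simp
      ring
    · simp
  rw [h]
  exact ⟨rfl, rfl⟩

theorem g4rt_re_two (z : ℂ) : (g4rt 2 z).re = 1 - z.re ∧ (g4rt 2 z).im = 1 - z.im := by
  have h1 := g4rt_re_one z
  have h2 := g4rt_re_one (g4rt 1 z)
  rw [g4rt_add] at h2
  rw [h2.1, h2.2, h1.1, h1.2]
  exact ⟨rfl, rfl⟩

theorem g4rt_re_three (z : ℂ) : (g4rt 3 z).re = z.im ∧ (g4rt 3 z).im = 1 - z.re := by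
  have h1 := g4rt_re_two z
  have h2 := g4rt_re_one (g4rt 2 z)
  rw [g4rt_add] at h2
  rw [h2.1, h2.2, h1.1, h1.2]
  constructor
  · ring
  · rfl

theorem g4_dsq_one (z : ℂ) : dsq (g4rt 1 z) = dsq z := by
  unfold dsq
  rw [(g4rt_re_one z).1, (g4rt_re_one z).2, show 1 - (1 - z.im) = z.im by ring, min_comm,
    min_comm z.im]

theorem g4_dsq (k : ℕ) (z : ℂ) : dsq (g4rt k z) = dsq z := by
  induction k with
  | zero => rw [g4rt_zero]
  | succ k ih => rw [add_comm, ← g4rt_add, g4_dsq_one, ih]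

theorem g4_mem_Sq (z : ℂ) : z ∈ Sq ↔ 0 < dsq z := by
  unfold Sq dsq
  simp only [mem_setOf_eq, lt_min_iff, sub_pos]
  tauto

theorem g4_Sq (k : ℕ) (z : ℂ) : g4rt k z ∈ Sq ↔ z ∈ Sq := by
  rw [g4_mem_Sq, g4_mem_Sq, g4_dsq]

section

variable {g : ℝ → ℝ} {h r C : ℝ}

/-- two points of `A0` which differ by a rotation have compatible coordinates -/
theorem g4_cons (H : QuaKit g h r C) {w w' : ℂ} (hw : w ∈ A0 g h) (hw' : w' ∈ A0 g h) (d : ℕ)
    (hd : w = g4rt d w') : yq g w = Complex.I ^ d * yq g w' := by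
  have hw1 := hw.2.1
  have hw2 := hw.2.2.1
  have hw1' := hw'.2.1
  have hw2' := hw'.2.2.1
  obtain ⟨q, e, he, rfl⟩ : ∃ q e : ℕ, e < 4 ∧ d = 4 * q + e :=
    ⟨d / 4, d % 4, Nat.mod_lt _ (by norm_num), (Nat.div_add_mod d 4).symm⟩
  rw [g4rt_add_four] at hd
  rw [g4_pow_add_four]
  interval_cases e
  · rw [g4rt_zero] at hd
    rw [hd, pow_zero, one_mul]
  · have h1 : 1 / 4 < w.re := by
      rw [hd, (g4rt_re_one w').1]
      linarith
    have h2 := (H.ovr w hw h1).2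
    rw [h2, pow_one, ← g4rt_three, hd, g4rt_add, show 3 + 1 = 4 * 1 by norm_num, g4rt_four]
  · exfalso
    have h1 := g4rt_re_two w'
    rw [← hd] at h1
    have h3 := H.small w hw
    unfold dsq at h3
    have h4 : (1 / 4 : ℝ) < min (min w.re (1 - w.re)) (min w.im (1 - w.im)) := by
      rw [lt_min_iff, lt_min_iff, lt_min_iff]
      refine ⟨⟨?_, ?_⟩, ?_, ?_⟩ <;> linarith [h1.1, h1.2]
    linarith
  · have h0 : w' = g4rt 1 w := by
      rw [hd, g4rt_add, show 1 + 3 = 4 * 1 by norm_num, g4rt_four]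
    have h1 : 1 / 4 < w'.re := by
      rw [h0, (g4rt_re_one w).1]
      linarith
    have h2 := (H.ovr w' hw' h1).2
    rw [h2, ← g4rt_three, h0, g4rt_add, show 3 + 1 = 4 * 1 by norm_num, g4rt_four, ← mul_assoc,
      ← pow_succ, Complex.I_pow_four, one_mul]

/-- two points of `A0` with the same coordinate up to a rotation differ by a rotation -/
theorem g4_inj (H : QuaKit g h r C) {w w' : ℂ} (hw : w ∈ A0 g h) (hw' : w' ∈ A0 g h) (d : ℕ)
    (hd : yq g w = Complex.I ^ d * yq g w') : w = g4rt d w' := by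
  have key : ∀ w w' : ℂ, w ∈ A0 g h → w' ∈ A0 g h → yq g w = Complex.I * yq g w' →
      w = g4rt 1 w' := by
    intro w w' hw hw' hd
    have hs := H.bij.mapsTo hw
    have hs' := H.bij.mapsTo hw'
    have harg : (yq g w).arg = Real.pi / 2 + (yq g w').arg := by
      have h3 := abs_lt.mp hs'.2.2
      rw [hd, Complex.arg_mul Complex.I_ne_zero hs'.1, Complex.arg_I]
      rw [Complex.arg_I]
      constructor
      · linarith [Real.pi_pos]
      · linarith [Real.pi_pos]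
    have h4 : Real.pi / 8 < (yq g w).arg := by
      have h3 := abs_lt.mp hs'.2.2
      rw [harg]
      linarith
    have h5 := H.ang w hw h4
    obtain ⟨h6, h7⟩ := H.ovr w hw h5
    rw [h7] at hd
    have h8 := mul_left_cancel₀ Complex.I_ne_zero hd
    have h9 := H.bij.injOn h6 hw' h8
    rw [← h9, ← g4rt_three, g4rt_add, show 1 + 3 = 4 * 1 by norm_num, g4rt_four]
  obtain ⟨q, e, he, rfl⟩ : ∃ q e : ℕ, e < 4 ∧ d = 4 * q + e :=
    ⟨d / 4, d % 4, Nat.mod_lt _ (by norm_num), (Nat.div_add_mod d 4).symm⟩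
  rw [g4rt_add_four]
  rw [g4_pow_add_four] at hd
  have hs := H.bij.mapsTo hw
  have hs' := H.bij.mapsTo hw'
  interval_cases e
  · rw [g4rt_zero]
    rw [pow_zero, one_mul] at hd
    exact H.bij.injOn hw hw' hd
  · rw [pow_one] at hd
    exact key w w' hw hw' hd
  · exfalso
    rw [Complex.I_sq] at hd
    have h1 : 0 < (yq g w).re := by
      rcases (Complex.abs_arg_lt_pi_div_two_iff (z := yq g w)).mp
        (by linarith [hs.2.2, Real.pi_pos]) with h | h
      · exact h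
      · exact absurd h hs.1
    have h2 : 0 < (yq g w').re := by
      rcases (Complex.abs_arg_lt_pi_div_two_iff (z := yq g w')).mp
        (by linarith [hs'.2.2, Real.pi_pos]) with h | h
      · exact h
      · exact absurd h hs'.1
    rw [hd] at h1
    simp at h1
    linarith
  · have h1 : yq g w' = Complex.I * yq g w := by
      rw [hd, ← mul_assoc, ← pow_succ', Complex.I_pow_four, one_mul]
    rw [key w' w hw' hw h1, g4rt_add, show 3 + 1 = 4 * 1 by norm_num, g4rt_four]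

/-- the region of the `k`-th corner -/
def g4R (g : ℝ → ℝ) (h : ℝ) (k : ℕ) : Set ℂ := {z | g4rt (3 * k) z ∈ A0 g h}

/-- the coordinate near the `k`-th corner -/
noncomputable def g4ψ (g : ℝ → ℝ) (k : ℕ) (z : ℂ) : ℂ := Complex.I ^ k * yq g (g4rt (3 * k) z)

theorem g4_same (H : QuaKit g h r C) {j k : ℕ} {z : ℂ} (hj : z ∈ g4R g h j)
    (hk : z ∈ g4R g h k) : g4ψ g j z = g4ψ g k z := by
  have h1 := g4_cons H hj hk (3 * j + k) (by
    rw [g4rt_add, show 3 * j + k + 3 * k = 4 * k + 3 * j by ring, g4rt_add_four])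
  unfold g4ψ
  rw [h1, ← mul_assoc, ← pow_add, show j + (3 * j + k) = 4 * j + k by ring, g4_pow_add_four]

theorem g4_sameI (H : QuaKit g h r C) {j k : ℕ} {z z' : ℂ} (hj : z ∈ g4R g h j)
    (hk : z' ∈ g4R g h k) (he : g4ψ g j z = g4ψ g k z') : z = z' := by
  have h1 := g4_inj H hj hk (3 * j + k) (by
    unfold g4ψ at he
    have h2 : Complex.I ^ (3 * j) * (Complex.I ^ j * yq g (g4rt (3 * j) z)) =
        Complex.I ^ (3 * j) * (Complex.I ^ k * yq g (g4rt (3 * k) z')) := by rw [he]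
    rw [← mul_assoc, ← mul_assoc, ← pow_add, ← pow_add, show 3 * j + j = 4 * j by ring,
      g4_pow, one_mul] at h2
    exact h2)
  rw [g4rt_add, show 3 * j + k + 3 * k = 4 * k + 3 * j by ring, g4rt_add_four] at h1
  exact g4rt_inj _ h1

theorem g4_arg {v : ℂ} (h0 : 0 < v.re) (h1 : |v.im| ≤ v.re) : |v.arg| < 3 * Real.pi / 8 := by
  have hpos := Real.pi_pos
  rw [Complex.arg_of_re_nonneg h0.le]
  have hn : 0 < ‖v‖ := by
    rw [norm_pos_iff]
    intro h
    rw [h] at h0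
    simp at h0
  have h2 : |v.im / ‖v‖| ≤ √2 / 2 := by
    rw [abs_div, abs_of_pos hn, div_le_iff₀ hn]
    have h3 : ‖v‖ ^ 2 = v.re ^ 2 + v.im ^ 2 := by
      rw [Complex.sq_norm, Complex.normSq_apply]
      ring
    have h4 : |v.im| ^ 2 ≤ v.re ^ 2 := pow_le_pow_left₀ (abs_nonneg _) h1 2
    rw [sq_abs] at h4
    have h5 : |v.im| ^ 2 ≤ (√2 / 2 * ‖v‖) ^ 2 := by
      rw [mul_pow, h3, div_pow, Real.sq_sqrt (by norm_num), sq_abs]
      linarith
    exact (pow_le_pow_iff_left₀ (abs_nonneg _) (by positivity) two_ne_zero).mp h5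
  have h6 := abs_le.mp h2
  have h7 : Real.arcsin (√2 / 2) = Real.pi / 4 := by
    rw [← Real.sin_pi_div_four, Real.arcsin_sin (by linarith) (by linarith)]
  rw [abs_lt]
  constructor
  · have := Real.monotone_arcsin h6.1
    rw [Real.arcsin_neg, h7] at this
    linarith
  · have := Real.monotone_arcsin h6.2
    rw [h7] at this
    linarith

/-- every point of the punctured disc is in one of the four sectors -/
theorem g4_sec {r : ℝ} {w : ℂ} (hw : w ≠ 0) (hr : ‖w‖ < r) :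
    ∃ k : ℕ, Complex.I ^ (3 * k) * w ∈ Sec r := by
  have hn : ∀ k : ℕ, ‖Complex.I ^ (3 * k) * w‖ < r := by
    intro k
    rw [norm_mul, norm_pow, Complex.norm_I, one_pow, one_mul]
    exact hr
  have h0 : ∀ k : ℕ, Complex.I ^ (3 * k) * w ≠ 0 := fun k =>
    mul_ne_zero (pow_ne_zero _ Complex.I_ne_zero) hw
  have hne : w.re ≠ 0 ∨ w.im ≠ 0 := by
    by_contra hcon
    push Not at hcon
    exact hw (Complex.ext hcon.1 hcon.2)
  have hpow3 : Complex.I ^ (3 * 1) = -Complex.I := by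
    rw [show 3 * 1 = 2 + 1 by norm_num, pow_succ, Complex.I_sq]
    ring
  have hpow6 : Complex.I ^ (3 * 2) = -1 := by
    rw [show 3 * 2 = 4 * 1 + 2 by norm_num, g4_pow_add_four, Complex.I_sq]
  have hpow9 : Complex.I ^ (3 * 3) = Complex.I := by
    rw [show 3 * 3 = 4 * 2 + 1 by norm_num, g4_pow_add_four, pow_one]
  rcases le_total |w.im| |w.re| with h1 | h1
  · rcases lt_trichotomy w.re 0 with h2 | h2 | h2
    · refine ⟨2, h0 2, hn 2, g4_arg ?_ ?_⟩
      · rw [hpow6]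
        simp
        exact h2
      · rw [hpow6]
        simp
        rw [abs_of_neg h2] at h1
        exact h1
    · exfalso
      rw [h2, abs_zero] at h1
      rcases hne with h | h
      · exact h h2
      · exact h (abs_eq_zero.mp (le_antisymm h1 (abs_nonneg _)))
    · refine ⟨0, h0 0, hn 0, g4_arg ?_ ?_⟩
      · simp
        exact h2
      · simp
        rw [abs_of_pos h2] at h1
        exact h1
  · rcases lt_trichotomy w.im 0 with h2 | h2 | h2
    · refine ⟨3, h0 3, hn 3, g4_arg ?_ ?_⟩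
      · rw [hpow9]
        simp
        exact h2
      · rw [hpow9]
        simp
        rw [abs_of_neg h2] at h1
        exact h1
    · exfalso
      rw [h2, abs_zero] at h1
      rcases hne with h | h
      · exact h (abs_eq_zero.mp (le_antisymm h1 (abs_nonneg _)))
      · exact h h2
    · refine ⟨1, h0 1, hn 1, g4_arg ?_ ?_⟩
      · rw [hpow3]
        simp
        exact h2
      · rw [hpow3]
        simp
        rw [abs_of_pos h2] at h1
        exact h1

end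

/-! ### derivatives -/

/-- multiplication by `c` as a real continuous linear map -/
noncomputable def g4L (c : ℂ) : ℂ →L[ℝ] ℂ := ContinuousLinearMap.mul ℝ ℂ c

theorem g4L_apply (c z : ℂ) : g4L c z = c * z := rfl

theorem g4L_norm (k : ℕ) : ‖g4L (Complex.I ^ k)‖ ≤ 1 := by
  refine ContinuousLinearMap.opNorm_le_bound _ zero_le_one fun z => ?_
  rw [g4L_apply, norm_mul, norm_pow, Complex.norm_I, one_pow]

theorem g4L_det (k : ℕ) : |(g4L (Complex.I ^ k)).det| = 1 := by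
  have h1 : ∀ c c' : ℂ, g4L (c * c') = (g4L c).comp (g4L c') := by
    intro c c'
    ext z <;> simp [g4L_apply, mul_assoc]
  have h2 : ∀ c c' : ℂ, (g4L (c * c')).det = (g4L c).det * (g4L c').det := by
    intro c c'
    rw [h1]
    exact LinearMap.det_comp _ _
  have h3 : (g4L 1).det = 1 := by
    have : g4L 1 = ContinuousLinearMap.id ℝ ℂ := by
      ext z <;> simp [g4L_apply]
    rw [this]
    exact LinearMap.det_id
  have h4 : (g4L Complex.I).det ^ 4 = 1 := by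
    have : (g4L (Complex.I * Complex.I * (Complex.I * Complex.I))).det =
        (g4L Complex.I).det ^ 4 := by
      rw [h2, h2]
      ring
    rw [← this, Complex.I_mul_I]
    norm_num
    exact h3
  have h5 : |(g4L Complex.I).det| = 1 := by
    have : |(g4L Complex.I).det| ^ 4 = 1 := by
      rw [← abs_pow, h4, abs_one]
    exact (pow_eq_one_iff_of_nonneg (abs_nonneg _) (by norm_num)).mp this
  induction k with
  | zero => rw [pow_zero, h3, abs_one]
  | succ k ih => rw [pow_succ, h2, abs_mul, ih, h5, one_mul]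

theorem g4rt_hasFDerivAt (m : ℕ) (z : ℂ) : HasFDerivAt (g4rt m) (g4L (Complex.I ^ m)) z := by
  have h1 : g4rt m = fun z => ((1 + Complex.I) / 2 - Complex.I ^ m * ((1 + Complex.I) / 2)) +
      g4L (Complex.I ^ m) z := by
    funext z
    rw [g4L_apply]
    unfold g4rt
    ring
  rw [h1]
  exact (g4L (Complex.I ^ m)).hasFDerivAt.const_add _

theorem g4rt_contDiff (m : ℕ) : ContDiff ℝ ∞ (g4rt m) := by
  unfold g4rt
  fun_prop

theorem g4rt_cont (m : ℕ) : Continuous (g4rt m) := (g4rt_contDiff m).continuous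

/-- the determinant in coordinates -/
theorem g4_det (A : ℂ →L[ℝ] ℂ) :
    A.det = (A 1).re * (A Complex.I).im - (A Complex.I).re * (A 1).im := by
  have h1 : A.det = LinearMap.det (A : ℂ →ₗ[ℝ] ℂ) := rfl
  rw [h1, ← LinearMap.det_toMatrix Complex.basisOneI, Matrix.det_fin_two]
  simp [LinearMap.toMatrix_apply, Complex.coe_basisOneI_repr, Complex.coe_basisOneI]

theorem g4_inv_norm {A B : ℂ →L[ℝ] ℂ} (hA : |A.det| = 1) (hAB : ∀ v, A (B v) = v) :
    ‖B‖ ≤ 2 * ‖A‖ := by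
  refine ContinuousLinearMap.opNorm_le_bound _ (by positivity) fun u => ?_
  set v := B u with hv
  have hAv : A v = u := hAB u
  have hlin : u = (v.re : ℂ) * A 1 + (v.im : ℂ) * A Complex.I := by
    have h1 : v = v.re • (1 : ℂ) + v.im • Complex.I := by
      apply Complex.ext <;> simp
    rw [← hAv]
    conv_lhs => rw [h1]
    rw [map_add, map_smul, map_smul]
    simp
  have hd := g4_det A
  have hx : v.re * A.det = u.re * (A Complex.I).im - (A Complex.I).re * u.im := by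
    rw [hd, hlin]
    simp
    ring
  have hy : v.im * A.det = (A 1).re * u.im - u.re * (A 1).im := by
    rw [hd, hlin]
    simp
    ring
  have hn1 : ‖A 1‖ ≤ ‖A‖ := by
    have := A.le_opNorm 1
    simpa using this
  have hnI : ‖A Complex.I‖ ≤ ‖A‖ := by
    have := A.le_opNorm Complex.I
    simpa using this
  have habs : ∀ a b : ℂ, |a.re * b.im - b.re * a.im| ≤ ‖a‖ * ‖b‖ := by
    intro a b
    have h1 : a.re * b.im - b.re * a.im = ((starRingEnd ℂ) a * b).im := by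
      simp
      ring
    rw [h1]
    refine (Complex.abs_im_le_norm _).trans ?_
    rw [norm_mul, Complex.norm_conj]
  have hx2 : |v.re| ≤ ‖u‖ * ‖A‖ := by
    have h1 : |v.re| = |v.re * A.det| := by rw [abs_mul, hA, mul_one]
    rw [h1, hx]
    exact (habs u (A Complex.I)).trans (mul_le_mul_of_nonneg_left hnI (norm_nonneg _))
  have hy2 : |v.im| ≤ ‖u‖ * ‖A‖ := by
    have h1 : |v.im| = |v.im * A.det| := by rw [abs_mul, hA, mul_one]
    rw [h1, hy]
    have h2 := habs (A 1) u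
    refine h2.trans ?_
    rw [mul_comm]
    exact mul_le_mul_of_nonneg_left hn1 (norm_nonneg _)
  calc ‖v‖ ≤ |v.re| + |v.im| := Complex.norm_le_abs_re_add_abs_im v
    _ ≤ 2 * ‖A‖ * ‖u‖ := by linarith

section

variable {g : ℝ → ℝ} {h r C : ℝ}

theorem g4R_open (H : QuaKit g h r C) (k : ℕ) : IsOpen (g4R g h k) :=
  H.opn.preimage (g4rt_cont (3 * k))

theorem g4_yq_at (H : QuaKit g h r C) {w : ℂ} (hw : w ∈ A0 g h) : ContDiffAt ℝ ∞ (yq g) w :=
  H.smooth.contDiffAt (H.opn.mem_nhds hw)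

theorem g4ψ_contDiffAt (H : QuaKit g h r C) {k : ℕ} {z : ℂ} (hz : z ∈ g4R g h k) :
    ContDiffAt ℝ ∞ (g4ψ g k) z := by
  have h1 : ContDiffAt ℝ ∞ (yq g) (g4rt (3 * k) z) := g4_yq_at H hz
  have h2 : ContDiffAt ℝ ∞ (fun z => yq g (g4rt (3 * k) z)) z :=
    h1.comp z (g4rt_contDiff (3 * k)).contDiffAt
  exact contDiffAt_const.mul h2

theorem g4ψ_hasFDerivAt (H : QuaKit g h r C) {k : ℕ} {z : ℂ} (hz : z ∈ g4R g h k) :
    HasFDerivAt (g4ψ g k) ((g4L (Complex.I ^ k)).comp ((fderiv ℝ (yq g) (g4rt (3 * k) z)).comp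
      (g4L (Complex.I ^ (3 * k))))) z := by
  have h1 : HasFDerivAt (yq g) (fderiv ℝ (yq g) (g4rt (3 * k) z)) (g4rt (3 * k) z) :=
    ((g4_yq_at H hz).differentiableAt (by simp)).hasFDerivAt
  have h2 := h1.comp z (g4rt_hasFDerivAt (3 * k) z)
  exact (g4L (Complex.I ^ k)).hasFDerivAt.comp z h2

/-- conjugation of a linear map, as a linear map -/
noncomputable def g4Φ (k : ℕ) : (ℂ →L[ℝ] ℂ) →L[ℝ] (ℂ →L[ℝ] ℂ) :=
  (ContinuousLinearMap.compL ℝ ℂ ℂ ℂ (g4L (Complex.I ^ k))).comp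
    ((ContinuousLinearMap.compL ℝ ℂ ℂ ℂ).flip (g4L (Complex.I ^ (3 * k))))

theorem g4Φ_apply (k : ℕ) (T : ℂ →L[ℝ] ℂ) : g4Φ k T =
    (g4L (Complex.I ^ k)).comp (T.comp (g4L (Complex.I ^ (3 * k)))) := rfl

theorem g4Φ_le (k : ℕ) (T : ℂ →L[ℝ] ℂ) : ‖g4Φ k T‖ ≤ ‖T‖ := by
  rw [g4Φ_apply]
  have h1 := ContinuousLinearMap.opNorm_comp_le (g4L (Complex.I ^ k))
    (T.comp (g4L (Complex.I ^ (3 * k))))
  have h2 := ContinuousLinearMap.opNorm_comp_le T (g4L (Complex.I ^ (3 * k)))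
  have h3 := g4L_norm k
  have h4 := g4L_norm (3 * k)
  calc _ ≤ ‖g4L (Complex.I ^ k)‖ * ‖T.comp (g4L (Complex.I ^ (3 * k)))‖ := h1
    _ ≤ 1 * ‖T.comp (g4L (Complex.I ^ (3 * k)))‖ :=
      mul_le_mul_of_nonneg_right h3 (norm_nonneg _)
    _ = ‖T.comp (g4L (Complex.I ^ (3 * k)))‖ := one_mul _
    _ ≤ ‖T‖ * ‖g4L (Complex.I ^ (3 * k))‖ := h2
    _ ≤ ‖T‖ * 1 := mul_le_mul_of_nonneg_left h4 (norm_nonneg _)
    _ = ‖T‖ := mul_one _

theorem g4Φ_norm (k : ℕ) : ‖g4Φ k‖ ≤ 1 :=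
  ContinuousLinearMap.opNorm_le_bound _ zero_le_one fun T => by
    rw [one_mul]
    exact g4Φ_le k T

theorem g4Φ_det (k : ℕ) (T : ℂ →L[ℝ] ℂ) (hT : |T.det| = 1) : |(g4Φ k T).det| = 1 := by
  have h1 : (g4Φ k T).det = (g4L (Complex.I ^ k)).det * (T.det *
      (g4L (Complex.I ^ (3 * k))).det) := by
    rw [g4Φ_apply]
    have h2 : ∀ A B : ℂ →L[ℝ] ℂ, (A.comp B).det = A.det * B.det := fun A B =>
      LinearMap.det_comp _ _
    rw [h2, h2]
  rw [h1, abs_mul, abs_mul, hT, g4L_det, g4L_det]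
  norm_num

/-- the coordinate at infinity -/
noncomputable def g4y (g : ℝ → ℝ) (h : ℝ) (z : ℂ) : ℂ :=
  open scoped Classical in
  if hz : ∃ k, z ∈ g4R g h k then g4ψ g hz.choose z else 0

theorem g4y_eq (H : QuaKit g h r C) {k : ℕ} {z : ℂ} (hz : z ∈ g4R g h k) :
    g4y g h z = g4ψ g k z := by
  have hex : ∃ k, z ∈ g4R g h k := ⟨k, hz⟩
  unfold g4y
  rw [dif_pos hex]
  exact g4_same H hex.choose_spec hz

theorem g4y_ev (H : QuaKit g h r C) {k : ℕ} {z : ℂ} (hz : z ∈ g4R g h k) :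
    g4y g h =ᶠ[𝓝 z] g4ψ g k := by
  filter_upwards [(g4R_open H k).mem_nhds hz] with b hb
  exact g4y_eq H hb

theorem g4y_contDiffAt (H : QuaKit g h r C) {k : ℕ} {z : ℂ} (hz : z ∈ g4R g h k) :
    ContDiffAt ℝ ∞ (g4y g h) z :=
  (g4ψ_contDiffAt H hz).congr_of_eventuallyEq (g4y_ev H hz)

theorem g4y_fderiv (H : QuaKit g h r C) {k : ℕ} {z : ℂ} (hz : z ∈ g4R g h k) :
    fderiv ℝ (g4y g h) z = g4Φ k (fderiv ℝ (yq g) (g4rt (3 * k) z)) := by
  rw [(g4y_ev H hz).fderiv_eq]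
  exact (g4ψ_hasFDerivAt H hz).fderiv

theorem g4y_det (H : QuaKit g h r C) {k : ℕ} {z : ℂ} (hz : z ∈ g4R g h k) :
    |(fderiv ℝ (g4y g h) z).det| = 1 := by
  rw [g4y_fderiv H hz]
  exact g4Φ_det k _ (H.det _ hz)

theorem g4y_bd1 (H : QuaKit g h r C) {k : ℕ} {z : ℂ} (hz : z ∈ g4R g h k) :
    ‖fderiv ℝ (g4y g h) z‖ ≤ C * dsq z ^ (-(1 / 2) : ℝ) := by
  rw [g4y_fderiv H hz]
  refine (g4Φ_le k _).trans ?_
  have := H.bd1 _ hz
  rwa [g4_dsq] at this

theorem g4y_bd2 (H : QuaKit g h r C) {k : ℕ} {z : ℂ} (hz : z ∈ g4R g h k) :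
    ‖fderiv ℝ (fderiv ℝ (g4y g h)) z‖ ≤ C * dsq z ^ (-(3 / 2) : ℝ) := by
  have hev : fderiv ℝ (g4y g h) =ᶠ[𝓝 z]
      fun b => g4Φ k (fderiv ℝ (yq g) (g4rt (3 * k) b)) := by
    filter_upwards [(g4R_open H k).mem_nhds hz] with b hb
    exact g4y_fderiv H hb
  have h1 : HasFDerivAt (fderiv ℝ (yq g)) (fderiv ℝ (fderiv ℝ (yq g)) (g4rt (3 * k) z))
      (g4rt (3 * k) z) := by
    have h2 : ContDiffAt ℝ 1 (fderiv ℝ (yq g)) (g4rt (3 * k) z) :=
      (g4_yq_at H hz).fderiv_right (m := 1) (by norm_cast)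
    exact (h2.differentiableAt (by simp)).hasFDerivAt
  have h3 := h1.comp z (g4rt_hasFDerivAt (3 * k) z)
  have h4 := (g4Φ k).hasFDerivAt.comp z h3
  rw [hev.fderiv_eq]
  have h5 : fderiv ℝ (fun b => g4Φ k (fderiv ℝ (yq g) (g4rt (3 * k) b))) z =
      (g4Φ k).comp ((fderiv ℝ (fderiv ℝ (yq g)) (g4rt (3 * k) z)).comp
        (g4L (Complex.I ^ (3 * k)))) := h4.fderiv
  rw [h5]
  have h6 := H.bd2 _ hz
  rw [g4_dsq] at h6
  refine le_trans ?_ h6
  have h9 := g4L_norm (3 * k)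
  have h10 := g4Φ_norm k
  set D := fderiv ℝ (fderiv ℝ (yq g)) (g4rt (3 * k) z) with hD
  have h8 : ‖D.comp (g4L (Complex.I ^ (3 * k)))‖ ≤ ‖D‖ := by
    have h11 := ContinuousLinearMap.opNorm_comp_le D (g4L (Complex.I ^ (3 * k)))
    have h12 : ‖D‖ * ‖g4L (Complex.I ^ (3 * k))‖ ≤ ‖D‖ * 1 :=
      mul_le_mul_of_nonneg_left h9 (norm_nonneg D)
    linarith
  have h7 := ContinuousLinearMap.opNorm_comp_le (g4Φ k) (D.comp (g4L (Complex.I ^ (3 * k))))
  have h13 : ‖g4Φ k‖ * ‖D.comp (g4L (Complex.I ^ (3 * k)))‖ ≤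
      1 * ‖D.comp (g4L (Complex.I ^ (3 * k)))‖ :=
    mul_le_mul_of_nonneg_right h10 (norm_nonneg (D.comp (g4L (Complex.I ^ (3 * k)))))
  linarith

/-- injectivity of the coordinate -/
theorem g4y_inj (H : QuaKit g h r C) {z z' : ℂ} (hz : ∃ k, z ∈ g4R g h k)
    (hz' : ∃ k, z' ∈ g4R g h k) (he : g4y g h z = g4y g h z') : z = z' := by
  obtain ⟨j, hj⟩ := hz
  obtain ⟨k, hk⟩ := hz'
  rw [g4y_eq H hj, g4y_eq H hk] at he
  exact g4_sameI H hj hk he

theorem g4y_ne (H : QuaKit g h r C) {z : ℂ} (hz : ∃ k, z ∈ g4R g h k) : g4y g h z ≠ 0 := by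
  obtain ⟨k, hk⟩ := hz
  rw [g4y_eq H hk]
  exact mul_ne_zero (pow_ne_zero _ Complex.I_ne_zero) (H.bij.mapsTo hk).1

theorem g4y_surj (H : QuaKit g h r C) {w : ℂ} (hw : w ≠ 0) (hr : ‖w‖ < r) :
    ∃ z, (∃ k, z ∈ g4R g h k) ∧ g4y g h z = w := by
  obtain ⟨k, hk⟩ := g4_sec hw hr
  obtain ⟨a, ha, hae⟩ := H.bij.surjOn hk
  have h1 : g4rt (3 * k) (g4rt k a) = a := by
    rw [g4rt_add, show 3 * k + k = 4 * k by ring, g4rt_four]
  have h2 : g4rt k a ∈ g4R g h k := by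
    unfold g4R
    rw [mem_setOf_eq, h1]
    exact ha
  refine ⟨g4rt k a, ⟨k, h2⟩, ?_⟩
  rw [g4y_eq H h2]
  unfold g4ψ
  rw [h1, hae, ← mul_assoc, ← pow_add, show k + 3 * k = 4 * k by ring, g4_pow, one_mul]

theorem g4_sub (H : QuaKit g h r C) {z : ℂ} (hz : ∃ k, z ∈ g4R g h k) : z ∈ Sq := by
  obtain ⟨k, hk⟩ := hz
  exact (g4_Sq (3 * k) z).mp (H.sub hk)

/-- points near the sides are in one of the four regions and have small coordinate -/
theorem g4_near (H : QuaKit g h r C) {z : ℂ} (hz : z ∈ Sq) (hd : C * dsq z < h) :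
    (∃ k, z ∈ g4R g h k) ∧ ‖g4y g h z‖ ^ 2 ≤ C * dsq z := by
  have hex : ∃ k, (g4rt (3 * k) z).re < 3 / 4 ∧ (g4rt (3 * k) z).im < 3 / 4 := by
    have h9 : ∀ z, g4rt (3 * 3) z = g4rt 1 z := fun z => by
      rw [show 3 * 3 = 4 * 2 + 1 by norm_num, g4rt_add_four]
    have h6 : ∀ z, g4rt (3 * 2) z = g4rt 2 z := fun z => by
      rw [show 3 * 2 = 4 * 1 + 2 by norm_num, g4rt_add_four]
    rcases lt_or_ge z.re (3 / 4) with h1 | h1
    · rcases lt_or_ge z.im (3 / 4) with h2 | h2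
      · refine ⟨0, ?_⟩
        rw [mul_zero, g4rt_zero]
        exact ⟨h1, h2⟩
      · refine ⟨3, ?_⟩
        rw [h9, (g4rt_re_one z).1, (g4rt_re_one z).2]
        exact ⟨by linarith, h1⟩
    · rcases lt_or_ge z.im (3 / 4) with h2 | h2
      · refine ⟨1, ?_⟩
        rw [mul_one, (g4rt_re_three z).1, (g4rt_re_three z).2]
        exact ⟨h2, by linarith⟩
      · refine ⟨2, ?_⟩
        rw [h6, (g4rt_re_two z).1, (g4rt_re_two z).2]
        exact ⟨by linarith, by linarith⟩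
  obtain ⟨k, hk1, hk2⟩ := hex
  have hk : z ∈ g4R g h k :=
    H.near _ ((g4_Sq (3 * k) z).mpr hz) hk1 hk2 (by rw [g4_dsq]; exact hd)
  refine ⟨⟨k, hk⟩, ?_⟩
  rw [g4y_eq H hk]
  unfold g4ψ
  rw [norm_mul, norm_pow, Complex.norm_I, one_pow, one_mul]
  have := H.nrm _ hk
  rwa [g4_dsq] at this

theorem g4_Bx_open (ρ : ℝ) : IsOpen (Bx ρ) :=
  (isOpen_lt Complex.continuous_re.abs continuous_const).inter
    (isOpen_lt Complex.continuous_im.abs continuous_const)

theorem g4_dsq_cont : Continuous dsq := by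
  unfold dsq
  exact ((Complex.continuous_re).min (continuous_const.sub Complex.continuous_re)).min
    ((Complex.continuous_im).min (continuous_const.sub Complex.continuous_im))

/-- ST-G4: gluing of the four corners. -/
theorem endChart (g : ℝ → ℝ) (h r C : ℝ) (H : QuaKit g h r C) :
    ∃ (V : Set ℂ) (y z : ℂ → ℂ) (ρ C' : ℝ), EndChart V y z ρ C' := by
  have hr := H.hr
  have hC := H.hC
  set y := g4y g h with hy
  set ρ := r / 2 with hρ
  have hρ0 : 0 < ρ := by positivity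
  set V' : Set ℂ := {a | ∃ k, a ∈ g4R g h k} with hV'
  have hV'o : IsOpen V' := by
    have : V' = ⋃ k, g4R g h k := by
      ext a
      simp [hV']
    rw [this]
    exact isOpen_iUnion fun k => g4R_open H k
  have hyc : ContinuousOn y V' := fun a ha => by
    obtain ⟨k, hk⟩ := ha
    exact (g4y_contDiffAt H hk).continuousAt.continuousWithinAt
  set V : Set ℂ := V' ∩ y ⁻¹' (Bx ρ) with hV
  have hVo : IsOpen V := hyc.isOpen_inter_preimage hV'o (g4_Bx_open ρ)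
  have hinj : InjOn y V := fun a ha b hb he => g4y_inj H ha.1 hb.1 he
  set z : ℂ → ℂ := Function.invFunOn y V with hz
  have hBx : ∀ w ∈ Bx ρ, ‖w‖ < r := by
    intro w hw
    refine (Complex.norm_le_abs_re_add_abs_im w).trans_lt ?_
    have h1 := hw.1
    have h2 := hw.2
    rw [hρ] at h1 h2
    linarith
  have hex : ∀ w ∈ Bx ρ, w ≠ 0 → ∃ a ∈ V, y a = w := by
    intro w hw hw0
    obtain ⟨a, ha, hae⟩ := g4y_surj H hw0 (hBx w hw)
    exact ⟨a, ⟨ha, by rw [mem_preimage, hy, hae]; exact hw⟩, hae⟩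
  have hzV : ∀ w ∈ Bx ρ, w ≠ 0 → z w ∈ V := fun w hw hw0 =>
    Function.invFunOn_mem (hex w hw hw0)
  have hyz : ∀ w ∈ Bx ρ, w ≠ 0 → y (z w) = w := fun w hw hw0 =>
    Function.invFunOn_eq (hex w hw hw0)
  have hzy : ∀ a ∈ V, z (y a) = a := fun a ha => hinj.leftInvOn_invFunOn ha
  have hcd : ∀ a ∈ V, ContDiffAt ℝ ∞ y a := by
    rintro a ⟨⟨k, hk⟩, -⟩
    exact g4y_contDiffAt H hk
  have hdet : ∀ a ∈ V, |(fderiv ℝ y a).det| = 1 := by
    rintro a ⟨⟨k, hk⟩, -⟩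
    exact g4y_det H hk
  have hn : (∞ : WithTop ℕ∞) ≠ 0 := by simp
  have hzcd : ∀ a ∈ V, ContDiffAt ℝ ∞ z (y a) := by
    intro a ha
    have hne : (fderiv ℝ y a).det ≠ 0 := by
      intro h0
      have := hdet a ha
      rw [h0, abs_zero] at this
      norm_num at this
    have hfd : HasFDerivAt y (((fderiv ℝ y a).toContinuousLinearEquivOfDetNeZero hne :
        ℂ ≃L[ℝ] ℂ) : ℂ →L[ℝ] ℂ) a := by
      rw [ContinuousLinearMap.coe_toContinuousLinearEquivOfDetNeZero]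
      exact ((hcd a ha).differentiableAt hn).hasFDerivAt
    have hL := (hcd a ha).to_localInverse hfd hn
    have h1 : (hcd a ha).localInverse hfd hn (y a) = a :=
      (hcd a ha).localInverse_apply_image hfd hn
    have h2 : ∀ᶠ w in 𝓝 (y a), y ((hcd a ha).localInverse hfd hn w) = w :=
      ((hcd a ha).hasStrictFDerivAt' hfd hn).eventually_right_inverse
    have h3 : ∀ᶠ w in 𝓝 (y a), (hcd a ha).localInverse hfd hn w ∈ V := by
      have h4 := hL.continuousAt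
      apply h4.eventually_mem
      rw [h1]
      exact hVo.mem_nhds ha
    refine hL.congr_of_eventuallyEq ?_
    filter_upwards [h2, h3] with w hw hwV
    have h5 := hzy _ hwV
    rw [hw] at h5
    exact h5
  have hcomp : ∀ a ∈ V, ∀ v, fderiv ℝ y a (fderiv ℝ z (y a) v) = v := by
    intro a ha v
    have hzd : HasFDerivAt z (fderiv ℝ z (y a)) (y a) :=
      ((hzcd a ha).differentiableAt hn).hasFDerivAt
    have hyd : HasFDerivAt y (fderiv ℝ y a) (z (y a)) := by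
      rw [hzy a ha]
      exact ((hcd a ha).differentiableAt hn).hasFDerivAt
    have h1 := hyd.comp (y a) hzd
    have hBo : IsOpen (Bx ρ \ {0}) := (g4_Bx_open ρ).sdiff isClosed_singleton
    have hmem : y a ∈ Bx ρ \ {0} := ⟨ha.2, g4y_ne H ha.1⟩
    have h2 : (y ∘ z) =ᶠ[𝓝 (y a)] id := by
      filter_upwards [hBo.mem_nhds hmem] with w hw
      exact hyz w hw.1 hw.2
    have h3 : HasFDerivAt (y ∘ z) (ContinuousLinearMap.id ℝ ℂ) (y a) :=
      (hasFDerivAt_id _).congr_of_eventuallyEq h2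
    have h4 := h1.unique h3
    have h5 := congrArg (fun L : ℂ →L[ℝ] ℂ => L v) h4
    exact h5
  refine ⟨V, y, z, ρ, 2 * C, ?_⟩
  refine ⟨hρ0, by positivity, hVo, fun a ha => g4_sub H ha.1,
    fun a ha => ⟨ha.2, g4y_ne H ha.1⟩, hzV, hzy, hyz, ?_, ?_, hdet, ?_, ?_, ?_, ?_, ?_⟩
  · exact fun a ha => (hcd a ha).contDiffWithinAt
  · intro w hw
    have h1 := hzcd (z w) (hzV w hw.1 hw.2)
    rw [hyz w hw.1 hw.2] at h1
    exact h1.contDiffWithinAt
  · intro w hw hw0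
    have h1 := hcomp (z w) (hzV w hw hw0)
    rw [hyz w hw hw0] at h1
    have h2 : (fderiv ℝ y (z w)).comp (fderiv ℝ z w) = ContinuousLinearMap.id ℝ ℂ := by
      ext v
      exact h1 v
    have h3 : (fderiv ℝ y (z w)).det * (fderiv ℝ z w).det = 1 := by
      have h4 : ((fderiv ℝ y (z w)).comp (fderiv ℝ z w)).det =
          (fderiv ℝ y (z w)).det * (fderiv ℝ z w).det := LinearMap.det_comp _ _
      rw [← h4, h2]
      exact LinearMap.det_id
    have h5 := hdet (z w) (hzV w hw hw0)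
    have h6 := congrArg abs h3
    rw [abs_mul, h5, one_mul, abs_one] at h6
    exact h6
  · intro r' hr' hrρ
    set δ := min h (r' ^ 2) / C with hδ
    have hδ0 : 0 < δ := div_pos (lt_min H.hh (by positivity)) hC
    have hclaim : ∀ a ∈ Sq, dsq a < δ → a ∈ V ∧ y a ∈ Bx r' := by
      intro a ha had
      rw [hδ, lt_div_iff₀ hC, mul_comm, lt_min_iff] at had
      obtain ⟨h1, h2⟩ := g4_near H ha had.1
      have h3 : ‖y a‖ < r' := by
        have h4 : ‖y a‖ ^ 2 < r' ^ 2 := lt_of_le_of_lt h2 had.2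
        exact lt_of_pow_lt_pow_left₀ 2 hr'.le h4
      have h5 : y a ∈ Bx r' :=
        ⟨(Complex.abs_re_le_norm _).trans_lt h3, (Complex.abs_im_le_norm _).trans_lt h3⟩
      exact ⟨⟨h1, ⟨h5.1.trans_le hrρ, h5.2.trans_le hrρ⟩⟩, h5⟩
    have hF : IsCompact {a : ℂ | δ ≤ dsq a} := by
      apply Metric.isCompact_of_isClosed_isBounded
      · exact isClosed_le continuous_const g4_dsq_cont
      · refine (Metric.isBounded_iff_subset_closedBall 0).mpr ⟨2, fun a ha => ?_⟩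
        have h1 : a ∈ Sq := (g4_mem_Sq a).mpr (lt_of_lt_of_le hδ0 ha)
        rw [mem_closedBall_zero_iff]
        refine (Complex.norm_le_abs_re_add_abs_im a).trans ?_
        rw [abs_of_pos h1.1, abs_of_pos h1.2.2.1]
        linarith [h1.2.1, h1.2.2.2]
    have hU : IsOpen (V ∩ y ⁻¹' (Bx r')) := by
      have h1 : ContinuousOn y V := hyc.mono inter_subset_left
      exact h1.isOpen_inter_preimage hVo (g4_Bx_open r')
    have hK : {a | a ∈ Sq ∧ (a ∈ V → y a ∉ Bx r')} =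
        {a : ℂ | δ ≤ dsq a} \ (V ∩ y ⁻¹' (Bx r')) := by
      ext a
      constructor
      · rintro ⟨h1, h2⟩
        refine ⟨?_, fun h3 => h2 h3.1 h3.2⟩
        by_contra h4
        have h5 := hclaim a h1 (not_le.mp h4)
        exact h2 h5.1 h5.2
      · rintro ⟨h1, h2⟩
        exact ⟨(g4_mem_Sq a).mpr (lt_of_lt_of_le hδ0 h1), fun h3 h4 => h2 ⟨h3, h4⟩⟩
    rw [hK]
    exact hF.diff hU
  · rintro a ⟨⟨k, hk⟩, h2⟩
    have h1 := g4y_bd1 H hk
    have h3 : 0 ≤ dsq a ^ (-(1 / 2) : ℝ) :=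
      Real.rpow_nonneg ((g4_mem_Sq a).mp (g4_sub H ⟨k, hk⟩)).le _
    have h4 : 0 ≤ C * dsq a ^ (-(1 / 2) : ℝ) := mul_nonneg hC.le h3
    linarith
  · rintro a ⟨⟨k, hk⟩, h2⟩
    have h1 := g4y_bd2 H hk
    have h3 : 0 ≤ dsq a ^ (-(3 / 2) : ℝ) :=
      Real.rpow_nonneg ((g4_mem_Sq a).mp (g4_sub H ⟨k, hk⟩)).le _
    have h4 : 0 ≤ C * dsq a ^ (-(3 / 2) : ℝ) := mul_nonneg hC.le h3
    linarith
  · rintro a ⟨⟨k, hk⟩, h2⟩
    have h1 := g4y_bd1 H hk
    have h3 := g4_inv_norm (hdet a ⟨⟨k, hk⟩, h2⟩) (hcomp a ⟨⟨k, hk⟩, h2⟩)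
    linarith

end

end Pool.Agent.H23.ST
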