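import Pool.Agent.H23.ST.Geo3

/-! # The bounds of the transition maps of the product of two spheres -/

namespace Pool.Agent.H23.ST

open MeasureTheory Set Pool.Agent.H68.VD Pool.Agent.H68.GM Pool.Agent.H6.ST
open scoped ENNReal ContDiff Topology

noncomputable section

/-- The projection to the first two coordinates. -/
def pbP1 : Eu 4 →L[ℝ] Eu 2 := LinearMap.toContinuousLinearMap
  { toFun := fun x => WithLp.toLp 2 ![x 0, x 1]
    map_add' := fun x y => by ext k; fin_cases k <;> rfl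
    map_smul' := fun a x => by ext k; fin_cases k <;> rfl }

/-- The projection to the last two coordinates. -/
def pbP2 : Eu 4 →L[ℝ] Eu 2 := LinearMap.toContinuousLinearMap
  { toFun := fun x => WithLp.toLp 2 ![x 2, x 3]
    map_add' := fun x y => by ext k; fin_cases k <;> rfl
    map_smul' := fun a x => by ext k; fin_cases k <;> rfl }

/-- The inclusion of the first two coordinates. -/
def pbJ1 : Eu 2 →L[ℝ] Eu 4 := LinearMap.toContinuousLinearMap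
  { toFun := fun x => WithLp.toLp 2 ![x 0, x 1, 0, 0]
    map_add' := fun x y => by ext k; fin_cases k <;> simp
    map_smul' := fun a x => by ext k; fin_cases k <;> simp }

/-- The inclusion of the last two coordinates. -/
def pbJ2 : Eu 2 →L[ℝ] Eu 4 := LinearMap.toContinuousLinearMap
  { toFun := fun x => WithLp.toLp 2 ![0, 0, x 0, x 1]
    map_add' := fun x y => by ext k; fin_cases k <;> simp
    map_smul' := fun a x => by ext k; fin_cases k <;> simp }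

theorem pb_j4 (a b : Eu 2) : j4 (a, b) = pbJ1 a + pbJ2 b := by
  ext k
  fin_cases k <;> simp [j4, pbJ1, pbJ2]

theorem pb_j4s (y : Eu 4) : j4.symm y = (pbP1 y, pbP2 y) := rfl

/-- The bounds of a block diagonal map. -/
theorem pb_blk : ∃ K : ℝ, 0 ≤ K ∧ ∀ (g1 g2 : Eu 2 → Eu 2) (y : Eu 4),
    ContDiffAt ℝ ∞ g1 (pbP1 y) → ContDiffAt ℝ ∞ g2 (pbP2 y) →
    ‖fderiv ℝ (fun y => pbJ1 (g1 (pbP1 y)) + pbJ2 (g2 (pbP2 y))) y‖ ≤
      K * (‖fderiv ℝ g1 (pbP1 y)‖ + ‖fderiv ℝ g2 (pbP2 y)‖) ∧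
    ‖fderiv ℝ (fderiv ℝ (fun y => pbJ1 (g1 (pbP1 y)) + pbJ2 (g2 (pbP2 y)))) y‖ ≤
      K * (‖fderiv ℝ (fderiv ℝ g1) (pbP1 y)‖ + ‖fderiv ℝ (fderiv ℝ g2) (pbP2 y)‖) := by
  set Φ1 : (Eu 2 →L[ℝ] Eu 2) →L[ℝ] (Eu 4 →L[ℝ] Eu 4) :=
    (ContinuousLinearMap.compL ℝ (Eu 4) (Eu 2) (Eu 4) pbJ1).comp
      ((ContinuousLinearMap.compL ℝ (Eu 4) (Eu 2) (Eu 2)).flip pbP1) with hΦ1
  set Φ2 : (Eu 2 →L[ℝ] Eu 2) →L[ℝ] (Eu 4 →L[ℝ] Eu 4) :=
    (ContinuousLinearMap.compL ℝ (Eu 4) (Eu 2) (Eu 4) pbJ2).comp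
      ((ContinuousLinearMap.compL ℝ (Eu 4) (Eu 2) (Eu 2)).flip pbP2) with hΦ2
  have e1 : ∀ L, Φ1 L = pbJ1.comp (L.comp pbP1) := fun L => rfl
  have e2 : ∀ L, Φ2 L = pbJ2.comp (L.comp pbP2) := fun L => rfl
  refine ⟨(‖Φ1‖ + ‖Φ2‖) * (1 + ‖pbP1‖ + ‖pbP2‖), by positivity, fun g1 g2 y h1 h2 => ?_⟩
  have hF : ∀ z : Eu 4, DifferentiableAt ℝ g1 (pbP1 z) → DifferentiableAt ℝ g2 (pbP2 z) →
      HasFDerivAt (fun y => pbJ1 (g1 (pbP1 y)) + pbJ2 (g2 (pbP2 y)))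
        (Φ1 (fderiv ℝ g1 (pbP1 z)) + Φ2 (fderiv ℝ g2 (pbP2 z))) z := by
    intro z hz1 hz2
    rw [e1, e2]
    exact (pbJ1.hasFDerivAt.comp z (hz1.hasFDerivAt.comp z pbP1.hasFDerivAt)).add
      (pbJ2.hasFDerivAt.comp z (hz2.hasFDerivAt.comp z pbP2.hasFDerivAt))
  have hn1 : ∀ᶠ z in 𝓝 y, DifferentiableAt ℝ g1 (pbP1 z) := by
    have h := ((h1.of_le (m := 1) (by norm_cast)).eventually (by simp)).mono
      (fun z (hz : ContDiffAt ℝ 1 g1 z) => hz.differentiableAt (by simp))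
    exact pbP1.continuous.continuousAt.eventually h
  have hn2 : ∀ᶠ z in 𝓝 y, DifferentiableAt ℝ g2 (pbP2 z) := by
    have h := ((h2.of_le (m := 1) (by norm_cast)).eventually (by simp)).mono
      (fun z (hz : ContDiffAt ℝ 1 g2 z) => hz.differentiableAt (by simp))
    exact pbP2.continuous.continuousAt.eventually h
  have hev : fderiv ℝ (fun y => pbJ1 (g1 (pbP1 y)) + pbJ2 (g2 (pbP2 y))) =ᶠ[𝓝 y]
      fun z => Φ1 (fderiv ℝ g1 (pbP1 z)) + Φ2 (fderiv ℝ g2 (pbP2 z)) := by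
    filter_upwards [hn1, hn2] with z hz1 hz2
    exact (hF z hz1 hz2).fderiv
  have hd1 : DifferentiableAt ℝ (fderiv ℝ g1) (pbP1 y) :=
    (h1.fderiv_right (m := 1) (by norm_cast)).differentiableAt (by simp)
  have hd2 : DifferentiableAt ℝ (fderiv ℝ g2) (pbP2 y) :=
    (h2.fderiv_right (m := 1) (by norm_cast)).differentiableAt (by simp)
  have hS : HasFDerivAt (fun z => Φ1 (fderiv ℝ g1 (pbP1 z)) + Φ2 (fderiv ℝ g2 (pbP2 z)))
      (Φ1.comp ((fderiv ℝ (fderiv ℝ g1) (pbP1 y)).comp pbP1) +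
        Φ2.comp ((fderiv ℝ (fderiv ℝ g2) (pbP2 y)).comp pbP2)) y :=
    (Φ1.hasFDerivAt.comp y (hd1.hasFDerivAt.comp y pbP1.hasFDerivAt)).add
      (Φ2.hasFDerivAt.comp y (hd2.hasFDerivAt.comp y pbP2.hasFDerivAt))
  constructor
  · rw [hev.self_of_nhds]
    set u := ‖fderiv ℝ g1 (pbP1 y)‖ with hu
    set v := ‖fderiv ℝ g2 (pbP2 y)‖ with hv
    have hu0 : 0 ≤ u := ContinuousLinearMap.opNorm_nonneg _
    have hv0 : 0 ≤ v := ContinuousLinearMap.opNorm_nonneg _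
    have ha : 0 ≤ ‖Φ1‖ := ContinuousLinearMap.opNorm_nonneg _
    have hb : 0 ≤ ‖Φ2‖ := ContinuousLinearMap.opNorm_nonneg _
    have hc : 0 ≤ ‖pbP1‖ := ContinuousLinearMap.opNorm_nonneg _
    have hd : 0 ≤ ‖pbP2‖ := ContinuousLinearMap.opNorm_nonneg _
    calc ‖Φ1 (fderiv ℝ g1 (pbP1 y)) + Φ2 (fderiv ℝ g2 (pbP2 y))‖
        ≤ ‖Φ1‖ * u + ‖Φ2‖ * v :=
          (norm_add_le _ _).trans (add_le_add (Φ1.le_opNorm _) (Φ2.le_opNorm _))
      _ ≤ (‖Φ1‖ + ‖Φ2‖) * (u + v) := by nlinarith [mul_nonneg ha hv0, mul_nonneg hb hu0]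
      _ ≤ (‖Φ1‖ + ‖Φ2‖) * (1 + ‖pbP1‖ + ‖pbP2‖) * (u + v) := by
          have h0 : 0 ≤ (‖Φ1‖ + ‖Φ2‖) * (u + v) := by positivity
          nlinarith [mul_nonneg h0 hc, mul_nonneg h0 hd]
  · rw [hev.fderiv_eq, hS.fderiv]
    set u := ‖fderiv ℝ (fderiv ℝ g1) (pbP1 y)‖ with hu
    set v := ‖fderiv ℝ (fderiv ℝ g2) (pbP2 y)‖ with hv
    have hu0 : 0 ≤ u := ContinuousLinearMap.opNorm_nonneg _
    have hv0 : 0 ≤ v := ContinuousLinearMap.opNorm_nonneg _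
    have ha : 0 ≤ ‖Φ1‖ := ContinuousLinearMap.opNorm_nonneg _
    have hb : 0 ≤ ‖Φ2‖ := ContinuousLinearMap.opNorm_nonneg _
    have hc : 0 ≤ ‖pbP1‖ := ContinuousLinearMap.opNorm_nonneg _
    have hd : 0 ≤ ‖pbP2‖ := ContinuousLinearMap.opNorm_nonneg _
    have b1 : ‖Φ1.comp ((fderiv ℝ (fderiv ℝ g1) (pbP1 y)).comp pbP1)‖ ≤ ‖Φ1‖ * (u * ‖pbP1‖) :=
      (ContinuousLinearMap.opNorm_comp_le _ _).trans
        (mul_le_mul_of_nonneg_left (ContinuousLinearMap.opNorm_comp_le _ _) ha)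
    have b2 : ‖Φ2.comp ((fderiv ℝ (fderiv ℝ g2) (pbP2 y)).comp pbP2)‖ ≤ ‖Φ2‖ * (v * ‖pbP2‖) :=
      (ContinuousLinearMap.opNorm_comp_le _ _).trans
        (mul_le_mul_of_nonneg_left (ContinuousLinearMap.opNorm_comp_le _ _) hb)
    calc _ ≤ ‖Φ1‖ * (u * ‖pbP1‖) + ‖Φ2‖ * (v * ‖pbP2‖) :=
          (ContinuousLinearMap.opNorm_add_le _ _).trans (add_le_add b1 b2)
      _ ≤ ‖Φ1‖ * (u * (1 + ‖pbP1‖ + ‖pbP2‖)) + ‖Φ2‖ * (v * (1 + ‖pbP1‖ + ‖pbP2‖)) := by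
          gcongr <;> linarith
      _ ≤ (‖Φ1‖ + ‖Φ2‖) * (1 + ‖pbP1‖ + ‖pbP2‖) * (u + v) := by
          have h1 : 0 ≤ ‖Φ1‖ * (v * (1 + ‖pbP1‖ + ‖pbP2‖)) := by positivity
          have h2 : 0 ≤ ‖Φ2‖ * (u * (1 + ‖pbP1‖ + ‖pbP2‖)) := by positivity
          nlinarith [h1, h2]

/-- The transition maps on one of the two factors. -/
theorem pb_fac {S : Type} [TopologicalSpace S] (A B : OpenPartialHomeomorph S (Eu 2))
    (h : Sph A B) : ∃ C : ℝ, 0 ≤ C ∧ ∀ (c : Fin 2) (d : ℝ), 0 < d → d ≤ 1 / 2 → ∀ z : Eu 2,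
      (∀ k, d ≤ z k ∧ z k ≤ 1 - d) → z ∈ A.target → A.symm z ∈ (if c = 0 then A else B).source →
      ContDiffAt ℝ ∞ (fun y => (if c = 0 then A else B) (A.symm y)) z ∧
      ContDiffAt ℝ ∞ (fun y => A ((if c = 0 then A else B).symm y))
        ((if c = 0 then A else B) (A.symm z)) ∧
      ‖fderiv ℝ (fun y => (if c = 0 then A else B) (A.symm y)) z‖ ≤ C * d ^ (-(1 / 2) : ℝ) ∧
      ‖fderiv ℝ (fun y => A ((if c = 0 then A else B).symm y))
        ((if c = 0 then A else B) (A.symm z))‖ ≤ C * d ^ (-(1 / 2) : ℝ) ∧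
      ‖fderiv ℝ (fderiv ℝ (fun y => (if c = 0 then A else B) (A.symm y))) z‖ ≤
        C * d ^ (-(3 / 2) : ℝ) := by
  obtain ⟨C, hC⟩ := h.bds
  refine ⟨max C 1, le_trans zero_le_one (le_max_right _ _), fun c d hd hd2 z hz hzA hzc => ?_⟩
  have hp1 : 0 < d ^ (-(1 / 2) : ℝ) := Real.rpow_pos_of_pos hd _
  have hp3 : 0 < d ^ (-(3 / 2) : ℝ) := Real.rpow_pos_of_pos hd _
  by_cases hc : c = 0
  · simp only [hc, if_true] at hzc ⊢
    have hid : (fun y => A (A.symm y)) =ᶠ[𝓝 z] fun y => y := by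
      filter_upwards [A.open_target.mem_nhds hzA] with y hy
      exact A.right_inv hy
    have hzz : A (A.symm z) = z := A.right_inv hzA
    have hcd : ContDiffAt ℝ ∞ (fun y => A (A.symm y)) z :=
      ContDiffAt.congr_of_eventuallyEq contDiffAt_id hid
    have hf1 : fderiv ℝ (fun y => A (A.symm y)) z = ContinuousLinearMap.id ℝ (Eu 2) := by
      rw [hid.fderiv_eq]; exact fderiv_fun_id
    have hf2 : fderiv ℝ (fderiv ℝ (fun y => A (A.symm y))) z = 0 := by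
      have : fderiv ℝ (fun y => A (A.symm y)) =ᶠ[𝓝 z]
          fun _ => ContinuousLinearMap.id ℝ (Eu 2) := by
        filter_upwards [hid.fderiv (𝕜 := ℝ)] with y hy
        rw [hy]; exact fderiv_fun_id
      rw [this.fderiv_eq]
      exact fderiv_const_apply _
    have h1 : (1 : ℝ) ≤ d ^ (-(1 / 2) : ℝ) :=
      Real.one_le_rpow_of_pos_of_le_one_of_nonpos hd (by linarith) (by norm_num)
    have h2 : ‖ContinuousLinearMap.id ℝ (Eu 2)‖ ≤ max C 1 * d ^ (-(1 / 2) : ℝ) := by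
      refine (ContinuousLinearMap.norm_id_le (𝕜 := ℝ) (E := Eu 2)).trans ?_
      calc (1 : ℝ) ≤ 1 * d ^ (-(1 / 2) : ℝ) := by linarith
        _ ≤ max C 1 * d ^ (-(1 / 2) : ℝ) := by gcongr; exact le_max_right _ _
    rw [hzz]
    refine ⟨hcd, hcd, by rw [hf1]; exact h2, by rw [hf1]; exact h2, ?_⟩
    rw [hf2]
    refine (le_of_eq ContinuousLinearMap.opNorm_zero).trans ?_
    exact mul_nonneg (le_trans zero_le_one (le_max_right _ _)) hp3.le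
  · simp only [hc, if_false] at hzc ⊢
    have hoAB : IsOpen {y | y ∈ A.target ∧ A.symm y ∈ B.source} :=
      A.symm.isOpen_inter_preimage B.open_source
    have hoBA : IsOpen {y | y ∈ B.target ∧ B.symm y ∈ A.source} :=
      B.symm.isOpen_inter_preimage A.open_source
    have hm : B (A.symm z) ∈ {y | y ∈ B.target ∧ B.symm y ∈ A.source} :=
      ⟨B.map_source hzc, by rw [B.left_inv hzc]; exact A.map_target hzA⟩
    obtain ⟨c1, c2, c3⟩ := hC d hd z hz hzc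
    refine ⟨h.smAB.contDiffAt (hoAB.mem_nhds ⟨hzA, hzc⟩), h.smBA.contDiffAt (hoBA.mem_nhds hm),
      c1.trans ?_, c2.trans ?_, c3.trans ?_⟩
    · gcongr; exact le_max_left _ _
    · gcongr; exact le_max_left _ _
    · gcongr; exact le_max_left _ _

theorem pch_bds (S : Type) [TopologicalSpace S] [T2Space S] [CompactSpace S]
    (A B : OpenPartialHomeomorph S (Eu 2)) (h : Sph A B) :
    ∃ C : ℝ, 0 ≤ C ∧ TrB (pch A B) (0, 0) C := by
  obtain ⟨K, hK, hb⟩ := pb_blk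
  obtain ⟨C, hC, hf⟩ := pb_fac A B h
  refine ⟨K * (C + C), by positivity, fun i d hd y hy hyd => ?_⟩
  have hd2 : d ≤ 1 / 2 := by have := hy 0; linarith
  obtain ⟨hyt, hys⟩ := hyd
  have htr : tr (pch A B) (0, 0) i = fun y =>
      pbJ1 ((fun z => (if i.1 = 0 then A else B) (A.symm z)) (pbP1 y)) +
      pbJ2 ((fun z => (if i.2 = 0 then A else B) (A.symm z)) (pbP2 y)) := by
    funext y
    exact pb_j4 _ _
  have htr2 : tr (pch A B) i (0, 0) = fun y =>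
      pbJ1 ((fun z => A ((if i.1 = 0 then A else B).symm z)) (pbP1 y)) +
      pbJ2 ((fun z => A ((if i.2 = 0 then A else B).symm z)) (pbP2 y)) := by
    funext y
    exact pb_j4 _ _
  have ht : pbP1 y ∈ A.target ∧ pbP2 y ∈ A.target := by
    have : j4.symm y ∈ (A.prod A).target := hyt.2
    exact this
  have hs : A.symm (pbP1 y) ∈ (if i.1 = 0 then A else B).source ∧
      A.symm (pbP2 y) ∈ (if i.2 = 0 then A else B).source := by
    have : (A.symm (pbP1 y), A.symm (pbP2 y)) ∈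
        ((if i.1 = 0 then A else B).prod (if i.2 = 0 then A else B)).source := hys.1
    exact this
  have hy1 : ∀ k, d ≤ pbP1 y k ∧ pbP1 y k ≤ 1 - d := by
    intro k; fin_cases k
    · exact hy 0
    · exact hy 1
  have hy2 : ∀ k, d ≤ pbP2 y k ∧ pbP2 y k ≤ 1 - d := by
    intro k; fin_cases k
    · exact hy 2
    · exact hy 3
  obtain ⟨a1, a2, a3, a4, a5⟩ := hf i.1 d hd hd2 (pbP1 y) hy1 ht.1 hs.1
  obtain ⟨b1, b2, b3, b4, b5⟩ := hf i.2 d hd hd2 (pbP2 y) hy2 ht.2 hs.2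
  obtain ⟨r1, r2⟩ := hb _ _ y a1 b1
  have q1 : pbP1 (tr (pch A B) (0, 0) i y) = (if i.1 = 0 then A else B) (A.symm (pbP1 y)) := by
    ext k; fin_cases k <;> rfl
  have q2 : pbP2 (tr (pch A B) (0, 0) i y) = (if i.2 = 0 then A else B) (A.symm (pbP2 y)) := by
    ext k; fin_cases k <;> rfl
  rw [← q1] at a2 a4
  rw [← q2] at b2 b4
  obtain ⟨s1, -⟩ := hb _ _ (tr (pch A B) (0, 0) i y) a2 b2
  refine ⟨?_, ?_, ?_⟩
  · rw [htr]
    refine r1.trans ?_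
    calc _ ≤ K * (C * d ^ (-(1 / 2) : ℝ) + C * d ^ (-(1 / 2) : ℝ)) := by gcongr
      _ = _ := by ring
  · rw [htr2]
    refine s1.trans ?_
    calc _ ≤ K * (C * d ^ (-(1 / 2) : ℝ) + C * d ^ (-(1 / 2) : ℝ)) := by gcongr
      _ = _ := by ring
  · rw [htr]
    refine r2.trans ?_
    calc _ ≤ K * (C * d ^ (-(3 / 2) : ℝ) + C * d ^ (-(3 / 2) : ℝ)) := by gcongr
      _ = _ := by ring

end

end Pool.Agent.H23.ST
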