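import Pool.Agent.H23.ST.Geo3

/-! # Row ST-G8: compact subsets of the charts whose interiors cover the product -/

namespace Pool.Agent.H23.ST

open MeasureTheory Set Pool.Agent.H68.VD Pool.Agent.H68.GM Pool.Agent.H6.ST
open scoped ENNReal ContDiff Topology

private theorem pchK_two (S : Type) [TopologicalSpace S] [T2Space S] [CompactSpace S]
    (c : Fin 2 → OpenPartialHomeomorph S (Eu 2)) (h : ∀ x, x ∈ (c 0).source ∨ x ∈ (c 1).source) :
    ∃ K : Fin 2 → Set (Eu 2), (∀ i, IsCompact (K i)) ∧ (∀ i, K i ⊆ (c i).target) ∧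
      ∀ x : S, ∃ i, x ∈ (c i).source ∧ c i x ∈ interior (K i) := by
  obtain ⟨V, hVo, hV1, hV2⟩ := normal_exists_closure_subset
    (s := ((c 1).source)ᶜ) (t := (c 0).source) (c 1).open_source.isClosed_compl (c 0).open_source
    (fun x hx => (h x).resolve_right hx)
  obtain ⟨W, hWo, hW1, hW2⟩ := normal_exists_closure_subset
    (s := Vᶜ) (t := (c 1).source) hVo.isClosed_compl (c 1).open_source
    (fun x hx => by
      by_contra hcon
      exact hx (hV1 hcon))
  have hint : ∀ (i : Fin 2) (U : Set S), IsOpen U → closure U ⊆ (c i).source → ∀ x ∈ U,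
      c i x ∈ interior (c i '' closure U) := by
    intro i U hU hUs x hx
    exact interior_maximal (image_mono subset_closure)
      ((c i).isOpen_image_of_subset_source hU (subset_closure.trans hUs)) (mem_image_of_mem _ hx)
  have hcpt : ∀ (i : Fin 2) (U : Set S), closure U ⊆ (c i).source →
      IsCompact (c i '' closure U) := fun i U hUs =>
    isClosed_closure.isCompact.image_of_continuousOn ((c i).continuousOn.mono hUs)
  have hsub : ∀ (i : Fin 2) (U : Set S), closure U ⊆ (c i).source →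
      c i '' closure U ⊆ (c i).target := by
    rintro i U hUs _ ⟨x, hx, rfl⟩
    exact (c i).map_source (hUs hx)
  refine ⟨![c 0 '' closure V, c 1 '' closure W], ?_, ?_, ?_⟩
  · intro i
    fin_cases i
    · exact hcpt 0 V hV2
    · exact hcpt 1 W hW2
  · intro i
    fin_cases i
    · exact hsub 0 V hV2
    · exact hsub 1 W hW2
  · intro x
    by_cases hx : x ∈ V
    · exact ⟨0, hV2 (subset_closure hx), hint 0 V hVo hV2 x hx⟩
    · have hx' : x ∈ W := hW1 hx
      exact ⟨1, hW2 (subset_closure hx'), hint 1 W hWo hW2 x hx'⟩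

theorem pch_cov (S : Type) [TopologicalSpace S] [T2Space S] [CompactSpace S]
    (A B : OpenPartialHomeomorph S (Eu 2)) (h : Sph A B) :
    ∃ K : Fin 2 × Fin 2 → Set (Eu 4), KCov (pch A B) K := by
  obtain ⟨K, hK1, hK2, hK3⟩ := pchK_two S (fun i => if i = 0 then A else B) h.cover
  refine ⟨fun p => j4 '' (K p.1 ×ˢ K p.2), ?_, ?_, ?_⟩
  · intro p
    exact ((hK1 p.1).prod (hK1 p.2)).image j4.continuous
  · rintro p _ ⟨q, hq, rfl⟩
    have h1 := hK2 p.1 hq.1
    have h2 := hK2 p.2 hq.2
    unfold pch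
    rw [OpenPartialHomeomorph.trans_target]
    refine ⟨mem_univ _, ?_⟩
    rw [mem_preimage]
    have h3 : (j4.toOpenPartialHomeomorph).symm (j4 q) = q := j4.symm_apply_apply q
    rw [h3]
    exact ⟨h1, h2⟩
  · rintro ⟨x, y⟩
    obtain ⟨i, hi1, hi2⟩ := hK3 x
    obtain ⟨j, hj1, hj2⟩ := hK3 y
    refine ⟨(i, j), ?_, ?_⟩
    · unfold pch
      rw [OpenPartialHomeomorph.trans_source]
      exact ⟨⟨hi1, hj1⟩, mem_univ _⟩
    · rw [← j4.image_interior, interior_prod_eq]
      exact mem_image_of_mem j4 ⟨hi2, hj2⟩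

end Pool.Agent.H23.ST
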