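import Pool.Agent.H23.ST.Geo3

/-! # ST-G7: the product charts of the product of two spheres are an atlas -/

set_option autoImplicit false

namespace Pool.Agent.H23.ST

open MeasureTheory Set Pool.Agent.H68.VD Pool.Agent.H68.GM Pool.Agent.H6.ST
open scoped ENNReal ContDiff Topology

noncomputable section

/-- `j4` as a continuous linear equivalence -/
def stg7J : (Eu 2 × Eu 2) ≃L[ℝ] Eu 4 where
  toFun := j4
  invFun := j4.symm
  left_inv := j4.left_inv
  right_inv := j4.right_inv
  map_add' p q := by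
    ext k
    fin_cases k <;> rfl
  map_smul' c p := by
    ext k
    fin_cases k <;> rfl
  continuous_toFun := j4.continuous
  continuous_invFun := j4.symm.continuous

variable {S : Type} [TopologicalSpace S]

/-- the chart with the number `c` -/
def stg7C (A B : OpenPartialHomeomorph S (Eu 2)) (c : Fin 2) : OpenPartialHomeomorph S (Eu 2) :=
  if c = 0 then A else B

/-- the domain of the transition map -/
def stg7D (A B : OpenPartialHomeomorph S (Eu 2)) (a b : Fin 2) : Set (Eu 2) :=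
  {y | y ∈ (stg7C A B a).target ∧ (stg7C A B a).symm y ∈ (stg7C A B b).source}

/-- the transition map -/
def stg7T (A B : OpenPartialHomeomorph S (Eu 2)) (a b : Fin 2) (y : Eu 2) : Eu 2 :=
  (stg7C A B b) ((stg7C A B a).symm y)

theorem stg7_open (A B : OpenPartialHomeomorph S (Eu 2)) (a b : Fin 2) :
    IsOpen (stg7D A B a b) := by
  have h := (stg7C A B a).isOpen_inter_preimage_symm (stg7C A B b).open_source
  exact h

theorem stg7_self (A B : OpenPartialHomeomorph S (Eu 2)) (a : Fin 2) {y : Eu 2}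
    (hy : y ∈ stg7D A B a a) : stg7T A B a a y = y :=
  (stg7C A B a).right_inv hy.1

theorem stg7_inv (A B : OpenPartialHomeomorph S (Eu 2)) (a b : Fin 2) {y : Eu 2}
    (hy : y ∈ stg7D A B a b) : stg7T A B a b y ∈ stg7D A B b a ∧
      stg7T A B b a (stg7T A B a b y) = y := by
  have h1 : (stg7C A B b).symm ((stg7C A B b) ((stg7C A B a).symm y)) = (stg7C A B a).symm y :=
    (stg7C A B b).left_inv hy.2
  refine ⟨⟨(stg7C A B b).map_source hy.2, ?_⟩, ?_⟩
  · show (stg7C A B b).symm ((stg7C A B b) ((stg7C A B a).symm y)) ∈ _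
    rw [h1]
    exact (stg7C A B a).map_target hy.1
  · show (stg7C A B a) ((stg7C A B b).symm ((stg7C A B b) ((stg7C A B a).symm y))) = y
    rw [h1]
    exact (stg7C A B a).right_inv hy.1

theorem stg7_smooth {A B : OpenPartialHomeomorph S (Eu 2)} (h : Sph A B) (a b : Fin 2) :
    ContDiffOn ℝ ∞ (stg7T A B a b) (stg7D A B a b) := by
  by_cases hab : a = b
  · subst hab
    exact contDiffOn_id.congr fun y hy => stg7_self A B a hy
  · by_cases ha : a = 0
    · have hb : b = 1 := by
        fin_cases a <;> fin_cases b <;> simp_all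
      subst ha hb
      exact h.smAB
    · have ha1 : a = 1 := by
        fin_cases a <;> simp_all
      have hb : b = 0 := by
        fin_cases a <;> fin_cases b <;> simp_all
      subst ha1 hb
      exact h.smBA

theorem stg7_diff {A B : OpenPartialHomeomorph S (Eu 2)} (h : Sph A B) (a b : Fin 2) {y : Eu 2}
    (hy : y ∈ stg7D A B a b) : DifferentiableAt ℝ (stg7T A B a b) y :=
  ((stg7_smooth h a b).contDiffAt ((stg7_open A B a b).mem_nhds hy)).differentiableAt (by simp)

theorem stg7_chain {A B : OpenPartialHomeomorph S (Eu 2)} (h : Sph A B) (a b : Fin 2) {y : Eu 2}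
    (hy : y ∈ stg7D A B a b) :
    (fderiv ℝ (stg7T A B b a) (stg7T A B a b y)).det * (fderiv ℝ (stg7T A B a b) y).det = 1 := by
  have h1 := (stg7_diff h b a (stg7_inv A B a b hy).1).hasFDerivAt
  have h2 := (stg7_diff h a b hy).hasFDerivAt
  have h3 := h1.comp y h2
  have h4 : HasFDerivAt (stg7T A B b a ∘ stg7T A B a b) (ContinuousLinearMap.id ℝ (Eu 2)) y := by
    refine (hasFDerivAt_id y).congr_of_eventuallyEq ?_
    filter_upwards [(stg7_open A B a b).mem_nhds hy] with z hz
    exact (stg7_inv A B a b hz).2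
  have h5 := h3.unique h4
  have h6 : ((fderiv ℝ (stg7T A B b a) (stg7T A B a b y)).comp
      (fderiv ℝ (stg7T A B a b) y)).det = 1 := by
    rw [h5]
    simp [ContinuousLinearMap.det]
  rw [← h6]
  exact (LinearMap.det_comp _ _).symm

theorem stg7_det {A B : OpenPartialHomeomorph S (Eu 2)} (h : Sph A B) (a b : Fin 2) {y : Eu 2}
    (hy : y ∈ stg7D A B a b) : |(fderiv ℝ (stg7T A B a b) y).det| = 1 := by
  have h01 : ∀ y ∈ stg7D A B 0 1, |(fderiv ℝ (stg7T A B 0 1) y).det| = 1 := by
    intro y hy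
    exact h.det y hy.1 hy.2
  by_cases hab : a = b
  · subst hab
    have h4 : HasFDerivAt (stg7T A B a a) (ContinuousLinearMap.id ℝ (Eu 2)) y := by
      refine (hasFDerivAt_id y).congr_of_eventuallyEq ?_
      filter_upwards [(stg7_open A B a a).mem_nhds hy] with z hz
      exact stg7_self A B a hz
    rw [h4.fderiv]
    simp [ContinuousLinearMap.det]
  · by_cases ha : a = 0
    · have hb : b = 1 := by
        fin_cases a <;> fin_cases b <;> simp_all
      subst ha hb
      exact h01 y hy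
    · have ha1 : a = 1 := by
        fin_cases a <;> simp_all
      have hb : b = 0 := by
        fin_cases a <;> fin_cases b <;> simp_all
      subst ha1 hb
      have h1 := stg7_chain h 1 0 hy
      have h2 := h01 _ (stg7_inv A B 1 0 hy).1
      have h3 := congrArg abs h1
      rw [abs_mul, h2, one_mul, abs_one] at h3
      exact h3

theorem stg7_source (A B : OpenPartialHomeomorph S (Eu 2)) (p : Fin 2 × Fin 2) (x : S × S) :
    x ∈ (pch A B p).source ↔ x.1 ∈ (stg7C A B p.1).source ∧ x.2 ∈ (stg7C A B p.2).source := by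
  simp [pch, stg7C]

theorem stg7_target (A B : OpenPartialHomeomorph S (Eu 2)) (p : Fin 2 × Fin 2) (y : Eu 4) :
    y ∈ (pch A B p).target ↔ (stg7J.symm y).1 ∈ (stg7C A B p.1).target ∧
      (stg7J.symm y).2 ∈ (stg7C A B p.2).target := by
  have h : stg7J.symm y = j4.symm y := rfl
  rw [h]
  simp [pch, stg7C]

theorem stg7_apply (A B : OpenPartialHomeomorph S (Eu 2)) (p : Fin 2 × Fin 2) (x : S × S) :
    pch A B p x = stg7J ((stg7C A B p.1) x.1, (stg7C A B p.2) x.2) := rfl

theorem stg7_symm (A B : OpenPartialHomeomorph S (Eu 2)) (p : Fin 2 × Fin 2) (y : Eu 4) :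
    (pch A B p).symm y = ((stg7C A B p.1).symm (stg7J.symm y).1,
      (stg7C A B p.2).symm (stg7J.symm y).2) := rfl

theorem stg7_dom (A B : OpenPartialHomeomorph S (Eu 2)) (i j : Fin 2 × Fin 2) (y : Eu 4) :
    y ∈ dom (pch A B) i j ↔ (stg7J.symm y).1 ∈ stg7D A B i.1 j.1 ∧
      (stg7J.symm y).2 ∈ stg7D A B i.2 j.2 := by
  simp only [dom, mem_ofPred_eq, stg7_target, stg7_source, stg7_symm, stg7D]
  tauto

theorem stg7_tr (A B : OpenPartialHomeomorph S (Eu 2)) (i j : Fin 2 × Fin 2) (y : Eu 4) :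
    tr (pch A B) i j y = stg7J (stg7T A B i.1 j.1 (stg7J.symm y).1,
      stg7T A B i.2 j.2 (stg7J.symm y).2) := rfl

theorem stg7_symm_apply (y : Eu 4) : (stg7J.symm y).1 0 = y 0 ∧ (stg7J.symm y).1 1 = y 1 ∧
    (stg7J.symm y).2 0 = y 2 ∧ (stg7J.symm y).2 1 = y 3 := ⟨rfl, rfl, rfl, rfl⟩

theorem pch_vol (S : Type) [TopologicalSpace S] [T2Space S] [CompactSpace S]
    (A B : OpenPartialHomeomorph S (Eu 2)) (h : Sph A B) : VolAtlas (pch A B) ∧
    (pch A B (0, 0)).target = obox (fun _ => 0) (fun _ => 1) ∧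
    ∀ i, ∀ y ∈ (pch A B i).target, (pch A B i).symm y ∉ (pch A B (0, 0)).source →
      (y 0 = 0 ∧ y 1 = 0) ∨ (y 2 = 0 ∧ y 3 = 0) := by
  refine ⟨⟨?_, ?_, ?_⟩, ?_, ?_⟩
  · intro x
    have hc : ∀ z : S, ∃ c : Fin 2, z ∈ (stg7C A B c).source := by
      intro z
      rcases h.cover z with hz | hz
      · exact ⟨0, by simpa [stg7C] using hz⟩
      · exact ⟨1, by simpa [stg7C] using hz⟩
    obtain ⟨c, hc1⟩ := hc x.1
    obtain ⟨c', hc2⟩ := hc x.2
    exact ⟨(c, c'), (stg7_source A B (c, c') x).2 ⟨hc1, hc2⟩⟩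
  · intro i j
    have h1 : ContDiffOn ℝ ∞ (fun y : Eu 4 => stg7T A B i.1 j.1 (stg7J.symm y).1)
        (dom (pch A B) i j) :=
      (stg7_smooth h i.1 j.1).comp
        (contDiff_fst.comp stg7J.symm.contDiff).contDiffOn
        (fun y hy => ((stg7_dom A B i j y).1 hy).1)
    have h2 : ContDiffOn ℝ ∞ (fun y : Eu 4 => stg7T A B i.2 j.2 (stg7J.symm y).2)
        (dom (pch A B) i j) :=
      (stg7_smooth h i.2 j.2).comp
        (contDiff_snd.comp stg7J.symm.contDiff).contDiffOn
        (fun y hy => ((stg7_dom A B i j y).1 hy).2)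
    exact stg7J.contDiff.comp_contDiffOn (h1.prodMk h2)
  · intro i j y hy
    obtain ⟨hy1, hy2⟩ := (stg7_dom A B i j y).1 hy
    have e1 := (stg7_diff h i.1 j.1 hy1).hasFDerivAt
    have e2 := (stg7_diff h i.2 j.2 hy2).hasFDerivAt
    have e3 : HasFDerivAt (fun q : Eu 2 × Eu 2 => (stg7T A B i.1 j.1 q.1, stg7T A B i.2 j.2 q.2))
        ((fderiv ℝ (stg7T A B i.1 j.1) (stg7J.symm y).1).prodMap
          (fderiv ℝ (stg7T A B i.2 j.2) (stg7J.symm y).2)) (stg7J.symm y) :=
      HasFDerivAt.prodMap (stg7J.symm y) e1 e2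
    have e4 : HasFDerivAt (tr (pch A B) i j)
        ((stg7J : (Eu 2 × Eu 2) →L[ℝ] Eu 4).comp
          (((fderiv ℝ (stg7T A B i.1 j.1) (stg7J.symm y).1).prodMap
          (fderiv ℝ (stg7T A B i.2 j.2) (stg7J.symm y).2)).comp
            (stg7J.symm : Eu 4 →L[ℝ] (Eu 2 × Eu 2)))) y :=
      (stg7J.hasFDerivAt).comp y (e3.comp y stg7J.symm.hasFDerivAt)
    rw [e4.fderiv]
    have e5 : ((stg7J : (Eu 2 × Eu 2) →L[ℝ] Eu 4).comp
          (((fderiv ℝ (stg7T A B i.1 j.1) (stg7J.symm y).1).prodMap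
          (fderiv ℝ (stg7T A B i.2 j.2) (stg7J.symm y).2)).comp
            (stg7J.symm : Eu 4 →L[ℝ] (Eu 2 × Eu 2)))).det =
        (fderiv ℝ (stg7T A B i.1 j.1) (stg7J.symm y).1).det *
          (fderiv ℝ (stg7T A B i.2 j.2) (stg7J.symm y).2).det := by
      have e6 := LinearMap.det_conj
        (((fderiv ℝ (stg7T A B i.1 j.1) (stg7J.symm y).1) : Eu 2 →ₗ[ℝ] Eu 2).prodMap
          ((fderiv ℝ (stg7T A B i.2 j.2) (stg7J.symm y).2) : Eu 2 →ₗ[ℝ] Eu 2))
        stg7J.toLinearEquiv
      rw [LinearMap.det_prodMap] at e6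
      exact e6
    rw [e5, abs_mul, stg7_det h i.1 j.1 hy1, stg7_det h i.2 j.2 hy2, one_mul]
  · ext y
    rw [stg7_target]
    have hA : (stg7C A B 0).target = obox (fun _ => 0) (fun _ => 1) := by
      simpa [stg7C] using h.tgtA
    show (stg7J.symm y).1 ∈ (stg7C A B 0).target ∧ (stg7J.symm y).2 ∈ (stg7C A B 0).target ↔ _
    rw [hA]
    constructor
    · rintro ⟨b, c⟩
      show ∀ k : Fin 4, (0 : ℝ) < y k ∧ y k < 1
      intro k
      fin_cases k
      exacts [b 0, b 1, c 0, c 1]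
    · intro b
      refine ⟨?_, ?_⟩
      · show ∀ k : Fin 2, (0 : ℝ) < (stg7J.symm y).1 k ∧ (stg7J.symm y).1 k < 1
        intro k
        fin_cases k
        exacts [b 0, b 1]
      · show ∀ k : Fin 2, (0 : ℝ) < (stg7J.symm y).2 k ∧ (stg7J.symm y).2 k < 1
        intro k
        fin_cases k
        exacts [b 2, b 3]
  · intro i y hy hn
    rw [stg7_target] at hy
    rw [stg7_source, stg7_symm] at hn
    have key : ∀ c : Fin 2, ∀ z : Eu 2, z ∈ (stg7C A B c).target →
        (stg7C A B c).symm z ∉ (stg7C A B 0).source → z = 0 := by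
      intro c z hz hzn
      by_cases hc : c = 0
      · subst hc
        exact absurd ((stg7C A B 0).map_target hz) hzn
      · have hz' : z ∈ B.target := by simpa [stg7C, hc] using hz
        refine h.pt z hz' ?_
        simpa [stg7C, hc] using hzn
    obtain ⟨a0, a1, a2, a3⟩ := stg7_symm_apply y
    by_cases h1 : (stg7C A B i.1).symm (stg7J.symm y).1 ∈ (stg7C A B 0).source
    · have h2 : (stg7C A B i.2).symm (stg7J.symm y).2 ∉ (stg7C A B 0).source :=
        fun h2 => hn ⟨h1, h2⟩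
      have h3 := key i.2 _ hy.2 h2
      right
      rw [← a2, ← a3, h3]
      exact ⟨rfl, rfl⟩
    · have h3 := key i.1 _ hy.1 h1
      left
      rw [← a0, ← a1, h3]
      exact ⟨rfl, rfl⟩

end

end Pool.Agent.H23.ST
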