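import Pool.Agent.H23.ST.Geo2

/-! # Row ST-G3: the coordinate at infinity near a corner -/

set_option autoImplicit false

namespace Pool.Agent.H23.ST

open MeasureTheory Set Pool.Agent.H68.VD Pool.Agent.H68.GM
open scoped ENNReal ContDiff Topology

noncomputable section

/-! ### the map of the half plane -/

/-- the radius -/
def stg3_a (w : ℂ) : ℝ := √(4 * w.im / Real.pi)

/-- the direction -/
def stg3_e (w : ℂ) : ℂ := Complex.exp (((Real.pi / 2 * w.re : ℝ) : ℂ) * Complex.I)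

/-- the unrolling map -/
def stg3_P (w : ℂ) : ℂ := stg3_a w • stg3_e w

theorem stg3_yq (g : ℝ → ℝ) : yq g = fun z => stg3_P (cor g z) := by
  funext z
  unfold yq stg3_P stg3_a stg3_e
  rw [Complex.real_smul]

theorem stg3_a_pos {w : ℂ} (hw : 0 < w.im) : 0 < stg3_a w :=
  Real.sqrt_pos.2 (by have := Real.pi_pos; positivity)

theorem stg3_a_sq {w : ℂ} (hw : 0 < w.im) : stg3_a w ^ 2 = 4 * w.im / Real.pi :=
  Real.sq_sqrt (by have := Real.pi_pos; positivity)

theorem stg3_e_norm (w : ℂ) : ‖stg3_e w‖ = 1 := Complex.norm_exp_ofReal_mul_I _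

theorem stg3_a_fd {w : ℂ} (hw : 0 < w.im) :
    HasFDerivAt stg3_a ((2 / Real.pi / stg3_a w) • Complex.imCLM) w := by
  have hp := Real.pi_pos
  have h1 : HasFDerivAt (fun w : ℂ => 4 * w.im / Real.pi) ((4 / Real.pi) • Complex.imCLM) w := by
    have h2 := (Complex.imCLM.hasFDerivAt (x := w)).const_smul (4 / Real.pi)
    refine h2.congr_of_eventuallyEq (Filter.Eventually.of_forall fun z => ?_)
    rw [Pi.smul_apply, Complex.imCLM_apply, smul_eq_mul]
    ring
  have h3 := h1.sqrt (by positivity)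
  have h4 : (1 / (2 * √(4 * w.im / Real.pi))) • ((4 / Real.pi) • Complex.imCLM) =
      (2 / Real.pi / stg3_a w) • Complex.imCLM := by
    rw [smul_smul]
    congr 1
    have ha := stg3_a_pos hw
    unfold stg3_a at ha ⊢
    field_simp
    ring
  rw [← h4]
  exact h3

theorem stg3_e_fd (w : ℂ) : HasFDerivAt stg3_e
    (Complex.reCLM.smulRight (((Real.pi / 2 : ℝ) : ℂ) * Complex.I * stg3_e w)) w := by
  have h1 : HasFDerivAt (fun w : ℂ => Real.pi / 2 * w.re) ((Real.pi / 2) • Complex.reCLM) w := by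
    have h2 := (Complex.reCLM.hasFDerivAt (x := w)).const_smul (Real.pi / 2)
    exact h2
  have h2 : HasFDerivAt (fun w : ℂ => (((Real.pi / 2 * w.re : ℝ) : ℂ)))
      (Complex.ofRealCLM.comp ((Real.pi / 2) • Complex.reCLM)) w :=
    Complex.ofRealCLM.hasFDerivAt.comp w h1
  have h3 := (h2.mul_const Complex.I).cexp
  refine h3.congr_fderiv ?_
  ext v
  simp [stg3_e]
  ring

/-- the two rank one operators -/
def stg3_R : ℂ →L[ℝ] (ℂ →L[ℝ] ℂ) := ContinuousLinearMap.smulRightL ℝ ℂ ℂ Complex.reCLM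

/-- the two rank one operators -/
def stg3_M : ℂ →L[ℝ] (ℂ →L[ℝ] ℂ) := ContinuousLinearMap.smulRightL ℝ ℂ ℂ Complex.imCLM

theorem stg3_R_app (x : ℂ) : stg3_R x = Complex.reCLM.smulRight x := rfl

theorem stg3_M_app (x : ℂ) : stg3_M x = Complex.imCLM.smulRight x := rfl

theorem stg3_R_norm : ‖stg3_R‖ ≤ 1 := by
  refine ContinuousLinearMap.opNorm_le_bound _ zero_le_one fun x => ?_
  rw [stg3_R_app, ContinuousLinearMap.norm_smulRight_apply, Complex.reCLM_norm]

theorem stg3_M_norm : ‖stg3_M‖ ≤ 1 := by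
  refine ContinuousLinearMap.opNorm_le_bound _ zero_le_one fun x => ?_
  rw [stg3_M_app, ContinuousLinearMap.norm_smulRight_apply, Complex.imCLM_norm]

/-- first component of the derivative -/
def stg3_u (w : ℂ) : ℂ := stg3_a w • (((Real.pi / 2 : ℝ) : ℂ) * Complex.I * stg3_e w)

/-- second component of the derivative -/
def stg3_v (w : ℂ) : ℂ := (2 / Real.pi / stg3_a w) • stg3_e w

/-- the derivative -/
def stg3_G (w : ℂ) : ℂ →L[ℝ] ℂ := stg3_R (stg3_u w) + stg3_M (stg3_v w)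

theorem stg3_P_fd {w : ℂ} (hw : 0 < w.im) : HasFDerivAt stg3_P (stg3_G w) w := by
  have h := (stg3_a_fd hw).smul (stg3_e_fd w)
  refine h.congr_fderiv ?_
  ext v
  simp only [stg3_G, stg3_u, stg3_v, stg3_R_app, stg3_M_app, add_apply,
    smul_apply, ContinuousLinearMap.smulRight_apply, Complex.reCLM_apply,
    Complex.imCLM_apply, Complex.real_smul, smul_eq_mul]
  push_cast
  ring

theorem stg3_P_det {w : ℂ} (hw : 0 < w.im) : |(fderiv ℝ stg3_P w).det| = 1 := by
  rw [(stg3_P_fd hw).fderiv]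
  have ha := stg3_a_pos hw
  have hp := Real.pi_pos
  have h1 : (stg3_G w).det = -1 := by
    have hre : (stg3_e w).re = Real.cos (Real.pi / 2 * w.re) := Complex.exp_ofReal_mul_I_re _
    have him : (stg3_e w).im = Real.sin (Real.pi / 2 * w.re) := Complex.exp_ofReal_mul_I_im _
    have hcs := Real.sin_sq_add_cos_sq (Real.pi / 2 * w.re)
    rw [ContinuousLinearMap.det, ← LinearMap.det_toMatrix Complex.basisOneI, Matrix.det_fin_two]
    simp only [LinearMap.toMatrix_apply, Complex.coe_basisOneI, Complex.coe_basisOneI_repr,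
      Matrix.cons_val_zero, Matrix.cons_val_one, ContinuousLinearMap.coe_coe,
      stg3_G, stg3_u, stg3_v, stg3_R_app, stg3_M_app, add_apply,
      ContinuousLinearMap.smulRight_apply, Complex.reCLM_apply,
      Complex.imCLM_apply, Complex.real_smul, Complex.add_re, Complex.add_im,
      Complex.mul_re, Complex.mul_im, Complex.ofReal_re, Complex.ofReal_im, Complex.one_re,
      Complex.one_im, Complex.I_re, Complex.I_im, hre, him]
    generalize Real.cos (Real.pi / 2 * w.re) = c at *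
    generalize Real.sin (Real.pi / 2 * w.re) = s at *
    field_simp
    linear_combination (-(4 * stg3_a w ^ 2 * Real.pi ^ 2)) * hcs
  rw [h1, abs_neg, abs_one]

theorem stg3_u_norm {w : ℂ} (hw : 0 < w.im) : ‖stg3_u w‖ = stg3_a w * (Real.pi / 2) := by
  have ha := stg3_a_pos hw
  have hp := Real.pi_pos
  unfold stg3_u
  rw [norm_smul, norm_mul, norm_mul, stg3_e_norm, Complex.norm_I, Complex.norm_real,
    Real.norm_eq_abs, Real.norm_eq_abs, abs_of_pos ha, abs_of_pos (by positivity)]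
  ring

theorem stg3_v_norm {w : ℂ} (hw : 0 < w.im) : ‖stg3_v w‖ = 2 / Real.pi / stg3_a w := by
  have ha := stg3_a_pos hw
  have hp := Real.pi_pos
  unfold stg3_v
  rw [norm_smul, stg3_e_norm, Real.norm_eq_abs, abs_of_pos (by positivity), mul_one]

theorem stg3_G_norm {w : ℂ} (hw : 0 < w.im) (h1 : stg3_a w ≤ 1) :
    ‖stg3_G w‖ ≤ 3 / stg3_a w := by
  have ha := stg3_a_pos hw
  have hp := Real.pi_pos
  have hp3 := Real.pi_gt_three
  have hp4 := Real.pi_lt_four
  have e1 : ‖stg3_R (stg3_u w)‖ ≤ stg3_a w * (Real.pi / 2) := by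
    refine (stg3_R.le_opNorm _).trans ?_
    rw [stg3_u_norm hw]
    have : 0 ≤ stg3_a w * (Real.pi / 2) := by positivity
    nlinarith [stg3_R_norm]
  have e2 : ‖stg3_M (stg3_v w)‖ ≤ 2 / Real.pi / stg3_a w := by
    refine (stg3_M.le_opNorm _).trans ?_
    rw [stg3_v_norm hw]
    have : 0 ≤ 2 / Real.pi / stg3_a w := by positivity
    nlinarith [stg3_M_norm]
  have e3 : stg3_a w * (Real.pi / 2) ≤ 2 / stg3_a w := by
    rw [le_div_iff₀ ha]
    have e0 : stg3_a w * stg3_a w ≤ 1 := by nlinarith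
    nlinarith
  have e4 : 2 / Real.pi / stg3_a w ≤ 1 / stg3_a w := by
    refine div_le_div_of_nonneg_right ?_ ha.le
    rw [div_le_one hp]
    linarith
  have e5 : 3 / stg3_a w = 2 / stg3_a w + 1 / stg3_a w := by ring
  unfold stg3_G
  rw [e5]
  exact (norm_add_le _ _).trans (by linarith)

theorem stg3_u_eq : stg3_u = fun w => ((Real.pi / 2 : ℝ) : ℂ) * Complex.I * stg3_P w := by
  funext w
  unfold stg3_u stg3_P
  rw [Complex.real_smul, Complex.real_smul]
  ring

theorem stg3_u_fd {w : ℂ} (hw : 0 < w.im) :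
    ∃ U : ℂ →L[ℝ] ℂ, HasFDerivAt stg3_u U w ∧ ‖U‖ ≤ 2 * ‖stg3_G w‖ := by
  refine ⟨(((Real.pi / 2 : ℝ) : ℂ) * Complex.I) • stg3_G w, ?_, ?_⟩
  · rw [stg3_u_eq]
    exact (stg3_P_fd hw).const_mul _
  · have hp := Real.pi_pos
    refine ContinuousLinearMap.opNorm_le_bound _ (by positivity) fun x => ?_
    rw [smul_apply, smul_eq_mul, norm_mul, norm_mul, Complex.norm_I, Complex.norm_real,
      Real.norm_eq_abs, abs_of_pos (by positivity), mul_one]
    have h1 := (stg3_G w).le_opNorm x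
    have h2 : 0 ≤ ‖stg3_G w x‖ := norm_nonneg _
    nlinarith [Real.pi_lt_four]

theorem stg3_v_fd {w : ℂ} (hw : 0 < w.im) :
    ∃ U : ℂ →L[ℝ] ℂ, HasFDerivAt stg3_v U w ∧
      ‖U‖ ≤ 1 / stg3_a w + 1 / stg3_a w ^ 3 := by
  have ha := stg3_a_pos hw
  have hp := Real.pi_pos
  have h1 : HasFDerivAt (fun w => 2 / Real.pi / stg3_a w)
      ((-(2 / Real.pi) ^ 2 / stg3_a w ^ 3) • Complex.imCLM) w := by
    have h2 := (hasDerivAt_inv ha.ne').comp_hasFDerivAt w (stg3_a_fd hw)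
    have h3 := h2.const_smul (2 / Real.pi)
    refine (h3.congr_of_eventuallyEq (Filter.Eventually.of_forall fun z => ?_)).congr_fderiv ?_
    · rw [Pi.smul_apply, Function.comp_apply, smul_eq_mul]
      ring
    · rw [smul_smul, smul_smul]
      congr 1
      field_simp
  have h2 := h1.smul (stg3_e_fd w)
  refine ⟨_, h2, ?_⟩
  refine (norm_add_le _ _).trans ?_
  have e1 : ‖(2 / Real.pi / stg3_a w) •
      Complex.reCLM.smulRight (((Real.pi / 2 : ℝ) : ℂ) * Complex.I * stg3_e w)‖ =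
      1 / stg3_a w := by
    rw [norm_smul, ContinuousLinearMap.norm_smulRight_apply, Complex.reCLM_norm, norm_mul,
      norm_mul, stg3_e_norm, Complex.norm_I, Complex.norm_real, Real.norm_eq_abs,
      Real.norm_eq_abs, abs_of_pos (by positivity), abs_of_pos (by positivity)]
    field_simp
  have e2 : ‖((-(2 / Real.pi) ^ 2 / stg3_a w ^ 3) • Complex.imCLM).smulRight (stg3_e w)‖ ≤
      1 / stg3_a w ^ 3 := by
    rw [ContinuousLinearMap.norm_smulRight_apply, norm_smul, Complex.imCLM_norm, stg3_e_norm,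
      Real.norm_eq_abs, abs_div, abs_neg, abs_of_pos (by positivity), abs_of_pos (by positivity),
      mul_one, mul_one]
    refine div_le_div_of_nonneg_right ?_ (by positivity)
    have h3 : 2 / Real.pi ≤ 1 := by
      rw [div_le_one hp]
      linarith [Real.pi_gt_three]
    have h4 : 0 ≤ 2 / Real.pi := by positivity
    nlinarith
  linarith

theorem stg3_G_fd {w : ℂ} (hw : 0 < w.im) (h1 : stg3_a w ≤ 1) :
    ∃ U : ℂ →L[ℝ] (ℂ →L[ℝ] ℂ), HasFDerivAt stg3_G U w ∧ ‖U‖ ≤ 8 / stg3_a w ^ 3 := by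
  have ha := stg3_a_pos hw
  obtain ⟨U1, hU1, b1⟩ := stg3_u_fd hw
  obtain ⟨U2, hU2, b2⟩ := stg3_v_fd hw
  refine ⟨stg3_R.comp U1 + stg3_M.comp U2, ?_, ?_⟩
  · exact (stg3_R.hasFDerivAt.comp w hU1).add (stg3_M.hasFDerivAt.comp w hU2)
  · have c1 : ‖stg3_R.comp U1‖ ≤ ‖U1‖ := by
      refine (ContinuousLinearMap.opNorm_comp_le _ _).trans ?_
      nlinarith [stg3_R_norm, norm_nonneg U1]
    have c2 : ‖stg3_M.comp U2‖ ≤ ‖U2‖ := by
      refine (ContinuousLinearMap.opNorm_comp_le _ _).trans ?_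
      nlinarith [stg3_M_norm, norm_nonneg U2]
    have c3 := stg3_G_norm hw h1
    have c4 : 1 / stg3_a w ≤ 1 / stg3_a w ^ 3 := by
      refine one_div_le_one_div_of_le (by positivity) ?_
      have := mul_le_mul h1 h1 ha.le zero_le_one
      nlinarith
    have c5 : 3 / stg3_a w = 3 * (1 / stg3_a w) := by ring
    have c6 : 8 / stg3_a w ^ 3 = 8 * (1 / stg3_a w ^ 3) := by ring
    rw [c6]
    rw [c5] at c3
    refine (norm_add_le (stg3_R.comp U1) (stg3_M.comp U2)).trans ?_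
    linarith

theorem stg3_P_smooth : ContDiffOn ℝ ∞ stg3_P {w | 0 < w.im} := by
  have hp := Real.pi_pos
  have h1 : ContDiffOn ℝ ∞ stg3_a {w | 0 < w.im} := by
    have h2 : ContDiff ℝ ∞ (fun w : ℂ => 4 * w.im / Real.pi) :=
      (contDiff_const.mul Complex.imCLM.contDiff).div_const _
    exact h2.contDiffOn.sqrt fun w hw => by
      have hw' : 0 < w.im := hw
      positivity
  have h2 : ContDiff ℝ ∞ stg3_e := by
    have h3 : ContDiff ℝ ∞ (fun w : ℂ => Real.pi / 2 * w.re) :=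
      contDiff_const.mul Complex.reCLM.contDiff
    exact ((Complex.ofRealCLM.contDiff.comp h3).mul contDiff_const).cexp
  exact h1.smul h2.contDiffOn

theorem stg3_P_norm {w : ℂ} (hw : 0 < w.im) : ‖stg3_P w‖ = stg3_a w := by
  unfold stg3_P
  rw [norm_smul, stg3_e_norm, mul_one, Real.norm_eq_abs, abs_of_pos (stg3_a_pos hw)]

theorem stg3_P_arg {w : ℂ} (hw : 0 < w.im) (hr : |w.re| < 3 / 4) :
    (stg3_P w).arg = Real.pi / 2 * w.re := by
  have hp := Real.pi_pos
  obtain ⟨h1, h2⟩ := abs_lt.1 hr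
  unfold stg3_P stg3_e
  rw [Complex.real_smul, Complex.exp_mul_I]
  exact Complex.arg_mul_cos_add_sin_mul_I (stg3_a_pos hw) ⟨by nlinarith, by nlinarith⟩

theorem stg3_P_bij {h : ℝ} : BijOn stg3_P {w | |w.re| < 3 / 4 ∧ 0 < w.im ∧ w.im < h}
    (Sec (√(4 * h / Real.pi))) := by
  have hp := Real.pi_pos
  refine ⟨?_, ?_, ?_⟩
  · rintro w ⟨h1, h2, h3⟩
    refine ⟨?_, ?_, ?_⟩
    · refine (norm_pos_iff (a := stg3_P w)).1 ?_
      rw [stg3_P_norm h2]
      exact stg3_a_pos h2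
    · rw [stg3_P_norm h2]
      refine Real.sqrt_lt_sqrt (by positivity) ?_
      exact div_lt_div_of_pos_right (by linarith) hp
    · rw [stg3_P_arg h2 h1, abs_mul, abs_of_pos (by positivity)]
      nlinarith
  · rintro w ⟨h1, h2, h3⟩ w' ⟨h1', h2', h3'⟩ he
    have he : stg3_P w = stg3_P w' := he
    have e1 := stg3_P_arg h2 h1
    rw [he, stg3_P_arg h2' h1'] at e1
    have e2 := stg3_a_sq h2
    rw [← stg3_P_norm h2, he, stg3_P_norm h2', stg3_a_sq h2'] at e2
    apply Complex.ext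
    · have : Real.pi / 2 ≠ 0 := by positivity
      exact (mul_left_cancel₀ this e1).symm
    · field_simp at e2
      linarith
  · rintro s ⟨h1, h2, h3⟩
    have hn : 0 < ‖s‖ := norm_pos_iff.2 h1
    have hn2 : ‖s‖ ^ 2 < 4 * h / Real.pi := by
      rwa [← Real.lt_sqrt hn.le]
    have h4 : 0 < Real.pi * ‖s‖ ^ 2 / 4 := by positivity
    refine ⟨⟨2 * s.arg / Real.pi, Real.pi * ‖s‖ ^ 2 / 4⟩, ⟨?_, h4, ?_⟩, ?_⟩
    · show |2 * s.arg / Real.pi| < 3 / 4
      rw [abs_div, abs_mul, abs_of_pos hp, abs_of_pos (by norm_num : (0 : ℝ) < 2), div_lt_iff₀ hp]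
      linarith
    · show Real.pi * ‖s‖ ^ 2 / 4 < h
      rw [lt_div_iff₀ hp] at hn2
      linarith
    · have e1 : stg3_a ⟨2 * s.arg / Real.pi, Real.pi * ‖s‖ ^ 2 / 4⟩ = ‖s‖ := by
        unfold stg3_a
        have : 4 * (Real.pi * ‖s‖ ^ 2 / 4) / Real.pi = ‖s‖ ^ 2 := by
          field_simp
        show √(4 * (Real.pi * ‖s‖ ^ 2 / 4) / Real.pi) = ‖s‖
        rw [this, Real.sqrt_sq hn.le]
      have e2 : stg3_e ⟨2 * s.arg / Real.pi, Real.pi * ‖s‖ ^ 2 / 4⟩ =
          Complex.exp ((s.arg : ℂ) * Complex.I) := by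
        unfold stg3_e
        have : Real.pi / 2 * (2 * s.arg / Real.pi) = s.arg := by
          field_simp
        show Complex.exp (((Real.pi / 2 * (2 * s.arg / Real.pi) : ℝ) : ℂ) * Complex.I) = _
        rw [this]
      unfold stg3_P
      rw [e1, e2, Complex.real_smul]
      exact Complex.norm_mul_exp_arg_mul_I s

theorem stg3_shift {w w' : ℂ} (h1 : w'.im = w.im) (h2 : w'.re = w.re - 1) :
    stg3_P w = Complex.I * stg3_P w' := by
  have e1 : stg3_a w = stg3_a w' := by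
    unfold stg3_a
    rw [h1]
  have e2 : stg3_e w = Complex.I * stg3_e w' := by
    unfold stg3_e
    rw [h2]
    have : (((Real.pi / 2 * w.re : ℝ) : ℂ) * Complex.I) =
        ((Real.pi / 2 * (w.re - 1) : ℝ) : ℂ) * Complex.I + Real.pi / 2 * Complex.I := by
      push_cast
      ring
    rw [this, Complex.exp_add, Complex.exp_pi_div_two_mul_I]
    ring
  unfold stg3_P
  rw [e1, e2, Complex.real_smul, Complex.real_smul]
  ring

/-! ### the regions of the quadrant -/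

section

variable {g : ℝ → ℝ}

theorem stg3_ne {z : ℂ} (hz : z ∈ Qd) : z ≠ 0 := by
  rintro rfl
  exact lt_irrefl _ hz.1

theorem stg3_arg {z : ℂ} (hz : z ∈ Qd) : 0 ≤ z.arg ∧ z.arg < Real.pi / 2 :=
  ⟨Complex.arg_nonneg_iff.2 hz.2.le,
    (abs_lt.1 (Complex.abs_arg_lt_pi_div_two_iff.2 (Or.inl hz.1))).2⟩

theorem stg3_sin : 1 / 4 ≤ Real.sin (Real.pi / 8) := by
  have hp := Real.pi_pos
  have h := Real.mul_le_sin (x := Real.pi / 8) (by positivity) (by linarith)
  have e : 2 / Real.pi * (Real.pi / 8) = 1 / 4 := by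
    field_simp
    norm_num
  rw [e] at h
  exact h

theorem stg3_re_big {z : ℂ} (hz : z ∈ Qd) (h : z.arg ≤ 3 * Real.pi / 8) : ‖z‖ ≤ 4 * z.re := by
  have hp := Real.pi_pos
  have h0 := stg3_arg hz
  have h1 := Complex.norm_mul_cos_arg z
  have h2 : Real.cos (3 * Real.pi / 8) ≤ Real.cos z.arg :=
    Real.cos_le_cos_of_nonneg_of_le_pi h0.1 (by linarith) h
  have h3 : Real.cos (3 * Real.pi / 8) = Real.sin (Real.pi / 8) := by
    rw [← Real.cos_pi_div_two_sub]
    congr 1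
    ring
  have h4 := stg3_sin
  have h5 := norm_nonneg z
  rw [← h1]
  nlinarith

theorem stg3_im_big {z : ℂ} (hz : z ∈ Qd) (h : Real.pi / 8 ≤ z.arg) : ‖z‖ ≤ 4 * z.im := by
  have hp := Real.pi_pos
  have h0 := stg3_arg hz
  have h1 := Complex.norm_mul_sin_arg z
  have h2 : Real.sin (Real.pi / 8) ≤ Real.sin z.arg :=
    Real.sin_le_sin_of_le_of_le_pi_div_two (by linarith) h0.2.le h
  have h4 := stg3_sin
  have h5 := norm_nonneg z
  rw [← h1]
  nlinarith

variable {C : ℝ} (hC : CorKit g C)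

include hC

theorem stg3_lowc {z : ℂ} (hz : z ∈ Qd) (h1 : z.im ≤ 1 / 16) (h2 : 1 / 4 < z.re) :
    cor g z = z := by
  refine hC.low z hz (le_of_not_gt fun h => ?_)
  have h3 := stg3_im_big hz h.le
  have h4 := Complex.re_le_norm z
  linarith

theorem stg3_highc {z : ℂ} (hz : z ∈ Qd) (h1 : z.re ≤ 1 / 16) (h2 : 1 / 4 < z.im) :
    cor g z = Complex.I * z := by
  refine hC.high z hz (le_of_not_gt fun h => ?_)
  have h3 := stg3_re_big hz h.le
  have h4 := Complex.im_le_norm z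
  linarith

theorem stg3_tri {h : ℝ} (hh1 : 16 * C * h ≤ 1) (hh2 : 16 * C ^ 2 * h ≤ 1) {z : ℂ}
    (hz : z ∈ Qd) (hi : (cor g z).im < h) : cor g z = z ∨ cor g z = Complex.I * z ∨
      (‖z‖ < 1 / 4 ∧ ‖cor g z‖ < 1 / 4) := by
  by_cases h1 : z.arg ≤ Real.pi / 8
  · exact Or.inl (hC.low z hz h1)
  by_cases h2 : 3 * Real.pi / 8 ≤ z.arg
  · exact Or.inr (Or.inl (hC.high z hz h2))
  refine Or.inr (Or.inr ?_)
  have h3 := stg3_re_big hz (not_le.1 h2).le
  have h4 := stg3_im_big hz (not_le.1 h1).le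
  have h5 := hC.iml z hz
  have h6 : ‖z‖ ≤ 4 * min z.re z.im := by
    rcases min_choice z.re z.im with h | h <;> rw [h] <;> assumption
  have h7 := hC.hC
  have h8 : C * (cor g z).im < C * h := mul_lt_mul_of_pos_left hi h7
  have h9 : ‖z‖ < 4 * (C * h) := by linarith
  have h10 := hC.normu z hz
  have h11 : C * ‖z‖ < C * (4 * (C * h)) := mul_lt_mul_of_pos_left h9 h7
  constructor
  · nlinarith
  · nlinarith

theorem stg3_rect {h : ℝ} (hh0 : h ≤ 1 / 16) (hh1 : 16 * C * h ≤ 1)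
    (hh2 : 16 * C ^ 2 * h ≤ 1) : BijOn (cor g) (A0 g h)
      {w | |w.re| < 3 / 4 ∧ 0 < w.im ∧ w.im < h} := by
  have hb := hC.bij
  refine ⟨?_, hb.injOn.mono fun z hz => hz.1, ?_⟩
  · rintro z ⟨h1, h2, h3, h4⟩
    refine ⟨?_, hb.mapsTo h1, h4⟩
    rcases stg3_tri hC hh1 hh2 h1 h4 with h | h | ⟨-, h⟩
    · rw [h, abs_of_pos h1.1]
      exact h2
    · rw [h, Complex.I_mul_re, abs_neg, abs_of_pos h1.2]
      exact h3
    · exact (Complex.abs_re_le_norm _).trans_lt (h.trans (by norm_num))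
  · rintro w ⟨h1, h2, h3⟩
    obtain ⟨z, hz, rfl⟩ := hb.surjOn h2
    refine ⟨z, ⟨hz, ?_, ?_, h3⟩, rfl⟩
    · rcases stg3_tri hC hh1 hh2 hz h3 with h | h | ⟨h, -⟩
      · rw [h] at h1
        exact (abs_lt.1 h1).2
      · rw [h, Complex.I_mul_im] at h3
        linarith
      · exact (Complex.re_le_norm _).trans_lt (h.trans (by norm_num))
    · rcases stg3_tri hC hh1 hh2 hz h3 with h | h | ⟨h, -⟩
      · rw [h] at h3
        linarith
      · rw [h, Complex.I_mul_re, abs_neg] at h1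
        exact (abs_lt.1 h1).2
      · exact (Complex.im_le_norm _).trans_lt (h.trans (by norm_num))

end

theorem stg3_rt (z : ℂ) : rt z = ⟨1 - z.im, z.re⟩ := by
  unfold rt
  apply Complex.ext
  · simp
    ring
  · simp

theorem stg3_rt3 (z : ℂ) : rt (rt (rt z)) = ⟨z.im, 1 - z.re⟩ := by
  rw [stg3_rt, stg3_rt, stg3_rt]
  apply Complex.ext
  · show 1 - (1 - z.im) = z.im
    ring
  · rfl

/-! ### the distance to the sides -/

theorem stg3_dsq_le {z : ℂ} : dsq z ≤ min z.re z.im :=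
  le_min ((min_le_left _ _).trans (min_le_left _ _)) ((min_le_right _ _).trans (min_le_left _ _))

theorem stg3_dsq_ge {z : ℂ} (h1 : z.re < 3 / 4) (h2 : z.im < 3 / 4) (h3 : 0 < z.re)
    (h4 : 0 < z.im) : min z.re z.im ≤ 3 * dsq z := by
  have h5 : min z.re z.im / 3 ≤ dsq z := by
    have h6 := min_le_left z.re z.im
    have h7 := min_le_right z.re z.im
    exact le_min (le_min (by linarith) (by linarith)) (le_min (by linarith) (by linarith))
  linarith

theorem stg3_dsq_pos {z : ℂ} (h1 : z.re < 3 / 4) (h2 : z.im < 3 / 4) (h3 : 0 < z.re)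
    (h4 : 0 < z.im) : 0 < dsq z := by
  have := stg3_dsq_ge h1 h2 h3 h4
  have h5 : 0 < min z.re z.im := lt_min h3 h4
  linarith

theorem stg3_open {g : ℝ → ℝ} {C h : ℝ} (hC : CorKit g C) : IsOpen (A0 g h) := by
  have h1 : IsOpen Qd :=
    (isOpen_lt continuous_const Complex.continuous_re).inter
      (isOpen_lt continuous_const Complex.continuous_im)
  have h2 : IsOpen (Qd ∩ cor g ⁻¹' {w | w.im < h}) :=
    hC.smooth.continuousOn.isOpen_inter_preimage h1
      (isOpen_lt Complex.continuous_im continuous_const)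
  have h3 : A0 g h = (Qd ∩ cor g ⁻¹' {w | w.im < h}) ∩ ({z | z.re < 3 / 4} ∩ {z | z.im < 3 / 4}) := by
    ext z
    constructor
    · rintro ⟨a, b, c, d⟩
      exact ⟨⟨a, d⟩, b, c⟩
    · rintro ⟨⟨a, d⟩, b, c⟩
      exact ⟨a, b, c, d⟩
  rw [h3]
  exact h2.inter ((isOpen_lt Complex.continuous_re continuous_const).inter
    (isOpen_lt Complex.continuous_im continuous_const))

theorem stg3_bd {g : ℝ → ℝ} {C h : ℝ} (hC : CorKit g C) (hh0 : h ≤ 1 / 16) {z : ℂ}
    (hz : z ∈ A0 g h) :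
    |(fderiv ℝ (yq g) z).det| = 1 ∧
    ‖fderiv ℝ (yq g) z‖ ≤ 3 * C * √C * dsq z ^ (-(1 / 2) : ℝ) ∧
    ‖fderiv ℝ (fderiv ℝ (yq g)) z‖ ≤ (8 * C ^ 2 * √C ^ 3 + 3 * C * √C) *
      dsq z ^ (-(3 / 2) : ℝ) := by
  have hp := Real.pi_pos
  have hC0 := hC.hC
  have hQ : IsOpen Qd :=
    (isOpen_lt continuous_const Complex.continuous_re).inter
      (isOpen_lt continuous_const Complex.continuous_im)
  have hQn : Qd ∈ 𝓝 z := hQ.mem_nhds hz.1
  have hd : 0 < dsq z := stg3_dsq_pos hz.2.1 hz.2.2.1 hz.1.1 hz.1.2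
  have him : ∀ x ∈ Qd, 0 < (cor g x).im := fun x hx => hC.bij.mapsTo hx
  have ht := him z hz.1
  set w := cor g z with hw
  set a := stg3_a w with ha
  have ha0 : 0 < a := stg3_a_pos ht
  have hasq : a ^ 2 = 4 * w.im / Real.pi := stg3_a_sq ht
  have hwh : w.im < h := hz.2.2.2
  have ha1 : a ≤ 1 := by
    have h1 : a ^ 2 ≤ 1 := by
      rw [hasq, div_le_one hp]
      linarith [Real.pi_gt_three]
    nlinarith
  have hwa : w.im ≤ a ^ 2 := by
    rw [hasq, le_div_iff₀ hp]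
    nlinarith [Real.pi_lt_four]
  have hdw : dsq z ≤ C * w.im := stg3_dsq_le.trans (hC.iml z hz.1)
  -- the quantity q
  set q : ℝ := (√(dsq z))⁻¹ with hq
  have hsd : 0 < √(dsq z) := Real.sqrt_pos.2 hd
  have hq0 : 0 < q := inv_pos.2 hsd
  have hq1 : dsq z ^ (-(1 / 2) : ℝ) = q := by
    rw [Real.rpow_neg hd.le, ← Real.sqrt_eq_rpow]
  have hq3 : dsq z ^ (-(3 / 2) : ℝ) = q ^ 3 := by
    have h1 : (-(3 / 2) : ℝ) = (-(1 / 2)) * (3 : ℕ) := by norm_num
    rw [h1, Real.rpow_mul hd.le, hq1, Real.rpow_natCast]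
  have hq2 : q ^ 2 = (dsq z)⁻¹ := by
    rw [hq, inv_pow, Real.sq_sqrt hd.le]
  have hia : 1 / a ≤ √C * q := by
    have h1 : √(dsq z) ≤ √C * a := by
      rw [← Real.sqrt_sq ha0.le, ← Real.sqrt_mul hC0.le]
      exact Real.sqrt_le_sqrt (hdw.trans (mul_le_mul_of_nonneg_left hwa hC0.le))
    rw [hq, ← div_eq_mul_inv, div_le_div_iff₀ ha0 hsd]
    linarith
  have hz0 : 0 < ‖z‖ := norm_pos_iff.2 (stg3_ne hz.1)
  have hiz : 1 / ‖z‖ ≤ q ^ 2 := by
    rw [hq2, one_div]
    refine inv_anti₀ hd ?_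
    exact stg3_dsq_le.trans ((min_le_left _ _).trans (Complex.re_le_norm z))
  -- derivatives
  have hcd : ∀ x ∈ Qd, HasFDerivAt (cor g) (fderiv ℝ (cor g) x) x := fun x hx =>
    ((hC.smooth.contDiffAt (hQ.mem_nhds hx)).differentiableAt (by simp)).hasFDerivAt
  have hyd : ∀ x ∈ Qd, HasFDerivAt (yq g) ((stg3_G (cor g x)).comp (fderiv ℝ (cor g) x)) x := by
    intro x hx
    rw [stg3_yq]
    exact (stg3_P_fd (him x hx)).comp x (hcd x hx)
  have hc2 : HasFDerivAt (fderiv ℝ (cor g)) (fderiv ℝ (fderiv ℝ (cor g)) z) z := by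
    have h1 : ContDiffOn ℝ ∞ (fderiv ℝ (cor g)) Qd := hC.smooth.fderiv_of_isOpen hQ (by simp)
    exact ((h1.contDiffAt hQn).differentiableAt (by simp)).hasFDerivAt
  obtain ⟨U, hU, hUn⟩ := stg3_G_fd ht ha1
  have hGn := stg3_G_norm ht ha1
  have hb1 := hC.bd1 z hz.1
  have hb2 := hC.bd2 z hz.1
  rw [hq1, hq3]
  refine ⟨?_, ?_, ?_⟩
  · rw [(hyd z hz.1).fderiv, ContinuousLinearMap.det,
      ContinuousLinearMap.toLinearMap_comp, LinearMap.det_comp, abs_mul]
    have h1 := stg3_P_det ht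
    rw [(stg3_P_fd ht).fderiv] at h1
    have h2 := hC.det z hz.1
    unfold ContinuousLinearMap.det at h1 h2
    rw [h1, h2, mul_one]
  · rw [(hyd z hz.1).fderiv]
    refine (ContinuousLinearMap.opNorm_comp_le _ _).trans ?_
    calc ‖stg3_G w‖ * ‖fderiv ℝ (cor g) z‖ ≤ (3 / a) * C :=
          mul_le_mul hGn hb1 (norm_nonneg _) (by positivity)
      _ = 3 * C * (1 / a) := by ring
      _ ≤ 3 * C * (√C * q) := mul_le_mul_of_nonneg_left hia (by positivity)
      _ = 3 * C * √C * q := by ring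
  · have he : fderiv ℝ (yq g) =ᶠ[𝓝 z] fun x => (stg3_G (cor g x)).comp (fderiv ℝ (cor g) x) := by
      filter_upwards [hQn] with x hx using (hyd x hx).fderiv
    have h1 : HasFDerivAt (fun x => stg3_G (cor g x)) (U.comp (fderiv ℝ (cor g) z)) z :=
      HasFDerivAt.comp (g := stg3_G) z hU (hcd z hz.1)
    have h2 := h1.clm_comp hc2
    rw [(h2.congr_of_eventuallyEq he).fderiv]
    refine ContinuousLinearMap.opNorm_le_bound _ (by positivity) fun v => ?_
    have e : ((ContinuousLinearMap.compL ℝ ℂ ℂ ℂ (stg3_G (cor g z))).comp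
        (fderiv ℝ (fderiv ℝ (cor g)) z) +
        ((ContinuousLinearMap.compL ℝ ℂ ℂ ℂ).flip (fderiv ℝ (cor g) z)).comp
          (U.comp (fderiv ℝ (cor g) z))) v =
        (stg3_G w).comp (fderiv ℝ (fderiv ℝ (cor g)) z v) +
          (U (fderiv ℝ (cor g) z v)).comp (fderiv ℝ (cor g) z) := rfl
    rw [e]
    have f1 : ‖(stg3_G w).comp (fderiv ℝ (fderiv ℝ (cor g)) z v)‖ ≤
        (3 / a) * (C / ‖z‖ * ‖v‖) := by
      refine (ContinuousLinearMap.opNorm_comp_le _ _).trans ?_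
      refine mul_le_mul hGn ?_ (norm_nonneg _) (by positivity)
      exact ((fderiv ℝ (fderiv ℝ (cor g)) z).le_opNorm v).trans
        (mul_le_mul_of_nonneg_right hb2 (norm_nonneg v))
    have f2 : ‖(U (fderiv ℝ (cor g) z v)).comp (fderiv ℝ (cor g) z)‖ ≤
        (8 / a ^ 3 * (C * ‖v‖)) * C := by
      refine (ContinuousLinearMap.opNorm_comp_le _ _).trans ?_
      refine mul_le_mul ?_ hb1 (norm_nonneg _) (by positivity)
      refine (U.le_opNorm _).trans ?_
      refine mul_le_mul hUn ?_ (norm_nonneg _) (by positivity)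
      exact ((fderiv ℝ (cor g) z).le_opNorm v).trans
        (mul_le_mul_of_nonneg_right hb1 (norm_nonneg v))
    refine (norm_add_le _ _).trans ?_
    have g1 : (3 / a) * (C / ‖z‖ * ‖v‖) ≤ 3 * C * √C * q ^ 3 * ‖v‖ := by
      calc (3 / a) * (C / ‖z‖ * ‖v‖) = 3 * C * ‖v‖ * ((1 / a) * (1 / ‖z‖)) := by ring
        _ ≤ 3 * C * ‖v‖ * ((√C * q) * q ^ 2) :=
          mul_le_mul_of_nonneg_left (mul_le_mul hia hiz (by positivity) (by positivity))
            (by positivity)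
        _ = _ := by ring
    have g2 : (8 / a ^ 3 * (C * ‖v‖)) * C ≤ 8 * C ^ 2 * √C ^ 3 * q ^ 3 * ‖v‖ := by
      calc (8 / a ^ 3 * (C * ‖v‖)) * C = 8 * C ^ 2 * ‖v‖ * (1 / a) ^ 3 := by
            rw [div_pow, one_pow]
            ring
        _ ≤ 8 * C ^ 2 * ‖v‖ * (√C * q) ^ 3 :=
          mul_le_mul_of_nonneg_left (pow_le_pow_left₀ (by positivity) hia 3) (by positivity)
        _ = _ := by ring
    calc _ ≤ 3 * C * √C * q ^ 3 * ‖v‖ + 8 * C ^ 2 * √C ^ 3 * q ^ 3 * ‖v‖ :=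
          add_le_add (f1.trans g1) (f2.trans g2)
      _ = _ := by ring

/-- ST-G3 (file Qua.lean) -/
theorem quaKit (g : ℝ → ℝ) (hg : AngFn g) (C : ℝ) (hC : CorKit g C) :
    ∃ h r C' : ℝ, QuaKit g h r C' := by
  have _ := hg
  have hp := Real.pi_pos
  have hC0 := hC.hC
  obtain ⟨h, hh, hh0, hh1, hh2⟩ : ∃ h : ℝ, 0 < h ∧ h ≤ 1 / 16 ∧ 16 * C * h ≤ 1 ∧
      16 * C ^ 2 * h ≤ 1 := by
    have h1 : 0 < 1 + C + C ^ 2 := by positivity
    refine ⟨1 / (16 * (1 + C + C ^ 2)), by positivity, ?_, ?_, ?_⟩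
    · refine one_div_le_one_div_of_le (by norm_num) ?_
      nlinarith [sq_nonneg C]
    · rw [mul_one_div, div_le_one (by positivity)]
      nlinarith [sq_nonneg C]
    · rw [mul_one_div, div_le_one (by positivity)]
      nlinarith [sq_nonneg C]
  have him : ∀ z ∈ Qd, 0 < (cor g z).im := fun z hz => hC.bij.mapsTo hz
  have hs : 0 ≤ √C := Real.sqrt_nonneg C
  have hrect := stg3_rect hC hh0 hh1 hh2
  have habs : ∀ z ∈ A0 g h, |(cor g z).re| < 3 / 4 := fun z hz => (hrect.mapsTo hz).1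
  have harg : ∀ z ∈ A0 g h, (yq g z).arg = Real.pi / 2 * (cor g z).re := fun z hz => by
    rw [stg3_yq]
    exact stg3_P_arg (him z hz.1) (habs z hz)
  refine ⟨h, √(4 * h / Real.pi), 4 * C + 3 * C * √C + 8 * C ^ 2 * √C ^ 3, ?_⟩
  have hK : 0 < 4 * C + 3 * C * √C + 8 * C ^ 2 * √C ^ 3 := by positivity
  refine
    { hh := hh
      hr := Real.sqrt_pos.2 (by positivity)
      hC := hK
      opn := stg3_open hC
      sub := ?_
      small := ?_
      near := ?_
      bij := ?_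
      smooth := ?_
      det := fun z hz => (stg3_bd hC hh0 hz).1
      nrm := ?_
      ovr := ?_
      ovr' := ?_
      ang := ?_
      ang' := ?_
      bd1 := fun z hz => (stg3_bd hC hh0 hz).2.1.trans ?_
      bd2 := fun z hz => (stg3_bd hC hh0 hz).2.2.trans ?_ }
  · rintro z ⟨h1, h2, h3, h4⟩
    exact ⟨h1.1, by linarith, h1.2, by linarith⟩
  · rintro z ⟨h1, h2, h3, h4⟩
    have h5 := stg3_dsq_le.trans (hC.iml z h1)
    nlinarith
  · intro z hz h1 h2 h3
    have hzq : z ∈ Qd := ⟨hz.1, hz.2.2.1⟩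
    refine ⟨hzq, h1, h2, ?_⟩
    have h4 := hC.imu z hzq
    have h5 := stg3_dsq_ge h1 h2 hz.1 hz.2.2.1
    have h6 := stg3_dsq_pos h1 h2 hz.1 hz.2.2.1
    have h7 : 0 ≤ (3 * C * √C + 8 * C ^ 2 * √C ^ 3) * dsq z := by positivity
    have h8 : C * min z.re z.im ≤ C * (3 * dsq z) := mul_le_mul_of_nonneg_left h5 hC0.le
    have h9 : 0 ≤ C * dsq z := by positivity
    nlinarith
  · have h1 := (stg3_P_bij (h := h)).comp hrect
    rw [stg3_yq]
    exact h1
  · rw [stg3_yq]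
    exact stg3_P_smooth.comp (hC.smooth.mono fun z hz => hz.1) fun z hz => him z hz.1
  · intro z hz
    have ht := him z hz.1
    rw [stg3_yq]
    show ‖stg3_P (cor g z)‖ ^ 2 ≤ _
    rw [stg3_P_norm ht, stg3_a_sq ht, div_le_iff₀ hp]
    have h4 := hC.imu z hz.1
    have h5 := stg3_dsq_ge hz.2.1 hz.2.2.1 hz.1.1 hz.1.2
    have h6 := stg3_dsq_pos hz.2.1 hz.2.2.1 hz.1.1 hz.1.2
    have h7 : 0 ≤ (3 * C * √C + 8 * C ^ 2 * √C ^ 3) * dsq z * Real.pi := by positivity
    have h8 : C * min z.re z.im ≤ C * (3 * dsq z) := mul_le_mul_of_nonneg_left h5 hC0.le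
    have h9 : 0 < C * dsq z := by positivity
    have h10 : C * dsq z * 3 ≤ C * dsq z * Real.pi :=
      mul_le_mul_of_nonneg_left Real.pi_gt_three.le h9.le
    nlinarith
  · intro z hz h1
    have ht := him z hz.1
    have hz4 := hz.2.2.2
    have hcz : cor g z = z := by
      rcases stg3_tri hC hh1 hh2 hz.1 hz.2.2.2 with h | h | ⟨h, -⟩
      · exact h
      · rw [h, Complex.I_mul_im] at hz4
        linarith
      · exact absurd (Complex.re_le_norm z) (by linarith)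
    rw [hcz] at hz4
    rw [stg3_rt3]
    have hq : (⟨z.im, 1 - z.re⟩ : ℂ) ∈ Qd := ⟨hz.1.2, by
      show 0 < 1 - z.re
      linarith [hz.2.1]⟩
    have hcq := stg3_highc hC hq (show z.im ≤ 1 / 16 by linarith)
      (show 1 / 4 < 1 - z.re by linarith [hz.2.1])
    have hqi : (Complex.I * (⟨z.im, 1 - z.re⟩ : ℂ)).im = z.im := Complex.I_mul_im _
    have hqr : (Complex.I * (⟨z.im, 1 - z.re⟩ : ℂ)).re = z.re - 1 := by
      rw [Complex.I_mul_re]
      ring
    refine ⟨⟨hq, ?_, ?_, ?_⟩, ?_⟩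
    · show z.im < 3 / 4
      linarith
    · show 1 - z.re < 3 / 4
      linarith
    · rw [hcq, hqi]
      exact hz4
    · rw [stg3_yq]
      show stg3_P (cor g z) = Complex.I * stg3_P (cor g ⟨z.im, 1 - z.re⟩)
      rw [hcz, hcq]
      exact stg3_shift hqi hqr
  · intro z hz h1
    have ht := him z hz.1
    have hz4 := hz.2.2.2
    have hcz : cor g z = Complex.I * z := by
      rcases stg3_tri hC hh1 hh2 hz.1 hz.2.2.2 with h | h | ⟨h, -⟩
      · rw [h] at hz4
        linarith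
      · exact h
      · exact absurd (Complex.im_le_norm z) (by linarith)
    rw [hcz, Complex.I_mul_im] at hz4
    rw [stg3_rt]
    have hq : (⟨1 - z.im, z.re⟩ : ℂ) ∈ Qd := ⟨by
      show 0 < 1 - z.im
      linarith [hz.2.2.1], hz.1.1⟩
    have hcq := stg3_lowc hC hq (show z.re ≤ 1 / 16 by linarith)
      (show 1 / 4 < 1 - z.im by linarith [hz.2.2.1])
    refine ⟨⟨hq, ?_, ?_, ?_⟩, ?_⟩
    · show 1 - z.im < 3 / 4
      linarith
    · show z.re < 3 / 4
      linarith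
    · rw [hcq]
      exact hz4
    · rw [stg3_yq]
      show stg3_P (cor g ⟨1 - z.im, z.re⟩) = Complex.I * stg3_P (cor g z)
      rw [hcz, hcq]
      refine stg3_shift ?_ ?_
      · rw [Complex.I_mul_im]
      · rw [Complex.I_mul_re]
        show -z.im = (1 - z.im) - 1
        ring
  · intro z hz h1
    rw [harg z hz] at h1
    have h2 : 1 / 4 < (cor g z).re := by nlinarith
    rcases stg3_tri hC hh1 hh2 hz.1 hz.2.2.2 with h | h | ⟨-, h⟩
    · rw [h] at h2
      exact h2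
    · rw [h, Complex.I_mul_re] at h2
      linarith [hz.1.2]
    · exact absurd (Complex.re_le_norm (cor g z)) (by linarith)
  · intro z hz h1
    rw [harg z hz] at h1
    have h2 : (cor g z).re < -(1 / 4) := by nlinarith
    rcases stg3_tri hC hh1 hh2 hz.1 hz.2.2.2 with h | h | ⟨-, h⟩
    · rw [h] at h2
      linarith [hz.1.1]
    · rw [h, Complex.I_mul_re] at h2
      linarith
    · have := Complex.abs_re_le_norm (cor g z)
      rw [abs_le] at this
      linarith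
  · have h6 := stg3_dsq_pos hz.2.1 hz.2.2.1 hz.1.1 hz.1.2
    refine mul_le_mul_of_nonneg_right ?_ (Real.rpow_nonneg h6.le _)
    have : 0 ≤ 8 * C ^ 2 * √C ^ 3 := by positivity
    linarith
  · have h6 := stg3_dsq_pos hz.2.1 hz.2.2.1 hz.1.1 hz.1.2
    refine mul_le_mul_of_nonneg_right ?_ (Real.rpow_nonneg h6.le _)
    linarith

end

end Pool.Agent.H23.ST
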