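import Pool.Agent.H23.ST.Geo3

/-!
# Project ST (MP_b0bf68), row ST-G6: the charts of the sphere with values in `Eu 2`
-/

set_option autoImplicit false

namespace Pool.Agent.H23.ST

open MeasureTheory Set Pool.Agent.H68.VD Pool.Agent.H68.GM Pool.Agent.H6.ST
open scoped ENNReal ContDiff Topology

/-- The isometry from the complex plane to `Eu 2`. -/
noncomputable def stg6e : ℂ ≃ₗᵢ[ℝ] Eu 2 := Complex.orthonormalBasisOneI.repr

theorem stg6_re (y : Eu 2) : (stg6e.symm y).re = y 0 := by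
  rw [stg6e, Complex.orthonormalBasisOneI_repr_symm_apply]
  simp

theorem stg6_im (y : Eu 2) : (stg6e.symm y).im = y 1 := by
  rw [stg6e, Complex.orthonormalBasisOneI_repr_symm_apply]
  simp

theorem stg6_Sq : stg6e.symm ⁻¹' Sq = obox (fun _ => 0) (fun _ => 1) := by
  ext y
  simp only [mem_preimage, Sq, obox, mem_ofPred_eq, stg6_re, stg6_im, Fin.forall_fin_two]
  tauto

theorem stg6_Bx (ρ : ℝ) : stg6e.symm ⁻¹' Bx ρ = obox (fun _ => -ρ) (fun _ => ρ) := by
  ext y
  simp only [mem_preimage, Bx, obox, mem_ofPred_eq, stg6_re, stg6_im, Fin.forall_fin_two, abs_lt]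

theorem stg6_isOpen_Bx (ρ : ℝ) : IsOpen (Bx ρ) :=
  (isOpen_lt Complex.continuous_re.abs continuous_const).inter
    (isOpen_lt Complex.continuous_im.abs continuous_const)

/-- The determinant of the derivative does not change under the isometry. -/
theorem stg6_det (f : ℂ → ℂ) (y : Eu 2) :
    (fderiv ℝ (stg6e ∘ f ∘ stg6e.symm) y).det = (fderiv ℝ f (stg6e.symm y)).det := by
  rw [LinearIsometryEquiv.comp_fderiv]
  have h1 : fderiv ℝ (f ∘ stg6e.symm) y = (fderiv ℝ f (stg6e.symm y)).comp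
      (stg6e.symm.toContinuousLinearEquiv : Eu 2 →L[ℝ] ℂ) :=
    ContinuousLinearEquiv.comp_right_fderiv stg6e.symm.toContinuousLinearEquiv
  rw [h1]
  exact LinearMap.det_conj (fderiv ℝ f (stg6e.symm y) : ℂ →ₗ[ℝ] ℂ) stg6e.toLinearEquiv

theorem stg6_norm1 (f : ℂ → ℂ) (y : Eu 2) :
    ‖fderiv ℝ (stg6e ∘ f ∘ stg6e.symm) y‖ = ‖fderiv ℝ f (stg6e.symm y)‖ := by
  rw [← norm_iteratedFDeriv_one, ← norm_iteratedFDeriv_one,
    LinearIsometryEquiv.norm_iteratedFDeriv_comp_left,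
    LinearIsometryEquiv.norm_iteratedFDeriv_comp_right]

theorem stg6_norm2 (f : ℂ → ℂ) (y : Eu 2) :
    ‖fderiv ℝ (fderiv ℝ (stg6e ∘ f ∘ stg6e.symm)) y‖ =
      ‖fderiv ℝ (fderiv ℝ f) (stg6e.symm y)‖ := by
  rw [← norm_iteratedFDeriv_one, ← norm_iteratedFDeriv_one, norm_iteratedFDeriv_fderiv,
    norm_iteratedFDeriv_fderiv,
    LinearIsometryEquiv.norm_iteratedFDeriv_comp_left,
    LinearIsometryEquiv.norm_iteratedFDeriv_comp_right]

theorem stg6_convex : Convex ℝ Sq := by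
  intro a ha b hb s t hs ht hst
  obtain ⟨h1, h2, h3, h4⟩ := ha
  obtain ⟨g1, g2, g3, g4⟩ := hb
  have key : ∀ u v : ℝ, 0 < u → u < 1 → 0 < v → v < 1 →
      0 < s * u + t * v ∧ s * u + t * v < 1 := by
    intro u v hu hu' hv hv'
    rcases hs.eq_or_lt with h | h
    · have h5 : t = 1 := by linarith
      rw [← h, h5]
      constructor <;> linarith
    · constructor
      · have := mul_pos h hu
        have := mul_nonneg ht hv.le
        linarith
      · have h5 := mul_lt_mul_of_pos_left hu' h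
        have h6 := mul_le_mul_of_nonneg_left hv'.le ht
        linarith
  have hre : (s • a + t • b).re = s * a.re + t * b.re := by simp
  have him : (s • a + t • b).im = s * a.im + t * b.im := by simp
  refine ⟨?_, ?_, ?_, ?_⟩
  · rw [hre]; exact (key _ _ h1 h2 g1 g2).1
  · rw [hre]; exact (key _ _ h1 h2 g1 g2).2
  · rw [him]; exact (key _ _ h3 h4 g3 g4).1
  · rw [him]; exact (key _ _ h3 h4 g3 g4).2

theorem stg6_nonempty : Sq.Nonempty := by
  refine ⟨⟨1 / 2, 1 / 2⟩, ?_⟩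
  simp only [Sq, mem_ofPred_eq]
  norm_num

theorem stg6_preconnected : PreconnectedSpace Sq :=
  isPreconnected_iff_preconnectedSpace.1 stg6_convex.isPreconnected

theorem stg6_noncompact : NoncompactSpace Sq := by
  rw [← not_compactSpace_iff, ← isCompact_iff_compactSpace]
  intro h
  have h1 : Sq = univ := IsClopen.eq_univ ⟨h.isClosed, isOpen_Sq⟩ stg6_nonempty
  have h2 : (0 : ℂ) ∈ Sq := by rw [h1]; exact mem_univ _
  have h3 : (0 : ℝ) < (0 : ℂ).re := h2.1
  simp at h3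

/-- ST-G6: the charts with values in `Eu 2`. -/
theorem sph_of (V : Set ℂ) (y z : ℂ → ℂ) (ρ C : ℝ) (h : EndChart V y z ρ C)
    (c : Fin 2 → OpenPartialHomeomorph S2 ℂ) (hc : Atl2 c V y ρ) :
    (∃ A B : OpenPartialHomeomorph S2 (Eu 2), Sph A B) ∧ T2Space S2 ∧ CompactSpace S2 ∧
      ConnectedSpace S2 := by
  have hp := stg6_preconnected
  have hn := stg6_noncompact
  refine ⟨?_, inferInstance, inferInstance, inferInstance⟩
  set A : OpenPartialHomeomorph S2 (Eu 2) := (c 0).transHomeomorph stg6e.toHomeomorph with hA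
  set B : OpenPartialHomeomorph S2 (Eu 2) := (c 1).transHomeomorph stg6e.toHomeomorph with hB
  have hAs : A.source = Set.range ((↑) : Sq → S2) := hc.s0
  have hBs : B.source = (c 1).source := rfl
  have hAt : A.target = obox (fun _ => 0) (fun _ => 1) := by
    have h1 : A.target = stg6e.symm ⁻¹' (c 0).target := rfl
    rw [h1, hc.t0, stg6_Sq]
  have hBt : B.target = obox (fun _ => -ρ) (fun _ => ρ) := by
    have h1 : B.target = stg6e.symm ⁻¹' (c 1).target := rfl
    rw [h1, hc.t1, stg6_Bx]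
  have hAy : ∀ w, A.symm w = (c 0).symm (stg6e.symm w) := fun w => rfl
  have hBy : ∀ w, B.symm w = (c 1).symm (stg6e.symm w) := fun w => rfl
  have hA' : ∀ x, A x = stg6e (c 0 x) := fun x => rfl
  have hB' : ∀ x, B x = stg6e (c 1 x) := fun x => rfl
  -- the inverse of the first chart
  have h0 : ∀ a : Sq, (c 0).symm (a : ℂ) = (a : S2) := by
    intro a
    have h1 : (a : S2) ∈ (c 0).source := by rw [hc.s0]; exact ⟨a, rfl⟩
    have h2 := (c 0).left_inv h1
    rwa [hc.f0 a] at h2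
  -- the set of the points of the square in the second chart
  have hsetA : {w | w ∈ A.target ∧ A.symm w ∈ B.source} = stg6e.symm ⁻¹' V := by
    ext w
    simp only [mem_ofPred_eq, mem_preimage]
    constructor
    · rintro ⟨h1, h2⟩
      rw [hAt, ← stg6_Sq] at h1
      have h3 : stg6e.symm w ∈ Sq := h1
      rw [hAy, h0 ⟨stg6e.symm w, h3⟩] at h2
      exact (hc.s1 ⟨stg6e.symm w, h3⟩).1 h2
    · intro h1
      have h3 : stg6e.symm w ∈ Sq := h.sub h1
      refine ⟨?_, ?_⟩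
      · rw [hAt, ← stg6_Sq]
        exact h3
      · rw [hAy, h0 ⟨stg6e.symm w, h3⟩]
        exact (hc.s1 ⟨stg6e.symm w, h3⟩).2 h1
  have hAB : ∀ w ∈ stg6e.symm ⁻¹' V, B (A.symm w) = (stg6e ∘ y ∘ stg6e.symm) w := by
    intro w hw
    have h3 : stg6e.symm w ∈ Sq := h.sub hw
    rw [hAy, h0 ⟨stg6e.symm w, h3⟩, hB', hc.f1 ⟨stg6e.symm w, h3⟩ hw]
    rfl
  -- the second chart
  have hinf : ∀ w ∈ Bx ρ, (c 1).symm w = OnePoint.infty ↔ w = 0 := by
    intro w hw
    have hw' : w ∈ (c 1).target := by rw [hc.t1]; exact hw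
    constructor
    · intro h1
      have h2 := (c 1).right_inv hw'
      rw [h1, hc.finf] at h2
      exact h2.symm
    · intro h1
      have h2 := (c 1).left_inv hc.inf
      rw [hc.finf] at h2
      rw [h1]
      exact h2
  have hz1 : ∀ (w : ℂ) (hw : w ∈ Bx ρ) (hw0 : w ≠ 0),
      (c 1).symm w = ((⟨z w, h.sub (h.mapz w hw hw0)⟩ : Sq) : S2) := by
    intro w hw hw0
    have hw' : w ∈ (c 1).target := by rw [hc.t1]; exact hw
    have h1 := (c 1).map_target hw'
    have h2 : (c 1).symm w ≠ OnePoint.infty := fun h2 => hw0 ((hinf w hw).1 h2)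
    obtain ⟨a, ha⟩ := OnePoint.ne_infty_iff_exists.1 h2
    rw [← ha] at h1
    have h3 : (a : ℂ) ∈ V := (hc.s1 a).1 h1
    have h4 := (c 1).right_inv hw'
    rw [← ha, hc.f1 a h3] at h4
    have h5 : z w = (a : ℂ) := by rw [← h4]; exact h.left _ h3
    rw [← ha]
    congr 1
    exact Subtype.ext h5.symm
  have hsetB : {w | w ∈ B.target ∧ B.symm w ∈ A.source} = stg6e.symm ⁻¹' (Bx ρ \ {0}) := by
    ext w
    simp only [mem_ofPred_eq, mem_preimage]
    constructor
    · rintro ⟨h1, h2⟩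
      rw [hBt, ← stg6_Bx] at h1
      have h3 : stg6e.symm w ∈ Bx ρ := h1
      refine ⟨h3, fun h4 => ?_⟩
      rw [hBy, (hinf _ h3).2 h4, hAs] at h2
      obtain ⟨a, ha⟩ := h2
      exact OnePoint.coe_ne_infty a ha
    · rintro ⟨h1, h2⟩
      refine ⟨?_, ?_⟩
      · rw [hBt, ← stg6_Bx]
        exact h1
      · rw [hBy, hz1 _ h1 h2, hAs]
        exact ⟨_, rfl⟩
  have hBA : ∀ w ∈ stg6e.symm ⁻¹' (Bx ρ \ {0}), A (B.symm w) = (stg6e ∘ z ∘ stg6e.symm) w := by
    rintro w ⟨h1, h2⟩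
    rw [hBy, hz1 _ h1 h2, hA', hc.f0]
    rfl
  have hopenV : IsOpen (stg6e.symm ⁻¹' V) := h.hV.preimage stg6e.symm.continuous
  have hopenB : IsOpen (stg6e.symm ⁻¹' (Bx ρ \ {0})) :=
    ((stg6_isOpen_Bx ρ).sdiff isClosed_singleton).preimage stg6e.symm.continuous
  have hevA : ∀ w ∈ stg6e.symm ⁻¹' V,
      (fun w => B (A.symm w)) =ᶠ[𝓝 w] (stg6e ∘ y ∘ stg6e.symm) := fun w hw =>
    Filter.eventually_of_mem (hopenV.mem_nhds hw) hAB
  have hevB : ∀ w ∈ stg6e.symm ⁻¹' (Bx ρ \ {0}),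
      (fun w => A (B.symm w)) =ᶠ[𝓝 w] (stg6e ∘ z ∘ stg6e.symm) := fun w hw =>
    Filter.eventually_of_mem (hopenB.mem_nhds hw) hBA
  refine ⟨A, B, ?_⟩
  refine ⟨hAt, ⟨ρ, h.hρ, hBt⟩, ?_, ?_, ?_, ?_, ?_, ?_⟩
  · intro x
    by_cases hx : x = OnePoint.infty
    · right
      rw [hx]
      exact hc.inf
    · left
      rw [hAs]
      obtain ⟨a, ha⟩ := OnePoint.ne_infty_iff_exists.1 hx
      exact ⟨a, ha⟩
  · intro w hw hw'
    have h1 : stg6e.symm w ∈ Bx ρ := by
      rw [hBt, ← stg6_Bx] at hw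
      exact hw
    by_contra h2
    have h3 : stg6e.symm w ≠ 0 := fun h3 => h2 (by
      have h4 := congrArg stg6e h3
      rwa [LinearIsometryEquiv.apply_symm_apply, map_zero] at h4)
    have h4 : w ∈ {w | w ∈ B.target ∧ B.symm w ∈ A.source} := by
      rw [hsetB]
      exact ⟨h1, h3⟩
    exact hw' h4.2
  · rw [hsetA]
    refine ContDiffOn.congr ?_ hAB
    exact stg6e.contDiff.comp_contDiffOn
      (h.smy.comp stg6e.symm.contDiff.contDiffOn (fun w hw => hw))
  · rw [hsetB]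
    refine ContDiffOn.congr ?_ hBA
    exact stg6e.contDiff.comp_contDiffOn
      (h.smz.comp stg6e.symm.contDiff.contDiffOn (fun w hw => hw))
  · intro w h1 h2
    have hw : w ∈ stg6e.symm ⁻¹' V := by rw [← hsetA]; exact ⟨h1, h2⟩
    rw [(hevA w hw).fderiv_eq, stg6_det]
    exact h.dety _ hw
  · refine ⟨C, fun d hd w hwd hwB => ?_⟩
    have h1 : w ∈ A.target := by
      rw [hAt]
      intro k
      exact ⟨by linarith [(hwd k).1], by linarith [(hwd k).2]⟩
    have hw : w ∈ stg6e.symm ⁻¹' V := by rw [← hsetA]; exact ⟨h1, hwB⟩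
    have hds : d ≤ dsq (stg6e.symm w) := by
      rw [dsq, stg6_re, stg6_im]
      have h2 := hwd 0
      have h3 := hwd 1
      refine le_min (le_min h2.1 ?_) (le_min h3.1 ?_)
      · linarith
      · linarith
    have e1 : dsq (stg6e.symm w) ^ (-(1 / 2) : ℝ) ≤ d ^ (-(1 / 2) : ℝ) :=
      Real.rpow_le_rpow_of_nonpos hd hds (by norm_num)
    have e2 : dsq (stg6e.symm w) ^ (-(3 / 2) : ℝ) ≤ d ^ (-(3 / 2) : ℝ) :=
      Real.rpow_le_rpow_of_nonpos hd hds (by norm_num)
    refine ⟨?_, ?_, ?_⟩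
    · rw [(hevA w hw).fderiv_eq, stg6_norm1]
      exact (h.bd1 _ hw).trans (mul_le_mul_of_nonneg_left e1 h.hC.le)
    · have h2 : B (A.symm w) = stg6e (y (stg6e.symm w)) := hAB w hw
      have h3 : B (A.symm w) ∈ stg6e.symm ⁻¹' (Bx ρ \ {0}) := by
        rw [h2]
        have h4 := h.maps _ hw
        refine ⟨?_, ?_⟩
        · rw [LinearIsometryEquiv.symm_apply_apply]
          exact h4.1
        · rw [LinearIsometryEquiv.symm_apply_apply]
          exact h4.2
      rw [(hevB _ h3).fderiv_eq, stg6_norm1, h2, LinearIsometryEquiv.symm_apply_apply]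
      exact (h.bdz _ hw).trans (mul_le_mul_of_nonneg_left e1 h.hC.le)
    · rw [(hevA w hw).fderiv.fderiv_eq, stg6_norm2]
      exact (h.bd2 _ hw).trans (mul_le_mul_of_nonneg_left e2 h.hC.le)

end Pool.Agent.H23.ST
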