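import Pool.Agent.H23.ST.Geo3
import Pool.Agent.H68.GM.WMW
import Pool.Agent.H68.GM.PushK

/-! # The weights (row ST-G10) -/

namespace Pool.Agent.H23.ST

open MeasureTheory Set Pool.Agent.H68.VD Pool.Agent.H68.GM Pool.Agent.H6.ST
open scoped ENNReal ContDiff Topology

noncomputable section

namespace WgtA

variable {M : Type} [TopologicalSpace M] {ι : Type}

/-- the smaller closed cube -/
def kd (d : ℝ) : Set (Eu 4) := {x | ∀ k, d ≤ x k ∧ x k ≤ 1 - d}

theorem kd_closed (d : ℝ) : IsClosed (kd d) := by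
  have h : kd d = ⋂ k, {x : Eu 4 | d ≤ x k ∧ x k ≤ 1 - d} := by
    ext x
    simp [kd]
  rw [h]
  refine isClosed_iInter fun k => ?_
  have hc : Continuous fun x : Eu 4 => x k := by fun_prop
  exact (isClosed_le continuous_const hc).inter (isClosed_le hc continuous_const)

theorem kd_compact (d : ℝ) (hd : 0 < d) : IsCompact (kd d) := by
  refine Metric.isCompact_of_isClosed_isBounded (kd_closed d) ?_
  refine (Metric.isBounded_iff_subset_closedBall (0 : Eu 4)).mpr ⟨2, fun x hx => ?_⟩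
  rw [mem_closedBall_zero_iff, EuclideanSpace.norm_eq, Real.sqrt_le_left (by norm_num)]
  have h1 : ∀ k, ‖x k‖ ^ 2 ≤ 1 := by
    intro k
    have h2 := hx k
    rw [Real.norm_eq_abs, sq_abs]
    nlinarith
  calc ∑ k, ‖x k‖ ^ 2 ≤ ∑ _k : Fin 4, (1 : ℝ) := Finset.sum_le_sum fun k _ => h1 k
    _ = 4 := by simp
    _ ≤ 2 ^ 2 := by norm_num

theorem kd_sub (d : ℝ) (hd : 0 < d) : kd d ⊆ obox (fun _ => 0) (fun _ => 1) := by
  intro x hx k
  have := hx k
  constructor <;> linarith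

variable {ch : ι → OpenPartialHomeomorph M (Eu 4)}

theorem far [T2Space M] (o i : ι) {K : Set (Eu 4)} (hK : IsCompact K)
    (hKt : K ⊆ (ch o).target) {u : Eu 4 → Eu 4} (hu : ∀ y ∉ K, u y = 0) {y : Eu 4}
    (hy : y ∈ (ch i).target) (hd : (ch i).symm y ∉ (ch o).symm '' K) :
    push ch o u i =ᶠ[𝓝 y] fun _ => 0 := by
  have hC := PushKA.isClosed_img ch o hK hKt
  have hopen : IsOpen ((ch i).target ∩ (ch i).symm ⁻¹' ((ch o).symm '' K)ᶜ) :=
    (ch i).symm.isOpen_inter_preimage hC.isOpen_compl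
  filter_upwards [hopen.mem_nhds ⟨hy, hd⟩] with y' hy'
  exact PushKA.push_zero ch hu (fun _ => hy'.2)

/-- The derivative of the pushed field. -/
theorem fd_push (hV : VolAtlas ch) (o i : ι) {u : Eu 4 → Eu 4} (hu : ContDiff ℝ ∞ u) {y : Eu 4}
    (hy : y ∈ dom ch i o) (A B D : ℝ) (hA : ‖fderiv ℝ (tr ch o i) (tr ch i o y)‖ ≤ A)
    (hB : ‖fderiv ℝ (tr ch i o) y‖ ≤ B)
    (hD : ‖fderiv ℝ (fderiv ℝ (tr ch o i)) (tr ch i o y)‖ ≤ D) :
    ‖fderiv ℝ (push ch o u i) y‖ ≤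
      D * B * ‖u (tr ch i o y)‖ + A * B * ‖fderiv ℝ u (tr ch i o y)‖ := by
  set z := tr ch i o y with hz
  have hzd : z ∈ dom ch o i := PushKA.tr_mem ch hy
  have h1 : push ch o u i =ᶠ[𝓝 y] fun y' => fderiv ℝ (tr ch o i) (tr ch i o y')
      (u (tr ch i o y')) := by
    filter_upwards [(PushKA.isOpen_dom ch i o).mem_nhds hy] with y' hy'
    exact PushKA.push_eq ch u hy'
  rw [h1.fderiv_eq]
  have hd1 : DifferentiableAt ℝ (tr ch i o) y := PushKA.diff_tr hV hy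
  have hd2 : DifferentiableAt ℝ (fderiv ℝ (tr ch o i)) z := by
    have h2 : ContDiffOn ℝ ∞ (fderiv ℝ (tr ch o i)) (dom ch o i) :=
      (hV.smooth o i).fderiv_of_isOpen (PushKA.isOpen_dom ch o i) (by simp)
    exact (h2.contDiffAt ((PushKA.isOpen_dom ch o i).mem_nhds hzd)).differentiableAt (by simp)
  have hd3 : DifferentiableAt ℝ u z := hu.differentiable (by simp) z
  have hf1 : HasFDerivAt (fun y' => fderiv ℝ (tr ch o i) (tr ch i o y'))
      ((fderiv ℝ (fderiv ℝ (tr ch o i)) z).comp (fderiv ℝ (tr ch i o) y)) y := by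
    have h3 := hd2.hasFDerivAt
    rw [hz] at h3
    exact h3.comp y hd1.hasFDerivAt
  have hf2 : HasFDerivAt (fun y' => u (tr ch i o y'))
      ((fderiv ℝ u z).comp (fderiv ℝ (tr ch i o) y)) y := by
    have h3 := hd3.hasFDerivAt
    rw [hz] at h3
    exact h3.comp y hd1.hasFDerivAt
  rw [(hf1.clm_apply hf2).fderiv]
  have hA0 : 0 ≤ A := (norm_nonneg _).trans hA
  have hB0 : 0 ≤ B := (norm_nonneg _).trans hB
  have hD0 : 0 ≤ D := by
    have h9 := norm_nonneg (fderiv ℝ (fderiv ℝ (tr ch o i)) z)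
    linarith
  refine ContinuousLinearMap.opNorm_le_bound _ (by positivity) fun v => ?_
  have e1 : ‖fderiv ℝ (tr ch i o) y v‖ ≤ B * ‖v‖ :=
    (ContinuousLinearMap.le_opNorm _ _).trans (by gcongr)
  have e2 : ‖fderiv ℝ (tr ch o i) z (fderiv ℝ u z (fderiv ℝ (tr ch i o) y v))‖ ≤
      A * (‖fderiv ℝ u z‖ * (B * ‖v‖)) := by
    refine (ContinuousLinearMap.le_opNorm _ _).trans ?_
    refine mul_le_mul hA ?_ (norm_nonneg _) hA0
    exact (ContinuousLinearMap.le_opNorm _ _).trans (by gcongr)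
  have e3 : ‖fderiv ℝ (fderiv ℝ (tr ch o i)) z (fderiv ℝ (tr ch i o) y v) (u z)‖ ≤
      (D * (B * ‖v‖)) * ‖u z‖ := by
    refine (ContinuousLinearMap.le_opNorm _ _).trans ?_
    refine mul_le_mul_of_nonneg_right ?_ (norm_nonneg _)
    refine (ContinuousLinearMap.le_opNorm _ _).trans ?_
    exact mul_le_mul hD e1 (norm_nonneg _) hD0
  calc ‖((fderiv ℝ (tr ch o i) (tr ch i o y)).comp
        ((fderiv ℝ u z).comp (fderiv ℝ (tr ch i o) y)) +
        ((fderiv ℝ (fderiv ℝ (tr ch o i)) z).comp (fderiv ℝ (tr ch i o) y)).flip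
          (u (tr ch i o y))) v‖
      = ‖fderiv ℝ (tr ch o i) z (fderiv ℝ u z (fderiv ℝ (tr ch i o) y v)) +
          fderiv ℝ (fderiv ℝ (tr ch o i)) z (fderiv ℝ (tr ch i o) y v) (u z)‖ := rfl
    _ ≤ A * (‖fderiv ℝ u z‖ * (B * ‖v‖)) + (D * (B * ‖v‖)) * ‖u z‖ :=
        (norm_add_le _ _).trans (add_le_add e2 e3)
    _ = (D * B * ‖u z‖ + A * B * ‖fderiv ℝ u z‖) * ‖v‖ := by ring

end WgtA

open WgtA in
/-- ST-G10: the weights (the statement with the intended parentheses). -/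
theorem wgt_of (M : Type) [TopologicalSpace M] [T2Space M] [CompactSpace M] (ι : Type) [Fintype ι]
    (ch : ι → OpenPartialHomeomorph M (Eu 4)) (hV : VolAtlas ch) (o : ι) (K : ι → Set (Eu 4))
    (hK : KCov ch K) (hT : (ch o).target = obox (fun _ => 0) (fun _ => 1)) (C : ℝ) (hC : 0 ≤ C)
    (hB : TrB ch o C) :
    ∃ C' : ℝ, 0 ≤ C' ∧ ∀ d : ℝ, 0 < d → ∀ u : Eu 4 → Eu 4, ContDiff ℝ ∞ u →
    (∀ x, u x ≠ 0 → ∀ k, d ≤ x k ∧ x k ≤ 1 - d) →
    L1M K (push ch o u) ≤ ENNReal.ofReal (C' * d ^ (-(1 / 2) : ℝ)) * ∫⁻ x, ‖u x‖ₑ ∧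
    W1M K (push ch o u) ≤ (ENNReal.ofReal (C' * d⁻¹) * ∫⁻ x, ‖fderiv ℝ u x‖ₑ) +
      ENNReal.ofReal (C' * (d ^ 2)⁻¹) * ∫⁻ x, ‖u x‖ₑ := by
  set N : ℝ := (Fintype.card ι : ℝ) with hN
  have hN0 : 0 ≤ N := Nat.cast_nonneg _
  refine ⟨N * (C + C ^ 2), by positivity, fun d hd u hu hsupp => ?_⟩
  -- the support
  have hu0 : ∀ y ∉ kd d, u y = 0 := by
    intro y hy
    by_contra h
    exact hy (hsupp y h)
  have hKt : kd d ⊆ (ch o).target := by rw [hT]; exact kd_sub d hd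
  have hKc : IsCompact (kd d) := kd_compact d hd
  have hdu0 : ∀ y ∉ kd d, fderiv ℝ u y = 0 := by
    intro y hy
    have h1 : u =ᶠ[𝓝 y] fun _ => 0 := by
      filter_upwards [(kd_closed d).isOpen_compl.mem_nhds hy] with z hz
      exact hu0 z hz
    rw [h1.fderiv_eq]
    simp
  -- the powers of `d`
  have p1 : d ^ (-(1 / 2) : ℝ) * d ^ (-(1 / 2) : ℝ) = d⁻¹ := by
    rw [← Real.rpow_add hd, ← Real.rpow_neg_one]
    norm_num
  have p2 : d ^ (-(3 / 2) : ℝ) * d ^ (-(1 / 2) : ℝ) = (d ^ 2)⁻¹ := by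
    rw [← Real.rpow_add hd, ← Real.rpow_natCast, ← Real.rpow_neg hd.le]
    norm_num
  have hp : 0 < d ^ (-(1 / 2) : ℝ) := Real.rpow_pos_of_pos hd _
  -- pointwise bounds
  have ptw : ∀ i, ∀ y ∈ K i, ‖push ch o u i y‖ₑ ≤ (dom ch i o).indicator
      (fun y => ENNReal.ofReal (C * d ^ (-(1 / 2) : ℝ)) * ‖u (tr ch i o y)‖ₑ) y := by
    intro i y hy
    by_cases hyd : y ∈ dom ch i o
    · rw [indicator_of_mem hyd, PushKA.push_eq ch u hyd]
      by_cases hz : tr ch i o y ∈ kd d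
      · have h1 := (hB i d hd (tr ch i o y) hz (PushKA.tr_mem ch hyd)).1
        rw [← ofReal_norm, ← ofReal_norm, ← ENNReal.ofReal_mul (by positivity)]
        apply ENNReal.ofReal_le_ofReal
        exact (ContinuousLinearMap.le_opNorm _ _).trans (by gcongr)
      · rw [hu0 _ hz]
        simp
    · rw [indicator_of_notMem hyd]
      unfold push
      rw [if_neg hyd]
      simp
  have zz : ∀ y : Eu 4, ‖(0 : Eu 4)‖ₑ + ‖fderiv ℝ (fun _ : Eu 4 => (0 : Eu 4)) y‖ₑ = 0 := by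
    intro y
    rw [← ofReal_norm, ← ofReal_norm, fderiv_fun_const]
    simp
  have ptd : ∀ i, ∀ y ∈ K i, ‖push ch o u i y‖ₑ + ‖fderiv ℝ (push ch o u i) y‖ₑ ≤
      (dom ch i o).indicator (fun y => ENNReal.ofReal ((C + C ^ 2) * d⁻¹) *
        ‖fderiv ℝ u (tr ch i o y)‖ₑ + ENNReal.ofReal ((C + C ^ 2) * (d ^ 2)⁻¹) *
        ‖u (tr ch i o y)‖ₑ) y := by
    intro i y hy
    have hyt : y ∈ (ch i).target := hK.sub i hy
    by_cases hyd : y ∈ dom ch i o
    · rw [indicator_of_mem hyd]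
      by_cases hz : tr ch i o y ∈ kd d
      · have hzd := PushKA.tr_mem ch hyd
        obtain ⟨h1, h2, h3⟩ := hB i d hd (tr ch i o y) hz hzd
        have hb : tr ch o i (tr ch i o y) = y := by
          rw [PushKA.tr_tr ch i hyd]
          exact PushKA.tr_self ch hyd.1
        rw [hb] at h2
        have h4 := fd_push hV o i hu hyd _ _ _ h1 h2 h3
        have h5 : ‖push ch o u i y‖ ≤ C * d ^ (-(1 / 2) : ℝ) * ‖u (tr ch i o y)‖ := by
          rw [PushKA.push_eq ch u hyd]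
          exact (ContinuousLinearMap.le_opNorm _ _).trans (by gcongr)
        have hd1 : d ≤ 1 := by
          have := hz 0
          linarith
        have h6 : d ^ (-(1 / 2) : ℝ) ≤ (d ^ 2)⁻¹ := by
          have h7 : (d ^ 2)⁻¹ = d ^ (-2 : ℝ) := by
            rw [Real.rpow_neg hd.le]
            norm_num
          rw [h7]
          exact Real.rpow_le_rpow_of_exponent_ge hd hd1 (by norm_num)
        rw [← ofReal_norm, ← ofReal_norm, ← ofReal_norm, ← ofReal_norm,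
          ← ENNReal.ofReal_mul (by positivity), ← ENNReal.ofReal_mul (by positivity),
          ← ENNReal.ofReal_add (by positivity) (by positivity),
          ← ENNReal.ofReal_add (by positivity) (by positivity)]
        apply ENNReal.ofReal_le_ofReal
        set a := ‖u (tr ch i o y)‖ with ha
        set b := ‖fderiv ℝ u (tr ch i o y)‖ with hbb
        have ha0 : 0 ≤ a := norm_nonneg _
        have hb0 : 0 ≤ b := norm_nonneg _
        have e1 : C * d ^ (-(3 / 2) : ℝ) * (C * d ^ (-(1 / 2) : ℝ)) = C ^ 2 * (d ^ 2)⁻¹ := by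
          rw [← p2]; ring
        have e2 : C * d ^ (-(1 / 2) : ℝ) * (C * d ^ (-(1 / 2) : ℝ)) = C ^ 2 * d⁻¹ := by
          rw [← p1]; ring
        rw [e1, e2] at h4
        have e3 : C * d ^ (-(1 / 2) : ℝ) * a ≤ C * (d ^ 2)⁻¹ * a := by gcongr
        have e4 : 0 ≤ C * d⁻¹ * b := by positivity
        nlinarith
      · have hz' : (ch i).symm y ∉ (ch o).symm '' kd d := by
          rintro ⟨w, hw, he⟩
          apply hz
          show ch o ((ch i).symm y) ∈ kd d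
          rw [← he, (ch o).right_inv (hKt hw)]
          exact hw
        have h1 := far o i hKc hKt hu0 hyt hz'
        rw [h1.fderiv_eq, h1.eq_of_nhds, zz]
        exact zero_le
    · have hz' : (ch i).symm y ∉ (ch o).symm '' kd d := by
        rintro ⟨w, hw, he⟩
        apply hyd
        refine ⟨hyt, ?_⟩
        rw [← he]
        exact (ch o).map_target (hKt hw)
      have h1 := far o i hKc hKt hu0 hyt hz'
      rw [h1.fderiv_eq, h1.eq_of_nhds, zz]
      exact zero_le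
  have hmK : ∀ i, MeasurableSet (K i) := fun i => (hK.cpt i).measurableSet
  have hmd : ∀ i, MeasurableSet (dom ch i o) := fun i => (PushKA.isOpen_dom ch i o).measurableSet
  have hmu : Measurable (fun x => ‖u x‖ₑ) := hu.continuous.measurable.enorm
  have hmf : Measurable (fun x => ‖fderiv ℝ u x‖ₑ) :=
    (hu.continuous_fderiv (by simp)).measurable.enorm
  -- the sum
  have hsum : ∀ (f : ι → ℝ≥0∞) (b : ℝ≥0∞), (∀ i, f i ≤ b) → ∑ i, f i ≤ ENNReal.ofReal N * b := by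
    intro f b h
    calc ∑ i, f i ≤ ∑ _i : ι, b := Finset.sum_le_sum fun i _ => h i
      _ = ENNReal.ofReal N * b := by
        rw [Finset.sum_const, nsmul_eq_mul, hN, ENNReal.ofReal_natCast, Finset.card_univ]
  constructor
  · unfold L1M
    refine (hsum _ (ENNReal.ofReal (C * d ^ (-(1 / 2) : ℝ)) * ∫⁻ x, ‖u x‖ₑ) fun i => ?_).trans ?_
    · calc ∫⁻ y in K i, ‖push ch o u i y‖ₑ
          ≤ ∫⁻ y in K i, (dom ch i o).indicator (fun y =>
              ENNReal.ofReal (C * d ^ (-(1 / 2) : ℝ)) * ‖u (tr ch i o y)‖ₑ) y :=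
            setLIntegral_mono' (hmK i) (ptw i)
        _ ≤ ∫⁻ y, (dom ch i o).indicator (fun y =>
              ENNReal.ofReal (C * d ^ (-(1 / 2) : ℝ)) * ‖u (tr ch i o y)‖ₑ) y :=
            setLIntegral_le_lintegral _ _
        _ = ∫⁻ y in dom ch i o,
              ENNReal.ofReal (C * d ^ (-(1 / 2) : ℝ)) * ‖u (tr ch i o y)‖ₑ :=
            lintegral_indicator (hmd i) _
        _ ≤ ∫⁻ z, ENNReal.ofReal (C * d ^ (-(1 / 2) : ℝ)) * ‖u z‖ₑ :=
            WMWA.cov hV o i (fun z => ENNReal.ofReal (C * d ^ (-(1 / 2) : ℝ)) * ‖u z‖ₑ)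
        _ = _ := lintegral_const_mul _ hmu
    · rw [← mul_assoc, ← ENNReal.ofReal_mul hN0]
      refine mul_le_mul' (ENNReal.ofReal_le_ofReal ?_) le_rfl
      have : 0 ≤ N * C ^ 2 * d ^ (-(1 / 2) : ℝ) := by positivity
      nlinarith
  · unfold W1M
    refine (hsum _ ((ENNReal.ofReal ((C + C ^ 2) * d⁻¹) * ∫⁻ x, ‖fderiv ℝ u x‖ₑ) +
      ENNReal.ofReal ((C + C ^ 2) * (d ^ 2)⁻¹) * ∫⁻ x, ‖u x‖ₑ) fun i => ?_).trans ?_
    · calc ∫⁻ y in K i, (‖push ch o u i y‖ₑ + ‖fderiv ℝ (push ch o u i) y‖ₑ)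
          ≤ ∫⁻ y in K i, (dom ch i o).indicator (fun y => ENNReal.ofReal ((C + C ^ 2) * d⁻¹) *
              ‖fderiv ℝ u (tr ch i o y)‖ₑ + ENNReal.ofReal ((C + C ^ 2) * (d ^ 2)⁻¹) *
              ‖u (tr ch i o y)‖ₑ) y :=
            setLIntegral_mono' (hmK i) (ptd i)
        _ ≤ ∫⁻ y, (dom ch i o).indicator (fun y => ENNReal.ofReal ((C + C ^ 2) * d⁻¹) *
              ‖fderiv ℝ u (tr ch i o y)‖ₑ + ENNReal.ofReal ((C + C ^ 2) * (d ^ 2)⁻¹) *
              ‖u (tr ch i o y)‖ₑ) y := setLIntegral_le_lintegral _ _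
        _ = ∫⁻ y in dom ch i o, (ENNReal.ofReal ((C + C ^ 2) * d⁻¹) *
              ‖fderiv ℝ u (tr ch i o y)‖ₑ + ENNReal.ofReal ((C + C ^ 2) * (d ^ 2)⁻¹) *
              ‖u (tr ch i o y)‖ₑ) := lintegral_indicator (hmd i) _
        _ ≤ ∫⁻ z, (ENNReal.ofReal ((C + C ^ 2) * d⁻¹) * ‖fderiv ℝ u z‖ₑ +
              ENNReal.ofReal ((C + C ^ 2) * (d ^ 2)⁻¹) * ‖u z‖ₑ) :=
            WMWA.cov hV o i (fun z => ENNReal.ofReal ((C + C ^ 2) * d⁻¹) * ‖fderiv ℝ u z‖ₑ +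
              ENNReal.ofReal ((C + C ^ 2) * (d ^ 2)⁻¹) * ‖u z‖ₑ)
        _ = (ENNReal.ofReal ((C + C ^ 2) * d⁻¹) * ∫⁻ x, ‖fderiv ℝ u x‖ₑ) +
              ENNReal.ofReal ((C + C ^ 2) * (d ^ 2)⁻¹) * ∫⁻ x, ‖u x‖ₑ := by
            rw [lintegral_add_left (hmf.const_mul _), lintegral_const_mul _ hmf,
              lintegral_const_mul _ hmu]
    · rw [mul_add, ← mul_assoc, ← mul_assoc, ← ENNReal.ofReal_mul hN0, ← ENNReal.ofReal_mul hN0,
        ← mul_assoc, ← mul_assoc]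

end

end Pool.Agent.H23.ST
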