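import Pool.Agent.H23.ST.Ang
import Pool.Agent.H23.ST.Cor
import Pool.Agent.H23.ST.Qua
import Pool.Agent.H23.ST.EndC
import Pool.Agent.H23.ST.Atl
import Pool.Agent.H23.ST.SphA
import Pool.Agent.H23.ST.PchV
import Pool.Agent.H23.ST.PchK
import Pool.Agent.H23.ST.PchB
import Pool.Agent.H23.ST.Wgt

/-! # Assembly of the geometry: the sphere and the product of two spheres -/

namespace Pool.Agent.H23.ST

open MeasureTheory Set Pool.Agent.H68.VD Pool.Agent.H68.GM Pool.Agent.H6.ST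
open scoped ENNReal ContDiff Topology

theorem gE1 : GE1 := by
  obtain ⟨g, hg⟩ := exists_angFn
  obtain ⟨C, hC⟩ := corKit g hg
  obtain ⟨h, r, C', hQ⟩ := quaKit g hg C hC
  obtain ⟨V, y, z, ρ, C'', hE⟩ := endChart g h r C' hQ
  obtain ⟨c, hc⟩ := atl2 V y z ρ C'' hE
  obtain ⟨⟨A, B, hS⟩, h1, h2, h3⟩ := sph_of V y z ρ C'' hE c hc
  exact ⟨S2, inferInstance, A, B, h1, h2, h3, hS⟩

theorem gE2 : GE2 := by
  intro S _ _ _ A B h
  obtain ⟨h1, h2, h3⟩ := pch_vol S A B h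
  obtain ⟨K, hK⟩ := pch_cov S A B h
  obtain ⟨C, hC, hB⟩ := pch_bds S A B h
  obtain ⟨C', hC', hW⟩ := wgt_of (S × S) (Fin 2 × Fin 2) (pch A B) h1 (0, 0) K hK h2 C hC hB
  exact ⟨K, ⟨h1, hK, h2, h3, ⟨C', hC', hW⟩⟩⟩

end Pool.Agent.H23.ST
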