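import Pool.Agent.H68.GM.S

/-! # The manifold: product of two spheres, each the one point compactification of the open unit
square: definitions -/

namespace Pool.Agent.H23.ST

open MeasureTheory Set Pool.Agent.H68.VD Pool.Agent.H68.GM
open scoped ENNReal ContDiff

noncomputable section

/-- The open unit square. -/
def Sq : Set ℂ := {z | 0 < z.re ∧ z.re < 1 ∧ 0 < z.im ∧ z.im < 1}

/-- The open square of half side `r` about `0`. -/
def Bx (r : ℝ) : Set ℂ := {w | |w.re| < r ∧ |w.im| < r}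

/-- The distance to the sides of the unit square. -/
def dsq (z : ℂ) : ℝ := min (min z.re (1 - z.re)) (min z.im (1 - z.im))

/-- An increasing change of angles from `[0, π/2]` to `[0, π]`, a translation near the ends. -/
structure AngFn (g : ℝ → ℝ) : Prop where
  smooth : ContDiff ℝ ∞ g
  pos : ∀ b, 0 < deriv g b
  low : ∀ b, b ≤ Real.pi / 8 → g b = b
  high : ∀ b, 3 * Real.pi / 8 ≤ b → g b = b + Real.pi / 2

/-- The area preserving map of the open quadrant onto the open upper half plane with angle function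
`g`: polar coordinates `(r, b)` go to `(r / √(g' b), g b)`. -/
def cor (g : ℝ → ℝ) (z : ℂ) : ℂ :=
  ((‖z‖ / √(deriv g z.arg) : ℝ) : ℂ) * Complex.exp (((g z.arg : ℝ) : ℂ) * Complex.I)

/-- The coordinate at infinity near the corner `0` of the unit square. -/
def yq (g : ℝ → ℝ) (z : ℂ) : ℂ :=
  ((√(4 * (cor g z).im / Real.pi) : ℝ) : ℂ) *
    Complex.exp (((Real.pi / 2 * (cor g z).re : ℝ) : ℂ) * Complex.I)

/-- The rotation by a right angle about the centre of the unit square. -/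
def rt (z : ℂ) : ℂ := (1 + Complex.I) / 2 + Complex.I * (z - (1 + Complex.I) / 2)

/-- A chart at infinity of the open unit square. -/
structure EndChart (V : Set ℂ) (y z : ℂ → ℂ) (ρ C : ℝ) : Prop where
  hρ : 0 < ρ
  hC : 0 < C
  hV : IsOpen V
  sub : V ⊆ Sq
  maps : ∀ a ∈ V, y a ∈ Bx ρ ∧ y a ≠ 0
  mapz : ∀ w ∈ Bx ρ, w ≠ 0 → z w ∈ V
  left : ∀ a ∈ V, z (y a) = a
  right : ∀ w ∈ Bx ρ, w ≠ 0 → y (z w) = w
  smy : ContDiffOn ℝ ∞ y V
  smz : ContDiffOn ℝ ∞ z (Bx ρ \ {0})
  dety : ∀ a ∈ V, |(fderiv ℝ y a).det| = 1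
  detz : ∀ w ∈ Bx ρ, w ≠ 0 → |(fderiv ℝ z w).det| = 1
  proper : ∀ r : ℝ, 0 < r → r ≤ ρ → IsCompact {a | a ∈ Sq ∧ (a ∈ V → y a ∉ Bx r)}
  bd1 : ∀ a ∈ V, ‖fderiv ℝ y a‖ ≤ C * dsq a ^ (-(1 / 2) : ℝ)
  bd2 : ∀ a ∈ V, ‖fderiv ℝ (fderiv ℝ y) a‖ ≤ C * dsq a ^ (-(3 / 2) : ℝ)
  bdz : ∀ a ∈ V, ‖fderiv ℝ z (y a)‖ ≤ C * dsq a ^ (-(1 / 2) : ℝ)

/-- The sphere: the one point compactification of the open unit square. -/
abbrev S2 : Type := OnePoint Sq

theorem isOpen_Sq : IsOpen Sq :=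
  (isOpen_lt continuous_const Complex.continuous_re).inter
    ((isOpen_lt Complex.continuous_re continuous_const).inter
      ((isOpen_lt continuous_const Complex.continuous_im).inter
        (isOpen_lt Complex.continuous_im continuous_const)))

instance : LocallyCompactSpace Sq := isOpen_Sq.locallyCompactSpace


/-- Complex coordinates of `Eu 4`. -/
def J4 : (ℂ × ℂ) ≃ₗ[ℝ] Eu 4 where
  toFun p := WithLp.toLp 2 ![p.1.re, p.1.im, p.2.re, p.2.im]
  invFun x := (⟨x 0, x 1⟩, ⟨x 2, x 3⟩)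
  map_add' p q := by
    ext i
    fin_cases i <;> simp
  map_smul' c p := by
    ext i
    fin_cases i <;> simp
  left_inv p := by simp
  right_inv x := by
    ext i
    fin_cases i <;> simp

/-- Complex coordinates of `Eu 4`, continuous. -/
def J : (ℂ × ℂ) ≃L[ℝ] Eu 4 := J4.toContinuousLinearEquiv

end

end Pool.Agent.H23.ST
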