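import Pool.Agent.H23.ST.Geo

/-! # Definitions of the rows on the geometry -/

namespace Pool.Agent.H23.ST

open MeasureTheory Set Pool.Agent.H68.VD Pool.Agent.H68.GM
open scoped ENNReal ContDiff

/-- The open quadrant. -/
def Qd : Set ℂ := {z | 0 < z.re ∧ 0 < z.im}

/-- the corner map -/
structure CorKit (g : ℝ → ℝ) (C : ℝ) : Prop where
  hC : 0 < C
  smooth : ContDiffOn ℝ ∞ (cor g) Qd
  det : ∀ z ∈ Qd, |(fderiv ℝ (cor g) z).det| = 1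
  bij : BijOn (cor g) Qd {w | 0 < w.im}
  low : ∀ z ∈ Qd, z.arg ≤ Real.pi / 8 → cor g z = z
  high : ∀ z ∈ Qd, 3 * Real.pi / 8 ≤ z.arg → cor g z = Complex.I * z
  normu : ∀ z ∈ Qd, ‖cor g z‖ ≤ C * ‖z‖
  norml : ∀ z ∈ Qd, ‖z‖ ≤ C * ‖cor g z‖
  imu : ∀ z ∈ Qd, (cor g z).im ≤ C * min z.re z.im
  iml : ∀ z ∈ Qd, min z.re z.im ≤ C * (cor g z).im
  bd1 : ∀ z ∈ Qd, ‖fderiv ℝ (cor g) z‖ ≤ C
  bd2 : ∀ z ∈ Qd, ‖fderiv ℝ (fderiv ℝ (cor g)) z‖ ≤ C / ‖z‖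

/-- The part of the collar of height `h` near the corner `0`. -/
def A0 (g : ℝ → ℝ) (h : ℝ) : Set ℂ :=
  {z | z ∈ Qd ∧ z.re < 3 / 4 ∧ z.im < 3 / 4 ∧ (cor g z).im < h}

/-- The open sector of radius `r` and angles between `-3π/8` and `3π/8`. -/
def Sec (r : ℝ) : Set ℂ := {w | w ≠ 0 ∧ ‖w‖ < r ∧ |w.arg| < 3 * Real.pi / 8}

/-- the coordinate at infinity near the corner `0`. -/
structure QuaKit (g : ℝ → ℝ) (h r C : ℝ) : Prop where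
  hh : 0 < h
  hr : 0 < r
  hC : 0 < C
  opn : IsOpen (A0 g h)
  sub : A0 g h ⊆ Sq
  small : ∀ z ∈ A0 g h, dsq z < 1 / 8
  near : ∀ z ∈ Sq, z.re < 3 / 4 → z.im < 3 / 4 → C * dsq z < h → z ∈ A0 g h
  bij : BijOn (yq g) (A0 g h) (Sec r)
  smooth : ContDiffOn ℝ ∞ (yq g) (A0 g h)
  det : ∀ z ∈ A0 g h, |(fderiv ℝ (yq g) z).det| = 1
  nrm : ∀ z ∈ A0 g h, ‖yq g z‖ ^ 2 ≤ C * dsq z
  ovr : ∀ z ∈ A0 g h, 1 / 4 < z.re → rt (rt (rt z)) ∈ A0 g h ∧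
    yq g z = Complex.I * yq g (rt (rt (rt z)))
  ovr' : ∀ z ∈ A0 g h, 1 / 4 < z.im → rt z ∈ A0 g h ∧ yq g (rt z) = Complex.I * yq g z
  ang : ∀ z ∈ A0 g h, Real.pi / 8 < (yq g z).arg → 1 / 4 < z.re
  ang' : ∀ z ∈ A0 g h, (yq g z).arg < -(Real.pi / 8) → 1 / 4 < z.im
  bd1 : ∀ z ∈ A0 g h, ‖fderiv ℝ (yq g) z‖ ≤ C * dsq z ^ (-(1 / 2) : ℝ)
  bd2 : ∀ z ∈ A0 g h, ‖fderiv ℝ (fderiv ℝ (yq g)) z‖ ≤ C * dsq z ^ (-(3 / 2) : ℝ)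

/-- the two charts of the sphere. -/
structure Atl2 (c : Fin 2 → OpenPartialHomeomorph S2 ℂ) (V : Set ℂ) (y : ℂ → ℂ) (ρ : ℝ) : Prop where
  s0 : (c 0).source = Set.range ((↑) : Sq → S2)
  t0 : (c 0).target = Sq
  f0 : ∀ a : Sq, c 0 (a : S2) = (a : ℂ)
  t1 : (c 1).target = Bx ρ
  s1 : ∀ a : Sq, (a : S2) ∈ (c 1).source ↔ (a : ℂ) ∈ V
  f1 : ∀ a : Sq, (a : ℂ) ∈ V → c 1 (a : S2) = y a
  inf : OnePoint.infty ∈ (c 1).source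
  finf : c 1 OnePoint.infty = 0

/-- The four charts of the product of two spheres. -/
noncomputable def chP (c : Fin 2 → OpenPartialHomeomorph S2 ℂ) (p : Fin 2 × Fin 2) :
    OpenPartialHomeomorph (S2 × S2) (Eu 4) :=
  ((c p.1).prod (c p.2)).transHomeomorph J.toHomeomorph

end Pool.Agent.H23.ST
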