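import Pool.Agent.H6.ST.St
import Pool.Agent.H23.ST.Geo2

/-! # Definitions of the rows on the product of two spheres -/

namespace Pool.Agent.H23.ST

open MeasureTheory Set Pool.Agent.H68.VD Pool.Agent.H68.GM Pool.Agent.H6.ST
open scoped ENNReal ContDiff Topology

/-- The bounds of the transition maps of the chart `o`. -/
def TrB {M : Type} [TopologicalSpace M] {ι : Type} (ch : ι → OpenPartialHomeomorph M (Eu 4))
    (o : ι) (C : ℝ) : Prop :=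
  ∀ i, ∀ d : ℝ, 0 < d → ∀ y : Eu 4, (∀ k, d ≤ y k ∧ y k ≤ 1 - d) → y ∈ dom ch o i →
    ‖fderiv ℝ (tr ch o i) y‖ ≤ C * d ^ (-(1 / 2) : ℝ) ∧
    ‖fderiv ℝ (tr ch i o) (tr ch o i y)‖ ≤ C * d ^ (-(1 / 2) : ℝ) ∧
    ‖fderiv ℝ (fderiv ℝ (tr ch o i)) y‖ ≤ C * d ^ (-(3 / 2) : ℝ)

end Pool.Agent.H23.ST
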