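import Pool.Agent.H23.ST.Bu

/-! # ST-B7: the core of the bounds for the transported field -/

namespace Pool.Agent.H23.ST

open MeasureTheory Set Pool.Agent.H68.VD Pool.Agent.H68.GM
open scoped ENNReal ContDiff Topology

theorem pfc_smooth {s : ℝ → ℝ} {ζ : ℝ → Eu 4 → Eu 4} (hζ : Blow s ζ) (τ : ℝ) :
    ContDiff ℝ ∞ (ζ τ) := by
  have h1 : ContDiff ℝ ∞ (fun x : Eu 4 => ((τ, x) : ℝ × Eu 4)) := contDiff_const.prodMk contDiff_id
  exact hζ.smooth.comp h1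

theorem pfc_cov {s : ℝ → ℝ} {ζ : ℝ → Eu 4 → Eu 4} (hζ : Blow s ζ)
    (hg : ∀ a b x, ζ (a + b) x = ζ a (ζ b x)) (τ : ℝ) (F : Eu 4 → ℝ) :
    ∫ y, F y = ∫ x, |(fderiv ℝ (ζ τ) x).det| * F (ζ τ x) := by
  have h0 : ∀ x, ζ 0 x = x := hζ.flow.zero
  have hl : ∀ x, ζ (-τ) (ζ τ x) = x := by
    intro x
    rw [← hg, neg_add_cancel, h0]
  have hr : ∀ x, ζ τ (ζ (-τ) x) = x := by
    intro x
    rw [← hg, add_neg_cancel, h0]
  have hinj : Function.Injective (ζ τ) := Function.LeftInverse.injective hl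
  have hsur : Function.Surjective (ζ τ) := Function.RightInverse.surjective hr
  have hd : ∀ x, HasFDerivAt (ζ τ) (fderiv ℝ (ζ τ) x) x := fun x =>
    ((pfc_smooth hζ τ).differentiable (by simp) x).hasFDerivAt
  have h1 := integral_image_eq_integral_abs_det_fderiv_smul (volume : Measure (Eu 4))
    MeasurableSet.univ (fun x _ => (hd x).hasFDerivWithinAt) hinj.injOn F
  rw [image_univ, hsur.range_eq] at h1
  simpa using h1

theorem pfc_deriv {s : ℝ → ℝ} {ζ : ℝ → Eu 4 → Eu 4} (hζ : Blow s ζ)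
    (hg : ∀ a b x, ζ (a + b) x = ζ a (ζ b x)) (τ : ℝ) (z : Eu 4 → Eu 4) (hz : ContDiff ℝ ∞ z)
    (x : Eu 4) :
    fderiv ℝ (pf ζ τ z) (ζ τ x) =
      ((fderiv ℝ (ζ τ) x).comp (fderiv ℝ z x) + (fderiv ℝ (fderiv ℝ (ζ τ)) x).flip (z x)).comp
        (fderiv ℝ (ζ (-τ)) (ζ τ x)) := by
  have h0 : ∀ x, ζ 0 x = x := hζ.flow.zero
  have hl : ∀ x, ζ (-τ) (ζ τ x) = x := by
    intro x
    rw [← hg, neg_add_cancel, h0]
  have hs := pfc_smooth hζ τ
  have hs' := pfc_smooth hζ (-τ)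
  have hds : ContDiff ℝ ∞ (fderiv ℝ (ζ τ)) := hs.fderiv_right (by simp)
  have h1 : HasFDerivAt (fun x => fderiv ℝ (ζ τ) x (z x))
      ((fderiv ℝ (ζ τ) x).comp (fderiv ℝ z x) + (fderiv ℝ (fderiv ℝ (ζ τ)) x).flip (z x)) x :=
    (hds.differentiable (by simp) x).hasFDerivAt.clm_apply
      (hz.differentiable (by simp) x).hasFDerivAt
  have h2 : HasFDerivAt (ζ (-τ)) (fderiv ℝ (ζ (-τ)) (ζ τ x)) (ζ τ x) :=
    (hs'.differentiable (by simp) _).hasFDerivAt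
  have h3 : HasFDerivAt (fun x => fderiv ℝ (ζ τ) x (z x))
      ((fderiv ℝ (ζ τ) x).comp (fderiv ℝ z x) + (fderiv ℝ (fderiv ℝ (ζ τ)) x).flip (z x))
      (ζ (-τ) (ζ τ x)) := by
    rw [hl]
    exact h1
  exact (h3.comp (ζ τ x) h2).fderiv

theorem pfc_core (s : ℝ → ℝ) (w : Set ℝ) (θ : ℝ) (h : Prof s w θ) (hθ : 0 < θ)
    (ζ : ℝ → Eu 4 → Eu 4) (hζ : Blow s ζ)
    (hg : ∀ a b x, ζ (a + b) x = ζ a (ζ b x))
    (hdet : ∀ τ ≤ 0, ∀ x ∈ Wl w, (fderiv ℝ (ζ τ) x).det = Real.exp τ)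
    (hbd : ∃ C : ℝ, 0 < C ∧ ∀ τ ≤ 0, ∀ x, ‖fderiv ℝ (ζ τ) x‖ ≤ C * Real.exp (3 * θ * |τ|) ∧
      ‖fderiv ℝ (ζ (-τ)) x‖ ≤ C * Real.exp ((1 + 5 * θ) * |τ|) ∧
      ‖fderiv ℝ (fderiv ℝ (ζ τ)) x‖ ≤ C * Real.exp (7 * θ * |τ|)) :
    ∃ C : ℝ, 0 < C ∧ ∀ z : Eu 4 → Eu 4, ContDiff ℝ ∞ z → HasCompactSupport z →
      (∀ x ∉ Wl w, z x = 0) → ∀ τ ≤ 0,
      ∫ y, ‖pf ζ τ z y‖ ≤ C * Real.exp (-(1 - 3 * θ) * |τ|) * ∫ y, ‖z y‖ ∧
      ∫ y, ‖fderiv ℝ (pf ζ τ z) y‖ ≤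
        C * Real.exp (12 * θ * |τ|) * ((∫ y, ‖z y‖) + ∫ y, ‖fderiv ℝ z y‖) := by
  obtain ⟨C, hC, hb⟩ := hbd
  refine ⟨C + C ^ 2, by positivity, ?_⟩
  intro z hz hzc hz0 τ hτ
  have hcl : IsClosed (Wl w) := by
    have : Wl w = ⋃ k : Fin 4, (fun x : Eu 4 => x k) ⁻¹' w := by
      ext x
      simp [Wl]
    rw [this]
    refine isClosed_iUnion_of_finite fun k => h.closed.preimage ?_
    fun_prop
  have hdz0 : ∀ x ∉ Wl w, fderiv ℝ z x = 0 := by
    intro x hx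
    have h1 : z =ᶠ[𝓝 x] fun _ => (0 : Eu 4) := by
      filter_upwards [hcl.isOpen_compl.mem_nhds hx] with y hy
      exact hz0 y hy
    rw [h1.fderiv_eq]
    simp
  have habs : |τ| = -τ := abs_of_nonpos hτ
  have hzi : Integrable (fun y => ‖z y‖) :=
    (hz.continuous.integrable_of_hasCompactSupport hzc).norm
  have hdzi : Integrable (fun y => ‖fderiv ℝ z y‖) :=
    ((hz.continuous_fderiv (by simp)).integrable_of_hasCompactSupport (hzc.fderiv ℝ)).norm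
  have h0 : ∀ x, ζ 0 x = x := hζ.flow.zero
  have hl : ∀ x, ζ (-τ) (ζ τ x) = x := by
    intro x
    rw [← hg, neg_add_cancel, h0]
  have hpf : ∀ x, pf ζ τ z (ζ τ x) = fderiv ℝ (ζ τ) x (z x) := by
    intro x
    simp only [pf, hl]
  constructor
  · rw [pfc_cov hζ hg τ (fun y => ‖pf ζ τ z y‖), ← integral_const_mul]
    refine integral_mono_of_nonneg (Filter.Eventually.of_forall fun x => by positivity)
      (hzi.const_mul _) (Filter.Eventually.of_forall fun x => ?_)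
    by_cases hx : x ∈ Wl w
    · simp only [hpf]
      rw [hdet τ hτ x hx, abs_of_pos (Real.exp_pos τ)]
      have h1 : ‖fderiv ℝ (ζ τ) x (z x)‖ ≤ C * Real.exp (3 * θ * |τ|) * ‖z x‖ :=
        ((fderiv ℝ (ζ τ) x).le_opNorm (z x)).trans
          (mul_le_mul_of_nonneg_right (hb τ hτ x).1 (norm_nonneg _))
      have h2 : Real.exp (-(1 - 3 * θ) * |τ|) = Real.exp τ * Real.exp (3 * θ * |τ|) := by
        rw [← Real.exp_add, habs]
        congr 1
        ring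
      rw [h2]
      calc Real.exp τ * ‖fderiv ℝ (ζ τ) x (z x)‖
          ≤ Real.exp τ * (C * Real.exp (3 * θ * |τ|) * ‖z x‖) := by gcongr
        _ ≤ Real.exp τ * ((C + C ^ 2) * Real.exp (3 * θ * |τ|) * ‖z x‖) := by
            gcongr
            nlinarith
        _ = (C + C ^ 2) * (Real.exp τ * Real.exp (3 * θ * |τ|)) * ‖z x‖ := by ring
    · simp only [hpf, hz0 x hx]
      simp
  · rw [pfc_cov hζ hg τ (fun y => ‖fderiv ℝ (pf ζ τ z) y‖), ← integral_add hzi hdzi,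
      ← integral_const_mul]
    refine integral_mono_of_nonneg (Filter.Eventually.of_forall fun x => by positivity)
      ((hzi.add hdzi).const_mul _) (Filter.Eventually.of_forall fun x => ?_)
    by_cases hx : x ∈ Wl w
    · simp only [pfc_deriv hζ hg τ z hz x]
      rw [hdet τ hτ x hx, abs_of_pos (Real.exp_pos τ)]
      have h1 : ‖((fderiv ℝ (ζ τ) x).comp (fderiv ℝ z x) +
          (fderiv ℝ (fderiv ℝ (ζ τ)) x).flip (z x)).comp (fderiv ℝ (ζ (-τ)) (ζ τ x))‖ ≤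
          (C * Real.exp (7 * θ * |τ|) * ‖fderiv ℝ z x‖ + C * Real.exp (7 * θ * |τ|) * ‖z x‖) *
            (C * Real.exp ((1 + 5 * θ) * |τ|)) := by
        refine (ContinuousLinearMap.opNorm_comp_le _ _).trans ?_
        have h3 : ‖(fderiv ℝ (ζ τ) x).comp (fderiv ℝ z x)‖ ≤
            C * Real.exp (7 * θ * |τ|) * ‖fderiv ℝ z x‖ := by
          refine (ContinuousLinearMap.opNorm_comp_le _ _).trans ?_
          refine mul_le_mul_of_nonneg_right ((hb τ hτ x).1.trans ?_) (norm_nonneg _)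
          have : 3 * θ * |τ| ≤ 7 * θ * |τ| := by
            have := abs_nonneg τ
            nlinarith [mul_nonneg hθ.le this]
          gcongr
        have h4 : ‖(fderiv ℝ (fderiv ℝ (ζ τ)) x).flip (z x)‖ ≤
            C * Real.exp (7 * θ * |τ|) * ‖z x‖ := by
          refine (ContinuousLinearMap.le_opNorm _ _).trans ?_
          rw [ContinuousLinearMap.opNorm_flip]
          exact mul_le_mul_of_nonneg_right (hb τ hτ x).2.2 (norm_nonneg _)
        refine mul_le_mul ((norm_add_le _ _).trans (add_le_add h3 h4)) (hb τ hτ _).2.1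
          (norm_nonneg _) (by positivity)
      have h2 : Real.exp (12 * θ * |τ|) =
          Real.exp τ * (Real.exp (7 * θ * |τ|) * Real.exp ((1 + 5 * θ) * |τ|)) := by
        rw [← Real.exp_add, ← Real.exp_add, habs]
        congr 1
        ring
      rw [h2]
      refine (mul_le_mul_of_nonneg_left h1 (Real.exp_pos τ).le).trans ?_
      have h5 : (0 : ℝ) ≤ Real.exp τ * (Real.exp (7 * θ * |τ|) * Real.exp ((1 + 5 * θ) * |τ|)) *
          (‖z x‖ + ‖fderiv ℝ z x‖) * C := by positivity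
      nlinarith [h5]
    · simp only [pfc_deriv hζ hg τ z hz x, hz0 x hx, hdz0 x hx]
      simp

end Pool.Agent.H23.ST
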