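import Pool.Agent.H23.ST.Bu

/-! # ST-B1: a periodic profile -/

set_option autoImplicit false

namespace Pool.Agent.H23.ST

open MeasureTheory Set Pool.Agent.H68.VD Pool.Agent.H68.GM
open scoped ENNReal ContDiff Topology

noncomputable section

/-- the derivative of the profile on one period -/
theorem stb1_g (θ : ℝ) (hθ : 0 < θ) : ∃ (g : ℝ → ℝ) (δ : ℝ), 0 < δ ∧ δ < 1 / 4 ∧ ContDiff ℝ ∞ g ∧
    (∀ x, g x ≤ 1) ∧ (∀ x, -θ ≤ g x) ∧ (∀ x, |x| ≤ δ → g x = 1) ∧
    (∀ x, 1 / 4 ≤ |x| → g x = 0) ∧ (∀ x, g (-x) = g x) ∧ ∫ x in (0 : ℝ)..(1 / 4), g x = 0 := by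
  let B : ContDiffBump (1 / 8 : ℝ) := ⟨1 / 32, 1 / 16, by norm_num, by norm_num⟩
  have hBout : B.rOut = 1 / 16 := rfl
  have hBsm : ContDiff ℝ ∞ (B : ℝ → ℝ) := B.contDiff
  let ψ : ℝ → ℝ := fun v => B v + B (-v)
  have hψsm : ContDiff ℝ ∞ ψ := hBsm.add (hBsm.comp contDiff_neg)
  have hB0 : ∀ v : ℝ, 1 / 16 ≤ |v - 1 / 8| → B v = 0 := fun v hv => by
    apply B.zero_of_le_dist
    rw [Real.dist_eq, hBout]
    exact hv
  have hψ0 : ∀ v, 0 ≤ ψ v := fun v => add_nonneg B.nonneg B.nonneg
  have hψ1 : ∀ v, ψ v ≤ 1 := by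
    intro v
    rcases le_total v 0 with h | h
    · have : B v = 0 := hB0 v (by rw [abs_of_nonpos (by linarith)]; linarith)
      simp only [ψ, this, zero_add]
      exact B.le_one
    · have : B (-v) = 0 := hB0 (-v) (by rw [abs_of_nonpos (by linarith)]; linarith)
      simp only [ψ, this, add_zero]
      exact B.le_one
  have hψfar : ∀ v, 1 / 4 ≤ |v| → ψ v = 0 := by
    intro v hv
    rcases le_abs.1 hv with h | h
    · have h1 : B v = 0 := hB0 v (by rw [abs_of_nonneg (by linarith)]; linarith)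
      have h2 : B (-v) = 0 := hB0 (-v) (by rw [abs_of_nonpos (by linarith)]; linarith)
      simp [ψ, h1, h2]
    · have h1 : B v = 0 := hB0 v (by rw [abs_of_nonpos (by linarith)]; linarith)
      have h2 : B (-v) = 0 := hB0 (-v) (by rw [abs_of_nonneg (by linarith)]; linarith)
      simp [ψ, h1, h2]
  have hψnear : ∀ v, |v| ≤ 1 / 16 → ψ v = 0 := by
    intro v hv
    obtain ⟨h3, h4⟩ := abs_le.1 hv
    have h1 : B v = 0 := hB0 v (by rw [abs_of_nonpos (by linarith)]; linarith)
    have h2 : B (-v) = 0 := hB0 (-v) (by rw [abs_of_nonpos (by linarith)]; linarith)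
    simp [ψ, h1, h2]
  have hI : 0 < ∫ x in (0 : ℝ)..(1 / 4), ψ x := by
    refine intervalIntegral.integral_pos (by norm_num) hψsm.continuous.continuousOn
      (fun x _ => hψ0 x) ⟨1 / 8, ⟨by norm_num, by norm_num⟩, ?_⟩
    have : 0 < B (1 / 8) := B.pos_of_mem_ball (by simp [hBout])
    exact add_pos_of_pos_of_nonneg this B.nonneg
  set I : ℝ := ∫ x in (0 : ℝ)..(1 / 4), ψ x with hIdef
  obtain ⟨δ, hδ, hδ1, hδ2⟩ : ∃ δ : ℝ, 0 < δ ∧ δ ≤ 1 / 32 ∧ 2 * δ ≤ θ * I :=
    ⟨min (1 / 32) (θ * I / 2), by positivity, min_le_left _ _, by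
      have := min_le_right (1 / 32) (θ * I / 2)
      linarith⟩
  let F : ContDiffBump (0 : ℝ) := ⟨δ, 2 * δ, hδ, by linarith⟩
  have hFout : F.rOut = 2 * δ := rfl
  have hFin : F.rIn = δ := rfl
  have hFsm : ContDiff ℝ ∞ (F : ℝ → ℝ) := F.contDiff
  have hF0 : ∀ v : ℝ, 2 * δ ≤ |v| → F v = 0 := fun v hv => by
    apply F.zero_of_le_dist
    rw [Real.dist_eq, hFout, sub_zero]
    exact hv
  set J : ℝ := ∫ x in (0 : ℝ)..(1 / 4), F x with hJdef
  have hJ0 : 0 ≤ J := intervalIntegral.integral_nonneg (by norm_num) fun x _ => F.nonneg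
  have hJ : J ≤ 2 * δ := by
    have hi : ∀ a b : ℝ, IntervalIntegrable (F : ℝ → ℝ) volume a b := fun a b =>
      hFsm.continuous.intervalIntegrable a b
    rw [hJdef, ← intervalIntegral.integral_add_adjacent_intervals (hi 0 (2 * δ)) (hi (2 * δ) _)]
    have e1 : ∫ x in (2 * δ)..(1 / 4), F x = 0 := by
      rw [intervalIntegral.integral_congr (g := fun _ => (0 : ℝ))]
      · simp
      · intro x hx
        rw [uIcc_of_le (by linarith)] at hx
        exact hF0 x (le_trans hx.1 (le_abs_self _))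
    have e2 : ∫ x in (0 : ℝ)..(2 * δ), F x ≤ ∫ x in (0 : ℝ)..(2 * δ), (1 : ℝ) :=
      intervalIntegral.integral_mono_on (by linarith) (hi _ _) intervalIntegrable_const
        fun x _ => F.le_one
    rw [e1, add_zero]
    refine e2.trans ?_
    simp
  have hκ : J / I ≤ θ := by
    rw [div_le_iff₀ hI]
    linarith
  have hκ0 : 0 ≤ J / I := div_nonneg hJ0 hI.le
  refine ⟨fun v => F v - J / I * ψ v, δ, hδ, by linarith, hFsm.sub (contDiff_const.mul hψsm),
    ?_, ?_, ?_, ?_, ?_, ?_⟩
  · intro x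
    have := mul_nonneg hκ0 (hψ0 x)
    have := F.le_one (x := x)
    linarith
  · intro x
    have h1 := mul_le_mul_of_nonneg_left (hψ1 x) hκ0
    have := F.nonneg (x := x)
    simp only []
    linarith
  · intro x hx
    have h1 : F x = 1 := F.one_of_mem_closedBall (by
      rw [mem_closedBall_zero_iff, Real.norm_eq_abs, hFin]; exact hx)
    simp only [h1, hψnear x (by linarith)]
    ring
  · intro x hx
    simp only [hF0 x (by linarith), hψfar x hx]
    ring
  · intro x
    have h1 : F (-x) = F x := F.neg x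
    have h2 : ψ (-x) = ψ x := by simp only [ψ, neg_neg]; ring
    simp only [h1, h2]
  · have h1 : IntervalIntegrable (fun v => (F v : ℝ)) volume 0 (1 / 4) :=
      hFsm.continuous.intervalIntegrable _ _
    have h2 : IntervalIntegrable (fun v => J / I * ψ v) volume 0 (1 / 4) :=
      (continuous_const.mul hψsm.continuous).intervalIntegrable _ _
    have h3 := intervalIntegral.integral_sub h1 h2
    have h4 : J / I * I = J := div_mul_cancel₀ _ hI.ne'
    rw [intervalIntegral.integral_const_mul, ← hIdef, ← hJdef, h4, sub_self] at h3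
    exact h3

/-- the profile on one period -/
theorem stb1_b (θ : ℝ) (hθ : 0 < θ) : ∃ (b g : ℝ → ℝ) (δ : ℝ), 0 < δ ∧ δ < 1 / 4 ∧
    ContDiff ℝ ∞ b ∧ (∀ x, HasDerivAt b (g x) x) ∧ (∀ x, g x ≤ 1) ∧ (∀ x, -θ ≤ g x) ∧
    (∀ x, |x| ≤ δ → g x = 1) ∧ (∀ x, |x| ≤ δ → b x = x) ∧ (∀ x, 1 / 4 ≤ |x| → b x = 0) ∧
    (∀ x, b (-x) = - b x) := by
  obtain ⟨g, δ, hδ, hδ1, hg, g1, g2, g3, g4, g5, g6⟩ := stb1_g θ hθ
  have hi : ∀ a b : ℝ, IntervalIntegrable g volume a b := fun a b =>
    hg.continuous.intervalIntegrable a b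
  have hd : ∀ x, HasDerivAt (fun u => ∫ v in (0 : ℝ)..u, g v) (g x) x := fun x =>
    intervalIntegral.integral_hasDerivAt_right (hi _ _)
      (hg.continuous.stronglyMeasurableAtFilter _ _) hg.continuous.continuousAt
  have hodd : ∀ x, ∫ v in (0 : ℝ)..(-x), g v = - ∫ v in (0 : ℝ)..x, g v := by
    intro x
    have h1 := intervalIntegral.integral_comp_neg (a := 0) (b := x) g
    rw [neg_zero] at h1
    rw [intervalIntegral.integral_symm, ← h1]
    congr 1
    exact intervalIntegral.integral_congr fun v _ => g5 v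
  have hfar : ∀ x, 1 / 4 ≤ x → ∫ v in (0 : ℝ)..x, g v = 0 := by
    intro x hx
    rw [← intervalIntegral.integral_add_adjacent_intervals (hi 0 (1 / 4)) (hi (1 / 4) _), g6,
      zero_add, intervalIntegral.integral_congr (g := fun _ => (0 : ℝ))]
    · simp
    · intro v hv
      rw [uIcc_of_le hx] at hv
      exact g4 v (le_trans hv.1 (le_abs_self _))
  refine ⟨fun u => ∫ v in (0 : ℝ)..u, g v, g, δ, hδ, hδ1, ?_, hd, g1, g2, g3, ?_, ?_, hodd⟩
  · rw [contDiff_infty_iff_deriv]
    refine ⟨fun x => (hd x).differentiableAt, ?_⟩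
    have : deriv (fun u => ∫ v in (0 : ℝ)..u, g v) = g := funext fun x => (hd x).deriv
    rw [this]
    exact hg
  · intro x hx
    have : ∫ v in (0 : ℝ)..x, g v = ∫ v in (0 : ℝ)..x, (1 : ℝ) := by
      apply intervalIntegral.integral_congr
      intro v hv
      apply g3
      rcases le_total 0 x with h | h
      · rw [uIcc_of_le h] at hv
        rw [abs_of_nonneg hv.1]
        exact hv.2.trans ((le_abs_self _).trans hx)
      · rw [uIcc_of_ge h] at hv
        rw [abs_of_nonpos hv.2]
        have := (neg_le_abs x).trans hx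
        linarith [hv.1]
    simp only [this]
    simp
  · intro x hx
    rcases le_abs.1 hx with h | h
    · exact hfar x h
    · have := hfar (-x) h
      rw [hodd] at this
      simp only []
      linarith

theorem exists_prof (θ : ℝ) (hθ : 0 < θ) :
    ∃ (s : ℝ → ℝ) (δ : ℝ), 0 < δ ∧ δ < 1 / 4 ∧ Prof s {t | |t - round t| ≤ δ} θ ∧
      (∀ t, s (t + 1) = s t) ∧ (∀ t, s (-t) = - s t) ∧ (∀ t, |t| ≤ δ → s t = t) ∧
      (∀ t, 1 / 4 ≤ t → t ≤ 3 / 4 → s t = 0) := by
  obtain ⟨b, g, δ, hδ, hδ1, hb, hd, g1, g2, g3, b1, b2, b3⟩ := stb1_b θ hθ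
  let s : ℝ → ℝ := fun t => b (t - round t)
  have hs : ∀ (t : ℝ) (n : ℤ), |t - n| < 3 / 4 → s t = b (t - n) := by
    intro t n h
    by_cases hn : round t = n
    · simp only [s, hn]
    · have h1 : 1 ≤ |(round t : ℝ) - n| := by
        have : (1 : ℤ) ≤ |round t - n| := Int.one_le_abs (sub_ne_zero.2 hn)
        have h2 : ((1 : ℤ) : ℝ) ≤ ((|round t - n| : ℤ) : ℝ) := by exact_mod_cast this
        rw [Int.cast_abs, Int.cast_sub, Int.cast_one] at h2
        exact h2
      have h2 := abs_sub_round t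
      have h3 : |(round t : ℝ) - n| ≤ |t - n| + |t - round t| := by
        have : (round t : ℝ) - n = (t - n) - (t - round t) := by ring
        rw [this]
        exact abs_sub _ _
      have h4 : b (t - round t) = 0 := b2 _ (by linarith)
      have h5 : b (t - n) = 0 := b2 _ (by linarith)
      simp only [s, h4, h5]
  have hloc : ∀ t₀ : ℝ, s =ᶠ[𝓝 t₀] fun t => b (t - round t₀) := by
    intro t₀
    have h1 : {t : ℝ | |t - round t₀| < 3 / 4} ∈ 𝓝 t₀ := by
      apply IsOpen.mem_nhds
      · exact isOpen_lt (by fun_prop) continuous_const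
      · have := abs_sub_round t₀
        simp only [mem_ofPred_eq]
        linarith
    filter_upwards [h1] with t ht
    exact hs t _ ht
  have hsm : ContDiff ℝ ∞ s := by
    rw [contDiff_iff_contDiffAt]
    intro t₀
    have : ContDiff ℝ ∞ (fun t : ℝ => b (t - round t₀)) :=
      hb.comp (contDiff_id.sub contDiff_const)
    exact this.contDiffAt.congr_of_eventuallyEq (hloc t₀)
  have hder : ∀ t₀ : ℝ, deriv s t₀ = g (t₀ - round t₀) := by
    intro t₀
    rw [(hloc t₀).deriv_eq]
    have := (hd (t₀ - round t₀)).comp_sub_const t₀ (round t₀ : ℝ)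
    exact this.deriv
  have hper : ∀ t, s (t + 1) = s t := by
    intro t
    simp only [s, round_add_one]
    congr 1
    push_cast
    ring
  refine ⟨s, δ, hδ, hδ1, ⟨hsm, ?_, ?_, ?_, ?_, ?_, ?_⟩, hper, ?_, ?_, ?_⟩
  · intro m
    have hc : Continuous (iteratedDeriv m s) := hsm.continuous_iteratedDeriv m (by exact_mod_cast le_top)
    have hp : Function.Periodic (iteratedDeriv m s) 1 := by
      intro t
      have h1 := iteratedDeriv_comp_add_const m s (1 : ℝ)
      have h2 : (fun z => s (z + 1)) = s := funext hper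
      rw [h2] at h1
      exact (congrFun h1 t).symm
    obtain ⟨C, hC⟩ := (hp.isBounded_of_continuous one_ne_zero hc).exists_norm_le
    exact ⟨C, fun t => by
      have := hC _ (mem_range_self t)
      rwa [Real.norm_eq_abs] at this⟩
  · intro t
    rw [hder]
    exact g1 _
  · intro t
    rw [hder]
    exact g2 _
  · have h1 : Continuous fun t : ℝ => |t - round t| := by
      have : (fun t : ℝ => |t - round t|) = fun t : ℝ => ‖(t : UnitAddCircle)‖ := by
        funext t
        rw [UnitAddCircle.norm_eq]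
      rw [this]
      exact continuous_norm.comp (AddCircle.continuous_mk' _)
    exact isClosed_le h1 continuous_const
  · intro t ht
    rw [hder]
    exact g3 _ ht
  · intro t ht
    refine ⟨round t, ?_, ?_⟩
    · have := hs (round t : ℝ) (round t) (by simp)
      rw [this, sub_self]
      exact b1 0 (by simpa using hδ.le)
    · intro x hx
      simp only [mem_ofPred_eq] at ht ⊢
      refine (round_le x (round t)).trans (le_trans ?_ ht)
      exact abs_sub_left_of_mem_uIcc hx
  · intro t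
    have h1 := abs_sub_round t
    have h2 := hs (-t) (-round t) (by
      have : (-t) - ((-round t : ℤ) : ℝ) = -(t - round t) := by push_cast; ring
      rw [this, abs_neg]
      linarith)
    rw [h2]
    have : (-t) - ((-round t : ℤ) : ℝ) = -(t - round t) := by push_cast; ring
    rw [this, b3]
  · intro t ht
    have := hs t 0 (by simp only [Int.cast_zero, sub_zero]; linarith)
    rw [this, Int.cast_zero, sub_zero]
    exact b1 t ht
  · intro t h1 h2
    rcases le_total t (1 / 2) with h | h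
    · have := hs t 0 (by
        simp only [Int.cast_zero, sub_zero]
        rw [abs_of_nonneg (by linarith)]
        linarith)
      rw [this, Int.cast_zero, sub_zero]
      exact b2 t (by rw [abs_of_nonneg (by linarith)]; exact h1)
    · have := hs t 1 (by
        rw [Int.cast_one, abs_of_nonpos (by linarith)]
        linarith)
      rw [this, Int.cast_one]
      exact b2 _ (by rw [abs_of_nonpos (by linarith)]; linarith)

end

end Pool.Agent.H23.ST
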