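import Pool.Agent.H23.ST.Bu2
import Pool.Agent.H68.VD.RotK
import Pool.Agent.H68.VD.TwistK

/-! # ST-X1: the swap of two small balls -/

namespace Pool.Agent.H23.ST

open MeasureTheory Set Pool.Agent.H68.VD Pool.Agent.H68.GM Pool.Agent.H6.ST
open scoped ENNReal ContDiff Topology

noncomputable section

/-! ### The diagonal maps -/

/-- The diagonal map with the entries `exp σ` at `k` and `exp (-σ)` at `l`. -/
def stx_D (k l : Fin 4) (σ : ℝ) : Eu 4 →L[ℝ] Eu 4 :=
  ContinuousLinearMap.id ℝ (Eu 4) +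
    (Real.exp σ - 1) • (EuclideanSpace.proj k : Eu 4 →L[ℝ] ℝ).smulRight (ev k) +
    (Real.exp (-σ) - 1) • (EuclideanSpace.proj l : Eu 4 →L[ℝ] ℝ).smulRight (ev l)

theorem stx_D_apply (k l : Fin 4) (σ : ℝ) (x : Eu 4) :
    stx_D k l σ x = x + ((Real.exp σ - 1) * x k) • ev k + ((Real.exp (-σ) - 1) * x l) • ev l := by
  simp [stx_D, EuclideanSpace.proj, smul_smul]

theorem stx_D_k {k l : Fin 4} (h : k ≠ l) (σ : ℝ) (x : Eu 4) :
    (stx_D k l σ x) k = Real.exp σ * x k := by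
  rw [stx_D_apply]
  simp [RotKA.ev_self, RotKA.ev_ne h]
  ring

theorem stx_D_l {k l : Fin 4} (h : k ≠ l) (σ : ℝ) (x : Eu 4) :
    (stx_D k l σ x) l = Real.exp (-σ) * x l := by
  rw [stx_D_apply]
  simp [RotKA.ev_self, RotKA.ev_ne (Ne.symm h)]
  ring

theorem stx_D_m {k l m : Fin 4} (hk : m ≠ k) (hl : m ≠ l) (σ : ℝ) (x : Eu 4) :
    (stx_D k l σ x) m = x m := by
  rw [stx_D_apply]
  simp [RotKA.ev_ne hk, RotKA.ev_ne hl]

theorem stx_D_smooth (k l : Fin 4) : ContDiff ℝ ∞ (stx_D k l) := by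
  unfold stx_D
  fun_prop

theorem stx_D_zero (k l : Fin 4) : stx_D k l 0 = ContinuousLinearMap.id ℝ (Eu 4) := by
  ext x m
  rw [stx_D_apply]
  simp

theorem stx_D_add {k l : Fin 4} (h : k ≠ l) (σ τ : ℝ) :
    stx_D k l (σ + τ) = stx_D k l σ ∘L stx_D k l τ := by
  ext x m
  rw [ContinuousLinearMap.comp_apply]
  by_cases hk : m = k
  · subst hk
    rw [stx_D_k h, stx_D_k h, stx_D_k h, Real.exp_add]
    ring
  by_cases hl : m = l
  · subst hl
    rw [stx_D_l h, stx_D_l h, stx_D_l h, neg_add, Real.exp_add]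
    ring
  rw [stx_D_m hk hl, stx_D_m hk hl, stx_D_m hk hl]

theorem stx_D_inv {k l : Fin 4} (h : k ≠ l) (σ : ℝ) (x : Eu 4) :
    stx_D k l σ (stx_D k l (-σ) x) = x := by
  have h1 := stx_D_add h σ (-σ)
  rw [add_neg_cancel, stx_D_zero] at h1
  have h2 := congrArg (fun L : Eu 4 →L[ℝ] Eu 4 => L x) h1
  simpa using h2.symm

theorem stx_D_inv' {k l : Fin 4} (h : k ≠ l) (σ : ℝ) (x : Eu 4) :
    stx_D k l (-σ) (stx_D k l σ x) = x := by
  have h1 := stx_D_inv h (-σ) x
  rwa [neg_neg] at h1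

theorem stx_D_quarter {k l : Fin 4} (h : k ≠ l) (σ : ℝ) :
    rotR k l (Real.pi / 2) ∘L stx_D k l σ = stx_D k l (-σ) ∘L rotR k l (Real.pi / 2) := by
  ext x m
  rw [ContinuousLinearMap.comp_apply, ContinuousLinearMap.comp_apply]
  by_cases hk : m = k
  · subst hk
    rw [RotKA.rotR_i h, stx_D_k h, stx_D_k h, stx_D_l h, RotKA.rotR_i h]
    simp
  by_cases hl : m = l
  · subst hl
    rw [RotKA.rotR_j h, stx_D_l h, stx_D_l h, stx_D_k h, RotKA.rotR_j h]
    simp
  rw [RotKA.rotR_k h hk hl, stx_D_m hk hl, stx_D_m hk hl, RotKA.rotR_k h hk hl]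

theorem stx_D_half {k l : Fin 4} (h : k ≠ l) (σ : ℝ) :
    rotR k l Real.pi ∘L stx_D k l σ = stx_D k l σ ∘L rotR k l Real.pi := by
  ext x m
  rw [ContinuousLinearMap.comp_apply, ContinuousLinearMap.comp_apply]
  by_cases hk : m = k
  · subst hk
    rw [RotKA.rotR_i h, stx_D_k h, stx_D_k h, stx_D_l h, RotKA.rotR_i h]
    simp
  by_cases hl : m = l
  · subst hl
    rw [RotKA.rotR_j h, stx_D_l h, stx_D_l h, stx_D_k h, RotKA.rotR_j h]
    simp
  rw [RotKA.rotR_k h hk hl, stx_D_m hk hl, stx_D_m hk hl, RotKA.rotR_k h hk hl]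

theorem stx_det_comp (A B : Eu 4 →L[ℝ] Eu 4) : (A ∘L B).det = A.det * B.det :=
  LinearMap.det_comp _ _

theorem stx_det_id : (ContinuousLinearMap.id ℝ (Eu 4)).det = 1 :=
  LinearMap.det_id

theorem stx_D_det {k l : Fin 4} (h : k ≠ l) (σ : ℝ) : (stx_D k l σ).det = 1 := by
  have h1 : ∀ τ, (stx_D k l τ).det = (stx_D k l (-τ)).det := by
    intro τ
    have h2 := congrArg ContinuousLinearMap.det (stx_D_quarter h τ)
    rw [stx_det_comp, stx_det_comp, RotKA.det h, one_mul, mul_one] at h2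
    exact h2
  have h3 : ∀ τ, (stx_D k l τ).det * (stx_D k l τ).det = 1 := by
    intro τ
    have h4 := stx_D_add h τ (-τ)
    rw [add_neg_cancel, stx_D_zero] at h4
    have h5 := congrArg ContinuousLinearMap.det h4
    rw [stx_det_comp, stx_det_id, ← h1] at h5
    exact h5.symm
  have h6 := stx_D_add h (σ / 2) (σ / 2)
  rw [add_halves] at h6
  rw [h6, stx_det_comp]
  exact h3 _

theorem stx_D_norm {k l : Fin 4} (h : k ≠ l) (σ : ℝ) (x : Eu 4) :
    ‖stx_D k l σ x‖ ^ 2 = ‖x‖ ^ 2 + (Real.exp (2 * σ) - 1) * x k ^ 2 +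
      (Real.exp (-(2 * σ)) - 1) * x l ^ 2 := by
  rw [stx_D_apply, RotKA.norm_sq_add h]
  have h1 : Real.exp (2 * σ) = Real.exp σ * Real.exp σ := by rw [← Real.exp_add]; ring_nf
  have h2 : Real.exp (-(2 * σ)) = Real.exp (-σ) * Real.exp (-σ) := by
    rw [← Real.exp_add]; ring_nf
  rw [h1, h2]
  ring

/-- The parameter of the ellipsoid. -/
def stx_s : ℝ := Real.log 2 / 2

theorem stx_s_pos : Real.exp (2 * stx_s) = 2 := by
  rw [stx_s, mul_div_cancel₀ _ (two_ne_zero), Real.exp_log two_pos]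

theorem stx_s_neg : Real.exp (-(2 * stx_s)) = 1 / 2 := by
  rw [Real.exp_neg, stx_s_pos, one_div]

theorem stx_norm_neg {k l : Fin 4} (h : k ≠ l) (x : Eu 4) :
    ‖stx_D k l (-stx_s) x‖ ^ 2 = ‖x‖ ^ 2 - x k ^ 2 / 2 + x l ^ 2 := by
  rw [stx_D_norm h, show 2 * -stx_s = -(2 * stx_s) by ring, stx_s_neg, neg_neg, stx_s_pos]
  ring

/-! ### The twists -/

/-- The cutoff. -/
def stx_c (ρ : ℝ) : ℝ := 1 - Real.smoothTransition ((ρ - 4 / 25) / (17 / 400))

theorem stx_c_smooth : ContDiff ℝ ∞ stx_c := by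
  unfold stx_c
  refine contDiff_const.sub (Real.smoothTransition.contDiff.comp ?_)
  fun_prop

theorem stx_c_one {ρ : ℝ} (h : ρ ≤ 4 / 25) : stx_c ρ = 1 := by
  unfold stx_c
  rw [Real.smoothTransition.zero_of_nonpos, sub_zero]
  exact div_nonpos_of_nonpos_of_nonneg (by linarith) (by norm_num)

theorem stx_c_zero {ρ : ℝ} (h : (9 / 20 : ℝ) ^ 2 ≤ ρ) : stx_c ρ = 0 := by
  unfold stx_c
  rw [Real.smoothTransition.one_of_one_le, sub_self]
  rw [le_div_iff₀ (by norm_num)]
  norm_num at h ⊢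
  linarith

/-- The rotation by the angle `a t` near the centre. -/
def stx_A (k l : Fin 4) (a : ℝ → ℝ) (t ρ : ℝ) : Eu 4 →L[ℝ] Eu 4 := rotR k l (a t * stx_c ρ)

theorem stx_rot_zero (k l : Fin 4) : rotR k l 0 = ContinuousLinearMap.id ℝ (Eu 4) := by
  have h := RotKA.per k l 0
  simpa using h

theorem stx_ball {k l : Fin 4} (h : k ≠ l) {a : ℝ → ℝ} (ha : ContDiff ℝ ∞ a) (c : Eu 4) :
    BallFam c (9 / 20) (fun t => twist c (stx_A k l a t)) := by
  refine twistFam 4 ℝ c (9 / 20) (stx_A k l a) (by norm_num) ?_ ?_ ?_ ?_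
  · unfold stx_A
    refine (RotKA.smooth k l).comp ?_
    exact (ha.comp contDiff_fst).mul (stx_c_smooth.comp contDiff_snd)
  · intro t ρ x
    exact RotKA.iso h _ x
  · intro t ρ
    exact RotKA.det h _
  · intro t ρ hρ
    rw [stx_A, stx_c_zero hρ, mul_zero, stx_rot_zero]

theorem stx_twist {k l : Fin 4} (a : ℝ → ℝ) (c : Eu 4) (t : ℝ) {x : Eu 4}
    (hx : ‖x - c‖ ^ 2 ≤ 4 / 25) : twist c (stx_A k l a t) x = c + rotR k l (a t) (x - c) := by
  rw [twist, stx_A, stx_c_one hx, mul_one]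

theorem stx_twist_zero {k l : Fin 4} {a : ℝ → ℝ} (c : Eu 4) {t : ℝ} (ht : a t = 0) (x : Eu 4) :
    twist c (stx_A k l a t) x = x := by
  rw [twist, stx_A, ht, zero_mul, stx_rot_zero]
  simp

/-! ### Families -/

theorem stx_cf_comp {U : Set (Eu 4)} {F G : ℝ → Eu 4 → Eu 4} (hF : CF U F) (hG : CF U G) :
    CF U (fun t x => F t (G t x)) := by
  refine ⟨?_, ?_, ?_, ?_⟩
  · exact hF.smooth.comp (contDiff_fst.prodMk hG.smooth)
  · intro e
    exact (hF.bij e).comp (hG.bij e)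
  · intro e x
    have h1 : ContDiff ℝ ∞ (F e) := hF.smooth.comp (contDiff_const.prodMk contDiff_id)
    have h2 : ContDiff ℝ ∞ (G e) := hG.smooth.comp (contDiff_const.prodMk contDiff_id)
    have h3 : HasFDerivAt (fun x => F e (G e x)) (fderiv ℝ (F e) (G e x) ∘L fderiv ℝ (G e) x) x :=
      ((h1.differentiable (by simp)) _).hasFDerivAt.comp x
        ((h2.differentiable (by simp)) _).hasFDerivAt
    rw [h3.fderiv, stx_det_comp, hF.det, hG.det, one_mul]
  · obtain ⟨K, hK, hKU, hKx⟩ := hF.supp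
    obtain ⟨K', hK', hKU', hKx'⟩ := hG.supp
    refine ⟨K ∪ K', hK.union hK', union_subset hKU hKU', ?_⟩
    intro e x hx
    rw [mem_union, not_or] at hx
    show F e (G e x) = x
    rw [hKx' e x hx.2, hKx e x hx.1]

theorem stx_cf_ball {U : Set (Eu 4)} {c : Eu 4} {r : ℝ} {F : ℝ → Eu 4 → Eu 4}
    (h : BallFam c r F) (hU : Metric.closedBall c r ⊆ U) : CF U F := by
  refine ⟨h.smooth, h.bij, h.det, Metric.closedBall c r, isCompact_closedBall c r, hU, ?_⟩
  intro e x hx
  refine h.out e x ?_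
  rw [Metric.mem_closedBall, not_le] at hx
  exact hx.le

theorem stx_cf_conj {U : Set (Eu 4)} {r : ℝ} {F : ℝ → Eu 4 → Eu 4} (h : BallFam 0 r F)
    {m : Eu 4} {D D' : Eu 4 →L[ℝ] Eu 4} (h1 : ∀ x, D (D' x) = x) (h2 : ∀ x, D' (D x) = x)
    (hd : D.det * D'.det = 1) (hU : ∀ x, ‖D' (x - m)‖ ≤ r → x ∈ U) :
    CF U (fun t x => m + D (F t (D' (x - m)))) := by
  have hb : ∀ e, Function.Bijective (fun x => m + D (F e (D' (x - m)))) := by
    intro e
    have b1 : Function.Bijective (fun x : Eu 4 => x - m) :=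
      ⟨fun x y hxy => sub_left_injective hxy, fun y => ⟨y + m, by simp⟩⟩
    have b2 : Function.Bijective (fun x : Eu 4 => D' x) :=
      ⟨fun x y hxy => by
        have h3 := congrArg D hxy
        simpa [h1] using h3, fun y => ⟨D y, h2 y⟩⟩
    have b3 : Function.Bijective (fun x : Eu 4 => D x) :=
      ⟨fun x y hxy => by
        have h3 := congrArg D' hxy
        simpa [h2] using h3, fun y => ⟨D' y, h1 y⟩⟩
    have b4 : Function.Bijective (fun x : Eu 4 => m + x) :=
      ⟨fun x y hxy => add_right_injective m hxy, fun y => ⟨y - m, by simp⟩⟩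
    exact b4.comp (b3.comp ((h.bij e).comp (b2.comp b1)))
  refine ⟨?_, hb, ?_, ?_⟩
  · have h3 : ContDiff ℝ ∞ (fun q : ℝ × Eu 4 => D' (q.2 - m)) :=
      D'.contDiff.comp (contDiff_snd.sub contDiff_const)
    have h4 : ContDiff ℝ ∞ (fun q : ℝ × Eu 4 => F q.1 (D' (q.2 - m))) :=
      h.smooth.comp (contDiff_fst.prodMk h3)
    exact contDiff_const.add (D.contDiff.comp h4)
  · intro e x
    have h3 : ContDiff ℝ ∞ (F e) := h.smooth.comp (contDiff_const.prodMk contDiff_id)
    have h4 : HasFDerivAt (fun x : Eu 4 => D' (x - m)) (D' ∘L ContinuousLinearMap.id ℝ (Eu 4)) x :=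
      (D'.hasFDerivAt (x := x - m)).comp x ((hasFDerivAt_id x).sub_const m)
    have h5 : HasFDerivAt (fun x : Eu 4 => F e (D' (x - m)))
        (fderiv ℝ (F e) (D' (x - m)) ∘L (D' ∘L ContinuousLinearMap.id ℝ (Eu 4))) x :=
      ((h3.differentiable (by simp)) _).hasFDerivAt.comp x h4
    have h6 : HasFDerivAt (fun x : Eu 4 => D (F e (D' (x - m))))
        (D ∘L (fderiv ℝ (F e) (D' (x - m)) ∘L (D' ∘L ContinuousLinearMap.id ℝ (Eu 4)))) x :=
      (D.hasFDerivAt (x := F e (D' (x - m)))).comp x h5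
    have h7 := h6.const_add m
    rw [h7.fderiv, stx_det_comp, stx_det_comp, stx_det_comp, h.det, stx_det_id, one_mul, mul_one]
    exact hd
  · refine ⟨(fun x => m + D x) '' Metric.closedBall 0 r, ?_, ?_, ?_⟩
    · exact (isCompact_closedBall _ _).image (by fun_prop)
    · rintro _ ⟨z, hz, rfl⟩
      refine hU _ ?_
      rw [add_sub_cancel_left, h2]
      simpa using hz
    · intro e x hx
      have h3 : D' (x - m) ∉ Metric.closedBall (0 : Eu 4) r := by
        intro h4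
        exact hx ⟨_, h4, by simp [h1]⟩
      have h4 : F e (D' (x - m)) = D' (x - m) := by
        refine h.out e _ ?_
        rw [Metric.mem_closedBall, not_le] at h3
        exact h3.le
      show m + D (F e (D' (x - m))) = x
      rw [h4, h1]
      simp

/-! ### The geometry -/

/-- The first centre. -/
def stx_p : Eu 4 := ctr (fun _ => 0)

/-- The second centre. -/
def stx_q (k : Fin 4) : Eu 4 := ctr (Pi.single k 1)

/-- The middle point. -/
def stx_m (k : Fin 4) : Eu 4 := stx_p + (1 / 2 : ℝ) • ev k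

theorem stx_p_apply (m : Fin 4) : stx_p m = 1 / 2 := by
  simp [stx_p, ctr]

theorem stx_q_eq (k : Fin 4) : stx_q k = stx_p + ev k := by
  ext m
  by_cases h : m = k
  · subst h
    simp [stx_p, stx_q, ctr, RotKA.ev_self]
    norm_num
  · simp [stx_p, stx_q, ctr, RotKA.ev_ne h, h]

/-- The box. -/
def stx_U (k : Fin 4) : Set (Eu 4) := ibox (fun _ => 0) (fun m => if m = k then 2 else 1)

theorem stx_mem {k : Fin 4} {x : Eu 4} (h1 : 0 < x k ∧ x k < 2)
    (h2 : ∀ m, m ≠ k → 0 < x m ∧ x m < 1) : x ∈ stx_U k := by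
  intro m
  by_cases h : m = k
  · subst h
    simpa using h1
  · simpa [h] using h2 m h

theorem stx_coord (x : Eu 4) (m : Fin 4) : x m ^ 2 ≤ ‖x‖ ^ 2 := by
  have h := PiLp.norm_apply_le x m
  rw [Real.norm_eq_abs] at h
  rw [← sq_abs (x m)]
  exact pow_le_pow_left₀ (abs_nonneg _) h 2

theorem stx_coord_le {x : Eu 4} {r : ℝ} (h : ‖x‖ ≤ r) (m : Fin 4) : -r ≤ x m ∧ x m ≤ r := by
  have h1 := PiLp.norm_apply_le x m
  rw [Real.norm_eq_abs] at h1
  exact abs_le.mp (h1.trans h)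

theorem stx_ball_p (k : Fin 4) : Metric.closedBall stx_p (9 / 20) ⊆ stx_U k := by
  intro x hx
  rw [Metric.mem_closedBall, dist_eq_norm] at hx
  have h : ∀ m, 0 < x m ∧ x m < 1 := by
    intro m
    have h1 := stx_coord_le hx m
    rw [PiLp.sub_apply, stx_p_apply] at h1
    exact ⟨by linarith [h1.1], by linarith [h1.2]⟩
  exact stx_mem ⟨(h k).1, by linarith [(h k).2]⟩ fun m _ => h m

theorem stx_ball_q (k : Fin 4) : Metric.closedBall (stx_q k) (9 / 20) ⊆ stx_U k := by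
  intro x hx
  rw [Metric.mem_closedBall, dist_eq_norm, stx_q_eq] at hx
  refine stx_mem ?_ ?_
  · have h1 := stx_coord_le hx k
    rw [PiLp.sub_apply, PiLp.add_apply, stx_p_apply, RotKA.ev_self] at h1
    exact ⟨by linarith [h1.1], by linarith [h1.2]⟩
  · intro m hm
    have h1 := stx_coord_le hx m
    rw [PiLp.sub_apply, PiLp.add_apply, stx_p_apply, RotKA.ev_ne hm] at h1
    exact ⟨by linarith [h1.1], by linarith [h1.2]⟩

theorem stx_m_k (k : Fin 4) : stx_m k k = 1 := by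
  rw [stx_m, PiLp.add_apply, PiLp.smul_apply, stx_p_apply, RotKA.ev_self]
  norm_num

theorem stx_m_m {k m : Fin 4} (h : m ≠ k) : stx_m k m = 1 / 2 := by
  rw [stx_m, PiLp.add_apply, PiLp.smul_apply, stx_p_apply, RotKA.ev_ne h]
  norm_num

theorem stx_ell {k l : Fin 4} (h : k ≠ l) (x : Eu 4)
    (hx : ‖stx_D k l (-stx_s) (x - stx_m k)‖ ≤ 9 / 20) : x ∈ stx_U k := by
  have h0 : ‖stx_D k l (-stx_s) (x - stx_m k)‖ ^ 2 ≤ (9 / 20) ^ 2 :=
    pow_le_pow_left₀ (norm_nonneg _) hx 2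
  have hk : (x k - 1) ^ 2 < 1 := by
    have h1 := stx_coord (stx_D k l (-stx_s) (x - stx_m k)) k
    rw [stx_D_k h, mul_pow, ← Real.exp_nat_mul, PiLp.sub_apply, stx_m_k] at h1
    have h2 : Real.exp (((2 : ℕ) : ℝ) * -stx_s) = 1 / 2 := by
      rw [← stx_s_neg]; congr 1; push_cast; ring
    rw [h2] at h1
    nlinarith
  have hl : (x l - 1 / 2) ^ 2 < 1 / 4 := by
    have h1 := stx_coord (stx_D k l (-stx_s) (x - stx_m k)) l
    rw [stx_D_l h, mul_pow, ← Real.exp_nat_mul, PiLp.sub_apply, stx_m_m (Ne.symm h)] at h1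
    have h2 : Real.exp (((2 : ℕ) : ℝ) * - -stx_s) = 2 := by
      rw [← stx_s_pos]; congr 1; push_cast; ring
    rw [h2] at h1
    nlinarith
  have hm : ∀ m, m ≠ k → m ≠ l → (x m - 1 / 2) ^ 2 < 1 / 4 := by
    intro m hmk hml
    have h1 := stx_coord (stx_D k l (-stx_s) (x - stx_m k)) m
    rw [stx_D_m hmk hml, PiLp.sub_apply, stx_m_m hmk] at h1
    nlinarith
  refine stx_mem ?_ ?_
  · constructor <;> nlinarith
  · intro m hmk
    have h1 : (x m - 1 / 2) ^ 2 < 1 / 4 := by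
      by_cases hml : m = l
      · rw [hml]; exact hl
      · exact hm m hmk hml
    constructor <;> nlinarith

theorem stx_small {k l : Fin 4} (h : k ≠ l) {y : Eu 4} (hy : ‖y‖ ≤ 1 / 50) (ε : ℝ)
    (hε : ε = 1 ∨ ε = -1) :
    ‖stx_D k l (-stx_s) ((ε / 2) • ev k + y)‖ ^ 2 ≤ 4 / 25 := by
  rw [stx_norm_neg h]
  have h1 : ‖(ε / 2) • ev k + y‖ ^ 2 = 1 / 4 + ε * y k + ‖y‖ ^ 2 := by
    rw [add_comm, norm_add_sq_real, inner_smul_right, RotKA.inner_ev, norm_smul, RotKA.norm_ev]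
    have h2 : ‖ε / 2‖ = 1 / 2 := by
      rcases hε with rfl | rfl <;> norm_num
    rw [h2]
    ring
  have h2 : ((ε / 2) • ev k + y : Eu 4) k = ε / 2 + y k := by
    rw [PiLp.add_apply, PiLp.smul_apply, RotKA.ev_self, smul_eq_mul, mul_one]
  have h3 : ((ε / 2) • ev k + y : Eu 4) l = y l := by
    rw [PiLp.add_apply, PiLp.smul_apply, RotKA.ev_ne (Ne.symm h), smul_zero, zero_add]
  rw [h1, h2, h3]
  have h4 := stx_coord_le hy k
  have h5 := stx_coord y l
  have h6 : ‖y‖ ^ 2 ≤ (1 / 50) ^ 2 := pow_le_pow_left₀ (norm_nonneg _) hy 2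
  rcases hε with rfl | rfl <;> nlinarith [h4.1, h4.2, sq_nonneg (y k)]

/-! ### The path -/

/-- The first angle. -/
def stx_a (t : ℝ) : ℝ := Real.pi * Real.smoothTransition (2 * t)

/-- The second angle. -/
def stx_b (t : ℝ) : ℝ := -(Real.pi * Real.smoothTransition (2 * t - 1))

theorem stx_a_smooth : ContDiff ℝ ∞ stx_a := by
  unfold stx_a
  refine contDiff_const.mul (Real.smoothTransition.contDiff.comp ?_)
  fun_prop

theorem stx_b_smooth : ContDiff ℝ ∞ stx_b := by
  unfold stx_b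
  refine (contDiff_const.mul (Real.smoothTransition.contDiff.comp ?_)).neg
  fun_prop

theorem stx_a_zero {t : ℝ} (h : t ≤ 0) : stx_a t = 0 := by
  rw [stx_a, Real.smoothTransition.zero_of_nonpos (by linarith), mul_zero]

theorem stx_a_pi {t : ℝ} (h : 1 / 2 ≤ t) : stx_a t = Real.pi := by
  rw [stx_a, Real.smoothTransition.one_of_one_le (by linarith), mul_one]

theorem stx_b_zero {t : ℝ} (h : t ≤ 1 / 2) : stx_b t = 0 := by
  rw [stx_b, Real.smoothTransition.zero_of_nonpos (by linarith), mul_zero, neg_zero]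

theorem stx_b_pi {t : ℝ} (h : 1 ≤ t) : stx_b t = -Real.pi := by
  rw [stx_b, Real.smoothTransition.one_of_one_le (by linarith), mul_one]

/-- The rotation of the ellipsoid. -/
def stx_G1 (k l : Fin 4) (t : ℝ) (x : Eu 4) : Eu 4 :=
  stx_m k + stx_D k l stx_s (twist 0 (stx_A k l stx_a t) (stx_D k l (-stx_s) (x - stx_m k)))

/-- The rotations of the two balls. -/
def stx_G (k l : Fin 4) (t : ℝ) (x : Eu 4) : Eu 4 :=
  twist stx_p (stx_A k l stx_b t) (twist (stx_q k) (stx_A k l stx_b t) x)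

/-- The path. -/
def stx_F (k l : Fin 4) (t : ℝ) (x : Eu 4) : Eu 4 := stx_G k l t (stx_G1 k l t x)

theorem stx_F_cf {k l : Fin 4} (h : k ≠ l) : CF (stx_U k) (stx_F k l) := by
  have h1 : CF (stx_U k) (stx_G1 k l) :=
    stx_cf_conj (stx_ball h stx_a_smooth 0) (stx_D_inv h stx_s) (stx_D_inv' h stx_s)
      (by rw [stx_D_det h, stx_D_det h, one_mul]) (stx_ell h)
  have h2 := stx_cf_ball (stx_ball h stx_b_smooth stx_p) (stx_ball_p k)
  have h3 := stx_cf_ball (stx_ball h stx_b_smooth (stx_q k)) (stx_ball_q k)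
  have h4 := stx_cf_comp (stx_cf_comp h2 h3) h1
  exact h4

theorem stx_G_zero (k l : Fin 4) {t : ℝ} (ht : t ≤ 1 / 2) (x : Eu 4) : stx_G k l t x = x := by
  rw [stx_G, stx_twist_zero _ (stx_b_zero ht), stx_twist_zero _ (stx_b_zero ht)]

theorem stx_G1_zero {k l : Fin 4} (h : k ≠ l) {t : ℝ} (ht : t ≤ 0) (x : Eu 4) :
    stx_G1 k l t x = x := by
  rw [stx_G1, stx_twist_zero _ (stx_a_zero ht), stx_D_inv h]
  simp

theorem stx_F_zero {k l : Fin 4} (h : k ≠ l) {t : ℝ} (ht : t ≤ 0) (x : Eu 4) :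
    stx_F k l t x = x := by
  rw [stx_F, stx_G1_zero h ht, stx_G_zero k l (by linarith)]

theorem stx_F_one {k l : Fin 4} {t : ℝ} (ht : 1 ≤ t) (x : Eu 4) :
    stx_F k l t x = stx_F k l 1 x := by
  have h1 : stx_A k l stx_b t = stx_A k l stx_b 1 := by
    funext ρ
    rw [stx_A, stx_A, stx_b_pi ht, stx_b_pi le_rfl]
  have h2 : stx_A k l stx_a t = stx_A k l stx_a 1 := by
    funext ρ
    rw [stx_A, stx_A, stx_a_pi (show (1 : ℝ) / 2 ≤ t by linarith),
      stx_a_pi (show (1 : ℝ) / 2 ≤ 1 by norm_num)]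
  rw [stx_F, stx_F, stx_G, stx_G, stx_G1, stx_G1, h1, h2]

/-- The image of the centres. -/
theorem stx_G_near {k l : Fin 4} (h : k ≠ l) (t : ℝ) {y : Eu 4} (hy : ‖y‖ ≤ 2 / 5) :
    stx_G k l t (stx_p + y) = stx_p + rotR k l (stx_b t) y ∧
      stx_G k l t (stx_q k + y) = stx_q k + rotR k l (stx_b t) y := by
  have hpq : ‖stx_p - stx_q k‖ = 1 := by
    rw [stx_q_eq, sub_add_cancel_left, norm_neg, RotKA.norm_ev]
  have hy2 : ‖y‖ ^ 2 ≤ 4 / 25 := by
    have := pow_le_pow_left₀ (norm_nonneg _) hy 2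
    norm_num at this ⊢
    exact this
  have hz : ‖rotR k l (stx_b t) y‖ ≤ 2 / 5 := by rw [RotKA.iso h]; exact hy
  constructor
  · have h1 : twist (stx_q k) (stx_A k l stx_b t) (stx_p + y) = stx_p + y := by
      refine (stx_ball h stx_b_smooth (stx_q k)).out t _ ?_
      rw [dist_eq_norm]
      have h2 : stx_p + y - stx_q k = (stx_p - stx_q k) + y := by abel
      have h3 := norm_sub_norm_le (stx_p - stx_q k) (-y)
      rw [sub_neg_eq_add, norm_neg, hpq] at h3
      rw [h2]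
      linarith
    rw [stx_G, h1, stx_twist _ _ _ (by rw [add_sub_cancel_left]; exact hy2), add_sub_cancel_left]
  · have h1 : twist (stx_q k) (stx_A k l stx_b t) (stx_q k + y) =
        stx_q k + rotR k l (stx_b t) y := by
      rw [stx_twist _ _ _ (by rw [add_sub_cancel_left]; exact hy2), add_sub_cancel_left]
    rw [stx_G, h1]
    refine (stx_ball h stx_b_smooth stx_p).out t _ ?_
    rw [dist_eq_norm]
    have h2 : stx_q k + rotR k l (stx_b t) y - stx_p = rotR k l (stx_b t) y - (stx_p - stx_q k) := by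
      abel
    have h3 := norm_sub_norm_le (stx_p - stx_q k) (rotR k l (stx_b t) y)
    rw [hpq, norm_sub_rev] at h3
    rw [h2]
    linarith

/-- The frames at the two centres. -/
def stx_L (k l : Fin 4) (t : ℝ) : Eu 4 →L[ℝ] Eu 4 :=
  rotR k l (stx_b t) ∘L (stx_D k l stx_s ∘L (rotR k l (stx_a t) ∘L stx_D k l (-stx_s)))

theorem stx_G1_near {k l : Fin 4} (h : k ≠ l) (t : ℝ) {y : Eu 4} (hy : ‖y‖ ≤ 1 / 50) (ε : ℝ)
    (hε : ε = 1 ∨ ε = -1) :
    stx_G1 k l t (stx_m k + ((ε / 2) • ev k + y)) =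
      stx_m k + stx_D k l stx_s (rotR k l (stx_a t) (stx_D k l (-stx_s) ((ε / 2) • ev k + y))) := by
  rw [stx_G1, add_sub_cancel_left, stx_twist _ _ _ (by rw [sub_zero]; exact stx_small h hy ε hε),
    sub_zero, zero_add]

theorem stx_pi_ev {k l : Fin 4} (h : k ≠ l) : rotR k l Real.pi (ev k) = -ev k := by
  ext m
  by_cases hk : m = k
  · subst hk
    rw [RotKA.rotR_i h]
    simp [RotKA.ev_ne (Ne.symm h)]
  by_cases hl : m = l
  · subst hl
    rw [RotKA.rotR_j h]
    simp [RotKA.ev_ne (Ne.symm h)]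
  rw [RotKA.rotR_k h hk hl]
  simp [RotKA.ev_ne hk]

theorem stx_D_pi {k l : Fin 4} (h : k ≠ l) (σ : ℝ) (x : Eu 4) :
    stx_D k l σ (rotR k l Real.pi (stx_D k l (-σ) x)) = rotR k l Real.pi x := by
  have h1 := congrArg (fun L : Eu 4 →L[ℝ] Eu 4 => L x) (stx_D_half h (-σ))
  simp only [ContinuousLinearMap.comp_apply] at h1
  rw [h1, stx_D_inv h]

/-- The centre with the sign `ε`. -/
def stx_w (k : Fin 4) (ε : ℝ) : Eu 4 := stx_m k + (ε / 2) • ev k

theorem stx_w_p (k : Fin 4) : stx_w k (-1) = stx_p := by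
  rw [stx_w, stx_m]
  module

theorem stx_w_q (k : Fin 4) : stx_w k 1 = stx_q k := by
  rw [stx_w, stx_m, stx_q_eq]
  module

theorem stx_G_w {k l : Fin 4} (h : k ≠ l) (t : ℝ) {y : Eu 4} (hy : ‖y‖ ≤ 2 / 5) (ε : ℝ)
    (hε : ε = 1 ∨ ε = -1) :
    stx_G k l t (stx_w k ε + y) = stx_w k ε + rotR k l (stx_b t) y := by
  rcases hε with rfl | rfl
  · rw [stx_w_q]; exact (stx_G_near h t hy).2
  · rw [stx_w_p]; exact (stx_G_near h t hy).1

/-- The path near the centres in the second half of the time. -/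
theorem stx_F_near {k l : Fin 4} (h : k ≠ l) {t : ℝ} (ht : 1 / 2 ≤ t) {y : Eu 4}
    (hy : ‖y‖ ≤ 1 / 50) (ε : ℝ) (hε : ε = 1 ∨ ε = -1) :
    stx_F k l t (stx_w k ε + y) = stx_w k (-ε) + stx_L k l t y := by
  have h1 : stx_G1 k l t (stx_w k ε + y) = stx_w k (-ε) + rotR k l Real.pi y := by
    rw [stx_w, add_assoc, stx_G1_near h t hy ε hε, stx_a_pi ht, stx_D_pi h, map_add, map_smul,
      stx_pi_ev h, stx_w]
    module
  have h2 : stx_L k l t y = rotR k l (stx_b t) (rotR k l Real.pi y) := by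
    rw [stx_L, stx_a_pi ht]
    simp only [ContinuousLinearMap.comp_apply]
    rw [stx_D_pi h]
  rw [stx_F, h1, h2]
  refine stx_G_w h t ?_ (-ε) ?_
  · rw [RotKA.iso h]; linarith
  · rcases hε with rfl | rfl
    · right; rfl
    · left; norm_num

theorem stx_fderiv {k l : Fin 4} (h : k ≠ l) (t : ℝ) (ε : ℝ) (hε : ε = 1 ∨ ε = -1) :
    fderiv ℝ (stx_F k l t) (stx_w k ε) = stx_L k l t := by
  have hev : ∀ᶠ x in 𝓝 (stx_w k ε), ‖x - stx_w k ε‖ ≤ 1 / 50 := by
    have h1 := Metric.closedBall_mem_nhds (stx_w k ε) (show (0 : ℝ) < 1 / 50 by norm_num)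
    filter_upwards [h1] with x hx
    rwa [Metric.mem_closedBall, dist_eq_norm] at hx
  obtain ⟨v, hv⟩ : ∃ v : Eu 4, ∀ᶠ x in 𝓝 (stx_w k ε),
      stx_F k l t x = v + stx_L k l t (x - stx_w k ε) := by
    rcases le_total t (1 / 2) with ht | ht
    · refine ⟨stx_m k + stx_L k l t ((ε / 2) • ev k), ?_⟩
      filter_upwards [hev] with x hx
      have h1 : x = stx_m k + ((ε / 2) • ev k + (x - stx_w k ε)) := by
        rw [stx_w]; abel
      have h2 : stx_F k l t x = stx_G1 k l t x := by rw [stx_F, stx_G_zero k l ht]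
      have h3 : ∀ z, stx_L k l t z =
          stx_D k l stx_s (rotR k l (stx_a t) (stx_D k l (-stx_s) z)) := by
        intro z
        rw [stx_L, stx_b_zero ht, stx_rot_zero]
        rfl
      have h4 : stx_G1 k l t x = stx_m k + stx_L k l t ((ε / 2) • ev k + (x - stx_w k ε)) := by
        rw [h3, ← stx_G1_near h t hx ε hε, ← h1]
      rw [h2, h4, map_add, add_assoc]
    · refine ⟨stx_w k (-ε), ?_⟩
      filter_upwards [hev] with x hx
      have h1 := stx_F_near h ht hx ε hε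
      rwa [add_sub_cancel] at h1
  have h5 : HasFDerivAt (fun x => v + stx_L k l t (x - stx_w k ε)) (stx_L k l t) (stx_w k ε) := by
    have h6 : HasFDerivAt (fun x : Eu 4 => x - stx_w k ε) (ContinuousLinearMap.id ℝ (Eu 4))
        (stx_w k ε) := (hasFDerivAt_id _).sub_const _
    have h7 : HasFDerivAt (fun x => stx_L k l t (x - stx_w k ε))
        (stx_L k l t ∘L ContinuousLinearMap.id ℝ (Eu 4)) (stx_w k ε) :=
      HasFDerivAt.comp (g := fun z : Eu 4 => stx_L k l t z) (f := fun x : Eu 4 => x - stx_w k ε)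
        (stx_w k ε) ((stx_L k l t).hasFDerivAt) h6
    exact h7.const_add v
  exact (h5.congr_of_eventuallyEq hv).fderiv

/-! ### The contraction -/

/-- The contraction of the loop. -/
def stx_H (k l : Fin 4) (u t : ℝ) : Eu 4 →L[ℝ] Eu 4 :=
  rotR k l ((1 - Real.smoothTransition (2 * u - 1)) * stx_b t) ∘L
    (stx_D k l (stx_s * (1 - Real.smoothTransition (2 * u))) ∘L
      (rotR k l ((1 - Real.smoothTransition (2 * u - 1)) * stx_a t) ∘L
        stx_D k l (-(stx_s * (1 - Real.smoothTransition (2 * u))))))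

theorem stx_contr {k l : Fin 4} (h : k ≠ l) : Contr (stx_L k l) (stx_H k l) := by
  have hv : ContDiff ℝ ∞ (fun q : ℝ × ℝ => 1 - Real.smoothTransition (2 * q.1)) := by
    refine contDiff_const.sub (Real.smoothTransition.contDiff.comp ?_)
    fun_prop
  have hw : ContDiff ℝ ∞ (fun q : ℝ × ℝ => 1 - Real.smoothTransition (2 * q.1 - 1)) := by
    refine contDiff_const.sub (Real.smoothTransition.contDiff.comp ?_)
    fun_prop
  refine ⟨?_, ?_, ?_, ?_, ?_, ?_⟩
  · unfold stx_H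
    have h1 : ContDiff ℝ ∞ (fun q : ℝ × ℝ =>
        rotR k l ((1 - Real.smoothTransition (2 * q.1 - 1)) * stx_b q.2)) :=
      (RotKA.smooth k l).comp (hw.mul (stx_b_smooth.comp contDiff_snd))
    have h2 : ContDiff ℝ ∞ (fun q : ℝ × ℝ =>
        rotR k l ((1 - Real.smoothTransition (2 * q.1 - 1)) * stx_a q.2)) :=
      (RotKA.smooth k l).comp (hw.mul (stx_a_smooth.comp contDiff_snd))
    have h3 : ContDiff ℝ ∞ (fun q : ℝ × ℝ =>
        stx_D k l (stx_s * (1 - Real.smoothTransition (2 * q.1)))) :=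
      (stx_D_smooth k l).comp (contDiff_const.mul hv)
    have h4 : ContDiff ℝ ∞ (fun q : ℝ × ℝ =>
        stx_D k l (-(stx_s * (1 - Real.smoothTransition (2 * q.1))))) :=
      (stx_D_smooth k l).comp (contDiff_const.mul hv).neg
    exact h1.clm_comp (h3.clm_comp (h2.clm_comp h4))
  · intro u t
    rw [stx_H, stx_det_comp, stx_det_comp, stx_det_comp, RotKA.det h, RotKA.det h, stx_D_det h,
      stx_D_det h]
    norm_num
  · intro u hu t
    rw [stx_H, Real.smoothTransition.zero_of_nonpos (by linarith),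
      Real.smoothTransition.zero_of_nonpos (by linarith), stx_L]
    simp only [sub_zero, one_mul, mul_one]
  · intro u hu t
    rw [stx_H, Real.smoothTransition.one_of_one_le (by linarith),
      Real.smoothTransition.one_of_one_le (by linarith)]
    simp only [sub_self, zero_mul, mul_zero, neg_zero]
    rw [stx_rot_zero, stx_D_zero]
    simp
  · intro u t ht
    rw [stx_H, stx_a_zero ht, stx_b_zero (by linarith), mul_zero, stx_rot_zero]
    ext1 x
    simp [stx_D_inv h]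
  · intro u t ht
    rw [stx_H, stx_a_pi (by linarith), stx_b_pi ht]
    ext1 x
    simp only [ContinuousLinearMap.comp_apply, ContinuousLinearMap.id_apply]
    rcases le_total u (1 / 2) with hu | hu
    · rw [Real.smoothTransition.zero_of_nonpos (show 2 * u - 1 ≤ 0 by linarith), sub_zero, one_mul,
        one_mul, stx_D_pi h]
      have h1 := RotKA.add h (-Real.pi) Real.pi
      rw [neg_add_cancel, stx_rot_zero] at h1
      exact (congrArg (fun L : Eu 4 →L[ℝ] Eu 4 => L x) h1).symm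
    · rw [Real.smoothTransition.one_of_one_le (show 1 ≤ 2 * u by linarith), sub_self, mul_zero,
        neg_zero, stx_D_zero]
      have h1 := RotKA.add h ((1 - Real.smoothTransition (2 * u - 1)) * -Real.pi)
        ((1 - Real.smoothTransition (2 * u - 1)) * Real.pi)
      rw [← mul_add, neg_add_cancel, mul_zero, stx_rot_zero] at h1
      exact (congrArg (fun L : Eu 4 →L[ℝ] Eu 4 => L x) h1).symm

theorem stx_exists_ne (k : Fin 4) : ∃ l : Fin 4, k ≠ l := ⟨k + 1, by fin_cases k <;> decide⟩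

/-- ST-X1: swap of two small balls. -/
theorem tiny_swap (k : Fin 4) : ∃ (F₀ : Eu 4 → Eu 4) (Φ₀ : ℝ → Eu 4 → Eu 4) (r : ℝ), 0 < r ∧
    CPath (ibox (fun _ => 0) (fun m => if m = k then 2 else 1)) F₀ Φ₀ ∧
    (∀ x, ‖x - ctr (fun _ => 0)‖ ≤ r → F₀ x = x + ev k) ∧
    (∀ x, ‖x - ctr (Pi.single k 1)‖ ≤ r → F₀ x = x - ev k) ∧
    (∀ c : Fin 4 → ℤ, ∃ H, Contr (fun t => fderiv ℝ (Φ₀ t) (ctr c)) H) := by
  obtain ⟨l, h⟩ := stx_exists_ne k
  have hL : stx_L k l 1 = ContinuousLinearMap.id ℝ (Eu 4) := by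
    have h1 := (stx_contr h).u0 0 le_rfl 1
    rw [← h1]
    exact (stx_contr h).t1 0 1 le_rfl
  have hmain : ∀ ε : ℝ, (ε = 1 ∨ ε = -1) → ∀ x, ‖x - stx_w k ε‖ ≤ 1 / 50 →
      stx_F k l 1 x = x - ε • ev k := by
    intro ε hε x hx
    have h1 := stx_F_near h (show (1 : ℝ) / 2 ≤ 1 by norm_num) hx ε hε
    rw [add_sub_cancel, hL] at h1
    rw [h1, ContinuousLinearMap.id_apply, stx_w, stx_w]
    module
  refine ⟨stx_F k l 1, stx_F k l, 1 / 50, by norm_num,
    ⟨stx_F_cf h, fun t ht x => stx_F_zero h ht x, fun t ht x => stx_F_one ht x⟩, ?_, ?_, ?_⟩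
  · intro x hx
    have h1 := hmain (-1) (Or.inr rfl) x (by rw [stx_w_p]; exact hx)
    rw [h1]
    module
  · intro x hx
    have h1 := hmain 1 (Or.inl rfl) x (by rw [stx_w_q]; exact hx)
    rw [h1, one_smul]
  · intro c
    by_cases hc : ctr c ∈ stx_U k
    · have h2 : ctr c = stx_w k 1 ∨ ctr c = stx_w k (-1) := by
        have h3 : ∀ m, m ≠ k → c m = 0 := by
          intro m hm
          have h4 := hc m
          simp only [ctr, hm, if_false, Int.cast_zero, Int.cast_one] at h4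
          have h5 : -1 < c m := by
            have : (-1 : ℝ) < c m := by linarith [h4.1]
            exact_mod_cast this
          have h6 : c m < 1 := by
            have : (c m : ℝ) < 1 := by linarith [h4.2]
            exact_mod_cast this
          omega
        have h7 : c k = 0 ∨ c k = 1 := by
          have h4 := hc k
          simp only [ctr, if_true, Int.cast_zero, Int.cast_ofNat] at h4
          have h5 : -1 < c k := by
            have : (-1 : ℝ) < c k := by linarith [h4.1]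
            exact_mod_cast this
          have h6 : c k < 2 := by
            have : (c k : ℝ) < 2 := by linarith [h4.2]
            exact_mod_cast this
          omega
        rcases h7 with h7 | h7
        · right
          rw [stx_w_p, stx_p]
          congr 1
          funext m
          by_cases hm : m = k
          · rw [hm, h7]
          · exact h3 m hm
        · left
          rw [stx_w_q, stx_q]
          congr 1
          funext m
          by_cases hm : m = k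
          · rw [hm, h7, Pi.single_eq_same]
          · rw [h3 m hm, Pi.single_eq_of_ne hm]
      refine ⟨stx_H k l, ?_⟩
      have h8 : (fun t => fderiv ℝ (stx_F k l t) (ctr c)) = stx_L k l := by
        funext t
        rcases h2 with h2 | h2
        · rw [h2]; exact stx_fderiv h t 1 (Or.inl rfl)
        · rw [h2]; exact stx_fderiv h t (-1) (Or.inr rfl)
      rw [h8]
      exact stx_contr h
    · obtain ⟨K, hK, hKU, hKx⟩ := (stx_F_cf h).supp
      have h1 : ∀ t, fderiv ℝ (stx_F k l t) (ctr c) = ContinuousLinearMap.id ℝ (Eu 4) := by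
        intro t
        have h2 : ∀ᶠ x in 𝓝 (ctr c), stx_F k l t x = x := by
          have h3 : Kᶜ ∈ 𝓝 (ctr c) := hK.isClosed.isOpen_compl.mem_nhds fun h4 => hc (hKU h4)
          filter_upwards [h3] with x hx
          exact hKx t x hx
        exact ((hasFDerivAt_id (𝕜 := ℝ) (ctr c)).congr_of_eventuallyEq h2).fderiv
      refine ⟨fun _ _ => ContinuousLinearMap.id ℝ (Eu 4), ?_⟩
      exact ⟨contDiff_const, fun _ _ => stx_det_id, fun _ _ t => (h1 t).symm, fun _ _ _ => rfl,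
        fun _ _ _ => rfl, fun _ _ _ => rfl⟩

end

end Pool.Agent.H23.ST
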